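import Mathlib
import Pool.Agent.Work.MP_345ef2_gt.Order3

/-!
# The charging rule for `n ≤ 24`

Classes of Lannér sets, the canonical Lannér set `LM Z` of a set `Z`, the charges of the sides of
quadrangles, and the two statements (D level, T level) that remain to be proved.
Parameters: corners at distance two pay `3/4`, the charges of the sides are multiples of `1/4`, and
an edge `T` gets `t8 (T \ r) b / 8` from each pair `(r, b)` in `R(T)`, where `t8` is `5` for nodes
of degree at least two, `9` for leaves, `19` for isolated nodes and `15` or `21` for leaves at an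
edge of label `5`.  Per node of a vertex this costs at most `c = 19/8`.
-/

namespace MP345

open Finset

variable {n : ℕ}

namespace CoxData

variable (D : CoxData n)

/-- the shape `[3,5,3]` -/
def Is353 (L : Finset D.ι) : Prop :=
  ∃ s q p r, L = {s, q, p, r} ∧ [s, q, p, r].Nodup ∧ D.Adj s q ∧ D.g q p = -c5 ∧ D.Adj p r ∧
    D.g s r = 0

/-- there is a node of degree at least three -/
def HasBranch (L : Finset D.ι) : Prop := ∃ w ∈ L, 3 ≤ (D.nb L w).card

open scoped Classical in
/-- the class of a Lannér set: 0 (order at most 3), 1 (order 4), 2 (`[3,5,3]`),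
3 (the fork `[5,3,3^{1,1}]`), 4 (the other ones of order 5) -/
noncomputable def cls (L : Finset D.ι) : ℕ :=
  if L.card ≤ 3 then 0
  else if L.card = 4 then (if D.Is353 L then 2 else 1)
  else if D.HasBranch L then 3 else 4

open scoped Classical in
/-- the key: class first, then an arbitrary enumeration of all sets -/
noncomputable def key (L : Finset D.ι) : ℕ :=
  D.cls L * Fintype.card (Finset D.ι) + (Fintype.equivFin (Finset D.ι) L : ℕ)

theorem key_inj {L L' : Finset D.ι} (h : D.key L = D.key L') : L = L' := by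
  classical
  unfold key at h
  have h1 := (Fintype.equivFin (Finset D.ι) L).2
  have h2 := (Fintype.equivFin (Finset D.ι) L').2
  have hN : 0 < Fintype.card (Finset D.ι) := Fintype.card_pos
  have e : ((Fintype.equivFin (Finset D.ι) L : ℕ)) = (Fintype.equivFin (Finset D.ι) L' : ℕ) := by
    have := congrArg (· % Fintype.card (Finset D.ι)) h
    simp only [Nat.mul_add_mod_self_right] at this
    rwa [Nat.mod_eq_of_lt h1, Nat.mod_eq_of_lt h2] at this
  exact (Fintype.equivFin (Finset D.ι)).injective (Fin.ext e)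

theorem cls_le_of_key_le {L L' : Finset D.ι} (h : D.key L ≤ D.key L') : D.cls L ≤ D.cls L' := by
  classical
  by_contra hlt
  push Not at hlt
  unfold key at h
  have h2 := (Fintype.equivFin (Finset D.ι) L').2
  have : (D.cls L' + 1) * Fintype.card (Finset D.ι) ≤ D.cls L * Fintype.card (Finset D.ι) :=
    Nat.mul_le_mul_right _ hlt
  rw [Nat.add_mul, one_mul] at this
  omega

theorem exists_LM (Z : Finset D.ι) (hZ : ¬ PD D.g Z) :
    ∃ L, (L ⊆ Z ∧ D.Lan L) ∧ ∀ L', L' ⊆ Z → D.Lan L' → D.key L ≤ D.key L' := by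
  classical
  obtain ⟨L0, h0, h0'⟩ := D.exists_lan Z hZ
  obtain ⟨L, hL, hmin⟩ := Finset.exists_min_image (Z.powerset.filter fun L => D.Lan L) D.key
    ⟨L0, by simp [h0, h0']⟩
  refine ⟨L, by simpa using hL, fun L' h1 h2 => hmin L' (by simp [h1, h2])⟩

open scoped Classical in
/-- the canonical Lannér subset of a non positive definite set -/
noncomputable def LM (Z : Finset D.ι) : Finset D.ι :=
  if hZ : PD D.g Z then ∅ else (D.exists_LM Z hZ).choose

variable {D}

theorem LM_sub {Z : Finset D.ι} (hZ : ¬ PD D.g Z) : D.LM Z ⊆ Z := by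
  classical
  unfold LM; rw [dif_neg hZ]; exact (D.exists_LM Z hZ).choose_spec.1.1

theorem LM_lan {Z : Finset D.ι} (hZ : ¬ PD D.g Z) : D.Lan (D.LM Z) := by
  classical
  unfold LM; rw [dif_neg hZ]; exact (D.exists_LM Z hZ).choose_spec.1.2

theorem LM_min {Z : Finset D.ι} (hZ : ¬ PD D.g Z) {L : Finset D.ι} (h : L ⊆ Z) (hL : D.Lan L) :
    D.key (D.LM Z) ≤ D.key L := by
  classical
  unfold LM; rw [dif_neg hZ]; exact (D.exists_LM Z hZ).choose_spec.2 L h hL

theorem LM_cls {Z : Finset D.ι} (hZ : ¬ PD D.g Z) {L : Finset D.ι} (h : L ⊆ Z) (hL : D.Lan L) :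
    D.cls (D.LM Z) ≤ D.cls L := D.cls_le_of_key_le (LM_min hZ h hL)

/-- the canonical Lannér set does not change in a smaller set that still contains it -/
theorem LM_eq {Z Z' : Finset D.ι} (hZ : ¬ PD D.g Z) (h : Z' ⊆ Z) (h' : D.LM Z ⊆ Z') :
    D.LM Z' = D.LM Z := by
  have hZ' : ¬ PD D.g Z' := fun hp => (LM_lan hZ).1 (hp.mono h')
  apply D.key_inj
  exact le_antisymm (LM_min hZ' h' (LM_lan hZ)) (LM_min hZ ((LM_sub hZ').trans h) (LM_lan hZ'))

variable (D)

/-- `x` lies in the canonical Lannér set of `T` or is adjacent to it -/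
def Near (T : Finset D.ι) (x : D.ι) : Prop := x ∈ D.LM T ∨ ∃ s ∈ D.LM T, D.Adj x s

open scoped Classical in
/-- the number of elements of `P` with a common neighbour with `x` in `T \ P` -/
noncomputable def cnt (T : Finset D.ι) (x : D.ι) (P : Finset D.ι) : ℕ :=
  (P.filter fun p => ∃ z ∈ T, z ∉ P ∧ D.Adj z x ∧ D.Adj z p).card

/-- the nodes through which paths from far nodes to the Lannér set may go -/
def Free (T P : Finset D.ι) (y : D.ι) : Prop :=
  y ∈ T ∧ y ∉ P ∧ y ∉ D.LM T ∧ ∀ p ∈ P, ¬ D.Adj y p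

/-- distance two from the canonical Lannér set -/
def Far2 (T : Finset D.ι) (x : D.ι) (P : Finset D.ι) : Prop :=
  ∃ y, D.Free T P y ∧ D.Adj x y ∧ ∃ s ∈ D.LM T, s ∉ P ∧ D.Adj y s

/-- distance two, the last node of the path is not adjacent to `P` -/
def Far2s (T : Finset D.ι) (x : D.ι) (P : Finset D.ι) : Prop :=
  ∃ y, D.Free T P y ∧ D.Adj x y ∧ ∃ s ∈ D.LM T, s ∉ P ∧ D.Adj y s ∧ ∀ p ∈ P, ¬ D.Adj s p

/-- distance three, the last node of the path is not adjacent to `P` -/
def Far3s (T : Finset D.ι) (x : D.ι) (P : Finset D.ι) : Prop :=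
  ∃ y y', D.Free T P y ∧ D.Free T P y' ∧ D.Adj x y ∧ D.Adj y y' ∧
    ∃ s ∈ D.LM T, s ∉ P ∧ D.Adj y' s ∧ ∀ p ∈ P, ¬ D.Adj s p

/-- distance two from the canonical Lannér set, with two different contact nodes -/
def Far2d (T : Finset D.ι) (x : D.ι) (P : Finset D.ι) : Prop :=
  ∃ y y' s s', D.Free T P y ∧ D.Free T P y' ∧ D.Adj x y ∧ D.Adj x y' ∧ s ≠ s' ∧
    s ∈ D.LM T ∧ s' ∈ D.LM T ∧ s ∉ P ∧ s' ∉ P ∧ D.Adj y s ∧ D.Adj y' s'

/-- the label of the pair `P` is 5 -/
def Five (P : Finset D.ι) : Prop := ∃ a ∈ P, ∃ b ∈ P, D.g a b = -c5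

open scoped Classical in
/-- four times the charge of a far side without corner at distance two -/
noncomputable def f4 (T : Finset D.ι) (x : D.ι) (P : Finset D.ι) : ℕ :=
  if D.cls (D.LM T) = 4 ∧ (D.Far2s T x P ∨ (D.Far3s T x P ∧ D.Five P)) then 4
  else if D.Far2 T x P then
    (if D.cls (D.LM T) = 4 then 3
     else if (D.cls (D.LM T) = 1 ∨ D.cls (D.LM T) = 2) ∧ D.Five P ∧ ¬ D.Far2d T x P then 1
     else 2)
  else 0

open scoped Classical in
/-- four times the charge of the side `(T, x, P)` -/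
noncomputable def w4 (T : Finset D.ι) (x : D.ι) (P : Finset D.ι) : ℕ :=
  if D.cnt T x P = 0 then (if D.Near T x then 4 else D.f4 T x P)
  else if D.cnt T x P = 1 then (if D.Near T x then 1 else min 1 (D.f4 T x P))
  else 0

open scoped Classical in
/-- the charge of the side `(T, x, P)` -/
noncomputable def chg (T : Finset D.ι) (x : D.ι) (P : Finset D.ι) : ℝ :=
  if P.card = 2 then (D.w4 T x P : ℝ) / 4 else 0

theorem cnt_le (T : Finset D.ι) (x : D.ι) (P : Finset D.ι) : D.cnt T x P ≤ P.card := by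
  classical
  unfold cnt
  exact Finset.card_filter_le _ _

theorem chg_nonneg (T : Finset D.ι) (x : D.ι) (P : Finset D.ι) : 0 ≤ D.chg T x P := by
  unfold chg
  split_ifs <;> positivity

open scoped Classical in
/-- the payment of a corner at distance two -/
noncomputable def cor (v P : Finset D.ι) : ℝ := if D.D2 v P then 3 / 4 else 0

/-- **D level.** -/
def StmtD : Prop :=
  ∀ (K : Finset D.ι) (i i' j j' : D.ι), D.Quad0 K i i' j j' →
    1 ≤ (D.cor (insert i (insert j K)) {i, j} + D.cor (insert i (insert j' K)) {i, j'} +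
        D.cor (insert i' (insert j K)) {i', j} + D.cor (insert i' (insert j' K)) {i', j'}) +
      (D.chg (insert i (insert j (insert j' K))) i {j, j'} +
        D.chg (insert i' (insert j (insert j' K))) i' {j, j'} +
        D.chg (insert j (insert i (insert i' K))) j {i, i'} +
        D.chg (insert j' (insert i (insert i' K))) j' {i, i'})

open scoped Classical in
/-- eight times the payment of the vertex `v` for the edge `v - b` -/
noncomputable def t8 (v : Finset D.ι) (b : D.ι) : ℕ :=
  if (D.nb v b).card = 0 then 19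
  else if (D.nb v b).card = 1 then
    (if ∃ c ∈ v, D.g b c = -c5 ∧ 2 ≤ (D.nb v c).card then 21
     else if ∃ c ∈ v, D.g b c = -c5 then 15
     else 9)
  else 5

open scoped Classical in
/-- the budget of `T` (times eight) -/
noncomputable def B8 (T : Finset D.ι) : ℕ :=
  ∑ r ∈ Rset D.g T, ∑ b ∈ (Rset D.g T).erase r, D.t8 (T.erase r) b

/-- **T level.** -/
def StmtT : Prop :=
  ∀ T ∈ Tsets D.g n, ∑ P ∈ (Rset D.g T).powersetCard 3, D.tri P +
      ∑ i ∈ T \ Rset D.g T, ∑ P ∈ freePairs D.g T i, D.chg T i P ≤ 1 / 8 * (D.B8 T : ℝ)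

end CoxData

end MP345
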