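import Mathlib
import Pool.Agent.Work.MP_345ef2_gt_24.DI

/-!
# D level: the reduction of a quadrangle without near side to a `Duo`
-/

namespace MP345

open Finset

variable {n : ℕ}

namespace CoxData

variable (D : CoxData n)

theorem cor_nonneg (v P : Finset D.ι) : 0 ≤ D.cor v P := by
  unfold cor; split_ifs <;> norm_num

theorem cor_of_common {K : Finset D.ι} {x y z : D.ι} (hz : z ∈ K) (hzx : D.Adj z x)
    (hzy : D.Adj z y) : D.cor (insert x (insert y K)) {x, y} = 3 / 4 := by
  unfold cor
  rw [if_pos]
  refine ⟨z, by simp [hz], ?_, ?_⟩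
  · simp only [Finset.mem_insert, Finset.mem_singleton, not_or]
    exact ⟨hzx.1, hzy.1⟩
  · intro p hp
    simp only [Finset.mem_insert, Finset.mem_singleton] at hp
    rcases hp with rfl | rfl <;> assumption

/-- the corners of a side pay for `cnt` -/
theorem cnt_cor {K : Finset D.ι} {x y y' : D.ι} (hy : y ≠ y') :
    3 / 4 * (D.cnt (insert x (insert y (insert y' K))) x {y, y'} : ℝ) ≤
      D.cor (insert x (insert y K)) {x, y} + D.cor (insert x (insert y' K)) {x, y'} := by
  classical
  set T := insert x (insert y (insert y' K)) with hT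
  have hK : ∀ z ∈ T, z ∉ ({y, y'} : Finset D.ι) → D.Adj z x → z ∈ K := by
    intro z hz hzP hzx
    simp only [Finset.mem_insert, Finset.mem_singleton, not_or] at hzP
    simp only [hT, Finset.mem_insert] at hz
    rcases hz with h1 | h1 | h1 | h1
    · exact absurd h1 hzx.1
    · exact absurd h1 hzP.1
    · exact absurd h1 hzP.2
    · exact h1
  have c1 : D.cnt T x {y, y'} ≤ (if (∃ z ∈ T, z ∉ ({y, y'} : Finset D.ι) ∧ D.Adj z x ∧ D.Adj z y)
      then 1 else 0) + (if (∃ z ∈ T, z ∉ ({y, y'} : Finset D.ι) ∧ D.Adj z x ∧ D.Adj z y')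
      then 1 else 0) := by
    unfold cnt
    rw [Finset.card_filter, Finset.sum_pair hy]
  have c2 : ∀ w, (w = y ∨ w = y') →
      3 / 4 * (((if (∃ z ∈ T, z ∉ ({y, y'} : Finset D.ι) ∧ D.Adj z x ∧ D.Adj z w)
        then 1 else 0 : ℕ)) : ℝ) ≤ D.cor (insert x (insert w K)) {x, w} := by
    intro w _
    by_cases hw : ∃ z ∈ T, z ∉ ({y, y'} : Finset D.ι) ∧ D.Adj z x ∧ D.Adj z w
    · obtain ⟨z, hz, hzP, hzx, hzw⟩ := hw
      rw [if_pos ⟨z, hz, hzP, hzx, hzw⟩, D.cor_of_common (hK z hz hzP hzx) hzx hzw]
      norm_num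
    · rw [if_neg hw]
      have := D.cor_nonneg (insert x (insert w K)) {x, w}
      push_cast; linarith
  have h1 := c2 y (Or.inl rfl)
  have h2 := c2 y' (Or.inr rfl)
  have c1' : (D.cnt T x {y, y'} : ℝ) ≤
      ((if (∃ z ∈ T, z ∉ ({y, y'} : Finset D.ι) ∧ D.Adj z x ∧ D.Adj z y)
      then 1 else 0 : ℕ) : ℝ) + ((if (∃ z ∈ T, z ∉ ({y, y'} : Finset D.ι) ∧ D.Adj z x ∧ D.Adj z y')
      then 1 else 0 : ℕ) : ℝ) := by exact_mod_cast c1
  linarith

theorem cnt_le_two {T : Finset D.ι} {x y y' : D.ι} (hy : y ≠ y') : D.cnt T x {y, y'} ≤ 2 := by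
  have := D.cnt_le T x {y, y'}
  rwa [Finset.card_pair hy] at this

theorem near_ok {K : Finset D.ι} {x y y' : D.ι} (hy : y ≠ y')
    (h : D.Near (insert x (insert y (insert y' K))) x) :
    1 ≤ D.cor (insert x (insert y K)) {x, y} + D.cor (insert x (insert y' K)) {x, y'} +
      D.chg (insert x (insert y (insert y' K))) x {y, y'} := by
  classical
  have hc : ({y, y'} : Finset D.ι).card = 2 := Finset.card_pair hy
  have key := D.cnt_cor (K := K) (x := x) hy
  have h2 := D.cnt_le_two (T := insert x (insert y (insert y' K))) (x := x) hy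
  have e : D.chg (insert x (insert y (insert y' K))) x {y, y'} =
      (D.w4 (insert x (insert y (insert y' K))) x {y, y'} : ℝ) / 4 := by
    unfold chg; rw [if_pos hc]
  rw [e]
  unfold w4
  set c := D.cnt (insert x (insert y (insert y' K))) x {y, y'} with hcdef
  rcases (by omega : c = 0 ∨ c = 1 ∨ c = 2) with h0 | h0 | h0
  · rw [if_pos h0, if_pos h]
    have n1 := D.cor_nonneg (insert x (insert y K)) {x, y}
    have n2 := D.cor_nonneg (insert x (insert y' K)) {x, y'}
    push_cast; linarith
  · rw [if_neg (by omega), if_pos h0, if_pos h]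
    rw [h0] at key
    push_cast at key ⊢; linarith
  · rw [if_neg (by omega), if_neg (by omega)]
    rw [h0] at key
    push_cast at key ⊢; linarith

/-- a far side with a corner at distance two -/
theorem far_ok {K : Finset D.ι} {x y y' : D.ι} (hy : y ≠ y')
    (hc1 : D.cnt (insert x (insert y (insert y' K))) x {y, y'} ≠ 0)
    (h : 1 ≤ D.f4 (insert x (insert y (insert y' K))) x {y, y'}) :
    1 ≤ D.cor (insert x (insert y K)) {x, y} + D.cor (insert x (insert y' K)) {x, y'} +
      D.chg (insert x (insert y (insert y' K))) x {y, y'} := by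
  classical
  have hc : ({y, y'} : Finset D.ι).card = 2 := Finset.card_pair hy
  have key := D.cnt_cor (K := K) (x := x) hy
  have h2 := D.cnt_le_two (T := insert x (insert y (insert y' K))) (x := x) hy
  have e : D.chg (insert x (insert y (insert y' K))) x {y, y'} =
      (D.w4 (insert x (insert y (insert y' K))) x {y, y'} : ℝ) / 4 := by
    unfold chg; rw [if_pos hc]
  rw [e]
  unfold w4
  set c := D.cnt (insert x (insert y (insert y' K))) x {y, y'} with hcdef
  rcases (by omega : c = 1 ∨ c = 2) with h0 | h0
  · rw [if_neg (by omega), if_pos h0]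
    rw [h0] at key
    have h3 : (1 : ℕ) ≤ (if D.Near (insert x (insert y (insert y' K))) x then 1
        else min 1 (D.f4 (insert x (insert y (insert y' K))) x {y, y'})) := by
      split_ifs
      · exact le_rfl
      · exact le_min le_rfl h
    have h4 : (1 : ℝ) ≤ ((if D.Near (insert x (insert y (insert y' K))) x then 1
        else min 1 (D.f4 (insert x (insert y (insert y' K))) x {y, y'}) : ℕ) : ℝ) := by
      exact_mod_cast h3
    push_cast at key h4 ⊢; linarith
  · rw [if_neg (by omega), if_neg (by omega)]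
    rw [h0] at key
    push_cast at key ⊢; linarith

/-- the charge of a far side without corner at distance two -/
theorem chg_far {T : Finset D.ι} {x y y' : D.ι} (hy : y ≠ y') (h0 : D.cnt T x {y, y'} = 0)
    (hn : ¬ D.Near T x) : D.chg T x {y, y'} = (D.f4 T x {y, y'} : ℝ) / 4 := by
  unfold chg w4
  rw [if_pos (Finset.card_pair hy), if_pos h0, if_neg hn]

/-- the data of a quadrangle without near side -/
structure NQ (K : Finset D.ι) (i i' j j' : D.ι) (L M : Finset D.ι) : Prop where
  duo : D.Duo j j' i i' L M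
  subL : L ⊆ insert j (insert j' K)
  subM : M ⊆ insert i (insert i' K)
  ei : D.LM (insert i (insert j (insert j' K))) = L
  ei' : D.LM (insert i' (insert j (insert j' K))) = L
  ej : D.LM (insert j (insert i (insert i' K))) = M
  ej' : D.LM (insert j' (insert i (insert i' K))) = M
  ni : ¬ D.Near (insert i (insert j (insert j' K))) i
  ni' : ¬ D.Near (insert i' (insert j (insert j' K))) i'
  nj : ¬ D.Near (insert j (insert i (insert i' K))) j
  nj' : ¬ D.Near (insert j' (insert i (insert i' K))) j'
  minL : ∀ A, A ⊆ insert j (insert j' K) → D.Lan A → D.cls L ≤ D.cls A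
  minM : ∀ A, A ⊆ insert i (insert i' K) → D.Lan A → D.cls M ≤ D.cls A

theorem nq_side {K : Finset D.ι} {x y y' : D.ι} (hn : ¬ PD D.g (insert y (insert y' K)))
    (h : ¬ D.Near (insert x (insert y (insert y' K))) x) :
    D.LM (insert x (insert y (insert y' K))) = D.LM (insert y (insert y' K)) ∧
    x ∉ D.LM (insert y (insert y' K)) ∧ ∀ s ∈ D.LM (insert y (insert y' K)), ¬ D.Adj x s := by
  have hT : ¬ PD D.g (insert x (insert y (insert y' K))) := fun hp =>
    hn (hp.mono (Finset.subset_insert _ _))
  have hx : x ∉ D.LM (insert x (insert y (insert y' K))) := fun hx => h (Or.inl hx)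
  have hs : D.LM (insert x (insert y (insert y' K))) ⊆ insert y (insert y' K) := by
    intro z hz
    rcases Finset.mem_insert.1 (LM_sub hT hz) with rfl | h1
    · exact absurd hz hx
    · exact h1
  have e := LM_eq hT (Finset.subset_insert _ _) hs
  rw [e]
  exact ⟨rfl, hx, fun s hs ha => h (Or.inr ⟨s, hs, ha⟩)⟩

theorem quad_cases {K : Finset D.ι} {i i' j j' : D.ι} (q : D.Quad0 K i i' j j') :
    (1 ≤ (D.cor (insert i (insert j K)) {i, j} + D.cor (insert i (insert j' K)) {i, j'} +
        D.cor (insert i' (insert j K)) {i', j} + D.cor (insert i' (insert j' K)) {i', j'}) +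
      (D.chg (insert i (insert j (insert j' K))) i {j, j'} +
        D.chg (insert i' (insert j (insert j' K))) i' {j, j'} +
        D.chg (insert j (insert i (insert i' K))) j {i, i'} +
        D.chg (insert j' (insert i (insert i' K))) j' {i, i'})) ∨
    ∃ L M, D.NQ K i i' j j' L M := by
  classical
  have n1 := D.cor_nonneg (insert i (insert j K)) {i, j}
  have n2 := D.cor_nonneg (insert i (insert j' K)) {i, j'}
  have n3 := D.cor_nonneg (insert i' (insert j K)) {i', j}
  have n4 := D.cor_nonneg (insert i' (insert j' K)) {i', j'}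
  have m1 := D.chg_nonneg (insert i (insert j (insert j' K))) i {j, j'}
  have m2 := D.chg_nonneg (insert i' (insert j (insert j' K))) i' {j, j'}
  have m3 := D.chg_nonneg (insert j (insert i (insert i' K))) j {i, i'}
  have m4 := D.chg_nonneg (insert j' (insert i (insert i' K))) j' {i, i'}
  by_cases a1 : D.Near (insert i (insert j (insert j' K))) i
  · left; have := D.near_ok q.jj a1; linarith
  by_cases a2 : D.Near (insert i' (insert j (insert j' K))) i'
  · left; have := D.near_ok q.jj a2; linarith
  by_cases a3 : D.Near (insert j (insert i (insert i' K))) j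
  · left; have := D.near_ok q.ii a3
    rw [Finset.insert_comm j i K, Finset.pair_comm j i, Finset.insert_comm j i' K,
      Finset.pair_comm j i'] at this
    linarith
  by_cases a4 : D.Near (insert j' (insert i (insert i' K))) j'
  · left; have := D.near_ok q.ii a4
    rw [Finset.insert_comm j' i K, Finset.pair_comm j' i, Finset.insert_comm j' i' K,
      Finset.pair_comm j' i'] at this
    linarith
  right
  obtain ⟨e1, x1, y1⟩ := D.nq_side q.njj a1
  obtain ⟨e2, x2, y2⟩ := D.nq_side q.njj a2
  obtain ⟨e3, x3, y3⟩ := D.nq_side q.nii a3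
  obtain ⟨e4, x4, y4⟩ := D.nq_side q.nii a4
  have sL := LM_sub q.njj
  have sM := LM_sub q.nii
  have lL := LM_lan q.njj
  have lM := LM_lan q.nii
  set L := D.LM (insert j (insert j' K)) with hL
  set M := D.LM (insert i (insert i' K)) with hM
  have p1 := q.lij.2.2.2
  have p2 := q.lij'.2.2.2
  have p3 := q.li'j.2.2.2
  have p4 := q.li'j'.2.2.2
  have jL : j ∈ L := by
    by_contra hj
    refine lL.1 (p2.mono ?_)
    intro z hz
    rcases Finset.mem_insert.1 (sL hz) with rfl | h1
    · exact absurd hz hj
    · exact Finset.mem_insert_of_mem h1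
  have jL' : j' ∈ L := by
    by_contra hj
    refine lL.1 (p1.mono ?_)
    intro z hz
    rcases Finset.mem_insert.1 (sL hz) with rfl | h1
    · simp
    · rcases Finset.mem_insert.1 h1 with rfl | h1
      · exact absurd hz hj
      · simp [h1]
  have iM : i ∈ M := by
    by_contra hj
    refine lM.1 (p3.mono ?_)
    intro z hz
    rcases Finset.mem_insert.1 (sM hz) with rfl | h1
    · exact absurd hz hj
    · rcases Finset.mem_insert.1 h1 with rfl | h1
      · simp
      · simp [h1]
  have iM' : i' ∈ M := by
    by_contra hj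
    refine lM.1 (p1.mono ?_)
    intro z hz
    rcases Finset.mem_insert.1 (sM hz) with rfl | h1
    · simp
    · rcases Finset.mem_insert.1 h1 with rfl | h1
      · exact absurd hz hj
      · simp [h1]
  have hpd : ∀ {x x' y y' : D.ι}, L ⊆ insert y (insert y' K) → M ⊆ insert x (insert x' K) →
      PD D.g (insert x' (insert y' K)) → PD D.g ((L.erase y) ∪ (M.erase x)) := by
    intro x x' y y' h1 h2 h3
    refine h3.mono fun z hz => ?_
    rcases Finset.mem_union.1 hz with hz | hz
    · obtain ⟨z1, z2⟩ := Finset.mem_erase.1 hz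
      rcases Finset.mem_insert.1 (h1 z2) with rfl | h
      · exact absurd rfl z1
      · exact Finset.mem_insert_of_mem h
    · obtain ⟨z1, z2⟩ := Finset.mem_erase.1 hz
      rcases Finset.mem_insert.1 (h2 z2) with rfl | h
      · exact absurd rfl z1
      · rcases Finset.mem_insert.1 h with rfl | h
        · simp
        · simp [h]
  have sL' : L ⊆ insert j' (insert j K) := by rw [Finset.insert_comm]; exact sL
  have sM' : M ⊆ insert i' (insert i K) := by rw [Finset.insert_comm]; exact sM
  exact ⟨L, M, ⟨lL, lM, q.jj, q.ii, jL, jL', iM, iM', x3, x4, x1, x2, y3, y4, y1, y2,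
    hpd sL sM p4, hpd sL sM' p2, hpd sL' sM p3, hpd sL' sM' p1⟩, sL, sM, e1, e2, e3, e4, a1, a2,
    a3, a4, fun A hA hl => LM_cls q.njj hA hl, fun A hA hl => LM_cls q.nii hA hl⟩

end CoxData

end MP345
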