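import Mathlib
import Pool.Agent.Work.MP_345ef2_gt_24.D_D0

/-!
# D level (n ≤ 24): assembly
-/

namespace MP345

open Finset

variable {n : ℕ}

namespace CoxData

variable (D : CoxData n)

/-- **Block CLSV**: classes of the types `[5,3,3,z]` and `(4,3,3,3,3)`. -/
def StmtCLSV : Prop :=
  (∀ L a b c d e z, 0 < z → D.Path5 a b c d e c5 (1 / 2) (1 / 2) z L → D.cls L = 4) ∧
  (∀ L a b c d e, D.Cyc5 a b c d e L → D.cls L = 4)

/-- the pair `P` of `L` is weak: a far node with a single contact node pays only `1/4` -/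
def Weak (P L : Finset D.ι) : Prop := (D.cls L = 1 ∨ D.cls L = 2) ∧ D.Five P

/-- `W2` with two different contact nodes of `L` -/
def W2d (x : D.ι) (L M : Finset D.ι) : Prop :=
  ∃ m ∈ M, ∃ m' ∈ M, m ∉ L ∧ m' ∉ L ∧ D.Adj x m ∧ D.Adj x m' ∧
    ∃ s ∈ L, ∃ s' ∈ L, s ≠ s' ∧ D.Adj m s ∧ D.Adj m' s'

variable {D} in
theorem W2d.w2 {x : D.ι} {L M : Finset D.ι} (h : D.W2d x L M) : D.W2 x L M := by
  obtain ⟨m, hm, -, -, hmL, -, hxm, -, s, hs, -, -, -, hms, -⟩ := h
  exact ⟨m, hm, hmL, hxm, s, hs, hms⟩

open scoped Classical in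
/-- lower bound for the payment (times four) of the side of `x` for the pair `P` of `L` -/
noncomputable def pay (x : D.ι) (P L M : Finset D.ι) : ℕ :=
  if D.W2 x L M then
    (if D.cls L = 4 then 3 else if D.Weak P L ∧ ¬ D.W2d x L M then 1 else 2)
  else 0

/-- minimality of the classes of `L` and `M` in `L ∪ M` -/
structure MinD (p p' q q' : D.ι) (L M : Finset D.ι) : Prop where
  minL : ∀ A, A ⊆ L ∪ M → q ∉ A → q' ∉ A → D.Lan A → D.cls L ≤ D.cls A
  minM : ∀ A, A ⊆ L ∪ M → p ∉ A → p' ∉ A → D.Lan A → D.cls M ≤ D.cls A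

variable {D} in
theorem MinD.swap {p p' q q' : D.ι} {L M : Finset D.ι} (h : D.MinD p p' q q' L M) :
    D.MinD q q' p p' M L :=
  ⟨fun A hA => h.minM A (by rwa [Finset.union_comm]),
    fun A hA => h.minL A (by rwa [Finset.union_comm])⟩

/-- **Block WTOUCH**: `L` weak, `L` and `M` touching. -/
def StmtWTOUCH : Prop := ∀ (p p' q q' : D.ι) (L M : Finset D.ι), D.Duo p p' q q' L M →
  D.MinD p p' q q' L M → D.Weak {p, p'} L → ¬ D.Remote p p' L M → ¬ D.Remote q q' M L →
  4 ≤ (D.pay q {p, p'} L M + D.pay q' {p, p'} L M) + (D.pay p {q, q'} M L + D.pay p' {q, q'} M L)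

/-- the D level follows from the bounds for the charges of the four sides -/
theorem stmtD_of_f4 (h : ∀ (K : Finset D.ι) (i i' j j' : D.ι) (L M : Finset D.ι),
    D.Quad0 K i i' j j' → D.NQ K i i' j j' L M →
    4 ≤ (D.f4 (insert i (insert j (insert j' K))) i {j, j'} +
        D.f4 (insert i' (insert j (insert j' K))) i' {j, j'}) +
      (D.f4 (insert j (insert i (insert i' K))) j {i, i'} +
        D.f4 (insert j' (insert i (insert i' K))) j' {i, i'})) : D.StmtD := by
  intro K i i' j j' q
  rcases D.quad_cases q with h0 | ⟨L, M, nq⟩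
  · exact h0
  have h4 := h K i i' j j' L M q nq
  have n1 := D.cor_nonneg (insert i (insert j K)) {i, j}
  have n2 := D.cor_nonneg (insert i (insert j' K)) {i, j'}
  have n3 := D.cor_nonneg (insert i' (insert j K)) {i', j}
  have n4 := D.cor_nonneg (insert i' (insert j' K)) {i', j'}
  have m1 := D.chg_nonneg (insert i (insert j (insert j' K))) i {j, j'}
  have m2 := D.chg_nonneg (insert i' (insert j (insert j' K))) i' {j, j'}
  have m3 := D.chg_nonneg (insert j (insert i (insert i' K))) j {i, i'}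
  have m4 := D.chg_nonneg (insert j' (insert i (insert i' K))) j' {i, i'}
  have key : ∀ {x y y' : D.ι}, y ≠ y' → ¬ D.Near (insert x (insert y (insert y' K))) x →
      (1 ≤ D.cor (insert x (insert y K)) {x, y} + D.cor (insert x (insert y' K)) {x, y'} +
        D.chg (insert x (insert y (insert y' K))) x {y, y'}) ∨
      (D.f4 (insert x (insert y (insert y' K))) x {y, y'} : ℝ) / 4 ≤
        D.chg (insert x (insert y (insert y' K))) x {y, y'} := by
    intro x y y' hy hn
    by_cases hc : D.cnt (insert x (insert y (insert y' K))) x {y, y'} = 0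
    · exact Or.inr (D.chg_far hy hc hn).ge
    · by_cases hf : 1 ≤ D.f4 (insert x (insert y (insert y' K))) x {y, y'}
      · exact Or.inl (D.far_ok hy hc hf)
      · refine Or.inr ?_
        have h0 : D.f4 (insert x (insert y (insert y' K))) x {y, y'} = 0 := by omega
        rw [h0]
        simpa using D.chg_nonneg (insert x (insert y (insert y' K))) x {y, y'}
  rcases key nq.duo.pp nq.ni with k1 | k1
  · linarith
  rcases key nq.duo.pp nq.ni' with k2 | k2
  · linarith
  rcases key nq.duo.qq nq.nj with k3 | k3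
  · rw [Finset.insert_comm j i K, Finset.pair_comm j i, Finset.insert_comm j i' K,
      Finset.pair_comm j i'] at k3
    linarith
  rcases key nq.duo.qq nq.nj' with k4 | k4
  · rw [Finset.insert_comm j' i K, Finset.pair_comm j' i, Finset.insert_comm j' i' K,
      Finset.pair_comm j' i'] at k4
    linarith
  have h5 : (4 : ℝ) ≤ (((D.f4 (insert i (insert j (insert j' K))) i {j, j'} +
        D.f4 (insert i' (insert j (insert j' K))) i' {j, j'}) +
      (D.f4 (insert j (insert i (insert i' K))) j {i, i'} +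
        D.f4 (insert j' (insert i (insert i' K))) j' {i, i'}) : ℕ) : ℝ) := by exact_mod_cast h4
  push_cast at h5
  linarith

/-- the payment of a side with `W2` -/
theorem pay_le {K : Finset D.ι} {x x' p p' : D.ι} {L M : Finset D.ι}
    (hpM : p ∉ M) (hpM' : p' ∉ M)
    (subM : M ⊆ insert x (insert x' K)) (hxL' : ∀ s ∈ L, ¬ D.Adj x' s)
    (nP : ∀ t ∈ M, ¬ D.Adj p t) (nP' : ∀ t ∈ M, ¬ D.Adj p' t)
    (e : D.LM (insert x (insert p (insert p' K))) = L) :
    D.pay x {p, p'} L M ≤ D.f4 (insert x (insert p (insert p' K))) x {p, p'} := by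
  classical
  have fr : ∀ m ∈ M, m ∉ L → D.Adj x m → (∃ s ∈ L, D.Adj m s) →
      D.Free (insert x (insert p (insert p' K))) {p, p'} m := by
    rintro m hm hmL hxm ⟨s, hs, hms⟩
    have hmK : m ∈ K := by
      rcases Finset.mem_insert.1 (subM hm) with h1 | h1
      · exact absurd h1.symm hxm.1
      · rcases Finset.mem_insert.1 h1 with h1 | h1
        · exact absurd (h1 ▸ hms) (hxL' s hs)
        · exact h1
    refine ⟨by simp [hmK], ?_, by rw [e]; exact hmL, ?_⟩
    · simp only [Finset.mem_insert, Finset.mem_singleton, not_or]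
      exact ⟨fun h => hpM (h ▸ hm), fun h => hpM' (h ▸ hm)⟩
    · intro r hr
      simp only [Finset.mem_insert, Finset.mem_singleton] at hr
      rcases hr with rfl | rfl
      · exact fun h => nP m hm (h.symm D)
      · exact fun h => nP' m hm (h.symm D)
  have sP : ∀ m ∈ M, ∀ s, D.Adj m s → s ∉ ({p, p'} : Finset D.ι) := by
    intro m hm s hms
    simp only [Finset.mem_insert, Finset.mem_singleton, not_or]
    constructor
    · rintro rfl; exact nP m hm (hms.symm D)
    · rintro rfl; exact nP' m hm (hms.symm D)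
  by_cases h2 : D.W2 x L M
  swap
  · unfold pay; rw [if_neg h2]; exact Nat.zero_le _
  have hF : D.Far2 (insert x (insert p (insert p' K))) x {p, p'} := by
    obtain ⟨m, hm, hmL, hxm, s, hs, hms⟩ := h2
    exact ⟨m, fr m hm hmL hxm ⟨s, hs, hms⟩, hxm, s, by rw [e]; exact hs, sP m hm s hms, hms⟩
  have hkey : ((D.cls L = 1 ∨ D.cls L = 2) ∧ D.Five {p, p'} ∧
      ¬ D.Far2d (insert x (insert p (insert p' K))) x {p, p'}) →
      D.Weak {p, p'} L ∧ ¬ D.W2d x L M := by
    intro hw
    refine ⟨⟨hw.1, hw.2.1⟩, ?_⟩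
    rintro ⟨m, hm, m', hm', hmL, hmL', hxm, hxm', s, hs, s', hs', hss, hms, hms'⟩
    exact hw.2.2 ⟨m, m', s, s', fr m hm hmL hxm ⟨s, hs, hms⟩,
      fr m' hm' hmL' hxm' ⟨s', hs', hms'⟩, hxm, hxm', hss, by rw [e]; exact hs,
      by rw [e]; exact hs', sP m hm s hms, sP m' hm' s' hms', hms, hms'⟩
  unfold pay f4
  rw [if_pos h2, if_pos hF, e]
  split_ifs with a1 a2 a3 a4 a5 a6 a7 <;> first | omega | (exfalso; tauto)

/-- a side with `W2`, `L` remote and of class 4 -/
theorem side_s2 {K : Finset D.ι} {x x' p p' : D.ι} {L M : Finset D.ι}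
    (hpM : p ∉ M) (hpM' : p' ∉ M)
    (subM : M ⊆ insert x (insert x' K)) (hxL' : ∀ s ∈ L, ¬ D.Adj x' s)
    (nP : ∀ t ∈ M, ¬ D.Adj p t) (nP' : ∀ t ∈ M, ¬ D.Adj p' t)
    (e : D.LM (insert x (insert p (insert p' K))) = L) (hcls : D.cls L = 4)
    (hrem : D.Remote p p' L M)
    (h : D.W2 x L M) : 4 ≤ D.f4 (insert x (insert p (insert p' K))) x {p, p'} := by
  unfold f4
  refine (if_pos (?_ : _ ∧ (_ ∨ _))).ge
  refine ⟨by rw [e]; exact hcls, Or.inl ?_⟩
  obtain ⟨m, hm, hmL, hxm, s, hs, hms⟩ := h
  have hmK : m ∈ K := by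
    rcases Finset.mem_insert.1 (subM hm) with h1 | h1
    · exact absurd h1.symm hxm.1
    · rcases Finset.mem_insert.1 h1 with h1 | h1
      · exact absurd (h1 ▸ hms) (hxL' s hs)
      · exact h1
  have hsP : ¬ D.Adj s p ∧ ¬ D.Adj s p' := by
    by_cases hsM : s ∈ M
    · exact ⟨fun h => nP s hsM (h.symm D), fun h => nP' s hsM (h.symm D)⟩
    · exact hrem s hs hsM ⟨m, hm, hms.symm D⟩
  refine ⟨m, ⟨by simp [hmK], ?_, by rw [e]; exact hmL, ?_⟩, hxm, s, by rw [e]; exact hs, ?_, hms, ?_⟩
  · simp only [Finset.mem_insert, Finset.mem_singleton, not_or]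
    exact ⟨fun h => hpM (h ▸ hm), fun h => hpM' (h ▸ hm)⟩
  · intro r hr
    simp only [Finset.mem_insert, Finset.mem_singleton] at hr
    rcases hr with rfl | rfl
    · exact fun h => nP m hm (h.symm D)
    · exact fun h => nP' m hm (h.symm D)
  · simp only [Finset.mem_insert, Finset.mem_singleton, not_or]
    constructor
    · rintro rfl; exact nP m hm (hms.symm D)
    · rintro rfl; exact nP' m hm (hms.symm D)
  · intro r hr
    simp only [Finset.mem_insert, Finset.mem_singleton] at hr
    rcases hr with rfl | rfl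
    · exact hsP.1
    · exact hsP.2

/-- a side with `F3` -/
theorem side_f3 {K : Finset D.ι} {x x' p p' : D.ι} {L M : Finset D.ι}
    (hpM : p ∉ M) (hpM' : p' ∉ M)
    (subM : M ⊆ insert x (insert x' K)) (hxL : ∀ s ∈ L, ¬ D.Adj x s)
    (hxL' : ∀ s ∈ L, ¬ D.Adj x' s)
    (nP : ∀ t ∈ M, ¬ D.Adj p t) (nP' : ∀ t ∈ M, ¬ D.Adj p' t)
    (e : D.LM (insert x (insert p (insert p' K))) = L) (hcls : D.cls L = 4)
    (hfive : D.Five {p, p'})
    (h : D.F3 x x' p p' L M) : 4 ≤ D.f4 (insert x (insert p (insert p' K))) x {p, p'} := by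
  unfold f4
  refine (if_pos (?_ : _ ∧ (_ ∨ _))).ge
  refine ⟨by rw [e]; exact hcls, Or.inr ⟨?_, hfive⟩⟩
  obtain ⟨m, hm, m', hm', hmL, hmL', hmx, hmx', hxm, hmm, s, hs, hms, hsp, hsp'⟩ := h
  have hmK : m ∈ K := by
    rcases Finset.mem_insert.1 (subM hm) with h1 | h1
    · exact absurd h1 hmx
    · rcases Finset.mem_insert.1 h1 with h1 | h1
      · exact absurd h1 hmx'
      · exact h1
  have hmK' : m' ∈ K := by
    rcases Finset.mem_insert.1 (subM hm') with h1 | h1
    · exact absurd (h1 ▸ hms) (hxL s hs)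
    · rcases Finset.mem_insert.1 h1 with h1 | h1
      · exact absurd (h1 ▸ hms) (hxL' s hs)
      · exact h1
  have hfree : ∀ m ∈ M, m ∈ K → m ∉ L →
      D.Free (insert x (insert p (insert p' K))) {p, p'} m := by
    intro m hm hmK hmL
    refine ⟨by simp [hmK], ?_, by rw [e]; exact hmL, ?_⟩
    · simp only [Finset.mem_insert, Finset.mem_singleton, not_or]
      exact ⟨fun h => hpM (h ▸ hm), fun h => hpM' (h ▸ hm)⟩
    · intro r hr
      simp only [Finset.mem_insert, Finset.mem_singleton] at hr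
      rcases hr with rfl | rfl
      · exact fun h => nP m hm (h.symm D)
      · exact fun h => nP' m hm (h.symm D)
  refine ⟨m, m', hfree m hm hmK hmL, hfree m' hm' hmK' hmL', hxm, hmm, s, by rw [e]; exact hs, ?_,
    hms, ?_⟩
  · simp only [Finset.mem_insert, Finset.mem_singleton, not_or]
    constructor
    · rintro rfl; exact nP m' hm' (hms.symm D)
    · rintro rfl; exact nP' m' hm' (hms.symm D)
  · intro r hr
    simp only [Finset.mem_insert, Finset.mem_singleton] at hr
    rcases hr with rfl | rfl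
    · exact hsp
    · exact hsp'

theorem w2_of_not_remote {p p' : D.ι} {L M : Finset D.ι} (h : ¬ D.Remote p p' L M) :
    D.W2 p M L ∨ D.W2 p' M L := by
  unfold Remote at h
  push Not at h
  obtain ⟨s, hs, hsM, hc, h⟩ := h
  by_cases h1 : D.Adj s p
  · exact Or.inl ⟨s, hs, hsM, h1.symm D, hc⟩
  · exact Or.inr ⟨s, hs, hsM, (h h1).symm D, hc⟩

/-- all remote pairs -/
theorem rt_of (hcls : D.StmtCLS) (hB : D.StmtREMB) (h4 : D.StmtREM4) (hF : D.StmtREMF)
    (hP : D.StmtREMP) (hC : D.StmtREMC) {p p' q q' : D.ι} {L M : Finset D.ι}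
    (d : D.Duo p p' q q' L M) (hr : D.Remote p p' L M) : D.RT p p' L M := by
  by_cases hd : Disjoint L M
  · have h5 := h4 p p' q q' L M d hr hd
    have c4 : ∀ {a b c e : D.ι}, L = {a, b, c, e} → False := by
      intro a b c e h
      have := Finset.card_le_four (a := a) (b := b) (c := c) (d := e)
      rw [← h] at this; omega
    rcases hcls L d.lanL with h | ⟨a, b, c, e, h⟩ | ⟨a, b, c, e, h⟩ | ⟨a, b, c, e, h⟩ |
      ⟨a, b, c, e, h⟩ | ⟨a, b, c, e, h⟩ | ⟨a, b, c, e, f, h⟩ | ⟨a, b, c, e, f, z, hz, h⟩ |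
      ⟨a, b, c, e, f, h⟩
    · omega
    · exact absurd h.eq (fun h => c4 h)
    · exact absurd h.eq (fun h => c4 h)
    · exact absurd h.eq (fun h => c4 h)
    · exact absurd h.eq (fun h => c4 h)
    · exact absurd h.eq (fun h => c4 h)
    · exact hF p p' q q' L M d hr hd a b c e f h
    · exact hP p p' q q' L M d hr hd a b c e f z hz h
    · exact hC p p' q q' L M d hr hd a b c e f h
  · exact hB p p' q q' L M d hr hd

/-- classes of the forks -/
def StmtCLSF : Prop := ∀ L u v w p q, D.Fork u v w p q L → D.cls L = 3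

theorem stmtD_of (hcls : D.StmtCLS) (hB : D.StmtREMB) (h4 : D.StmtREM4) (hF : D.StmtREMF)
    (hP : D.StmtREMP) (hC : D.StmtREMC) (hV : D.StmtCLSV) (hVF : D.StmtCLSF) (hT : D.StmtFTOUCH)
    (hBoth : D.StmtBOTH) (hW : D.StmtWTOUCH) : D.StmtD := by
  refine D.stmtD_of_f4 ?_
  intro K i i' j j' L M q nq
  have d := nq.duo
  have subM' : M ⊆ insert i' (insert i K) := by rw [Finset.insert_comm]; exact nq.subM
  have subL' : L ⊆ insert j' (insert j K) := by rw [Finset.insert_comm]; exact nq.subL
  -- payments of the four sides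
  have wi := D.pay_le d.pM d.pM' nq.subM d.nQ' d.nP d.nP' nq.ei
  have wi' := D.pay_le d.pM d.pM' subM' d.nQ d.nP d.nP' nq.ei'
  have wj := D.pay_le d.qL d.qL' nq.subL d.nP' d.nQ d.nQ' nq.ej
  have wj' := D.pay_le d.qL d.qL' subL' d.nP d.nQ d.nQ' nq.ej'
  have min : D.MinD j j' i i' L M := by
    constructor
    · intro A hA hi hi' hl
      refine nq.minL A ?_ hl
      intro z hz
      rcases Finset.mem_union.1 (hA hz) with h | h
      · exact nq.subL h
      · rcases Finset.mem_insert.1 (nq.subM h) with rfl | h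
        · exact absurd hz hi
        · rcases Finset.mem_insert.1 h with rfl | h
          · exact absurd hz hi'
          · simp [h]
    · intro A hA hi hi' hl
      refine nq.minM A ?_ hl
      intro z hz
      rcases Finset.mem_union.1 (hA hz) with h | h
      · rcases Finset.mem_insert.1 (nq.subL h) with rfl | h
        · exact absurd hz hi
        · rcases Finset.mem_insert.1 h with rfl | h
          · exact absurd hz hi'
          · simp [h]
      · exact nq.subM h
  -- not weak
  have strong : ∀ {x : D.ι} {P L M : Finset D.ι}, ¬ D.Weak P L → D.W2 x L M →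
      2 ≤ D.pay x P L M := by
    intro x P L M hs h2
    unfold pay
    rw [if_pos h2]
    split_ifs with h h'
    · omega
    · exact absurd h'.1 hs
    · omega
  -- one remote, the other one not
  have one : D.Remote j j' L M → ¬ D.Remote i i' M L →
      4 ≤ D.f4 (insert i (insert j (insert j' K))) i {j, j'} +
        D.f4 (insert i' (insert j (insert j' K))) i' {j, j'} := by
    intro hr hnr
    have hw := D.w2_of_not_remote hnr
    have rt := D.rt_of hcls hB h4 hF hP hC d hr
    have c4 : D.cls L = 4 → 4 ≤ D.f4 (insert i (insert j (insert j' K))) i {j, j'} +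
        D.f4 (insert i' (insert j (insert j' K))) i' {j, j'} := by
      intro hc
      rcases hw with hw | hw
      · have := D.side_s2 d.pM d.pM' nq.subM d.nQ' d.nP d.nP' nq.ei hc hr hw
        omega
      · have := D.side_s2 d.pM d.pM' subM' d.nQ d.nP d.nP' nq.ei' hc hr hw
        omega
    rcases rt with ⟨u, v, w, a, b, h, hP', hdis, hc⟩ | ⟨a, b, c, e, f, h, -, -, -⟩ |
      ⟨a, b, c, e, f, h, -, -, -⟩ | ⟨a, b, c, e, f, h, -, -, -, -⟩ | ⟨a, b, c, e, f, h, -, -, -⟩ |
      ⟨a, b, c, e, f, h, -, -, -, -⟩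
    · have hs : ¬ D.Weak {j, j'} L := by
        have := hVF L u v w a b h
        rintro ⟨h1 | h1, -⟩ <;> omega
      rcases hw with hw | hw
      · have hw' := hT j j' i i' L M d u v w a b h hP' hdis hc hw
        have h1 := strong hs hw; have h2 := strong hs hw'
        omega
      · have hw' := hT j j' i' i L M (Duo.flipQ D d) u v w a b h hP' hdis hc hw
        have h1 := strong hs hw; have h2 := strong hs hw'
        omega
    · exact c4 (hV.1 L a b c e f _ (by norm_num) h)
    · exact c4 (hV.1 L a b c e f _ (by norm_num) h)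
    · exact c4 (hV.1 L a b c e f _ (by norm_num) h)
    · exact c4 (hV.2 L a b c e f h)
    · exact c4 (hV.1 L a b c e f _ (by norm_num) h)
  have one' : D.Remote i i' M L → ¬ D.Remote j j' L M →
      4 ≤ D.f4 (insert j (insert i (insert i' K))) j {i, i'} +
        D.f4 (insert j' (insert i (insert i' K))) j' {i, i'} := by
    intro hr hnr
    have d' := Duo.swap D d
    have hw := D.w2_of_not_remote hnr
    have rt := D.rt_of hcls hB h4 hF hP hC d' hr
    have c4 : D.cls M = 4 → 4 ≤ D.f4 (insert j (insert i (insert i' K))) j {i, i'} +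
        D.f4 (insert j' (insert i (insert i' K))) j' {i, i'} := by
      intro hc
      rcases hw with hw | hw
      · have := D.side_s2 d'.pM d'.pM' nq.subL d'.nQ' d'.nP d'.nP' nq.ej hc hr hw
        omega
      · have := D.side_s2 d'.pM d'.pM' subL' d'.nQ d'.nP d'.nP' nq.ej' hc hr hw
        omega
    rcases rt with ⟨u, v, w, a, b, h, hP', hdis, hc⟩ | ⟨a, b, c, e, f, h, -, -, -⟩ |
      ⟨a, b, c, e, f, h, -, -, -⟩ | ⟨a, b, c, e, f, h, -, -, -, -⟩ | ⟨a, b, c, e, f, h, -, -, -⟩ |
      ⟨a, b, c, e, f, h, -, -, -, -⟩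
    · have hs : ¬ D.Weak {i, i'} M := by
        have := hVF M u v w a b h
        rintro ⟨h1 | h1, -⟩ <;> omega
      rcases hw with hw | hw
      · have hw' := hT i i' j j' M L d' u v w a b h hP' hdis hc hw
        have h1 := strong hs hw; have h2 := strong hs hw'
        omega
      · have hw' := hT i i' j' j M L (Duo.flipQ D d') u v w a b h hP' hdis hc hw
        have h1 := strong hs hw; have h2 := strong hs hw'
        omega
    · exact c4 (hV.1 M a b c e f _ (by norm_num) h)
    · exact c4 (hV.1 M a b c e f _ (by norm_num) h)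
    · exact c4 (hV.1 M a b c e f _ (by norm_num) h)
    · exact c4 (hV.2 M a b c e f h)
    · exact c4 (hV.1 M a b c e f _ (by norm_num) h)
  by_cases rL : D.Remote j j' L M
  · by_cases rM : D.Remote i i' M L
    · have rtL := D.rt_of hcls hB h4 hF hP hC d rL
      have rtM := D.rt_of hcls hB h4 hF hP hC (Duo.swap D d) rM
      rcases hBoth j j' i i' L M d rL rM rtL rtM with ⟨hc, h5, hf | hf⟩ | ⟨hc, h5, hf | hf⟩
      · have := D.side_f3 d.pM d.pM' nq.subM d.nQ d.nQ' d.nP d.nP' nq.ei hc h5 hf
        omega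
      · have := D.side_f3 d.pM d.pM' subM' d.nQ' d.nQ d.nP d.nP' nq.ei' hc h5 hf
        omega
      · have := D.side_f3 d.qL d.qL' nq.subL d.nP d.nP' d.nQ d.nQ' nq.ej hc h5 hf
        omega
      · have := D.side_f3 d.qL d.qL' subL' d.nP' d.nP d.nQ d.nQ' nq.ej' hc h5 hf
        omega
    · have := one rL rM; omega
  · by_cases rM : D.Remote i i' M L
    · have := one' rM rL; omega
    · by_cases wL : D.Weak {j, j'} L
      · have := hW j j' i i' L M d min wL rL rM
        omega
      · by_cases wM : D.Weak {i, i'} M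
        · have := hW i i' j j' M L (Duo.swap D d) min.swap wM rM rL
          omega
        · have h1 : 2 ≤ D.pay i {j, j'} L M + D.pay i' {j, j'} L M := by
            rcases D.w2_of_not_remote rM with h | h
            · have := strong wL h; omega
            · have := strong wL h; omega
          have h2 : 2 ≤ D.pay j {i, i'} M L + D.pay j' {i, i'} M L := by
            rcases D.w2_of_not_remote rL with h | h
            · have := strong wM h; omega
            · have := strong wM h; omega
          omega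

end CoxData

end MP345
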