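import Mathlib
import Pool.Agent.Work.MP_345ef2_gt_24.DI
import Pool.Agent.Work.MP_345ef2_gt_24.D_Main
import Pool.Agent.Work.MP_345ef2_gt_24.LAdj
import Pool.Agent.Work.MP_345ef2_gt_helper54.Vec

/-!
# Lannér sets are connected, contacts exist, classes (LCON, CON, CLSV)
-/

namespace MP345

open Finset

variable {n : ℕ}

namespace CoxData

variable (D : CoxData n)

theorem bf_zero_of {A B : Finset D.ι} {c d : D.ι → ℝ} (hc : ∀ i, i ∉ A → c i = 0)
    (hd : ∀ i, i ∉ B → d i = 0) (h : ∀ i ∈ A, ∀ j ∈ B, D.g i j = 0) : bf D.g c d = 0 := by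
  unfold bf
  refine Finset.sum_eq_zero fun i _ => Finset.sum_eq_zero fun j _ => ?_
  by_cases hi : i ∈ A
  · by_cases hj : j ∈ B
    · rw [h i hi j hj, mul_zero]
    · rw [hd j hj]; ring
  · rw [hc i hi]; ring

theorem pd_union_of {A B : Finset D.ι} (hA : PD D.g A) (hB : PD D.g B)
    (h : ∀ i ∈ A, ∀ j ∈ B, D.g i j = 0) (hd : Disjoint A B) : PD D.g (A ∪ B) := by
  classical
  intro c hc hc0
  set a : D.ι → ℝ := fun i => if i ∈ A then c i else 0 with ha
  set b : D.ι → ℝ := fun i => if i ∈ B then c i else 0 with hb
  have ha0 : ∀ i, i ∉ A → a i = 0 := fun i hi => by simp [ha, hi]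
  have hb0 : ∀ i, i ∉ B → b i = 0 := fun i hi => by simp [hb, hi]
  have hcab : c = a + b := by
    funext i
    simp only [ha, hb, Pi.add_apply]
    by_cases h1 : i ∈ A
    · have h2 : i ∉ B := Finset.disjoint_left.1 hd h1
      simp [h1, h2]
    · by_cases h2 : i ∈ B
      · simp [h1, h2]
      · simp [h1, h2, hc i (by simp [h1, h2])]
  have hab : bf D.g a b = 0 := D.bf_zero_of ha0 hb0 h
  have hq : qf D.g c = qf D.g a + qf D.g b := by
    rw [hcab]
    unfold qf
    rw [D.bf_add_left, D.bf_comm a, D.bf_add_left, D.bf_comm b (a + b), D.bf_add_left, hab,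
      D.bf_comm b a, hab]
    ring
  have na : 0 ≤ qf D.g a := by
    by_cases h0 : a = 0
    · rw [h0]; unfold qf bf; simp
    · exact (hA a ha0 h0).le
  have nb : 0 ≤ qf D.g b := by
    by_cases h0 : b = 0
    · rw [h0]; unfold qf bf; simp
    · exact (hB b hb0 h0).le
  rw [hq]
  by_cases h0 : a = 0
  · have h1 : b ≠ 0 := by
      intro hb00
      rw [h0, hb00] at hcab
      exact hc0 (by rw [hcab]; simp)
    have := hB b hb0 h1; linarith
  · have := hA a ha0 h0; linarith

theorem stmtLCON : D.StmtLCON := by
  classical
  intro L A hL hA hne hAL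
  by_contra hcon
  push Not at hcon
  obtain ⟨x, hxL, hxA⟩ := Finset.exists_of_ssubset (Finset.ssubset_iff_subset_ne.2 ⟨hA, hAL⟩)
  have h1 : PD D.g A := hL.pd_of_ssubset hA hAL
  have h2 : PD D.g (L \ A) := hL.pd_of_ssubset Finset.sdiff_subset (by
    intro e
    obtain ⟨y, hy⟩ := hne
    have : y ∈ L \ A := by rw [e]; exact hA hy
    exact (Finset.mem_sdiff.1 this).2 hy)
  have h3 := D.pd_union_of h1 h2 (fun i hi j hj => by
    obtain ⟨hj1, hj2⟩ := Finset.mem_sdiff.1 hj
    exact D.g_eq_zero (fun e => hj2 (by rw [← e]; exact hi)) (hcon i hi j hj1 hj2))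
    Finset.disjoint_sdiff
  rw [Finset.union_sdiff_of_subset hA] at h3
  exact hL.1 h3

theorem Lan.neg {L : Finset D.ι} (hL : D.Lan L) :
    ∃ c : D.ι → ℝ, (∀ i, i ∉ L → c i = 0) ∧ qf D.g c < 0 := by
  classical
  obtain ⟨c, h1, h2, h3⟩ := hL.exists_sub
  refine ⟨c, h2, ?_⟩
  rw [D.qf_eq, ← Finset.sum_subset (Finset.subset_univ L) (fun i _ hi => by rw [h2 i hi, zero_mul])]
  refine Finset.sum_neg (fun i hi => mul_neg_of_pos_of_neg (h1 i hi) (h3 i hi)) hL.nonempty

theorem stmtCON : D.StmtCON := by
  classical
  intro p p' q q' L M d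
  by_cases hdis : Disjoint L M
  · by_contra hcon
    push Not at hcon
    have hno : ∀ i ∈ L, ∀ j ∈ M, D.g i j = 0 := by
      intro i hi j hj
      have hiM : i ∉ M := Finset.disjoint_left.1 hdis hi
      refine D.g_eq_zero (fun e => hiM (by rw [e]; exact hj)) fun ha => ?_
      exact hcon i hi hiM ⟨j, hj, ha⟩
    obtain ⟨u, hu0, hu⟩ := Lan.neg D d.lanL
    obtain ⟨v, hv0, hv⟩ := Lan.neg D d.lanM
    have := D.sig u v hu (D.bf_zero_of hu0 hv0 hno)
    linarith
  · rw [Finset.not_disjoint_iff] at hdis
    obtain ⟨x, hxL, hxM⟩ := hdis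
    obtain ⟨a, ha, b, hb, hba, hab⟩ := D.stmtLCON L (L ∩ M) d.lanL Finset.inter_subset_left
      ⟨x, Finset.mem_inter.2 ⟨hxL, hxM⟩⟩ (fun e => d.pM (by
        have := d.pL; rw [← e] at this; exact (Finset.mem_inter.1 this).2))
    refine ⟨b, hb, fun hbM => hba (Finset.mem_inter.2 ⟨hb, hbM⟩), a,
      (Finset.mem_inter.1 ha).2, hab.symm D⟩

theorem stmtCLSV : D.StmtCLSV := by
  classical
  constructor
  · intro L a b c d e z hz h
    have hcard : L.card = 5 := by
      rw [h.eq]
      have h1 := h.ab; have h2 := h.ac; have h3 := h.ad; have h4 := h.ae; have h5 := h.bc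
      have h6 := h.bd; have h7 := h.be; have h8 := h.cd; have h9 := h.ce; have h10 := h.de
      rw [Finset.card_insert_of_notMem, Finset.card_insert_of_notMem, Finset.card_insert_of_notMem,
        Finset.card_insert_of_notMem, Finset.card_singleton] <;> simp_all
    have hbr : ¬ D.HasBranch L := by
      rintro ⟨w, hw, h3⟩
      rw [h.eq] at hw
      simp only [Finset.mem_insert, Finset.mem_singleton] at hw
      have key : ∀ x y : D.ι, D.nb L w ⊆ {x, y} → False := by
        intro x y hs
        have := (Finset.card_le_card hs).trans Finset.card_le_two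
        omega
      have sub : ∀ x y : D.ι, (∀ r ∈ L, D.Adj w r → r = x ∨ r = y) → False := by
        intro x y hs
        refine key x y fun r hr => ?_
        obtain ⟨hr1, hr2⟩ := (mem_nb D).1 hr
        simpa using hs r hr1 hr2
      have expl : ∀ r ∈ L, r = a ∨ r = b ∨ r = c ∨ r = d ∨ r = e := by
        intro r hr; rw [h.eq] at hr; simpa using hr
      rcases hw with rfl | rfl | rfl | rfl | rfl
      · refine sub b b fun r hr ha => ?_
        rcases expl r hr with rfl | rfl | rfl | rfl | rfl
        · exact absurd rfl ha.1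
        · exact Or.inl rfl
        · exact absurd ha h.Nac
        · exact absurd ha h.Nad
        · exact absurd ha h.Nae
      · refine sub a c fun r hr ha => ?_
        rcases expl r hr with rfl | rfl | rfl | rfl | rfl
        · exact Or.inl rfl
        · exact absurd rfl ha.1
        · exact Or.inr rfl
        · exact absurd ha h.Nbd
        · exact absurd ha h.Nbe
      · refine sub b d fun r hr ha => ?_
        rcases expl r hr with rfl | rfl | rfl | rfl | rfl
        · exact absurd ha h.Nca
        · exact Or.inl rfl
        · exact absurd rfl ha.1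
        · exact Or.inr rfl
        · exact absurd ha h.Nce
      · refine sub c e fun r hr ha => ?_
        rcases expl r hr with rfl | rfl | rfl | rfl | rfl
        · exact absurd ha h.Nda
        · exact absurd ha h.Ndb
        · exact Or.inl rfl
        · exact absurd rfl ha.1
        · exact Or.inr rfl
      · refine sub d d fun r hr ha => ?_
        rcases expl r hr with rfl | rfl | rfl | rfl | rfl
        · exact absurd ha h.Nea
        · exact absurd ha h.Neb
        · exact absurd ha h.Nec
        · exact Or.inl rfl
        · exact absurd rfl ha.1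
    unfold cls
    rw [if_neg (by omega), if_neg (by omega), if_neg hbr]
  · intro L a b c d e h
    have hcard : L.card = 5 := by
      rw [h.eq]
      have h1 := h.ab; have h2 := h.ac; have h3 := h.ad; have h4 := h.ae; have h5 := h.bc
      have h6 := h.bd; have h7 := h.be; have h8 := h.cd; have h9 := h.ce; have h10 := h.de
      rw [Finset.card_insert_of_notMem, Finset.card_insert_of_notMem, Finset.card_insert_of_notMem,
        Finset.card_insert_of_notMem, Finset.card_singleton] <;> simp_all
    have hbr : ¬ D.HasBranch L := by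
      rintro ⟨w, hw, h3⟩
      rw [h.eq] at hw
      simp only [Finset.mem_insert, Finset.mem_singleton] at hw
      have key : ∀ x y : D.ι, D.nb L w ⊆ {x, y} → False := by
        intro x y hs
        have := (Finset.card_le_card hs).trans Finset.card_le_two
        omega
      have sub : ∀ x y : D.ι, (∀ r ∈ L, D.Adj w r → r = x ∨ r = y) → False := by
        intro x y hs
        refine key x y fun r hr => ?_
        obtain ⟨hr1, hr2⟩ := (mem_nb D).1 hr
        simpa using hs r hr1 hr2
      have expl : ∀ r ∈ L, r = a ∨ r = b ∨ r = c ∨ r = d ∨ r = e := by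
        intro r hr; rw [h.eq] at hr; simpa using hr
      rcases hw with rfl | rfl | rfl | rfl | rfl
      · refine sub b e fun r hr ha => ?_
        rcases expl r hr with rfl | rfl | rfl | rfl | rfl
        · exact absurd rfl ha.1
        · exact Or.inl rfl
        · exact absurd ha h.Nac
        · exact absurd ha h.Nad
        · exact Or.inr rfl
      · refine sub a c fun r hr ha => ?_
        rcases expl r hr with rfl | rfl | rfl | rfl | rfl
        · exact Or.inl rfl
        · exact absurd rfl ha.1
        · exact Or.inr rfl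
        · exact absurd ha h.Nbd
        · exact absurd ha h.Nbe
      · refine sub b d fun r hr ha => ?_
        rcases expl r hr with rfl | rfl | rfl | rfl | rfl
        · exact absurd ha h.Nca
        · exact Or.inl rfl
        · exact absurd rfl ha.1
        · exact Or.inr rfl
        · exact absurd ha h.Nce
      · refine sub c e fun r hr ha => ?_
        rcases expl r hr with rfl | rfl | rfl | rfl | rfl
        · exact absurd ha h.Nda
        · exact absurd ha h.Ndb
        · exact Or.inl rfl
        · exact absurd rfl ha.1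
        · exact Or.inr rfl
      · refine sub a d fun r hr ha => ?_
        rcases expl r hr with rfl | rfl | rfl | rfl | rfl
        · exact Or.inl rfl
        · exact absurd ha h.Neb
        · exact absurd ha h.Nec
        · exact Or.inr rfl
        · exact absurd rfl ha.1
    unfold cls
    rw [if_neg (by omega), if_neg (by omega), if_neg hbr]

end CoxData

end MP345
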