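import Mathlib
import Pool.Agent.Work.MP_345ef2_gt_24.D_LCON

/-!
# Remote pairs: order at most 4 (REM4), and tools for the other remote blocks
-/

namespace MP345

open Finset

variable {n : ℕ}

namespace CoxData

variable (D : CoxData n)

/-- the positive definite sets of a `Duo`, convenient form -/
theorem Duo.get {p p' q q' : D.ι} {L M : Finset D.ι} (du : D.Duo p p' q q' L M) {y : D.ι}
    (hy : y = p ∨ y = p') (z : D.ι) :
    ∃ S : Finset D.ι, PD D.g S ∧ (∀ r ∈ L, r ≠ y → r ∈ S) ∧ (∀ r ∈ M, r ≠ q → r ≠ q' → r ∈ S) ∧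
      (z ∈ M → z ∈ S) := by
  obtain ⟨x, hx, hxz, hS⟩ := Duo.exists_x D du hy z
  refine ⟨_, hS, fun r hr hry => ?_, fun r hr h1 h2 => ?_, fun hz => ?_⟩
  · exact Finset.mem_union_left _ (Finset.mem_erase.2 ⟨hry, hr⟩)
  · refine Finset.mem_union_right _ (Finset.mem_erase.2 ⟨?_, hr⟩)
    rcases hx with rfl | rfl <;> assumption
  · exact Finset.mem_union_right _ (Finset.mem_erase.2 ⟨hxz.symm, hz⟩)

/-- contact edges avoid `p, p', q, q'` -/
theorem Duo.con_ne {p p' q q' : D.ι} {L M : Finset D.ι} (du : D.Duo p p' q q' L M) {s t : D.ι}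
    (hs : s ∈ L) (ht : t ∈ M) (h : D.Adj s t) : s ≠ p ∧ s ≠ p' ∧ t ≠ q ∧ t ≠ q' := by
  refine ⟨?_, ?_, ?_, ?_⟩
  · rintro rfl; exact du.nP t ht h
  · rintro rfl; exact du.nP' t ht h
  · rintro rfl; exact du.nQ s hs (h.symm D)
  · rintro rfl; exact du.nQ' s hs (h.symm D)

/-- a contact node of `M` has a neighbour in `M` -/
theorem Duo.ext {p p' q q' : D.ι} {L M : Finset D.ι} (du : D.Duo p p' q q' L M) {t : D.ι}
    (ht : t ∈ M) (htq : t ≠ q) : ∃ t2 ∈ M, D.Adj t t2 := by
  obtain ⟨a, ha, b, hb, hba, hab⟩ := D.stmtLCON M {t} du.lanM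
    (by simpa using ht) ⟨t, by simp⟩ (by
      intro e
      have := du.qM; rw [← e] at this
      exact htq (Finset.mem_singleton.1 this).symm)
  rw [Finset.mem_singleton] at ha
  subst ha
  exact ⟨b, hb, hab⟩

theorem two_of {α : Type*} {p p' x y : α} (hp : p = x ∨ p = y) (hp' : p' = x ∨ p' = y)
    (hne : p ≠ p') : (x = p ∨ x = p') ∧ (y = p ∨ y = p') := by
  rcases hp with rfl | rfl <;> rcases hp' with rfl | rfl
  · exact absurd rfl hne
  · exact ⟨Or.inl rfl, Or.inr rfl⟩
  · exact ⟨Or.inr rfl, Or.inl rfl⟩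
  · exact absurd rfl hne

/-- path of order 4 -/
theorem rem_path4 {p p' q q' : D.ι} {L M : Finset D.ι} (du : D.Duo p p' q q' L M)
    (hr : D.Remote p p' L M) (hdis : Disjoint L M) {a b c e : D.ι} {x y z : ℝ}
    (h : D.Path4 a b c e x y z L) (hx : 0 < x) (hy : 0 < y) (hz : 0 < z)
    (F : ∀ t ∈ M, t ∉ L → D.Adj e t → (a = p ∨ a = p') → False)
    (F' : ∀ t ∈ M, t ∉ L → D.Adj a t → (e = p ∨ e = p') → False) : False := by
  obtain ⟨s, hs, hsM, t, ht, hst⟩ := D.stmtCON p p' q q' L M du
  obtain ⟨h1, h2⟩ := hr s hs hsM ⟨t, ht, hst⟩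
  obtain ⟨h3, h4, h5, h6⟩ := Duo.con_ne D du hs ht hst
  have htL : t ∉ L := fun h => (Finset.disjoint_left.1 hdis h) ht
  have expl : ∀ r ∈ L, r = a ∨ r = b ∨ r = c ∨ r = e := by
    intro r hr; rw [h.eq] at hr; simpa using hr
  have np : p ≠ s := h3.symm
  have np' : p' ≠ s := h4.symm
  rcases expl s hs with rfl | rfl | rfl | rfl
  · have hp : p = c ∨ p = e := by
      rcases expl p du.pL with rfl | rfl | rfl | rfl
      · exact absurd rfl np
      · exact absurd (h.Aab hx) h1
      · exact Or.inl rfl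
      · exact Or.inr rfl
    have hp' : p' = c ∨ p' = e := by
      rcases expl p' du.pL' with rfl | rfl | rfl | rfl
      · exact absurd rfl np'
      · exact absurd (h.Aab hx) h2
      · exact Or.inl rfl
      · exact Or.inr rfl
    exact F' t ht htL hst (two_of hp hp' du.pp).2
  · have hp : p = e := by
      rcases expl p du.pL with rfl | rfl | rfl | rfl
      · exact absurd (h.Aba hx) h1
      · exact absurd rfl np
      · exact absurd (h.Abc hy) h1
      · rfl
    have hp' : p' = e := by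
      rcases expl p' du.pL' with rfl | rfl | rfl | rfl
      · exact absurd (h.Aba hx) h2
      · exact absurd rfl np'
      · exact absurd (h.Abc hy) h2
      · rfl
    exact du.pp (hp.trans hp'.symm)
  · have hp : p = a := by
      rcases expl p du.pL with rfl | rfl | rfl | rfl
      · rfl
      · exact absurd (h.Acb hy) h1
      · exact absurd rfl np
      · exact absurd (h.Acd hz) h1
    have hp' : p' = a := by
      rcases expl p' du.pL' with rfl | rfl | rfl | rfl
      · rfl
      · exact absurd (h.Acb hy) h2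
      · exact absurd rfl np'
      · exact absurd (h.Acd hz) h2
    exact du.pp (hp.trans hp'.symm)
  · have hp : p = a ∨ p = b := by
      rcases expl p du.pL with rfl | rfl | rfl | rfl
      · exact Or.inl rfl
      · exact Or.inr rfl
      · exact absurd (h.Adc hz) h1
      · exact absurd rfl np
    have hp' : p' = a ∨ p' = b := by
      rcases expl p' du.pL' with rfl | rfl | rfl | rfl
      · exact Or.inl rfl
      · exact Or.inr rfl
      · exact absurd (h.Adc hz) h2
      · exact absurd rfl np'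
    exact F t ht htL hst (two_of hp hp' du.pp).1

theorem stmtREM4 (hcls : D.StmtCLS) : D.StmtREM4 := by
  classical
  intro p p' q q' L M du hr hdis
  by_contra h5
  push Not at h5
  have c5 : ∀ {a b c d e : D.ι}, L = {a, b, c, d, e} → a ≠ b → a ≠ c → a ≠ d → a ≠ e → b ≠ c →
      b ≠ d → b ≠ e → c ≠ d → c ≠ e → d ≠ e → False := by
    intro a b c d e he h1 h2 h3 h4 h5' h6 h7 h8 h9 h10
    have : L.card = 5 := by
      rw [he]
      rw [Finset.card_insert_of_notMem, Finset.card_insert_of_notMem, Finset.card_insert_of_notMem,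
        Finset.card_insert_of_notMem, Finset.card_singleton] <;> simp_all
    omega
  have hdj : ∀ {t : D.ι}, t ∈ M → t ∉ L := fun {t} ht h => (Finset.disjoint_left.1 hdis h) ht
  rcases hcls L du.lanL with h | ⟨a, b, c, e, h⟩ | ⟨z, u, a, b, h⟩ | ⟨a, b, c, e, h⟩ |
      ⟨a, b, c, e, h⟩ | ⟨a, b, c, e, h⟩ | ⟨a, b, c, e, f, h⟩ | ⟨a, b, c, e, f, z, hz, h⟩ |
      ⟨a, b, c, e, f, h⟩
  · -- small
    obtain ⟨s, hs, hsM, t, ht, hst⟩ := D.stmtCON p p' q q' L M du
    obtain ⟨h1, h2⟩ := hr s hs hsM ⟨t, ht, hst⟩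
    obtain ⟨h3, h4, -, -⟩ := Duo.con_ne D du hs ht hst
    have hL : ({s, p, p'} : Finset D.ι) = L := by
      apply Finset.eq_of_subset_of_card_le
      · intro r hr
        simp only [Finset.mem_insert, Finset.mem_singleton] at hr
        rcases hr with rfl | rfl | rfl
        · exact hs
        · exact du.pL
        · exact du.pL'
      · rw [Finset.card_insert_of_notMem (by simp [h3, h4]), Finset.card_pair du.pp]; exact h
    obtain ⟨a, ha, b, hb, hba, hab⟩ := D.stmtLCON L {s} du.lanL (by simpa using hs) ⟨s, by simp⟩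
      (by
        intro e
        have := du.pL; rw [← e] at this
        exact h3 (Finset.mem_singleton.1 this).symm)
    rw [Finset.mem_singleton] at ha; subst ha
    rw [← hL] at hb
    simp only [Finset.mem_insert, Finset.mem_singleton] at hb hba
    rcases hb with hb | rfl | rfl
    · exact hba hb
    · exact h1 hab
    · exact h2 hab
  · -- cycle
    obtain ⟨s, hs, hsM, t, ht, hst⟩ := D.stmtCON p p' q q' L M du
    obtain ⟨h1, h2⟩ := hr s hs hsM ⟨t, ht, hst⟩
    obtain ⟨h3, h4, -, -⟩ := Duo.con_ne D du hs ht hst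
    have np : p ≠ s := h3.symm
    have np' : p' ≠ s := h4.symm
    have expl : ∀ r ∈ L, r = a ∨ r = b ∨ r = c ∨ r = e := by
      intro r hr; rw [h.eq] at hr; simpa using hr
    have A1 := h.ab; have A2 := h.bc; have A3 := h.cd; have A4 := h.da
    have A1' := h.ab.symm D; have A2' := h.bc.symm D; have A3' := h.cd.symm D
    have A4' := h.da.symm D
    have hpL := expl p du.pL
    have hpL' := expl p' du.pL'
    have hpp := du.pp
    rcases expl s hs with rfl | rfl | rfl | rfl
    · have e1 : p = c := by grind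
      have e2 : p' = c := by grind
      exact hpp (e1.trans e2.symm)
    · have e1 : p = e := by grind
      have e2 : p' = e := by grind
      exact hpp (e1.trans e2.symm)
    · have e1 : p = a := by grind
      have e2 : p' = a := by grind
      exact hpp (e1.trans e2.symm)
    · have e1 : p = b := by grind
      have e2 : p' = b := by grind
      exact hpp (e1.trans e2.symm)
  · -- star
    obtain ⟨s, hs, hsM, t, ht, hst⟩ := D.stmtCON p p' q q' L M du
    obtain ⟨h1, h2⟩ := hr s hs hsM ⟨t, ht, hst⟩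
    obtain ⟨h3, h4, htq, htq'⟩ := Duo.con_ne D du hs ht hst
    have np : p ≠ s := h3.symm
    have np' : p' ≠ s := h4.symm
    have htL := hdj ht
    have expl : ∀ r ∈ L, r = z ∨ r = u ∨ r = a ∨ r = b := by
      intro r hr; rw [h.eq] at hr; simpa using hr
    have A1 := h.Azu; have A2 := h.Azp; have A3 := h.Azq
    have A1' := h.Auz; have A2' := h.Apz; have A3' := h.Aqz
    have hpL := expl p du.pL
    have hpL' := expl p' du.pL'
    have hpp := du.pp
    have hzt : z ≠ t := fun e => htL (e ▸ h.mz)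
    have hut : u ≠ t := fun e => htL (e ▸ h.mu)
    have hat : a ≠ t := fun e => htL (e ▸ h.mp)
    have hbt : b ≠ t := fun e => htL (e ▸ h.mq)
    obtain ⟨t2, ht2, htt⟩ := Duo.ext D du ht htq
    have ht2L := hdj ht2
    have hzt2 : z ≠ t2 := fun e => ht2L (e ▸ h.mz)
    have hut2 : u ≠ t2 := fun e => ht2L (e ▸ h.mu)
    have hat2 : a ≠ t2 := fun e => ht2L (e ▸ h.mp)
    have hbt2 : b ≠ t2 := fun e => ht2L (e ▸ h.mq)
    rcases expl s hs with rfl | rfl | rfl | rfl
    · grind
    · -- s = u, P = {a, b}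
      have hp : p = a ∨ p = b := by grind
      have hp' : p' = a ∨ p' = b := by grind
      obtain ⟨S, hS, hL, hM, -⟩ := Duo.get D du (two_of hp hp' hpp).1 t
      exact no_353 hS (s := b) (q := z) (p := s) (r := t) (hL _ h.mq h.pq.symm)
        (hL _ h.mz h.zp) (hL _ h.mu h.up) (hM _ ht htq htq') h.Aqz (le_of_eq h.vzu)
        h.zu.symm hst h.uq.symm hbt hzt.symm
    · -- s = a, P = {u, b}
      have hp : p = u ∨ p = b := by grind
      have hp' : p' = u ∨ p' = b := by grind
      obtain ⟨S, hS, hL, hM, ht2S⟩ := Duo.get D du (two_of hp hp' hpp).2 t2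
      exact no_5333 hS (q := u) (p := z) (r := s) (t := t) (u := t2) (hL _ h.mu h.uq)
        (hL _ h.mz h.zq) (hL _ h.mp h.pq) (hM _ ht htq htq') (ht2S ht2)
        (by rw [D.symm]; exact le_of_eq h.vzu) h.Azp hst htt (by
          have := h.zu; have := h.zp; have := h.up; have := htt.1
          simp; grind)
    · have hp : p = u ∨ p = a := by grind
      have hp' : p' = u ∨ p' = a := by grind
      obtain ⟨S, hS, hL, hM, ht2S⟩ := Duo.get D du (two_of hp hp' hpp).2 t2
      exact no_5333 hS (q := u) (p := z) (r := s) (t := t) (u := t2) (hL _ h.mu h.up)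
        (hL _ h.mz h.zp) (hL _ h.mq h.pq.symm) (hM _ ht htq htq') (ht2S ht2)
        (by rw [D.symm]; exact le_of_eq h.vzu) h.Azq hst htt (by
          have := h.zu; have := h.zq; have := h.uq; have := htt.1
          simp; grind)
  · -- 353
    have c5p := c5_pos
    have K : ∀ {a b c e : D.ι}, D.Path4 a b c e (1 / 2) CoxData.c5 (1 / 2) L → ∀ t ∈ M, t ∉ L →
        D.Adj e t → (a = p ∨ a = p') → False := by
      intro a b c e h t ht htL het hap
      obtain ⟨-, -, htq, htq'⟩ := Duo.con_ne D du h.md ht het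
      obtain ⟨t2, ht2, htt⟩ := Duo.ext D du ht htq
      have ht2L := hdj ht2
      obtain ⟨S, hS, hL, hM, ht2S⟩ := Duo.get D du hap t2
      have n1 : b ≠ t := fun e => htL (e ▸ h.mb)
      have n2 : c ≠ t := fun e => htL (e ▸ h.mc)
      have n3 : e ≠ t := het.1
      have n4 : b ≠ t2 := fun e => ht2L (e ▸ h.mb)
      have n5 : c ≠ t2 := fun e => ht2L (e ▸ h.mc)
      have n6 : e ≠ t2 := fun e' => ht2L (e' ▸ h.md)
      exact no_5333 hS (q := b) (p := c) (r := e) (t := t) (u := t2) (hL _ h.mb h.ab.symm)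
        (hL _ h.mc h.ac.symm) (hL _ h.md h.ad.symm) (hM _ ht htq htq') (ht2S ht2)
        (le_of_eq h.vbc) (h.Acd (by norm_num)) het htt (by
          have := h.bc; have := h.bd; have := h.cd; have := htt.1
          simp; grind)
    refine D.rem_path4 du hr hdis h (by norm_num) c5_pos (by norm_num) (K h) ?_
    have h' : D.Path4 e c b a (1 / 2) CoxData.c5 (1 / 2) L :=
      ⟨by rw [h.eq]; ext r; simp only [Finset.mem_insert, Finset.mem_singleton]; tauto,
        h.cd.symm, h.bd.symm, h.ad.symm, h.bc.symm, h.ac.symm, h.ab.symm,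
        by rw [D.symm]; exact h.vcd, by rw [D.symm]; exact h.vbc, by rw [D.symm]; exact h.vab,
        by rw [D.symm]; exact h.vbd, by rw [D.symm]; exact h.vad, by rw [D.symm]; exact h.vac⟩
    exact K h'
  · -- 534
    refine D.rem_path4 du hr hdis h c5_pos (by norm_num) s2_pos ?_ ?_
    · intro t ht htL het hap
      obtain ⟨-, -, htq, htq'⟩ := Duo.con_ne D du h.md ht het
      obtain ⟨t2, ht2, htt⟩ := Duo.ext D du ht htq
      have ht2L := hdj ht2
      obtain ⟨S, hS, hL, hM, ht2S⟩ := Duo.get D du hap t2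
      have n1 : b ≠ t := fun e => htL (e ▸ h.mb)
      have n2 : c ≠ t := fun e => htL (e ▸ h.mc)
      have n3 : e ≠ t := het.1
      have n4 : b ≠ t2 := fun e => ht2L (e ▸ h.mb)
      have n5 : c ≠ t2 := fun e => ht2L (e ▸ h.mc)
      have n6 : e ≠ t2 := fun e' => ht2L (e' ▸ h.md)
      exact no_F4t hS (s := b) (q := c) (p := e) (r := t) (t := t2) (hL _ h.mb h.ab.symm)
        (hL _ h.mc h.ac.symm) (hL _ h.md h.ad.symm) (hM _ ht htq htq') (ht2S ht2)
        (h.Abc (by norm_num)) (le_of_eq h.vcd) het htt (by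
          have := h.bc; have := h.bd; have := h.cd; have := htt.1
          simp; grind)
    · intro t ht htL hat hep
      obtain ⟨-, -, htq, htq'⟩ := Duo.con_ne D du h.ma ht hat
      obtain ⟨S, hS, hL, hM, -⟩ := Duo.get D du hep t
      have n1 : b ≠ t := fun e => htL (e ▸ h.mb)
      have n2 : c ≠ t := fun e => htL (e ▸ h.mc)
      exact no_353 hS (s := t) (q := a) (p := b) (r := c) (hM _ ht htq htq')
        (hL _ h.ma h.ad) (hL _ h.mb h.bd) (hL _ h.mc h.cd) (hat.symm D) (le_of_eq h.vab)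
        h.ab.symm (h.Abc (by norm_num)) n1.symm n2.symm h.ac.symm
  · -- 535
    refine D.rem_path4 du hr hdis h c5_pos (by norm_num) c5_pos ?_ ?_
    · intro t ht htL het hap
      obtain ⟨-, -, htq, htq'⟩ := Duo.con_ne D du h.md ht het
      obtain ⟨S, hS, hL, hM, -⟩ := Duo.get D du hap t
      have n1 : b ≠ t := fun e => htL (e ▸ h.mb)
      have n2 : c ≠ t := fun e => htL (e ▸ h.mc)
      exact no_353 hS (s := b) (q := c) (p := e) (r := t) (hL _ h.mb h.ab.symm)
        (hL _ h.mc h.ac.symm) (hL _ h.md h.ad.symm) (hM _ ht htq htq') (h.Abc (by norm_num))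
        (le_of_eq h.vcd) h.cd.symm het h.bd n1 n2.symm
    · intro t ht htL hat hep
      obtain ⟨-, -, htq, htq'⟩ := Duo.con_ne D du h.ma ht hat
      obtain ⟨S, hS, hL, hM, -⟩ := Duo.get D du hep t
      have n1 : b ≠ t := fun e => htL (e ▸ h.mb)
      have n2 : c ≠ t := fun e => htL (e ▸ h.mc)
      exact no_353 hS (s := t) (q := a) (p := b) (r := c) (hM _ ht htq htq')
        (hL _ h.ma h.ad) (hL _ h.mb h.bd) (hL _ h.mc h.cd) (hat.symm D) (le_of_eq h.vab)
        h.ab.symm (h.Abc (by norm_num)) n1.symm n2.symm h.ac.symm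
  · exact c5 h.eq h.uv h.uw h.up h.uq h.vw h.vp h.vq h.wp h.wq h.pq
  · exact c5 h.eq h.ab h.ac h.ad h.ae h.bc h.bd h.be h.cd h.ce h.de
  · exact c5 h.eq h.ab h.ac h.ad h.ae h.bc h.bd h.be h.cd h.ce h.de

end CoxData

end MP345
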