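import Mathlib
import Pool.Agent.Work.MP_345ef2_gt_24.DI
import Pool.Agent.Work.MP_345ef2_gt_helper54.Sig

/-!
# D level: the signature lemma, the test vectors (SIGN, NEG)
-/

namespace MP345

open Finset

variable {n : ℕ}

namespace CoxData

variable (D : CoxData n)

theorem stmtSIGN : D.StmtSIGN := by
  classical
  intro L M c c' A B hd hc hc' hg hone hA hB hAB ⟨y, hy0, hyc, hyq⟩ ⟨z, hz0, hzc, hzq⟩
  have hb : bf D.g y z = -(1 / 2) := by
    unfold bf
    rw [Finset.sum_eq_single c, Finset.sum_eq_single c']
    · rw [hyc, hzc, hg]; ring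
    · intro j _ hj
      by_cases hjM : j ∈ M
      · have : ¬ D.Adj c j := fun h => hj (hone c hc j hjM h).2
        rw [D.g_eq_zero (fun e => (Finset.disjoint_left.1 hd hc) (by rw [e]; exact hjM)) this,
          mul_zero]
      · rw [hz0 j hjM]; ring
    · intro h; exact absurd (Finset.mem_univ _) h
    · intro i _ hi
      refine Finset.sum_eq_zero fun j _ => ?_
      by_cases hiL : i ∈ L
      · by_cases hjM : j ∈ M
        · have : ¬ D.Adj i j := fun h => hi (hone i hiL j hjM h).1
          rw [D.g_eq_zero (fun e => (Finset.disjoint_left.1 hd hiL) (by rw [e]; exact hjM)) this,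
            mul_zero]
        · rw [hz0 j hjM]; ring
      · rw [hy0 i hiL]; ring
    · intro h; exact absurd (Finset.mem_univ _) h
  refine D.no_two_neg (u := y) (v := z) (by linarith) ?_
  rw [hb]
  nlinarith

theorem vec_apply {k : ℕ} {f : Fin k → D.ι} (hf : Function.Injective f) (c : Fin k → ℝ)
    (a : Fin k) : D.vec f c (f a) = c a := by
  unfold vec
  rw [Finset.sum_eq_single a]
  · rw [if_pos rfl]
  · intro b _ hb
    rw [if_neg (fun e => hb (hf e))]
  · intro h'; exact absurd (Finset.mem_univ _) h'

theorem negAt_of {k : ℕ} {f : Fin k → D.ι} (hf : Function.Injective f) (c : Fin k → ℝ)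
    {L : Finset D.ι} (hL : ∀ a, f a ∈ L) (a : Fin k) (hca : c a = 1) {A : ℝ}
    (h : ∑ x, ∑ y, c x * c y * D.g (f x) (f y) ≤ -A) : D.NegAt L (f a) A := by
  refine ⟨D.vec f c, ?_, ?_, ?_⟩
  · intro i hi
    unfold vec
    refine Finset.sum_eq_zero fun b _ => ?_
    rw [if_neg]
    intro e; exact hi (e ▸ hL b)
  · rw [D.vec_apply hf, hca]
  · unfold qf; rw [D.bf_vec]; exact h

theorem cos5_eq : Real.cos (Real.pi / 5) = c5 := by
  rw [Real.cos_pi_div_five]; rfl

theorem fork_negAt {u v w a b : D.ι} {L : Finset D.ι} (h : D.Fork u v w a b L) :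
    D.NegAt L a 5 := by
  have hf : Function.Injective ![u, v, w, a, b] := by
    rw [← List.nodup_ofFn]
    have h1 := h.uv; have h2 := h.uw; have h3 := h.up; have h4 := h.uq; have h5 := h.vw
    have h6 := h.vp; have h7 := h.vq; have h8 := h.wp; have h9 := h.wq; have h10 := h.pq
    simp [List.ofFn_succ]
    tauto
  have hfL : ∀ x, ![u, v, w, a, b] x ∈ L := by
    intro x; rw [h.eq]; fin_cases x <;> simp
  have := D.form_fork (f := ![u, v, w, a, b]) hf
    (by rw [cos5_eq]; exact h.vuv) (by change D.g v w = -1 / 2; rw [h.vvw]; norm_num)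
    (by change D.g w a = -1 / 2; rw [h.vwp]; norm_num)
    (by change D.g w b = -1 / 2; rw [h.vwq]; norm_num)
  exact D.negAt_of hf _ hfL 3 (by simp) this

theorem Fork.swap {u v w a b : D.ι} {L : Finset D.ι} (h : D.Fork u v w a b L) :
    D.Fork u v w b a L where
  eq := by rw [h.eq, Finset.pair_comm a b]
  uv := h.uv
  uw := h.uw
  up := h.uq
  uq := h.up
  vw := h.vw
  vp := h.vq
  vq := h.vp
  wp := h.wq
  wq := h.wp
  pq := h.pq.symm
  vuv := h.vuv
  vvw := h.vvw
  vwp := h.vwq
  vwq := h.vwp
  vuw := h.vuw
  vup := h.vuq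
  vuq := h.vup
  vvp := h.vvq
  vvq := h.vvp
  vpq := by rw [D.symm]; exact h.vpq

theorem Path4.rev {a b c d : D.ι} {x y z : ℝ} {L : Finset D.ι} (h : D.Path4 a b c d x y z L) :
    D.Path4 d c b a z y x L where
  eq := by rw [h.eq]; ext r; simp only [Finset.mem_insert, Finset.mem_singleton]; tauto
  ab := h.cd.symm
  ac := h.bd.symm
  ad := h.ad.symm
  bc := h.bc.symm
  bd := h.ac.symm
  cd := h.ab.symm
  vab := by rw [D.symm]; exact h.vcd
  vbc := by rw [D.symm]; exact h.vbc
  vcd := by rw [D.symm]; exact h.vab
  vac := by rw [D.symm]; exact h.vbd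
  vad := by rw [D.symm]; exact h.vad
  vbd := by rw [D.symm]; exact h.vac

theorem path4_negAt {a b c d : D.ι} {L : Finset D.ι}
    (h : D.Path4 a b c d (1 / 2) c5 (1 / 2) L) : D.NegAt L a (4 / 5) := by
  have hf : Function.Injective ![a, b, c, d] := by
    rw [← List.nodup_ofFn]
    have h1 := h.ab; have h2 := h.ac; have h3 := h.ad; have h4 := h.bc; have h5 := h.bd
    have h6 := h.cd
    simp [List.ofFn_succ]
    tauto
  have hfL : ∀ x, ![a, b, c, d] x ∈ L := by
    intro x; rw [h.eq]; fin_cases x <;> simp
  have := D.form_353 (f := ![a, b, c, d]) hf (by change D.g a b = -1 / 2; rw [h.vab]; norm_num)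
    (by rw [cos5_eq]; exact h.vbc) (by change D.g c d = -1 / 2; rw [h.vcd]; norm_num)
  exact D.negAt_of hf _ hfL 0 (by simp) this

theorem star_negAt {z u p q : D.ι} {L : Finset D.ι} (h : D.Star4 z u p q L) :
    D.NegAt L p 1 := by
  have hf : Function.Injective ![p, z, u, q] := by
    rw [← List.nodup_ofFn]
    have h1 := h.zu; have h2 := h.zp; have h3 := h.zq; have h4 := h.up; have h5 := h.uq
    have h6 := h.pq
    simp [List.ofFn_succ]
    grind
  have hfL : ∀ x, ![p, z, u, q] x ∈ L := by
    intro x; rw [h.eq]; fin_cases x <;> simp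
  have := D.form_star (f := ![p, z, u, q]) hf
    (by change D.g p z = -1 / 2; rw [D.symm, h.vzp]; norm_num)
    (by rw [cos5_eq]; exact h.vzu) (by change D.g z q = -1 / 2; rw [h.vzq]; norm_num)
  exact D.negAt_of hf _ hfL 0 (by simp) this

theorem Star4.swap {z u p q : D.ι} {L : Finset D.ι} (h : D.Star4 z u p q L) :
    D.Star4 z u q p L where
  eq := by rw [h.eq, Finset.pair_comm p q]
  zu := h.zu
  zp := h.zq
  zq := h.zp
  up := h.uq
  uq := h.up
  pq := h.pq.symm
  vzu := h.vzu
  vzp := h.vzq
  vzq := h.vzp
  vup := h.vuq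
  vuq := h.vup
  vpq := by rw [D.symm]; exact h.vpq

theorem path5_negAt {a b c d e : D.ι} {L : Finset D.ι}
    (h : D.Path5 a b c d e c5 (1 / 2) (1 / 2) (1 / 2) L) : D.NegAt L e 1 := by
  have hf : Function.Injective ![a, b, c, d, e] := by
    rw [← List.nodup_ofFn]
    have h1 := h.ab; have h2 := h.ac; have h3 := h.ad; have h4 := h.ae; have h5 := h.bc
    have h6 := h.bd; have h7 := h.be; have h8 := h.cd; have h9 := h.ce; have h10 := h.de
    simp [List.ofFn_succ]
    tauto
  have hfL : ∀ x, ![a, b, c, d, e] x ∈ L := by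
    intro x; rw [h.eq]; fin_cases x <;> simp
  have := D.form_A (f := ![a, b, c, d, e]) hf
    (by rw [cos5_eq]; exact h.vab) (by change D.g b c = -1 / 2; rw [h.vbc]; norm_num)
    (by change D.g c d = -1 / 2; rw [h.vcd]; norm_num)
    (by change D.g d e = -1 / 2; rw [h.vde]; norm_num)
  exact D.negAt_of hf _ hfL 4 (by simp) this

theorem cyc5_negAt {a b c d e : D.ι} {L : Finset D.ι}
    (h : D.Cyc5 a b c d e L) : D.NegAt L d 1 := by
  have hf : Function.Injective ![a, b, c, d, e] := by
    rw [← List.nodup_ofFn]
    have h1 := h.ab; have h2 := h.ac; have h3 := h.ad; have h4 := h.ae; have h5 := h.bc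
    have h6 := h.bd; have h7 := h.be; have h8 := h.cd; have h9 := h.ce; have h10 := h.de
    simp [List.ofFn_succ]
    tauto
  have hfL : ∀ x, ![a, b, c, d, e] x ∈ L := by
    intro x; rw [h.eq]; fin_cases x <;> simp
  have := D.form_C4 (f := ![a, b, c, d, e]) hf
    (by rw [Real.cos_pi_div_four]; exact h.vab) (by change D.g b c = -1 / 2; rw [h.vbc]; norm_num)
    (by change D.g c d = -1 / 2; rw [h.vcd]; norm_num)
    (by change D.g d e = -1 / 2; rw [h.vde]; norm_num)
    (by change D.g a e = -1 / 2; rw [D.symm, h.vea]; norm_num)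
  exact D.negAt_of hf _ hfL 3 (by simp) this

/-- the last item -/
theorem n3_negAt {L : Finset D.ι} {t x y : D.ι} (hL : D.Lan L) (e : L = {t, x, y}) (htx : t ≠ x)
    (hty : t ≠ y) (hxy : x ≠ y) (g1 : D.g t x = -(1 / 2)) (g2 : D.g t y = 0) :
    D.NegAt L t (6 / 25) := by
  classical
  have hf : Function.Injective ![t, x, y] := by
    rw [← List.nodup_ofFn]; simp [List.ofFn_succ]; tauto
  have hfL : ∀ a, ![t, x, y] a ∈ L := by
    intro a; rw [e]; fin_cases a <;> simp
  have hq : ∀ c : Fin 3 → ℝ, ∑ a, ∑ b, c a * c b * D.g (![t, x, y] a) (![t, x, y] b) =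
      c 0 ^ 2 + c 1 ^ 2 + c 2 ^ 2 - c 0 * c 1 + 2 * D.g x y * c 1 * c 2 := by
    intro c
    simp only [Fin.sum_univ_three]
    change c 0 * c 0 * D.g t t + c 0 * c 1 * D.g t x + c 0 * c 2 * D.g t y +
      (c 1 * c 0 * D.g x t + c 1 * c 1 * D.g x x + c 1 * c 2 * D.g x y) +
      (c 2 * c 0 * D.g y t + c 2 * c 1 * D.g y x + c 2 * c 2 * D.g y y) = _
    rw [D.self, D.self, D.self, D.symm x t, D.symm y t, D.symm y x, g1, g2]; ring
  have hc : D.g x y ≤ -0.8992 := by
    rcases D.off x y hxy with ⟨m, hm, hg⟩ | hg
    · by_cases h7 : 7 ≤ m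
      · have := cos7_ge h7; rw [hg]; linarith
      · exfalso
        have h6 : m ≤ 6 := by omega
        -- c ^ 2 ≤ 3/4
        have hcos : Real.cos (Real.pi / m) ≤ √3 / 2 := by
          rw [← Real.cos_pi_div_six]
          apply Real.cos_le_cos_of_nonneg_of_le_pi
          · positivity
          · have : (2 : ℝ) ≤ m := by exact_mod_cast hm
            rw [div_le_iff₀ (by linarith)]
            nlinarith [Real.pi_pos]
          · apply div_le_div_of_nonneg_left Real.pi_pos.le
            · have : (2 : ℝ) ≤ m := by exact_mod_cast hm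
              linarith
            · exact_mod_cast h6
        have hcos0 : 0 ≤ Real.cos (Real.pi / m) := by
          apply Real.cos_nonneg_of_mem_Icc
          constructor
          · have : 0 ≤ Real.pi / m := by positivity
            linarith [Real.pi_pos]
          · have : (2 : ℝ) ≤ m := by exact_mod_cast hm
            exact div_le_div_of_nonneg_left Real.pi_pos.le (by norm_num) this
        have h3 : √3 ^ 2 = 3 := Real.sq_sqrt (by norm_num)
        have h3' : 0 < √3 := by positivity
        set κ := Real.cos (Real.pi / m) with hκ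
        have hsq : κ ^ 2 ≤ 3 / 4 := by nlinarith
        have hnn : ∀ c : D.ι → ℝ, (∀ i, i ∉ L → c i = 0) → c = D.vec ![t, x, y] ![c t, c x, c y] := by
          intro c hc0
          funext i
          by_cases hi : i ∈ L
          · rw [e] at hi
            simp only [Finset.mem_insert, Finset.mem_singleton] at hi
            rcases hi with rfl | rfl | rfl
            · exact (D.vec_apply hf ![c i, c x, c y] 0).symm
            · exact (D.vec_apply hf ![c t, c i, c y] 1).symm
            · exact (D.vec_apply hf ![c t, c x, c i] 2).symm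
          · rw [hc0 i hi]
            unfold vec
            symm
            refine Finset.sum_eq_zero fun b _ => ?_
            rw [if_neg]
            intro e'; exact hi (e' ▸ hfL b)
        have hval : ∀ c : D.ι → ℝ, (∀ i, i ∉ L → c i = 0) → qf D.g c =
            c t ^ 2 + c x ^ 2 + c y ^ 2 - c t * c x - 2 * κ * c x * c y := by
          intro c hc0
          conv_lhs => rw [hnn c hc0]
          unfold qf
          rw [D.bf_vec, hq, hg]
          simp
          ring
        rcases lt_or_eq_of_le hsq with hlt | heq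
        · apply hL.1
          intro c hc0 hcne
          rw [hval c hc0]
          by_contra hle
          push Not at hle
          have k1 : c t ^ 2 + c x ^ 2 + c y ^ 2 - c t * c x - 2 * κ * c x * c y =
            (c t - c x / 2) ^ 2 + (c y - κ * c x) ^ 2 + (3 / 4 - κ ^ 2) * c x ^ 2 := by ring
          rw [k1] at hle
          have hx0 : c x = 0 := by
            by_contra hne
            have : 0 < (3 / 4 - κ ^ 2) * c x ^ 2 := by
              have := sq_pos_of_ne_zero hne
              apply mul_pos (by linarith) this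
            nlinarith [sq_nonneg (c t - c x / 2), sq_nonneg (c y - κ * c x)]
          rw [hx0] at hle
          have ht0 : c t = 0 := by nlinarith [sq_nonneg (c t), sq_nonneg (c y)]
          have hy0 : c y = 0 := by nlinarith [sq_nonneg (c t), sq_nonneg (c y)]
          apply hcne
          funext i
          by_cases hi : i ∈ L
          · rw [e] at hi
            simp only [Finset.mem_insert, Finset.mem_singleton] at hi
            rcases hi with rfl | rfl | rfl
            · exact ht0
            · exact hx0
            · exact hy0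
          · exact hc0 i hi
        · have hκe : κ = √3 / 2 := by
            have : (κ - √3 / 2) * (κ + √3 / 2) = 0 := by nlinarith
            rcases mul_eq_zero.1 this with h | h
            · linarith
            · nlinarith
          have hv0 : ∀ i, D.vec ![t, x, y] ![1, 2, √3] i = 0 ∨ i = t ∨ i = x ∨ i = y := by
            intro i
            by_cases hi : i ∈ L
            · right; rw [e] at hi; simpa using hi
            · left
              unfold vec
              refine Finset.sum_eq_zero fun b _ => ?_
              rw [if_neg]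
              intro e'; exact hi (e' ▸ hfL b)
          have vt : D.vec ![t, x, y] ![1, 2, √3] t = 1 := D.vec_apply hf ![1, 2, √3] 0
          have vx : D.vec ![t, x, y] ![1, 2, √3] x = 2 := D.vec_apply hf ![1, 2, √3] 1
          have vy : D.vec ![t, x, y] ![1, 2, √3] y = √3 := D.vec_apply hf ![1, 2, √3] 2
          have hno := D.noPar (D.vec ![t, x, y] ![1, 2, √3]) (by
            intro i
            rcases hv0 i with h | rfl | rfl | rfl
            · rw [h]
            · rw [vt]; norm_num
            · rw [vx]; norm_num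
            · rw [vy]; exact h3'.le) (by
            intro h0; rw [h0] at vt; simp at vt) (by
            intro i hi
            have hs : ∑ j, D.g i j * D.vec ![t, x, y] ![1, 2, √3] j =
                ∑ j, D.vec ![t, x, y] ![1, 2, √3] j * D.g i j :=
              Finset.sum_congr rfl fun j _ => mul_comm _ _
            rw [hs, D.sum_vec]
            simp only [Fin.sum_univ_three]
            change 1 * D.g i t + 2 * D.g i x + √3 * D.g i y ≤ 0
            rcases hv0 i with h | rfl | rfl | rfl
            · rw [h] at hi; exact absurd hi (lt_irrefl _)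
            · rw [D.self, g1, g2]; norm_num
            · rw [D.symm i t, D.self, g1, hg, hκe]; nlinarith
            · rw [D.symm i t, D.symm i x, D.self, g2, hg, hκe]; nlinarith)
          unfold qf at hno
          rw [D.bf_vec, hq, hg, hκe] at hno
          simp at hno
          nlinarith
    · linarith
  refine D.negAt_of hf ![1, 5 / 2, 5 / 2] hfL 0 (by simp) ?_
  rw [hq]
  simp
  nlinarith

theorem stmtNEG : D.StmtNEG := by
  refine ⟨fun u v w a b L h => ⟨D.fork_negAt h, D.fork_negAt (Fork.swap D h)⟩,
    fun a b c d e L h => D.path5_negAt h, fun a b c d e L h => D.cyc5_negAt h,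
    fun a b c d L h => ⟨D.path4_negAt h, D.path4_negAt (Path4.rev D h)⟩,
    fun z u p q L h => ⟨D.star_negAt h, D.star_negAt (Star4.swap D h)⟩, ?_⟩
  intro L t x y hL e h1 h2 h3 g1 g2
  exact D.n3_negAt hL e h1 h2 h3 g1 g2

end CoxData

end MP345
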