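import Mathlib
import Pool.Agent.Work.MP_345ef2_gt_24.D_REMB
import Pool.Agent.Work.MP_345ef2_gt_24.D_SIGN

/-!
# A remote fork and a touching set (FTOUCH)
-/

namespace MP345

open Finset

variable {n : ℕ}

namespace CoxData

variable (D : CoxData n)

theorem heavy_of {x y : D.ι} (h : D.Adj x y) (hs : D.g x y ≠ -(1 / 2)) : 1 / 2 ≤ D.g x y ^ 2 := by
  rcases heavy_or_simple h with h | h
  · exact absurd h hs
  · exact h

/-- the branch node `w` with `v, o` outside, and a set `U'` -/
theorem fork_special {S : Finset D.ι} (hS : PD D.g S) {v w s o : D.ι} (hv : v ∈ S) (hw : w ∈ S)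
    (hs : s ∈ S) (ho : o ∈ S) (Awv : D.Adj w v) (Aws : D.Adj w s) (Awo : D.Adj w o) (hvo : v ≠ o)
    (hvs : v ≠ s) (hos : o ≠ s) (U' : Finset D.ι) (hU' : U' ⊆ S) (nv : v ∉ U') (no : o ∉ U')
    (hst : ∃ t ∈ insert w U', w ≠ t ∧ D.Adj s t ∨ Sp S (insert w (insert s U')) s)
    (h : ∀ r ∈ U', (∃ x ∈ insert w (insert s U'), ∃ y ∈ insert w (insert s U'), x ≠ y ∧
      D.Adj r x ∧ D.Adj r y) ∨ ((∃ x ∈ insert w (insert s U'), D.Adj r x) ∧
      Sp S (insert w (insert s U')) r)) : False := by
  refine core_test' hS (U := insert w (insert s U')) ?_ ⟨w, by simp⟩ ?_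
  · intro r hr
    rcases Finset.mem_insert.1 hr with rfl | hr
    · exact hw
    · rcases Finset.mem_insert.1 hr with rfl | hr
      · exact hs
      · exact hU' hr
  · intro r hr
    rcases Finset.mem_insert.1 hr with rfl | hr
    · right
      refine ⟨⟨s, by simp, Aws⟩, Or.inr ⟨v, hv, o, ho, ?_, ?_, hvo, Awv, Awo⟩⟩
      · simp only [Finset.mem_insert, not_or]; exact ⟨Awv.1.symm, hvs, nv⟩
      · simp only [Finset.mem_insert, not_or]; exact ⟨Awo.1.symm, hos, no⟩
    · rcases Finset.mem_insert.1 hr with rfl | hr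
      · obtain ⟨t, ht, ⟨hwt, hst⟩ | hsp⟩ := hst
        · left
          refine ⟨w, by simp, t, ?_, hwt, Aws.symm D, hst⟩
          rcases Finset.mem_insert.1 ht with rfl | ht
          · simp
          · simp [ht]
        · right
          exact ⟨⟨w, by simp, Aws.symm D⟩, hsp⟩
      · exact h r hr

theorem ftouch_aux (hcls : D.StmtCLS) {p p' q q' : D.ι} {L M : Finset D.ι}
    (du : D.Duo p p' q q' L M) {u v w a b : D.ι} (h : D.Fork u v w a b L)
    (hP : ({p, p'} : Finset D.ι) = {u, v}) (hdis : Disjoint L M)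
    (hc : ∀ s ∈ L, D.Con M s → s = a ∨ s = b) {t0 : D.ι} (ht0 : t0 ∈ M) (hqt : D.Adj q t0)
    (hat : D.Adj a t0) (hno : ¬ D.W2 q' L M) : False := by
  classical
  have hdj : ∀ {t : D.ι}, t ∈ M → t ∉ L := fun {t} ht h => (Finset.disjoint_left.1 hdis h) ht
  have hup : u = p ∨ u = p' := by
    have : u ∈ ({p, p'} : Finset D.ι) := by rw [hP]; simp
    simpa using this
  -- the sets S
  have getS : ∀ x, (x = q ∨ x = q') → ∃ S : Finset D.ι, PD D.g S ∧ v ∈ S ∧ w ∈ S ∧ a ∈ S ∧
      b ∈ S ∧ ∀ r ∈ M, r ≠ x → r ∈ S := by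
    intro x hx
    refine ⟨_, Duo.pd D du hup hx, ?_, ?_, ?_, ?_, ?_⟩
    · exact Finset.mem_union_left _ (Finset.mem_erase.2 ⟨h.uv.symm, h.mv⟩)
    · exact Finset.mem_union_left _ (Finset.mem_erase.2 ⟨h.uw.symm, h.mw⟩)
    · exact Finset.mem_union_left _ (Finset.mem_erase.2 ⟨h.up.symm, h.mp⟩)
    · exact Finset.mem_union_left _ (Finset.mem_erase.2 ⟨h.uq.symm, h.mq⟩)
    · intro r hr hrx
      exact Finset.mem_union_right _ (Finset.mem_erase.2 ⟨hrx, hr⟩)
  have nu : ∀ {t}, t ∈ M → u ≠ t := fun {t} ht e => hdj ht (e ▸ h.mu)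
  have nv : ∀ {t}, t ∈ M → v ≠ t := fun {t} ht e => hdj ht (e ▸ h.mv)
  have nw : ∀ {t}, t ∈ M → w ≠ t := fun {t} ht e => hdj ht (e ▸ h.mw)
  have na : ∀ {t}, t ∈ M → a ≠ t := fun {t} ht e => hdj ht (e ▸ h.mp)
  have nb : ∀ {t}, t ∈ M → b ≠ t := fun {t} ht e => hdj ht (e ▸ h.mq)
  have hqq := du.qq
  have ht0q : t0 ≠ q := hqt.1.symm
  have ht0q' : t0 ≠ q' := (Duo.con_ne D du h.mp ht0 hat).2.2.2
  -- contacts are not adjacent to q'
  have hnoq' : ∀ t ∈ M, ∀ s ∈ L, D.Adj s t → ¬ D.Adj q' t := by
    intro t ht s hs hst hq't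
    exact hno ⟨t, ht, hdj ht, hq't, s, hs, hst.symm D⟩
  -- K4: special path in S_x, s a leaf of L
  have K : ∀ x, (x = q ∨ x = q') → ∀ s o, ((s = a ∧ o = b) ∨ (s = b ∧ o = a)) →
      ∀ U' : Finset D.ι, (∀ r ∈ U', r ∈ M ∧ r ≠ x) → (∃ t ∈ U', D.Adj s t) →
      (∀ r ∈ U', (∃ y ∈ insert w (insert s U'), ∃ z ∈ insert w (insert s U'), y ≠ z ∧
        D.Adj r y ∧ D.Adj r z) ∨ ((∃ y ∈ insert w (insert s U'), D.Adj r y) ∧
        ((∃ y ∈ M, y ≠ x ∧ y ∉ insert w (insert s U') ∧ 1 / 2 ≤ D.g r y ^ 2) ∨
        (∃ y ∈ M, ∃ z ∈ M, y ≠ x ∧ z ≠ x ∧ y ∉ insert w (insert s U') ∧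
          z ∉ insert w (insert s U') ∧ y ≠ z ∧ D.Adj r y ∧ D.Adj r z)))) → False := by
    intro x hx s o hso U' hU' ⟨t, ht, hst⟩ hr
    obtain ⟨S, hS, hv, hw, ha, hb, hM⟩ := getS x hx
    have hsS : s ∈ S := by rcases hso with ⟨rfl, rfl⟩ | ⟨rfl, rfl⟩ <;> assumption
    have hoS : o ∈ S := by rcases hso with ⟨rfl, rfl⟩ | ⟨rfl, rfl⟩ <;> assumption
    have Aws : D.Adj w s := by
      rcases hso with ⟨rfl, rfl⟩ | ⟨rfl, rfl⟩
      · exact h.Awp
      · exact h.Awq
    have Awo : D.Adj w o := by
      rcases hso with ⟨rfl, rfl⟩ | ⟨rfl, rfl⟩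
      · exact h.Awq
      · exact h.Awp
    have hvs : v ≠ s := by rcases hso with ⟨rfl, rfl⟩ | ⟨rfl, rfl⟩; exacts [h.vp, h.vq]
    have hvo : v ≠ o := by rcases hso with ⟨rfl, rfl⟩ | ⟨rfl, rfl⟩; exacts [h.vq, h.vp]
    have hos : o ≠ s := by rcases hso with ⟨rfl, rfl⟩ | ⟨rfl, rfl⟩; exacts [h.pq.symm, h.pq]
    have hoL : o ∈ L := by rcases hso with ⟨rfl, rfl⟩ | ⟨rfl, rfl⟩; exacts [h.mq, h.mp]
    refine D.fork_special hS hv hw hsS hoS h.Awv Aws Awo hvo hvs hos U'
      (fun r hr => hM r (hU' r hr).1 (hU' r hr).2) (fun h' => nv (hU' v h').1 rfl)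
      (fun h' => hdj (hU' o h').1 hoL) ⟨t, Finset.mem_insert_of_mem ht,
        Or.inl ⟨nw (hU' t ht).1, hst⟩⟩ fun r hrU => ?_
    rcases hr r hrU with h1 | ⟨h1, h2 | h2⟩
    · exact Or.inl h1
    · obtain ⟨y, hy, hyx, hyU, hg⟩ := h2
      exact Or.inr ⟨h1, Or.inl ⟨y, hM y hy hyx, hyU, hg⟩⟩
    · obtain ⟨y, hy, z, hz, hyx, hzx, hyU, hzU, hyz, h3, h4⟩ := h2
      exact Or.inr ⟨h1, Or.inr ⟨y, hM y hy hyx, z, hM z hz hzx, hyU, hzU, hyz, h3, h4⟩⟩
  have hab : (a = a ∧ b = b) ∨ (a = b ∧ b = a) := Or.inl ⟨rfl, rfl⟩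
  have hba : (b = a ∧ a = b) ∨ (b = b ∧ a = a) := Or.inr ⟨rfl, rfl⟩
  -- t0 has at most one neighbour in M - x
  have K1 : ∀ m ∈ M, m ≠ q' → m ≠ q → D.Adj t0 m → False := by
    intro m hm hmq' hmq htm
    refine K q' (Or.inr rfl) a b (Or.inl ⟨rfl, rfl⟩) {t0} ?_ ⟨t0, by simp, hat⟩ ?_
    · intro r hr; rw [Finset.mem_singleton] at hr; subst hr; exact ⟨ht0, ht0q'⟩
    · intro r hr; rw [Finset.mem_singleton] at hr; subst hr
      right
      refine ⟨⟨a, by simp, hat.symm D⟩, Or.inr ⟨m, hm, q, du.qM, hmq', hqq, ?_, ?_, hmq, htm,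
        hqt.symm D⟩⟩
      · simp [(nw hm).symm, (na hm).symm, htm.1.symm]
      · simp [(nw du.qM).symm, (na du.qM).symm, ht0q.symm]
  have hnb : ∀ m ∈ M, D.Adj t0 m → m = q := by
    intro m hm htm
    by_contra hmq
    by_cases hmq' : m = q'
    · subst hmq'
      exact hnoq' t0 ht0 a h.mp hat (htm.symm D)
    · exact K1 m hm hmq' hmq htm
  -- simple
  have hsq : D.g t0 q = -(1 / 2) := by
    by_contra hne
    refine K q' (Or.inr rfl) a b (Or.inl ⟨rfl, rfl⟩) {t0} ?_ ⟨t0, by simp, hat⟩ ?_
    · intro r hr; rw [Finset.mem_singleton] at hr; subst hr; exact ⟨ht0, ht0q'⟩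
    · intro r hr; rw [Finset.mem_singleton] at hr; subst hr
      right
      refine ⟨⟨a, by simp, hat.symm D⟩, Or.inl ⟨q, du.qM, hqq, ?_, D.heavy_of (hqt.symm D) hne⟩⟩
      simp [(nw du.qM).symm, (na du.qM).symm, ht0q.symm]
  have hsa : D.g a t0 = -(1 / 2) := by
    by_contra hne
    obtain ⟨S, hS, hv, hw, ha, hb, hM⟩ := getS q' (Or.inr rfl)
    refine D.fork_special hS hv hw ha hb h.Awv h.Awp h.Awq h.vq h.vp h.pq.symm ∅ (by simp)
      (by simp) (by simp) ⟨w, by simp, Or.inr (Or.inl ⟨t0, hM t0 ht0 ht0q', ?_,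
        D.heavy_of hat hne⟩)⟩ (by simp)
    simp [(nw ht0).symm, (na ht0).symm]
  -- b is not adjacent to t0
  have hbt : ¬ D.Adj b t0 := by
    intro hbt
    obtain ⟨S, hS, hv, hw, ha, hb, hM⟩ := getS q' (Or.inr rfl)
    refine core_test' hS (U := {w, a, t0, b}) ?_ ⟨w, by simp⟩ ?_
    · intro r hr; simp only [Finset.mem_insert, Finset.mem_singleton] at hr
      rcases hr with rfl | rfl | rfl | rfl
      · exact hw
      · exact ha
      · exact hM _ ht0 ht0q'
      · exact hb
    · intro r hr; simp only [Finset.mem_insert, Finset.mem_singleton] at hr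
      left
      rcases hr with rfl | rfl | rfl | rfl
      · exact ⟨a, by simp, b, by simp, h.pq, h.Awp, h.Awq⟩
      · exact ⟨w, by simp, t0, by simp, nw ht0, h.Apw, hat⟩
      · exact ⟨a, by simp, b, by simp, h.pq, hat.symm D, hbt.symm D⟩
      · exact ⟨w, by simp, t0, by simp, nw ht0, h.Aqw, hbt⟩
  -- cycles: a second contact `t'` connected to `t0` by a path `R` in M - q'
  have C : ∀ (R : Finset D.ι) (t' : D.ι), (∀ r ∈ R, r ∈ M ∧ r ≠ q') → t0 ∈ R → t' ∈ R →
      t' ≠ t0 →
      (∀ r ∈ R, r ≠ t0 → r ≠ t' → ∃ y ∈ R, ∃ z ∈ R, y ≠ z ∧ D.Adj r y ∧ D.Adj r z) →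
      (∃ y ∈ R, D.Adj t0 y) → (∃ y ∈ R, D.Adj t' y) → (D.Adj a t' ∨ D.Adj b t') → False := by
    intro R t' hR h0R htR htt hRR ⟨y0, hy0, hy0a⟩ ⟨y1, hy1, hy1a⟩ hcon
    obtain ⟨S, hS, hv, hw, ha, hb, hM⟩ := getS q' (Or.inr rfl)
    rcases hcon with hcon | hcon
    · refine core_test' hS (U := insert a R) ?_ ⟨a, by simp⟩ ?_
      · intro r hr
        rcases Finset.mem_insert.1 hr with rfl | hr
        · exact ha
        · exact hM r (hR r hr).1 (hR r hr).2
      · intro r hr
        left
        rcases Finset.mem_insert.1 hr with rfl | hr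
        · exact ⟨t0, by simp [h0R], t', by simp [htR], htt.symm, hat, hcon⟩
        · by_cases e0 : r = t0
          · subst e0
            exact ⟨a, by simp, y0, by simp [hy0], na (hR _ hy0).1, hat.symm D, hy0a⟩
          · by_cases e1 : r = t'
            · subst e1
              exact ⟨a, by simp, y1, by simp [hy1], na (hR _ hy1).1, hcon.symm D, hy1a⟩
            · obtain ⟨y, hy, z, hz, hyz, h1, h2⟩ := hRR r hr e0 e1
              exact ⟨y, by simp [hy], z, by simp [hz], hyz, h1, h2⟩
    · refine core_test' hS (U := insert w (insert a (insert b R))) ?_ ⟨a, by simp⟩ ?_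
      · intro r hr
        rcases Finset.mem_insert.1 hr with rfl | hr
        · exact hw
        · rcases Finset.mem_insert.1 hr with rfl | hr
          · exact ha
          · rcases Finset.mem_insert.1 hr with rfl | hr
            · exact hb
            · exact hM r (hR r hr).1 (hR r hr).2
      · intro r hr
        left
        rcases Finset.mem_insert.1 hr with rfl | hr
        · exact ⟨a, by simp, b, by simp, h.pq, h.Awp, h.Awq⟩
        · rcases Finset.mem_insert.1 hr with rfl | hr
          · exact ⟨w, by simp, t0, by simp [h0R], nw ht0, h.Apw, hat⟩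
          · rcases Finset.mem_insert.1 hr with rfl | hr
            · exact ⟨w, by simp, t', by simp [htR], nw (hR _ htR).1, h.Aqw, hcon⟩
            · by_cases e0 : r = t0
              · subst e0
                exact ⟨a, by simp, y0, by simp [hy0], na (hR _ hy0).1, hat.symm D, hy0a⟩
              · by_cases e1 : r = t'
                · subst e1
                  exact ⟨b, by simp, y1, by simp [hy1], nb (hR _ hy1).1, hcon.symm D, hy1a⟩
                · obtain ⟨y, hy, z, hz, hyz, h1, h2⟩ := hRR r hr e0 e1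
                  exact ⟨y, by simp [hy], z, by simp [hz], hyz, h1, h2⟩
  -- final step: signature
  have SG : (∀ t ∈ M, t ≠ t0 → t ≠ q → t ≠ q' → ¬ D.Adj a t ∧ ¬ D.Adj b t) →
      ∀ B : ℝ, 1 / 20 < B → D.NegAt M t0 B → False := by
    intro hX B hB hneg
    refine D.stmtSIGN L M a t0 5 B hdis h.mp ht0 hsa ?_ (by norm_num) (by linarith)
      (by linarith) ((D.stmtNEG.1 u v w a b L h).1) hneg
    intro s hs t ht hst
    obtain ⟨-, -, k1, k2⟩ := Duo.con_ne D du hs ht hst
    by_cases e : t = t0
    · subst e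
      rcases hc s hs ⟨t, ht, hst⟩ with rfl | rfl
      · exact ⟨rfl, rfl⟩
      · exact absurd hst hbt
    · obtain ⟨k3, k4⟩ := hX t ht e k1 k2
      rcases hc s hs ⟨t, ht, hst⟩ with rfl | rfl
      · exact absurd hst k3
      · exact absurd hst k4
  -- two distinct neighbours of t0 are impossible
  have two : ∀ m ∈ M, ∀ m' ∈ M, m ≠ m' → D.Adj t0 m → D.Adj t0 m' → False := by
    intro m hm m' hm' hne h1 h2
    exact hne ((hnb m hm h1).trans (hnb m' hm' h2).symm)
  have heavy : ∀ m ∈ M, D.Adj t0 m → D.g t0 m ≠ -(1 / 2) → False := by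
    intro m hm h1 h2
    have := hnb m hm h1
    subst this
    exact h2 hsq
  have c5ne : ∀ {x y : D.ι}, D.g x y = -c5 → D.g x y ≠ -(1 / 2) := by
    intro x y h h'; rw [h'] at h; have := c5_gt; linarith
  have s2ne : ∀ {x y : D.ι}, D.g x y = -(√2 / 2) → D.g x y ≠ -(1 / 2) := by
    intro x y h h'; rw [h'] at h; have := s2_gt; linarith
  -- the type of M
  rcases hcls M du.lanM with k | ⟨a', b', c', e', k⟩ | ⟨z', u', a', b', k⟩ | ⟨a', b', c', e', k⟩ |
      ⟨a', b', c', e', k⟩ | ⟨a', b', c', e', k⟩ | ⟨u', v', w', a', b', k⟩ |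
      ⟨a', b', c', d', e', z, hz, k⟩ | ⟨a', b', c', d', e', k⟩
  · -- small
    have hM : ({t0, q, q'} : Finset D.ι) = M := by
      apply Finset.eq_of_subset_of_card_le
      · intro r hr
        simp only [Finset.mem_insert, Finset.mem_singleton] at hr
        rcases hr with rfl | rfl | rfl
        · exact ht0
        · exact du.qM
        · exact du.qM'
      · rw [Finset.card_insert_of_notMem (by simp [ht0q, ht0q']), Finset.card_pair hqq]; exact k
    have hg : D.g t0 q' = 0 := D.g_eq_zero ht0q' fun ha => hqq (hnb q' du.qM' ha).symm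
    refine SG ?_ (6 / 25) (by norm_num) (D.stmtNEG.2.2.2.2.2 M t0 q q' du.lanM hM.symm ht0q ht0q'
      hqq hsq hg)
    intro t ht h1 h2 h3
    rw [← hM] at ht
    simp only [Finset.mem_insert, Finset.mem_singleton] at ht
    rcases ht with ht | ht | ht
    · exact absurd ht h1
    · exact absurd ht h2
    · exact absurd ht h3
  · -- cyc4
    have ex : t0 = a' ∨ t0 = b' ∨ t0 = c' ∨ t0 = e' := by
      have := ht0; rw [k.eq] at this; simpa using this
    rcases ex with rfl | rfl | rfl | rfl
    · exact two _ k.mb _ k.md k.bd k.ab (k.da.symm D)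
    · exact two _ k.ma _ k.mc k.ac (k.ab.symm D) k.bc
    · exact two _ k.mb _ k.md k.bd (k.bc.symm D) k.cd
    · exact two _ k.ma _ k.mc k.ac k.da (k.cd.symm D)
  · -- star
    have main : ∀ {a' b' : D.ι}, D.Star4 z' u' a' b' M → t0 = a' → False := by
      intro a' b' k e
      subst e
      have hq : z' = q := hnb z' k.mz k.Apz
      have ex : q' = z' ∨ q' = u' ∨ q' = t0 ∨ q' = b' := by
        have := du.qM'; rw [k.eq] at this; simpa using this
      rcases ex with e | e | e | e
      · exact hqq (hq.symm.trans e.symm)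
      · -- q' = u'
        refine SG ?_ 1 (by norm_num) (D.stmtNEG.2.2.2.2.1 z' u' t0 b' M k).1
        intro t ht h1 h2 h3
        have ext : t = b' := by
          rw [k.eq] at ht
          simp only [Finset.mem_insert, Finset.mem_singleton] at ht
          rcases ht with ht | ht | ht | ht
          · exact absurd (ht.trans hq) h2
          · exact absurd (ht.trans e.symm) h3
          · exact absurd ht h1
          · exact ht
        subst ext
        have key := C {t0, z', t} t (by
          intro r hr; simp only [Finset.mem_insert, Finset.mem_singleton] at hr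
          rcases hr with rfl | rfl | rfl
          · exact ⟨ht0, ht0q'⟩
          · exact ⟨k.mz, by rw [hq]; exact hqq⟩
          · exact ⟨ht, h3⟩) (by simp) (by simp) h1 (by
          intro r hr h0 h1
          simp only [Finset.mem_insert, Finset.mem_singleton] at hr
          rcases hr with rfl | rfl | rfl
          · exact absurd rfl h0
          · exact ⟨t0, by simp, t, by simp, k.pq, k.Azp, k.Azq⟩
          · exact absurd rfl h1) ⟨z', by simp, k.Apz⟩ ⟨z', by simp, k.Aqz⟩
        exact ⟨fun ha => key (Or.inl ha), fun hb => key (Or.inr hb)⟩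
      · exact ht0q' e.symm
      · -- q' = b'
        subst e
        refine K q' (Or.inr rfl) a b (Or.inl ⟨rfl, rfl⟩) {t0, z'} ?_ ⟨t0, by simp, hat⟩ ?_
        · intro r hr; simp only [Finset.mem_insert, Finset.mem_singleton] at hr
          rcases hr with rfl | rfl
          · exact ⟨ht0, ht0q'⟩
          · exact ⟨k.mz, k.zq⟩
        · intro r hr; simp only [Finset.mem_insert, Finset.mem_singleton] at hr
          rcases hr with rfl | rfl
          · left; exact ⟨a, by simp, z', by simp, na k.mz, hat.symm D, k.Apz⟩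
          · right
            refine ⟨⟨t0, by simp, k.Azp⟩, Or.inl ⟨u', k.mu, k.uq, ?_, c5_heavy k.vzu⟩⟩
            simp [(nw k.mu).symm, (na k.mu).symm, k.up, k.zu.symm]
    have ex : t0 = z' ∨ t0 = u' ∨ t0 = a' ∨ t0 = b' := by
      have := ht0; rw [k.eq] at this; simpa using this
    rcases ex with e | e | e | e
    · subst e; exact two _ k.mu _ k.mp k.up k.Azu k.Azp
    · subst e; exact heavy _ k.mz k.Auz (c5ne (by rw [D.symm]; exact k.vzu))
    · exact main k e
    · exact main (Star4.swap D k) e
  · -- 353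
    have main : ∀ {a' b' c' e' : D.ι}, D.Path4 a' b' c' e' (1 / 2) c5 (1 / 2) M → t0 = a' →
        False := by
      intro a' b' c' e' k e
      subst e
      have hq : b' = q := hnb b' k.mb (k.Aab (by norm_num))
      have ex : q' = t0 ∨ q' = b' ∨ q' = c' ∨ q' = e' := by
        have := du.qM'; rw [k.eq] at this; simpa using this
      rcases ex with e | e | e | e
      · exact ht0q' e.symm
      · exact hqq (hq.symm.trans e.symm)
      · -- q' = c'
        subst e
        refine SG ?_ (4 / 5) (by norm_num) (D.stmtNEG.2.2.2.1 t0 b' q' e' M k).1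
        intro t ht h1 h2 h3
        have ext : t = e' := by
          rw [k.eq] at ht
          simp only [Finset.mem_insert, Finset.mem_singleton] at ht
          rcases ht with ht | ht | ht | ht
          · exact absurd ht h1
          · exact absurd (ht.trans hq) h2
          · exact absurd ht h3
          · exact ht
        subst ext
        exact ⟨fun ha => hnoq' t ht a h.mp ha (k.Acd (by norm_num)),
          fun hb => hnoq' t ht b h.mq hb (k.Acd (by norm_num))⟩
      · -- q' = e'
        subst e
        refine K q' (Or.inr rfl) a b (Or.inl ⟨rfl, rfl⟩) {t0, b'} ?_ ⟨t0, by simp, hat⟩ ?_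
        · intro r hr; simp only [Finset.mem_insert, Finset.mem_singleton] at hr
          rcases hr with rfl | rfl
          · exact ⟨ht0, ht0q'⟩
          · exact ⟨k.mb, k.bd⟩
        · intro r hr; simp only [Finset.mem_insert, Finset.mem_singleton] at hr
          rcases hr with rfl | rfl
          · left; exact ⟨a, by simp, b', by simp, na k.mb, hat.symm D, k.Aab (by norm_num)⟩
          · right
            refine ⟨⟨t0, by simp, k.Aba (by norm_num)⟩,
              Or.inl ⟨c', k.mc, k.cd, ?_, c5_heavy k.vbc⟩⟩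
            simp [(nw k.mc).symm, (na k.mc).symm, k.ac.symm, k.bc.symm]
    have ex : t0 = a' ∨ t0 = b' ∨ t0 = c' ∨ t0 = e' := by
      have := ht0; rw [k.eq] at this; simpa using this
    rcases ex with e | e | e | e
    · exact main k e
    · subst e; exact two _ k.ma _ k.mc k.ac (k.Aba (by norm_num)) (k.Abc c5_pos)
    · subst e; exact two _ k.mb _ k.md k.bd (k.Acb c5_pos) (k.Acd (by norm_num))
    · exact main (Path4.rev D k) e
  · -- 534
    have ex : t0 = a' ∨ t0 = b' ∨ t0 = c' ∨ t0 = e' := by
      have := ht0; rw [k.eq] at this; simpa using this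
    rcases ex with e | e | e | e
    · subst e; exact heavy _ k.mb (k.Aab c5_pos) (c5ne k.vab)
    · subst e; exact two _ k.ma _ k.mc k.ac (k.Aba c5_pos) (k.Abc (by norm_num))
    · subst e; exact two _ k.mb _ k.md k.bd (k.Acb (by norm_num)) (k.Acd s2_pos)
    · subst e; exact heavy _ k.mc (k.Adc s2_pos) (s2ne (by rw [D.symm]; exact k.vcd))
  · -- 535
    have ex : t0 = a' ∨ t0 = b' ∨ t0 = c' ∨ t0 = e' := by
      have := ht0; rw [k.eq] at this; simpa using this
    rcases ex with e | e | e | e
    · subst e; exact heavy _ k.mb (k.Aab c5_pos) (c5ne k.vab)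
    · subst e; exact two _ k.ma _ k.mc k.ac (k.Aba c5_pos) (k.Abc (by norm_num))
    · subst e; exact two _ k.mb _ k.md k.bd (k.Acb (by norm_num)) (k.Acd c5_pos)
    · subst e; exact heavy _ k.mc (k.Adc c5_pos) (c5ne (by rw [D.symm]; exact k.vcd))
  · -- fork
    have main : ∀ {a' b' : D.ι}, D.Fork u' v' w' a' b' M → t0 = a' → False := by
      intro a' b' k e
      subst e
      have hq : w' = q := hnb w' k.mw k.Apw
      have ex : q' = u' ∨ q' = v' ∨ q' = w' ∨ q' = t0 ∨ q' = b' := by
        have := du.qM'; rw [k.eq] at this; simpa using this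
      rcases ex with e | e | e | e | e
      · -- q' = u'
        subst e
        refine K q' (Or.inr rfl) a b (Or.inl ⟨rfl, rfl⟩) {t0, w'} ?_ ⟨t0, by simp, hat⟩ ?_
        · intro r hr; simp only [Finset.mem_insert, Finset.mem_singleton] at hr
          rcases hr with rfl | rfl
          · exact ⟨ht0, ht0q'⟩
          · exact ⟨k.mw, k.uw.symm⟩
        · intro r hr; simp only [Finset.mem_insert, Finset.mem_singleton] at hr
          rcases hr with rfl | rfl
          · left; exact ⟨a, by simp, w', by simp, na k.mw, hat.symm D, k.Apw⟩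
          · right
            refine ⟨⟨t0, by simp, k.Awp⟩,
              Or.inr ⟨v', k.mv, b', k.mq, k.uv.symm, k.uq.symm, ?_, ?_, k.vq, k.Awv, k.Awq⟩⟩
            · simp [(nw k.mv).symm, (na k.mv).symm, k.vp, k.vw]
            · simp [(nw k.mq).symm, (na k.mq).symm, k.pq.symm, k.wq.symm]
      · -- q' = v' : D7~
        subst e
        have zero : ∀ s ∈ L, ∀ t ∈ M, ¬ D.Adj s t → D.g s t = 0 := fun s hs t ht hn =>
          D.g_eq_zero (fun e => hdj ht (e ▸ hs)) hn
        have hcv : ∀ t ∈ M, ¬ D.Adj v t := by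
          intro t ht hv
          rcases hc v h.mv ⟨t, ht, hv⟩ with e | e
          · exact h.vp e
          · exact h.vq e
        have hcw : ∀ t ∈ M, ¬ D.Adj w t := by
          intro t ht hv
          rcases hc w h.mw ⟨t, ht, hv⟩ with e | e
          · exact h.wp e
          · exact h.wq e
        have key := C {t0, w', b'} b' (by
          intro r hr; simp only [Finset.mem_insert, Finset.mem_singleton] at hr
          rcases hr with rfl | rfl | rfl
          · exact ⟨ht0, ht0q'⟩
          · exact ⟨k.mw, k.vw.symm⟩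
          · exact ⟨k.mq, k.vq.symm⟩) (by simp) (by simp) k.pq.symm (by
          intro r hr h0 h1
          simp only [Finset.mem_insert, Finset.mem_singleton] at hr
          rcases hr with rfl | rfl | rfl
          · exact absurd rfl h0
          · exact ⟨t0, by simp, b', by simp, k.pq, k.Awp, k.Awq⟩
          · exact absurd rfl h1) ⟨w', by simp, k.Apw⟩ ⟨w', by simp, k.Aqw⟩
        have g1 : D.g a b' = 0 := zero a h.mp b' k.mq fun ha => key (Or.inl ha)
        have g2 : D.g b b' = 0 := zero b h.mq b' k.mq fun ha => key (Or.inr ha)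
        have hQ : ∀ s ∈ L, D.g s w' = 0 ∧ D.g s q' = 0 := by
          intro s hs
          refine ⟨zero s hs w' k.mw fun ha => ?_, zero s hs q' k.mv fun ha => ?_⟩
          · rw [hq] at ha; exact du.nQ s hs (ha.symm D)
          · exact du.nQ' s hs (ha.symm D)
        have g3 := hQ a h.mp
        have g4 := hQ b h.mq
        have g5 := hQ v h.mv
        have g6 := hQ w h.mw
        have g7 : D.g b t0 = 0 := zero b h.mq t0 ht0 hbt
        have g8 : D.g v t0 = 0 := zero v h.mv t0 ht0 (hcv t0 ht0)
        have g9 : D.g v b' = 0 := zero v h.mv b' k.mq (hcv b' k.mq)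
        have g10 : D.g w t0 = 0 := zero w h.mw t0 ht0 (hcw t0 ht0)
        have g11 : D.g w b' = 0 := zero w h.mw b' k.mq (hcw b' k.mq)
        -- vector
        set f : Fin 8 → D.ι := ![v, b, w, a, t0, w', b', q'] with hf
        have hfi : Function.Injective f := by
          rw [← List.nodup_ofFn]
          have i1 := h.vw; have i2 := h.vp; have i3 := h.vq; have i4 := h.wp; have i5 := h.wq
          have i6 := h.pq
          have j1 := k.vw; have j2 := k.vp; have j3 := k.vq; have j4 := k.wp; have j5 := k.wq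
          have j6 := k.pq
          have l1 := nv ht0; have l2 := nv k.mw; have l3 := nv k.mq; have l4 := nv k.mv
          have m1 := nw ht0; have m2 := nw k.mw; have m3 := nw k.mq; have m4 := nw k.mv
          have n1 := na ht0; have n2 := na k.mw; have n3 := na k.mq; have n4 := na k.mv
          have o1 := nb ht0; have o2 := nb k.mw; have o3 := nb k.mq; have o4 := nb k.mv
          simp [hf, List.ofFn_succ]
          grind
        set c : Fin 8 → ℝ := ![1, 1, 2, 2, 2, 2, 1, 1] with hcdef
        have hvecf : ∀ x, D.vec f c (f x) = c x := fun x => D.vec_apply hfi c x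
        have hrow : ∀ x : Fin 8, ∑ y, c y * D.g (f x) (f y) = 0 := by
          intro x
          have s1 := D.symm b v; have s2 := D.symm w v; have s3 := D.symm a v
          have s4 := D.symm t0 v; have s5 := D.symm w' v; have s6 := D.symm b' v
          have s7 := D.symm q' v
          have s8 := D.symm w b; have s9 := D.symm a b; have s10 := D.symm t0 b
          have s11 := D.symm w' b; have s12 := D.symm b' b; have s13 := D.symm q' b
          have s14 := D.symm a w; have s15 := D.symm t0 w; have s16 := D.symm w' w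
          have s17 := D.symm b' w; have s18 := D.symm q' w
          have s19 := D.symm t0 a; have s20 := D.symm w' a; have s21 := D.symm b' a
          have s22 := D.symm q' a
          have s23 := D.symm w' t0; have s24 := D.symm b' t0; have s25 := D.symm q' t0
          have s26 := D.symm b' w'; have s27 := D.symm q' w'; have s28 := D.symm q' b'
          have v1 := h.vvw; have v2 := h.vvp; have v3 := h.vvq; have v4 := h.vwp
          have v5 := h.vwq; have v6 := h.vpq
          have w1 := k.vvw; have w2 := k.vvp; have w3 := k.vvq; have w4 := k.vwp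
          have w5 := k.vwq; have w6 := k.vpq
          have s29 := D.symm b a; have s30 := D.symm w' q'; have s31 := D.symm b' q'
          have s32 := D.symm t0 q'; have s33 := D.symm t0 w'; have s34 := D.symm b' w'
          have s35 := D.symm t0 b'
          rw [Fin.sum_univ_eight]
          fin_cases x <;> simp [hf, hcdef, D.self] <;> linarith [g3.1, g3.2, g4.1, g4.2, g5.1,
            g5.2, g6.1, g6.2]
        have hsupp : ∀ i, (∀ x, f x ≠ i) → D.vec f c i = 0 := by
          intro i hi
          unfold vec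
          refine Finset.sum_eq_zero fun x _ => ?_
          rw [if_neg (hi x)]
        have hcpos : ∀ x, 0 < c x := by intro x; fin_cases x <;> norm_num [hcdef]
        have hno' := D.noPar (D.vec f c) (by
          intro i
          by_cases hi : ∃ x, f x = i
          · obtain ⟨x, rfl⟩ := hi
            rw [hvecf]; exact (hcpos x).le
          · push Not at hi
            rw [hsupp i hi]) (by
          intro h0
          have := hvecf 0
          rw [h0] at this
          have h1 := hcpos 0
          rw [← this] at h1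
          exact lt_irrefl _ h1) (by
          intro i hi
          by_cases hi' : ∃ x, f x = i
          · obtain ⟨x, rfl⟩ := hi'
            have e1 : ∑ j, D.g (f x) j * D.vec f c j = ∑ j, D.vec f c j * D.g (f x) j :=
              Finset.sum_congr rfl fun j _ => mul_comm _ _
            rw [e1, D.sum_vec, hrow x]
          · push Not at hi'
            rw [hsupp i hi'] at hi; exact absurd hi (lt_irrefl _))
        unfold qf at hno'
        rw [D.bf_vec] at hno'
        have e2 : ∑ x, ∑ y, c x * c y * D.g (f x) (f y) = 0 := by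
          refine Finset.sum_eq_zero fun x _ => ?_
          have : ∑ y, c x * c y * D.g (f x) (f y) = c x * ∑ y, c y * D.g (f x) (f y) := by
            rw [Finset.mul_sum]; exact Finset.sum_congr rfl fun y _ => by ring
          rw [this, hrow x, mul_zero]
        rw [e2] at hno'
        exact lt_irrefl _ hno'
      · exact hqq (hq.symm.trans e.symm)
      · exact ht0q' e.symm
      · -- q' = b'
        subst e
        refine K q' (Or.inr rfl) a b (Or.inl ⟨rfl, rfl⟩) {t0, w', v'} ?_ ⟨t0, by simp, hat⟩ ?_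
        · intro r hr; simp only [Finset.mem_insert, Finset.mem_singleton] at hr
          rcases hr with rfl | rfl | rfl
          · exact ⟨ht0, ht0q'⟩
          · exact ⟨k.mw, k.wq⟩
          · exact ⟨k.mv, k.vq⟩
        · intro r hr; simp only [Finset.mem_insert, Finset.mem_singleton] at hr
          rcases hr with rfl | rfl | rfl
          · left; exact ⟨a, by simp, w', by simp, na k.mw, hat.symm D, k.Apw⟩
          · left; exact ⟨t0, by simp, v', by simp, k.vp.symm, k.Awp, k.Awv⟩
          · right
            refine ⟨⟨w', by simp, k.Avw⟩,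
              Or.inl ⟨u', k.mu, k.uq, ?_, c5_heavy (by rw [D.symm]; exact k.vuv)⟩⟩
            simp [(nw k.mu).symm, (na k.mu).symm, k.up, k.uw, k.uv]
    have ex : t0 = u' ∨ t0 = v' ∨ t0 = w' ∨ t0 = a' ∨ t0 = b' := by
      have := ht0; rw [k.eq] at this; simpa using this
    rcases ex with e | e | e | e | e
    · subst e; exact heavy _ k.mv k.Auv (c5ne k.vuv)
    · subst e; exact two _ k.mu _ k.mw k.uw k.Avu k.Avw
    · subst e; exact two _ k.mv _ k.mp k.vp k.Awv k.Awp
    · exact main k e
    · exact main (Fork.swap D k) e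
  · -- path5
    have hz0 : 0 < z := by
      rcases hz with rfl | rfl | rfl
      · norm_num
      · exact s2_pos
      · exact c5_pos
    have ex : t0 = a' ∨ t0 = b' ∨ t0 = c' ∨ t0 = d' ∨ t0 = e' := by
      have := ht0; rw [k.eq] at this; simpa using this
    rcases ex with e | e | e | e | e
    · subst e; exact heavy _ k.mb (k.Aab c5_pos) (c5ne k.vab)
    · subst e; exact two _ k.ma _ k.mc k.ac (k.Aba c5_pos) (k.Abc (by norm_num))
    · subst e; exact two _ k.mb _ k.md k.bd (k.Acb (by norm_num)) (k.Acd (by norm_num))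
    · subst e; exact two _ k.mc _ k.me k.ce (k.Adc (by norm_num)) (k.Ade hz0)
    · subst e
      have hq : d' = q := hnb d' k.md (k.Aed hz0)
      have hz1 : z = 1 / 2 := by
        have : D.g t0 d' = -z := by rw [D.symm]; exact k.vde
        rw [hq, hsq] at this; linarith
      subst hz1
      have ex : q' = a' ∨ q' = b' ∨ q' = c' ∨ q' = d' ∨ q' = t0 := by
        have := du.qM'; rw [k.eq] at this; simpa using this
      refine SG ?_ 1 (by norm_num) (D.stmtNEG.2.1 a' b' c' d' t0 M k)
      intro t ht h1 h2 h3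
      have ext : t = a' ∨ t = b' ∨ t = c' := by
        rw [k.eq] at ht
        simp only [Finset.mem_insert, Finset.mem_singleton] at ht
        rcases ht with ht | ht | ht | ht | ht
        · exact Or.inl ht
        · exact Or.inr (Or.inl ht)
        · exact Or.inr (Or.inr ht)
        · exact absurd (ht.trans hq) h2
        · exact absurd ht h1
      have viaq' : D.Adj q' t → ¬ D.Adj a t ∧ ¬ D.Adj b t := fun hq't =>
        ⟨fun ha => hnoq' t ht a h.mp ha hq't, fun hb => hnoq' t ht b h.mq hb hq't⟩
      rcases ex with e | e | e | e | e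
      · -- q' = a'
        subst e
        rcases ext with e | e | e
        · exact absurd e h3
        · subst e; exact viaq' (k.Aab c5_pos)
        · subst e
          have key := C {t0, d', t} t (by
            intro r hr; simp only [Finset.mem_insert, Finset.mem_singleton] at hr
            rcases hr with rfl | rfl | rfl
            · exact ⟨ht0, ht0q'⟩
            · exact ⟨k.md, k.ad.symm⟩
            · exact ⟨ht, h3⟩) (by simp) (by simp) h1 (by
            intro r hr h0 h1
            simp only [Finset.mem_insert, Finset.mem_singleton] at hr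
            rcases hr with rfl | rfl | rfl
            · exact absurd rfl h0
            · exact ⟨t0, by simp, t, by simp, k.ce.symm, k.Ade (by norm_num), k.Adc (by norm_num)⟩
            · exact absurd rfl h1) ⟨d', by simp, k.Aed (by norm_num)⟩
            ⟨d', by simp, k.Acd (by norm_num)⟩
          exact ⟨fun ha => key (Or.inl ha), fun hb => key (Or.inr hb)⟩
      · -- q' = b'
        subst e
        rcases ext with e | e | e
        · subst e; exact viaq' (k.Aba c5_pos)
        · exact absurd e h3
        · subst e; exact viaq' (k.Abc (by norm_num))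
      · -- q' = c'
        subst e
        rcases ext with e | e | e
        · subst e
          have key : ∀ s o, ((s = a ∧ o = b) ∨ (s = b ∧ o = a)) → D.Adj s t → False := by
            intro s o hso hst
            have hsL : s ∈ L := by rcases hso with ⟨rfl, rfl⟩ | ⟨rfl, rfl⟩; exacts [h.mp, h.mq]
            refine K q' (Or.inr rfl) s o hso {t} ?_ ⟨t, by simp, hst⟩ ?_
            · intro r hr; rw [Finset.mem_singleton] at hr; subst hr; exact ⟨ht, h3⟩
            · intro r hr; rw [Finset.mem_singleton] at hr; subst hr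
              right
              refine ⟨⟨s, by simp, hst.symm D⟩, Or.inl ⟨b', k.mb, k.bc, ?_, c5_heavy k.vab⟩⟩
              simp only [Finset.mem_insert, Finset.mem_singleton, not_or]
              exact ⟨(nw k.mb).symm, fun e => hdj k.mb (e ▸ hsL), k.ab.symm⟩
          exact ⟨fun ha => key a b (Or.inl ⟨rfl, rfl⟩) ha, fun hb => key b a (Or.inr ⟨rfl, rfl⟩) hb⟩
        · subst e; exact viaq' (k.Acb (by norm_num))
        · exact absurd e h3
      · exact absurd (hq.symm.trans e.symm) hqq
      · exact absurd e.symm ht0q'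
  · -- cyc5
    have ex : t0 = a' ∨ t0 = b' ∨ t0 = c' ∨ t0 = d' ∨ t0 = e' := by
      have := ht0; rw [k.eq] at this; simpa using this
    rcases ex with e | e | e | e | e
    · subst e; exact two _ k.mb _ k.me k.be k.Aab k.Aae
    · subst e; exact two _ k.ma _ k.mc k.ac k.Aba k.Abc
    · subst e; exact two _ k.mb _ k.md k.bd k.Acb k.Acd
    · subst e; exact two _ k.mc _ k.me k.ce k.Adc k.Ade
    · subst e; exact two _ k.ma _ k.md k.ad k.Aea k.Aed

theorem stmtFTOUCH (hcls : D.StmtCLS) : D.StmtFTOUCH := by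
  intro p p' q q' L M du u v w a b h hP hdis hc ⟨t0, ht0, ht0L, hqt, s0, hs0, hts⟩
  by_contra hno
  have hst := hts.symm D
  rcases hc s0 hs0 ⟨t0, ht0, hst⟩ with rfl | rfl
  · exact D.ftouch_aux hcls du h hP hdis hc ht0 hqt hst hno
  · exact D.ftouch_aux hcls du (Fork.swap D h) hP hdis
      (fun s hs hc' => (hc s hs hc').symm) ht0 hqt hst hno

end CoxData

end MP345
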