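import Mathlib
import Pool.Agent.Work.MP_345ef2_gt_24.LType

/-!
# Interface for the T level (MP_345ef2_gt, n <= 24)

Every `Stmt...` is a block.  All payments are multiplied by four, the budget by eight.
-/

namespace MP345

open Finset

variable {n : ℕ}

namespace CoxData

variable (D : CoxData n)

/-! ### trees -/

/-- sum of the degrees of the diagram `U` -/
noncomputable def ds (U : Finset D.ι) : ℕ := ∑ x ∈ U, (D.nb U x).card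

/-- `U` has at least `|U| - 1` edges (for `U` positive definite: `U` is a tree) -/
def TC (U : Finset D.ι) : Prop := U.Nonempty ∧ 2 * U.card ≤ D.ds U + 2

/-- heavy edge (label at least 4), see `Adj.simple_or` -/
def Heavy (a b : D.ι) : Prop := D.Adj a b ∧ D.g a b ≠ -(1 / 2)

open scoped Classical in
/-- **Block TREE**: a positive definite tree has at most one branch node and at most three leaves. -/
def StmtTREE : Prop := ∀ U : Finset D.ι, PD D.g U → D.TC U →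
  D.ds U + 2 = 2 * U.card ∧ (U.filter fun x => (D.nb U x).card = 3).card ≤ 1 ∧
  2 * (U.filter fun x => (D.nb U x).card = 0).card + (U.filter fun x => (D.nb U x).card = 1).card =
    2 + (U.filter fun x => (D.nb U x).card = 3).card

/-- **Block SPLIT**: trees are connected -/
def StmtSPLIT : Prop := ∀ U A : Finset D.ι, PD D.g U → D.TC U → A ⊆ U → A.Nonempty → A ≠ U →
  ∃ a ∈ A, ∃ b ∈ U, b ∉ A ∧ D.Adj a b

/-- **Block HEAVY**: a tree with a heavy edge has no branch node -/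
def StmtHEAVY : Prop := ∀ U : Finset D.ι, PD D.g U → D.TC U → (∃ a ∈ U, ∃ b ∈ U, D.Heavy a b) →
  ∀ x ∈ U, (D.nb U x).card ≤ 2

/-- **Block FIVE**: a tree with an edge of label 5 has at most four nodes -/
def StmtFIVE : Prop := ∀ U : Finset D.ι, PD D.g U → D.TC U → (∃ a ∈ U, ∃ b ∈ U, D.g a b = -c5) →
  U.card ≤ 4

/-- a tree `V` in a positive definite set with neighbours `N1` and second neighbours `N2` -/
structure GenHyp (S V N1 N2 : Finset D.ι) : Prop where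
  pd : PD D.g S
  sV : V ⊆ S
  s1 : N1 ⊆ S
  s2 : N2 ⊆ S
  d1 : Disjoint V N1
  d2 : Disjoint V N2
  d3 : Disjoint N1 N2
  tc : D.TC V
  h1 : ∀ m ∈ N1, ∃ v ∈ V, D.Adj m v
  h2 : ∀ x ∈ N2, ∃ m ∈ N1, D.Adj x m
  h3 : ∀ x ∈ N2, ∀ v ∈ V, ¬ D.Adj x v

/-- `y` is an end of `V` that is not adjacent to `N1` -/
def Prot (V N1 : Finset D.ι) (y : D.ι) : Prop :=
  y ∈ V ∧ 2 ≤ V.card ∧ (D.nb V y).card ≤ 1 ∧ ∀ m ∈ N1, ¬ D.Adj y m

open scoped Classical in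
/-- **Block GEN** -/
def StmtGEN : Prop := ∀ S V N1 N2 : Finset D.ι, D.GenHyp S V N1 N2 →
  D.TC (V ∪ N1 ∪ N2) ∧ (∀ m ∈ N1, (D.nb V m).card = 1) ∧ (∀ m ∈ N1, ∀ m' ∈ N1, ¬ D.Adj m m') ∧
  (∀ x ∈ N2, (D.nb N1 x).card = 1) ∧
  N1.card ≤ 3 ∧ N2.card ≤ 3 ∧ N1.card + N2.card ≤ 5 ∧
  (∀ y, D.Prot V N1 y → N1.card ≤ 2 ∧ N2.card ≤ 2) ∧
  ((∃ a ∈ V, ∃ b ∈ V, D.Heavy a b) → N1.card ≤ 2 ∧ N2.card ≤ 2 ∧
    ∀ y, D.Prot V N1 y → N1.card ≤ 1 ∧ N2.card ≤ 1) ∧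
  ((∃ a ∈ V, ∃ b ∈ V, D.g a b = -c5) → V.card + N1.card + N2.card ≤ 4)

/-! ### the neighbourhoods of `L = LM T` -/

/-- `x` is not adjacent to any element of `P` -/
def NA (x : D.ι) (P : Finset D.ι) : Prop := ∀ p ∈ P, ¬ D.Adj x p

open scoped Classical in
/-- neighbours of `L` outside `L`, not adjacent to `P` -/
noncomputable def N1 (T L P : Finset D.ι) : Finset D.ι :=
  T.filter fun m => m ∉ L ∧ D.NA m P ∧ ∃ s ∈ L, D.Adj m s

open scoped Classical in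
/-- second neighbours of `L`, not adjacent to `P` -/
noncomputable def N2 (T L P : Finset D.ι) : Finset D.ι :=
  T.filter fun x => x ∉ L ∧ D.NA x P ∧ D.NA x L ∧ ∃ m ∈ D.N1 T L P, D.Adj x m

open scoped Classical in
/-- third neighbours of `L`, not adjacent to `P` -/
noncomputable def N3 (T L P : Finset D.ι) : Finset D.ι :=
  T.filter fun x => x ∉ L ∧ D.NA x P ∧ D.NA x L ∧ D.NA x (D.N1 T L P) ∧ ∃ m ∈ D.N2 T L P, D.Adj x m

open scoped Classical in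
/-- the elements of `L \ R(T)` outside `P` that are not adjacent to `P` -/
noncomputable def N0 (T L P : Finset D.ι) : Finset D.ι :=
  (L \ Rset D.g T).filter fun x => D.NA x P

open scoped Classical in
/-- four times the sum of the charges for the pair `P` -/
noncomputable def G (T P : Finset D.ι) : ℕ :=
  ∑ x ∈ (T \ Rset D.g T).filter (fun x => ∀ p ∈ P, D.g x p = 0), D.w4 T x P

/-- four times the charge of a near side with `k` corners at distance two -/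
def q4 (k : ℕ) : ℕ := if k = 0 then 4 else if k = 1 then 1 else 0

open scoped Classical in
/-- bound for four times the charge of a second neighbour -/
noncomputable def c2 (T : Finset D.ι) (x : D.ι) (P : Finset D.ι) : ℕ :=
  if D.cnt T x P = 0 then
    (if D.cls (D.LM T) = 4 then (if D.Far2s T x P ∨ D.Five P then 4 else 3)
     else if (D.cls (D.LM T) = 1 ∨ D.cls (D.LM T) = 2) ∧ D.Five P ∧ ¬ D.Far2d T x P then 1
     else 2)
  else if D.cnt T x P = 1 then 1 else 0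

open scoped Classical in
/-- bound for four times the charge of a third neighbour -/
noncomputable def c3 (T : Finset D.ι) (x : D.ι) (P : Finset D.ι) : ℕ :=
  if D.cls (D.LM T) = 4 ∧ D.Five P then q4 (D.cnt T x P) else 0

open scoped Classical in
/-- **Block GDEC**: decomposition of `G`. -/
def StmtGDEC : Prop := ∀ T ∈ Tsets D.g n, ∀ a ∈ Rset D.g T, ∀ b ∈ Rset D.g T, a ≠ b →
  D.G T {a, b} ≤ ∑ x ∈ D.N0 T (D.LM T) {a, b}, q4 (D.cnt T x {a, b}) +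
    ∑ x ∈ D.N1 T (D.LM T) {a, b}, q4 (D.cnt T x {a, b}) +
    ∑ x ∈ D.N2 T (D.LM T) {a, b}, D.c2 T x {a, b} +
    ∑ x ∈ D.N3 T (D.LM T) {a, b}, D.c3 T x {a, b}

/-- **Block CTX**: basic facts on `L = LM T`. -/
def StmtCTX : Prop := ∀ T ∈ Tsets D.g n,
  ¬ PD D.g T ∧ D.Lan (D.LM T) ∧ D.LM T ⊆ T ∧ Rset D.g T ⊆ D.LM T ∧
  (∀ x ∈ Rset D.g T, PD D.g (T.erase x)) ∧
  (∀ x ∈ T, x ∉ Rset D.g T → ∃ A ⊆ T.erase x, D.Lan A) ∧
  (∀ A ⊆ T, D.Lan A → Rset D.g T ⊆ A ∧ D.cls (D.LM T) ≤ D.cls A)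

open scoped Classical in
/-- **Block CGEN**: `GenHyp` for the neighbourhoods of `L = LM T`, `V` a tree in `L - b`. -/
def StmtCGEN : Prop := ∀ T ∈ Tsets D.g n, ∀ a ∈ Rset D.g T, ∀ b ∈ Rset D.g T, a ≠ b →
  ∀ V : Finset D.ι, V ⊆ (D.LM T).erase b → D.TC V →
  D.GenHyp (T.erase b) V ((D.N1 T (D.LM T) {a, b}).filter fun m => ∃ v ∈ V, D.Adj m v)
    ((D.N2 T (D.LM T) {a, b}).filter fun x =>
      ∃ m ∈ D.N1 T (D.LM T) {a, b}, (∃ v ∈ V, D.Adj m v) ∧ D.Adj x m) ∧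
  ((∀ s ∈ D.LM T, s ≠ a → s ≠ b → s ∈ V) →
    ((D.N1 T (D.LM T) {a, b}).filter fun m => ∃ v ∈ V, D.Adj m v) = D.N1 T (D.LM T) {a, b} ∧
    ((D.N2 T (D.LM T) {a, b}).filter fun x =>
      ∃ m ∈ D.N1 T (D.LM T) {a, b}, (∃ v ∈ V, D.Adj m v) ∧ D.Adj x m) =
      D.N2 T (D.LM T) {a, b})

/-- **Block CLF**: facts on classes (uses CLS). -/
def StmtCLF : Prop :=
  (∀ L u v w p q, D.Fork u v w p q L → D.cls L = 3) ∧
  (∀ L a b c d, D.Path4 a b c d (1 / 2) c5 (1 / 2) L → D.cls L = 2) ∧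
  (∀ L a b c d e z, 0 < z → D.Path5 a b c d e c5 (1 / 2) (1 / 2) z L → D.cls L = 4) ∧
  (∀ L a b c d e, D.Cyc5 a b c d e L → D.cls L = 4) ∧
  (∀ L, D.Lan L → 2 ≤ D.cls L → 4 ≤ L.card ∧ L.card ≤ 5 ∧
    (L.card = 4 → D.cls L = 2 ∧ ∃ a b c d, D.Path4 a b c d (1 / 2) c5 (1 / 2) L)) ∧
  (∀ L, D.Lan L → (D.cls L = 2 ∨ D.cls L = 4) → ∀ x ∈ L, (D.nb L x).card ≤ 2) ∧
  (∀ L, D.Lan L → 3 ≤ D.cls L → L.card = 5)

/-- **Block CLT**: consequences for the subsets of `T` (uses CTX, CLF, CLS). -/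
def StmtCLT : Prop := ∀ T ∈ Tsets D.g n,
  (2 ≤ D.cls (D.LM T) → ∀ A ⊆ T, A.card ≤ 3 → PD D.g A) ∧
  (2 ≤ D.cls (D.LM T) → ∀ A ⊆ T, A.card ≤ 4 → (∃ x ∈ A, 3 ≤ (D.nb A x).card) → PD D.g A) ∧
  (2 ≤ D.cls (D.LM T) → ∀ A ⊆ T, (∀ a ∈ A, ∀ b ∈ A, ¬ D.Heavy a b) → PD D.g A) ∧
  (3 ≤ D.cls (D.LM T) → ∀ A ⊆ T, A.card ≤ 4 → PD D.g A) ∧
  (D.cls (D.LM T) = 4 → ∀ A ⊆ T, D.Lan A → ∀ x ∈ A, (D.nb A x).card ≤ 2)

/-- the T level bound for `T` -/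
def TB (T : Finset D.ι) : Prop :=
  8 * ∑ P ∈ (Rset D.g T).powersetCard 3, D.tri P +
    2 * ∑ P ∈ (Rset D.g T).powersetCard 2, (D.G T P : ℝ) ≤ D.B8 T

/-- **Block SUM**: summation over the pairs and triples of `R(T)`, `R(T)` given by an index set.
`β a b` bounds `G T {f a, f b}`, `τ r b` bounds `t8 (T - f r) (f b)` from below. -/
def StmtSUM : Prop := ∀ (k : ℕ) (f : Fin k → D.ι) (A : Fin k → Fin k → Bool)
  (β τ : Fin k → Fin k → ℕ) (I : Finset (Fin k)) (T : Finset D.ι),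
  Function.Injective f → (∀ x, x ∈ Rset D.g T ↔ ∃ a ∈ I, f a = x) →
  (∀ a b, A a b = true → D.Adj (f a) (f b)) →
  (∀ a ∈ I, ∀ b ∈ I, a < b → D.G T {f a, f b} ≤ β a b) →
  (∀ r ∈ I, ∀ b ∈ I, r ≠ b → τ r b ≤ D.t8 (T.erase (f r)) (f b)) →
  2 * (∑ a ∈ I, ∑ b ∈ I, if a < b then β a b else 0) +
    8 * (∑ a ∈ I, ∑ b ∈ I, ∑ c ∈ I, if a < b ∧ b < c then
      2 - (A a b).toNat - (A a c).toNat - (A b c).toNat else 0) ≤
    ∑ r ∈ I, ∑ b ∈ I, (if r ≠ b then τ r b else 0) →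
  D.TB T

/-- **Block RED**: reduction of the T level to `TB` -/
def StmtRED : Prop := (∀ T ∈ Tsets D.g n, D.TB T) → D.StmtT

/-- **Block NB**: neighbours of `LM T = [5,3,3,z]` (uses CTX, CLF, CLT). -/
def StmtNB : Prop := ∀ T ∈ Tsets D.g n, ∀ a b c d e z, (z = 1 / 2 ∨ z = √2 / 2 ∨ z = c5) →
  D.Path5 a b c d e c5 (1 / 2) (1 / 2) z (D.LM T) → ∀ m ∈ T, m ∉ D.LM T →
  ¬ D.Adj m a ∧ ¬ D.Adj m b ∧ ¬ D.Adj m c ∧ (z ≠ 1 / 2 → ¬ D.Adj m d ∧ ¬ D.Adj m e) ∧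
  ¬ (D.Adj m d ∧ D.Adj m e) ∧ (D.Adj m d → D.g m d = -(1 / 2))

/-- **Block R5**: `R(T)` for `LM T = [5,3,3,3]` (uses CTX, CLF, CLT, NB and LCON of DI). -/
def StmtR5 : Prop := ∀ T ∈ Tsets D.g n, ∀ a b c d e,
  D.Path5 a b c d e c5 (1 / 2) (1 / 2) (1 / 2) (D.LM T) →
  (a ∈ Rset D.g T → b ∈ Rset D.g T) ∧ (b ∈ Rset D.g T → c ∈ Rset D.g T) ∧
  (c ∈ Rset D.g T → d ∈ Rset D.g T) ∧
  (∀ m ∈ T, m ∉ D.LM T → D.Adj m d → e ∉ Rset D.g T) ∧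
  (c ∈ Rset D.g T → e ∉ Rset D.g T → ∃ m ∈ T, m ∉ D.LM T ∧ D.Adj m d)

/-! ### the types -/

/-- **Block TSMALL** -/
def StmtTSMALL : Prop := ∀ T ∈ Tsets D.g n, (D.LM T).card ≤ 3 → D.TB T
/-- **Block TCYC4** -/
def StmtTCYC4 : Prop := ∀ T ∈ Tsets D.g n, ∀ a b c d, D.Cyc4 a b c d (D.LM T) → D.TB T
/-- **Block TSTAR** -/
def StmtTSTAR : Prop := ∀ T ∈ Tsets D.g n, ∀ z u p q, D.Star4 z u p q (D.LM T) → D.TB T
/-- **Block T353** -/
def StmtT353 : Prop := ∀ T ∈ Tsets D.g n, ∀ a b c d,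
  D.Path4 a b c d (1 / 2) c5 (1 / 2) (D.LM T) → D.TB T
/-- **Block T53X** -/
def StmtT53X : Prop := ∀ T ∈ Tsets D.g n, ∀ a b c d z, (z = √2 / 2 ∨ z = c5) →
  D.Path4 a b c d c5 (1 / 2) z (D.LM T) → D.TB T
/-- **Block TFORK** -/
def StmtTFORK : Prop := ∀ T ∈ Tsets D.g n, ∀ u v w p q, D.Fork u v w p q (D.LM T) → D.TB T
/-- **Block T533X** -/
def StmtT533X : Prop := ∀ T ∈ Tsets D.g n, ∀ a b c d e z, (z = √2 / 2 ∨ z = c5) →
  D.Path5 a b c d e c5 (1 / 2) (1 / 2) z (D.LM T) → D.TB T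
/-- **Block T5333** -/
def StmtT5333 : Prop := ∀ T ∈ Tsets D.g n, ∀ a b c d e,
  D.Path5 a b c d e c5 (1 / 2) (1 / 2) (1 / 2) (D.LM T) → D.TB T
/-- **Block TCYC5** -/
def StmtTCYC5 : Prop := ∀ T ∈ Tsets D.g n, ∀ a b c d e, D.Cyc5 a b c d e (D.LM T) → D.TB T

theorem stmtT_of (hcls : D.StmtCLS) (hctx : D.StmtCTX) (hred : D.StmtRED) (h1 : D.StmtTSMALL)
    (h2 : D.StmtTCYC4)
    (h3 : D.StmtTSTAR) (h4 : D.StmtT353) (h5 : D.StmtT53X) (h6 : D.StmtTFORK)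
    (h7 : D.StmtT533X) (h8 : D.StmtT5333) (h9 : D.StmtTCYC5) : D.StmtT := by
  refine hred ?_
  intro T hT
  rcases hcls _ (hctx T hT).2.1 with h | ⟨a, b, c, d, h⟩ | ⟨a, b, c, d, h⟩ | ⟨a, b, c, d, h⟩ |
    ⟨a, b, c, d, h⟩ | ⟨a, b, c, d, h⟩ | ⟨a, b, c, d, e, h⟩ | ⟨a, b, c, d, e, z, hz, h⟩ |
    ⟨a, b, c, d, e, h⟩
  · exact h1 T hT h
  · exact h2 T hT a b c d h
  · exact h3 T hT a b c d h
  · exact h4 T hT a b c d h
  · exact h5 T hT a b c d _ (Or.inl rfl) h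
  · exact h5 T hT a b c d _ (Or.inr rfl) h
  · exact h6 T hT a b c d e h
  · rcases hz with hz | hz | hz
    · subst hz; exact h8 T hT a b c d e h
    · exact h7 T hT a b c d e z (Or.inl hz) h
    · exact h7 T hT a b c d e z (Or.inr hz) h
  · exact h9 T hT a b c d e h

end CoxData

end MP345
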