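import Mathlib
import Pool.Agent.Work.MP_345ef2_gt_24.TI
import Pool.Agent.Work.MP_345ef2_gt.D2

/-!
# Trees (MP_345ef2_gt, T level): blocks TREE and SPLIT
-/

namespace MP345

open Finset

variable {n : ℕ}

namespace CoxData

variable (D : CoxData n)

theorem adjP_pair {i j : D.ι} : AdjP D.g {i, j} ↔ D.Adj i j := by
  constructor
  · rintro ⟨a, ha, b, hb, hab, hg⟩
    simp only [Finset.mem_insert, Finset.mem_singleton] at ha hb
    rcases ha with rfl | rfl <;> rcases hb with rfl | rfl
    · exact absurd rfl hab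
    · exact ⟨hab, hg⟩
    · exact ⟨hab.symm, by rw [D.symm]; exact hg⟩
    · exact absurd rfl hab
  · intro h
    exact ⟨i, by simp, j, by simp, h.1, h.2⟩

theorem ds_two_eN (U : Finset D.ι) : D.ds U = 2 * eN D.g U := by
  classical
  have h1 := sum_pairs U (fun P => if AdjP D.g P then (1 : ℝ) else 0)
  have h2 : ∑ P ∈ U.powersetCard 2, (if AdjP D.g P then (1 : ℝ) else 0) = (eN D.g U : ℝ) := by
    rw [← Finset.sum_filter, Finset.sum_const, nsmul_eq_mul, mul_one]; rfl
  have h3 : ∑ i ∈ U, ∑ j ∈ U.erase i, (if AdjP D.g {i, j} then (1 : ℝ) else 0) = (D.ds U : ℝ) := by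
    unfold ds
    rw [Nat.cast_sum]
    refine Finset.sum_congr rfl fun i hi => ?_
    rw [← Finset.sum_filter, Finset.sum_const, nsmul_eq_mul, mul_one]
    congr 2
    ext j
    rw [Finset.mem_filter, Finset.mem_erase, mem_nb, adjP_pair]
    constructor
    · rintro ⟨⟨_, h⟩, h'⟩; exact ⟨h, h'⟩
    · rintro ⟨h, h'⟩; exact ⟨⟨h'.1.symm, h⟩, h'⟩
  rw [h2, h3] at h1
  exact_mod_cast h1

theorem ds_le {U : Finset D.ι} (hU : PD D.g U) (hne : U.Nonempty) : D.ds U + 2 ≤ 2 * U.card := by
  have := D.eN_lt hU hne
  rw [D.ds_two_eN]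
  omega

theorem stmtTREE : D.StmtTREE := by
  classical
  intro U hU ht
  obtain ⟨hne, ht⟩ := ht
  have h1 := D.ds_le hU hne
  have h2 := D.sum_choose_le hU hne
  have hd3 : ∀ i ∈ U, (D.nb U i).card ≤ 3 := fun i hi => D.deg_le hU hi
  have e0 : U.card = (U.filter fun x => (D.nb U x).card = 0).card +
      (U.filter fun x => (D.nb U x).card = 1).card +
      (U.filter fun x => (D.nb U x).card = 2).card +
      (U.filter fun x => (D.nb U x).card = 3).card := by
    rw [Finset.card_eq_sum_ones, Finset.card_filter, Finset.card_filter, Finset.card_filter,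
      Finset.card_filter, ← Finset.sum_add_distrib, ← Finset.sum_add_distrib,
      ← Finset.sum_add_distrib]
    refine Finset.sum_congr rfl fun x hx => ?_
    have := hd3 x hx
    interval_cases (D.nb U x).card <;> simp
  have e1 : D.ds U = (U.filter fun x => (D.nb U x).card = 1).card +
      2 * (U.filter fun x => (D.nb U x).card = 2).card +
      3 * (U.filter fun x => (D.nb U x).card = 3).card := by
    unfold ds
    rw [Finset.card_filter, Finset.card_filter, Finset.card_filter, Finset.mul_sum,
      Finset.mul_sum, ← Finset.sum_add_distrib, ← Finset.sum_add_distrib]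
    refine Finset.sum_congr rfl fun x hx => ?_
    have := hd3 x hx
    interval_cases (D.nb U x).card <;> simp
  have e2 : ∑ i ∈ U, ((D.nb U i).card.choose 2) = (U.filter fun x => (D.nb U x).card = 2).card +
      3 * (U.filter fun x => (D.nb U x).card = 3).card := by
    rw [Finset.card_filter, Finset.card_filter, Finset.mul_sum, ← Finset.sum_add_distrib]
    refine Finset.sum_congr rfl fun x hx => ?_
    have := hd3 x hx
    interval_cases (D.nb U x).card <;> simp [Nat.choose]
  rw [e2] at h2
  refine ⟨?_, ?_, ?_⟩ <;> omega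

theorem stmtSPLIT : D.StmtSPLIT := by
  classical
  intro U A hU ht hA hne hneU
  by_contra hcon
  push Not at hcon
  have hB : (U \ A).Nonempty := by
    rw [Finset.sdiff_nonempty]
    intro h; exact hneU (Finset.Subset.antisymm hA h)
  have h1 := D.ds_le (hU.mono hA) hne
  have h2 := D.ds_le (hU.mono (Finset.sdiff_subset (s := U) (t := A))) hB
  have h3 : D.ds U = D.ds A + D.ds (U \ A) := by
    unfold ds
    rw [← Finset.sum_sdiff hA, add_comm]
    congr 1
    · refine Finset.sum_congr rfl fun x hx => ?_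
      congr 1
      ext y
      rw [mem_nb, mem_nb]
      constructor
      · rintro ⟨hy, hxy⟩
        by_contra h
        exact hcon x hx y hy (fun hyA => h ⟨hyA, hxy⟩) hxy
      · rintro ⟨hy, hxy⟩; exact ⟨hA hy, hxy⟩
    · refine Finset.sum_congr rfl fun x hx => ?_
      rw [Finset.mem_sdiff] at hx
      congr 1
      ext y
      rw [mem_nb, mem_nb, Finset.mem_sdiff]
      constructor
      · rintro ⟨hy, hxy⟩
        exact ⟨⟨hy, fun hyA => hcon y hyA x hx.1 hx.2 (hxy.symm D)⟩, hxy⟩
      · rintro ⟨⟨hy, _⟩, hxy⟩; exact ⟨hy, hxy⟩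
  have h4 : U.card = A.card + (U \ A).card := by
    rw [Finset.card_sdiff_of_subset hA]
    have := Finset.card_le_card hA
    omega
  have := ht.2
  omega

end CoxData

end MP345
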