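import Mathlib
import Pool.Agent.Work.MP_345ef2_gt_24.T_TREE
import Pool.Agent.Work.MP_345ef2_gt.Order3
import Pool.Agent.Work.MP_345ef2_gt_24.D_FTOUCH

/-!
# Trees (MP_345ef2_gt, T level): block HEAVY
-/

namespace MP345

open Finset

variable {n : ℕ}

namespace CoxData

variable (D : CoxData n)

open scoped Classical in
theorem nb_erase (U : Finset D.ι) (y x : D.ι) : D.nb (U.erase y) x = (D.nb U x).erase y := by
  ext z
  rw [mem_nb, Finset.mem_erase, Finset.mem_erase, mem_nb]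
  tauto

theorem deg_pos {U : Finset D.ι} (hU : PD D.g U) (ht : D.TC U) (h2 : 2 ≤ U.card) {x : D.ι}
    (hx : x ∈ U) : 1 ≤ (D.nb U x).card := by
  classical
  obtain ⟨a, ha, b, hb, _, hab⟩ := D.stmtSPLIT U {x} hU ht (by simpa using hx) (by simp)
    (by intro h; rw [← h] at h2; simp at h2)
  rw [Finset.mem_singleton] at ha
  subst ha
  exact Finset.card_pos.2 ⟨b, (mem_nb D).2 ⟨hb, hab⟩⟩

open scoped Classical in
theorem ds_erase (U : Finset D.ι) {y : D.ι} (hy : y ∈ U) :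
    D.ds U = D.ds (U.erase y) + 2 * (D.nb U y).card := by
  unfold ds
  rw [← Finset.add_sum_erase U _ hy]
  have h1 : ∀ x ∈ U.erase y, (D.nb U x).card = (D.nb (U.erase y) x).card +
      (if x ∈ D.nb U y then 1 else 0) := by
    intro x hx
    rw [D.nb_erase]
    split_ifs with h
    · rw [Finset.card_erase_of_mem]
      · have : 0 < (D.nb U x).card :=
          Finset.card_pos.2 ⟨y, (mem_nb D).2 ⟨hy, ((mem_nb D).1 h).2.symm D⟩⟩
        omega
      · exact (mem_nb D).2 ⟨hy, ((mem_nb D).1 h).2.symm D⟩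
    · rw [Finset.erase_eq_of_notMem, add_zero]
      intro h'
      exact h ((mem_nb D).2 ⟨Finset.mem_of_mem_erase hx, ((mem_nb D).1 h').2.symm D⟩)
  rw [Finset.sum_congr rfl h1, Finset.sum_add_distrib, ← Finset.card_filter]
  have h2 : (U.erase y).filter (fun x => x ∈ D.nb U y) = D.nb U y := by
    ext z
    rw [Finset.mem_filter, Finset.mem_erase]
    constructor
    · exact fun h => h.2
    · exact fun h => ⟨⟨((mem_nb D).1 h).2.1.symm, ((mem_nb D).1 h).1⟩, h⟩
  rw [h2]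
  omega

open scoped Classical in
theorem tc_erase {U : Finset D.ι} (ht : D.TC U) (h2 : 2 ≤ U.card) {y : D.ι} (hy : y ∈ U)
    (h1 : (D.nb U y).card = 1) : D.TC (U.erase y) := by
  have h3 := D.ds_erase U hy
  have h4 := Finset.card_erase_of_mem hy
  refine ⟨?_, ?_⟩
  · rw [← Finset.card_pos]; omega
  · have := ht.2
    omega

theorem heavy_sq {x y : D.ι} (h : D.Heavy x y) : 1 / 2 ≤ D.g x y ^ 2 := D.heavy_of h.1 h.2

theorem Heavy.symm {x y : D.ι} (h : D.Heavy x y) : D.Heavy y x :=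
  ⟨h.1.symm D, by rw [D.symm]; exact h.2⟩

/-- the neighbours of a leaf -/
theorem leaf_nb {U : Finset D.ι} {y z w : D.ι} (h : (D.nb U y).card = 1) (hz : z ∈ U)
    (hw : w ∈ U) (hyz : D.Adj y z) (hyw : D.Adj y w) : z = w := by
  classical
  exact Finset.card_le_one.1 h.le z ((mem_nb D).2 ⟨hz, hyz⟩) w ((mem_nb D).2 ⟨hw, hyw⟩)

theorem stmtHEAVY : D.StmtHEAVY := by
  classical
  intro U
  induction U using Finset.strongInduction with
  | H U ih =>
  intro hU ht ⟨a, ha, b, hb, hab⟩ x hx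
  by_contra hx3
  push Not at hx3
  have hxle := D.deg_le hU hx
  have h2U : 2 ≤ U.card := by
    have h1 : (D.nb U x).card ≤ U.card := Finset.card_le_card (Finset.filter_subset _ _)
    omega
  have hdeg : ∀ y ∈ U, 1 ≤ (D.nb U y).card := fun y hy => D.deg_pos hU ht h2U hy
  have hleaf : ∀ y ∈ U, (D.nb U y).card = 1 → y = a ∨ y = b ∨ D.Adj x y := by
    intro y hy h1
    by_contra hno
    push Not at hno
    have hxy : x ≠ y := by rintro rfl; omega
    have := ih (U.erase y) (Finset.erase_ssubset hy) (hU.mono (Finset.erase_subset _ _))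
      (D.tc_erase ht h2U hy h1)
      ⟨a, Finset.mem_erase.2 ⟨Ne.symm hno.1, ha⟩, b, Finset.mem_erase.2 ⟨Ne.symm hno.2.1, hb⟩, hab⟩
      x (Finset.mem_erase.2 ⟨hxy, hx⟩)
    rw [D.nb_erase, Finset.erase_eq_of_notMem (fun h => hno.2.2 ((mem_nb D).1 h).2)] at this
    omega
  -- a node with three neighbours has a neighbour that is not a leaf
  have hW3 : ∀ u ∈ U, 3 ≤ (D.nb U u).card → ∃ v ∈ U, D.Adj u v ∧ 2 ≤ (D.nb U v).card := by
    intro u hu h3
    by_contra hcon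
    push Not at hcon
    have hl : ∀ v ∈ U, D.Adj u v → ∀ w ∈ U, D.Adj v w → w = u := by
      intro v hv huv w hw hvw
      have h1 : (D.nb U v).card = 1 := by have := hcon v hv huv; have := hdeg v hv; omega
      exact D.leaf_nb h1 hw hu hvw (huv.symm D)
    have hall : insert u (D.nb U u) = U := by
      by_contra hne
      obtain ⟨s, hs, t, htU, htn, hst⟩ := D.stmtSPLIT U (insert u (D.nb U u)) hU ht
        (by intro z hz
            rcases Finset.mem_insert.1 hz with rfl | hz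
            · exact hu
            · exact ((mem_nb D).1 hz).1) ⟨u, by simp⟩ hne
      rcases Finset.mem_insert.1 hs with rfl | hs
      · exact htn (Finset.mem_insert_of_mem ((mem_nb D).2 ⟨htU, hst⟩))
      · have := hl s ((mem_nb D).1 hs).1 ((mem_nb D).1 hs).2 t htU hst
        exact htn (by rw [this]; simp)
    have hh : ∃ l ∈ D.nb U u, 1 / 2 ≤ D.g u l ^ 2 := by
      by_cases hau : a = u
      · subst hau
        exact ⟨b, (mem_nb D).2 ⟨hb, hab.1⟩, D.heavy_sq hab⟩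
      · have ha' : a ∈ D.nb U u := by
          have : a ∈ insert u (D.nb U u) := by rw [hall]; exact ha
          exact (Finset.mem_insert.1 this).resolve_left hau
        have := hl a ha ((mem_nb D).1 ha').2 b hb hab.1
        subst this
        exact ⟨a, ha', by rw [D.symm]; exact D.heavy_sq hab⟩
    obtain ⟨l, hl1, hl2⟩ := hh
    have h4 : 2 ≤ ((D.nb U u).erase l).card := by
      rw [Finset.card_erase_of_mem hl1]; omega
    obtain ⟨r, hr, s, hs, hrs⟩ := Finset.one_lt_card.1 h4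
    rw [Finset.mem_erase] at hr hs
    exact no_heavy3 hU hu ((mem_nb D).1 hl1).1 ((mem_nb D).1 hr.2).1 ((mem_nb D).1 hs.2).1
      hr.1.symm hs.1.symm hrs hl2 ((mem_nb D).1 hl1).2.1 ((mem_nb D).1 hr.2).2
      ((mem_nb D).1 hs.2).2
  -- the core
  have hmemW : ∀ {v}, v ∈ U.filter (fun y => 2 ≤ (D.nb U y).card) ↔
      v ∈ U ∧ 2 ≤ (D.nb U v).card := fun {v} => Finset.mem_filter
  refine core_test' hU (U := U.filter fun y => 2 ≤ (D.nb U y).card) (Finset.filter_subset _ _)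
    ⟨x, hmemW.2 ⟨hx, by omega⟩⟩ fun u hu => ?_
  obtain ⟨huU, hu2⟩ := hmemW.1 hu
  by_cases h3 : 3 ≤ (D.nb U u).card
  · obtain ⟨v, hv, huv, hv2⟩ := hW3 u huU h3
    by_cases hsec : ∃ v' ∈ U, D.Adj u v' ∧ 2 ≤ (D.nb U v').card ∧ v ≠ v'
    · obtain ⟨v', hv', huv', hv2', hne⟩ := hsec
      exact Or.inl ⟨v, hmemW.2 ⟨hv, hv2⟩, v', hmemW.2 ⟨hv', hv2'⟩, hne, huv, huv'⟩
    · push Not at hsec
      right
      refine ⟨⟨v, hmemW.2 ⟨hv, hv2⟩, huv⟩, Or.inr ?_⟩
      have h4 : 2 ≤ ((D.nb U u).erase v).card := by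
        rw [Finset.card_erase_of_mem ((mem_nb D).2 ⟨hv, huv⟩)]; omega
      obtain ⟨r, hr, s, hs, hrs⟩ := Finset.one_lt_card.1 h4
      rw [Finset.mem_erase, mem_nb] at hr hs
      refine ⟨r, hr.2.1, s, hs.2.1, ?_, ?_, hrs, hr.2.2, hs.2.2⟩
      · intro h; exact hr.1 (hsec r hr.2.1 hr.2.2 (hmemW.1 h).2).symm
      · intro h; exact hs.1 (hsec s hs.2.1 hs.2.2 (hmemW.1 h).2).symm
  · have hux : u ≠ x := by rintro rfl; omega
    -- a leaf neighbour of `u` belongs to the heavy edge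
    have key : ∀ v ∈ U, D.Adj u v → (D.nb U v).card < 2 → (v = a ∧ u = b) ∨ (v = b ∧ u = a) := by
      intro v hv huv h1
      have h1 : (D.nb U v).card = 1 := by have := hdeg v hv; omega
      rcases hleaf v hv h1 with rfl | rfl | h
      · exact Or.inl ⟨rfl, D.leaf_nb h1 huU hb (huv.symm D) hab.1⟩
      · exact Or.inr ⟨rfl, D.leaf_nb h1 huU ha (huv.symm D) (hab.1.symm D)⟩
      · exact absurd (D.leaf_nb h1 huU hx (huv.symm D) (h.symm D)) hux
    obtain ⟨r, hr, s, hs, hrs⟩ := Finset.one_lt_card.1 (show 1 < (D.nb U u).card by omega)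
    rw [mem_nb] at hr hs
    by_cases h5 : 2 ≤ (D.nb U r).card
    · by_cases h6 : 2 ≤ (D.nb U s).card
      · exact Or.inl ⟨r, hmemW.2 ⟨hr.1, h5⟩, s, hmemW.2 ⟨hs.1, h6⟩, hrs, hr.2, hs.2⟩
      · right
        refine ⟨⟨r, hmemW.2 ⟨hr.1, h5⟩, hr.2⟩, Or.inl ⟨s, hs.1, fun h => h6 (hmemW.1 h).2, ?_⟩⟩
        rcases key s hs.1 hs.2 (by omega) with ⟨rfl, rfl⟩ | ⟨rfl, rfl⟩
        · rw [D.symm]; exact D.heavy_sq hab
        · exact D.heavy_sq hab
    · by_cases h6 : 2 ≤ (D.nb U s).card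
      · right
        refine ⟨⟨s, hmemW.2 ⟨hs.1, h6⟩, hs.2⟩, Or.inl ⟨r, hr.1, fun h => h5 (hmemW.1 h).2, ?_⟩⟩
        rcases key r hr.1 hr.2 (by omega) with ⟨rfl, rfl⟩ | ⟨rfl, rfl⟩
        · rw [D.symm]; exact D.heavy_sq hab
        · exact D.heavy_sq hab
      · exfalso
        rcases key r hr.1 hr.2 (by omega) with ⟨rfl, rfl⟩ | ⟨rfl, rfl⟩ <;>
        rcases key s hs.1 hs.2 (by omega) with ⟨h7, h8⟩ | ⟨h7, h8⟩
        · exact hrs h7.symm
        · exact hab.1.1 h8.symm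
        · exact hab.1.1 h8
        · exact hrs h7.symm

end CoxData

end MP345
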