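import Mathlib
import Pool.Agent.Work.MP_345ef2_gt_24.T_HEAVY

/-!
# Trees (MP_345ef2_gt, T level): block FIVE
-/

namespace MP345

open Finset

variable {n : ℕ}

namespace CoxData

variable (D : CoxData n)

theorem deg2_of {U : Finset D.ι} {b x y z : D.ι} (h : (D.nb U b).card ≤ 2) (hx : x ∈ U)
    (hy : y ∈ U) (hz : z ∈ U) (hbx : D.Adj b x) (hby : D.Adj b y) (hbz : D.Adj b z) (hxy : x ≠ y)
    (hxz : x ≠ z) (hyz : y ≠ z) : False := by
  classical
  have h1 : ({x, y, z} : Finset D.ι) ⊆ D.nb U b := by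
    intro w hw
    simp only [Finset.mem_insert, Finset.mem_singleton] at hw
    rcases hw with rfl | rfl | rfl
    · exact (mem_nb D).2 ⟨hx, hbx⟩
    · exact (mem_nb D).2 ⟨hy, hby⟩
    · exact (mem_nb D).2 ⟨hz, hbz⟩
  have h2 := Finset.card_le_card h1
  rw [Finset.card_insert_of_notMem (by simp [hxy, hxz]), Finset.card_pair hyz] at h2
  omega

theorem adj_of_five {a b : D.ι} (h : D.g a b = -c5) : D.Adj a b := by
  have h5 := c5_gt
  refine ⟨?_, ?_⟩
  · rintro rfl
    rw [D.self] at h
    linarith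
  · rw [h]; linarith

theorem heavy_of_five {a b : D.ι} (h : D.g a b = -c5) : D.Heavy a b := by
  have h5 := c5_gt
  refine ⟨D.adj_of_five h, ?_⟩
  rw [h]; intro h'; linarith

theorem five_aux {U : Finset D.ι} (hU : PD D.g U) (ht : D.TC U) {a b : D.ι} (ha : a ∈ U)
    (hb : b ∈ U) (hab : D.g a b = -c5) (hd : ∀ x ∈ U, (D.nb U x).card ≤ 2)
    (hend : ∀ x ∈ U, D.Adj a x → x = b) : U.card ≤ 4 := by
  classical
  have hAab := D.adj_of_five hab
  by_contra hlt
  push Not at hlt
  -- first step
  obtain ⟨s, hs, r, hr, hrn, hsr⟩ := D.stmtSPLIT U {a, b} hU ht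
    (by intro z hz; simp only [Finset.mem_insert, Finset.mem_singleton] at hz
        rcases hz with rfl | rfl <;> assumption) ⟨a, by simp⟩
    (by intro h; rw [← h, Finset.card_pair hAab.1] at hlt; omega)
  simp only [Finset.mem_insert, Finset.mem_singleton, not_or] at hs hrn
  have hbr : D.Adj b r := by
    rcases hs with rfl | rfl
    · exact absurd (hend r hr hsr) hrn.2
    · exact hsr
  obtain ⟨s, hs, t, htU, htn, hst⟩ := D.stmtSPLIT U {a, b, r} hU ht
    (by intro z hz; simp only [Finset.mem_insert, Finset.mem_singleton] at hz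
        rcases hz with rfl | rfl | rfl <;> assumption) ⟨a, by simp⟩
    (by intro h; rw [← h] at hlt
        have := Finset.card_le_three (a := a) (b := b) (c := r); omega)
  simp only [Finset.mem_insert, Finset.mem_singleton, not_or] at hs htn
  have hrt : D.Adj r t := by
    rcases hs with rfl | rfl | rfl
    · exact absurd (hend t htU hst) htn.2.1
    · exact (D.deg2_of (hd s hb) ha hr htU (hAab.symm D) hbr hst (Ne.symm hrn.1) (Ne.symm htn.1)
        (Ne.symm htn.2.2)).elim
    · exact hst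
  obtain ⟨s, hs, u, huU, hun, hsu⟩ := D.stmtSPLIT U {a, b, r, t} hU ht
    (by intro z hz; simp only [Finset.mem_insert, Finset.mem_singleton] at hz
        rcases hz with rfl | rfl | rfl | rfl <;> assumption) ⟨a, by simp⟩
    (by intro h; rw [← h] at hlt
        have := Finset.card_le_four (a := a) (b := b) (c := r) (d := t); omega)
  simp only [Finset.mem_insert, Finset.mem_singleton, not_or] at hs hun
  have htu : D.Adj t u := by
    rcases hs with rfl | rfl | rfl | rfl
    · exact absurd (hend u huU hsu) hun.2.1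
    · exact (D.deg2_of (hd s hb) ha hr huU (hAab.symm D) hbr hsu (Ne.symm hrn.1) (Ne.symm hun.1)
        (Ne.symm hun.2.2.1)).elim
    · exact (D.deg2_of (hd s hr) hb htU huU (hbr.symm D) hrt hsu (Ne.symm htn.2.1)
        (Ne.symm hun.2.1) (Ne.symm hun.2.2.2)).elim
    · exact hsu
  refine no_5333 hU ha hb hr htU huU hab.le hbr hrt htu ?_
  simp only [List.nodup_cons, List.mem_cons, List.not_mem_nil, or_false, not_or,
    not_false_eq_true, List.nodup_nil, and_true]
  exact ⟨⟨hAab.1, Ne.symm hrn.1, Ne.symm htn.1, Ne.symm hun.1⟩,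
    ⟨Ne.symm hrn.2, Ne.symm htn.2.1, Ne.symm hun.2.1⟩, ⟨Ne.symm htn.2.2, Ne.symm hun.2.2.1⟩,
    Ne.symm hun.2.2.2⟩

theorem stmtFIVE : D.StmtFIVE := by
  classical
  intro U hU ht ⟨a, ha, b, hb, hab⟩
  have hAab := D.adj_of_five hab
  have hd := D.stmtHEAVY U hU ht ⟨a, ha, b, hb, D.heavy_of_five hab⟩
  by_cases h1 : ∀ x ∈ U, D.Adj a x → x = b
  · exact D.five_aux hU ht ha hb hab hd h1
  · by_cases h2 : ∀ x ∈ U, D.Adj b x → x = a
    · exact D.five_aux hU ht hb ha (by rw [D.symm]; exact hab) hd h2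
    · push Not at h1 h2
      obtain ⟨s, hs, has, hsb⟩ := h1
      obtain ⟨r, hr, hbr, hra⟩ := h2
      exfalso
      have hsr : s ≠ r := by
        rintro rfl
        exact no_tri hU ha hb hs hAab hbr has
      exact no_353 hU hs ha hb hr (has.symm D) hab.le hAab.1.symm hbr hsb hsr hra

end CoxData

end MP345
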