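import Mathlib
import Pool.Agent.Work.MP_345ef2_gt_24.TI
import Pool.Agent.Work.MP_345ef2_gt_24.LAdj

/-!
# Small library for the T level: trees, leaves, counts (helper29)
-/

namespace MP345

open Finset

variable {n : ℕ}

namespace CoxData

variable {D : CoxData n}

theorem nb_mono {S S' : Finset D.ι} (h : S ⊆ S') (x : D.ι) : D.nb S x ⊆ D.nb S' x := by
  intro y hy
  rw [mem_nb] at hy ⊢
  exact ⟨h hy.1, hy.2⟩

theorem ds_eq (U : Finset D.ι) : D.ds U = ∑ x ∈ U, (D.nb U x).card := rfl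

/-- adding a node with at least one neighbour -/
theorem ds_insert_ge {U : Finset D.ι} {x u : D.ι} (hx : x ∉ U) (hu : u ∈ U) (h : D.Adj x u) :
    D.ds U + 2 ≤ D.ds (insert x U) := by
  classical
  unfold ds
  rw [Finset.sum_insert hx]
  have h1 : 1 ≤ (D.nb (insert x U) x).card :=
    Finset.card_pos.2 ⟨u, (mem_nb D).2 ⟨Finset.mem_insert_of_mem hu, h⟩⟩
  have h2 : ∑ y ∈ U, (D.nb U y).card + 1 ≤ ∑ y ∈ U, (D.nb (insert x U) y).card := by
    rw [← Finset.add_sum_erase _ _ hu, ← Finset.add_sum_erase _ _ hu]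
    have h3 : (D.nb U u).card + 1 ≤ (D.nb (insert x U) u).card := by
      have : insert x (D.nb U u) ⊆ D.nb (insert x U) u := by
        intro y hy
        rcases Finset.mem_insert.1 hy with rfl | hy
        · exact (mem_nb D).2 ⟨Finset.mem_insert_self _ _, h.symm D⟩
        · exact nb_mono (Finset.subset_insert _ _) _ hy
      have h4 := Finset.card_le_card this
      rwa [Finset.card_insert_of_notMem (by rw [mem_nb]; exact fun h => hx h.1)] at h4
    have h5 : ∑ y ∈ U.erase u, (D.nb U y).card ≤ ∑ y ∈ U.erase u, (D.nb (insert x U) y).card :=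
      Finset.sum_le_sum fun y _ => Finset.card_le_card (nb_mono (Finset.subset_insert _ _) _)
    omega
  omega

theorem TC_singleton (x : D.ι) : D.TC {x} := by
  refine ⟨by simp, ?_⟩
  simp

theorem TC_insert {U : Finset D.ι} {x u : D.ι} (hU : D.TC U) (hx : x ∉ U) (hu : u ∈ U)
    (h : D.Adj x u) : D.TC (insert x U) := by
  classical
  refine ⟨by simp, ?_⟩
  rw [Finset.card_insert_of_notMem hx]
  have := ds_insert_ge hx hu h
  have := hU.2
  omega

theorem TC_pair {x y : D.ι} (h : D.Adj x y) : D.TC {x, y} :=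
  TC_insert (TC_singleton y) (by simpa using h.1) (by simp) h

theorem cnt_pos {T P : Finset D.ι} {x p z : D.ι} (hp : p ∈ P) (hz : z ∈ T) (hzP : z ∉ P)
    (h1 : D.Adj z x) (h2 : D.Adj z p) : 1 ≤ D.cnt T x P := by
  classical
  unfold cnt
  exact Finset.card_pos.2 ⟨p, Finset.mem_filter.2 ⟨hp, z, hz, hzP, h1, h2⟩⟩

theorem cnt_two {T P : Finset D.ι} {x p p' z z' : D.ι} (hp : p ∈ P) (hp' : p' ∈ P) (hne : p ≠ p')
    (hz : z ∈ T) (hzP : z ∉ P) (h1 : D.Adj z x) (h2 : D.Adj z p)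
    (hz' : z' ∈ T) (hzP' : z' ∉ P) (h1' : D.Adj z' x) (h2' : D.Adj z' p') :
    2 ≤ D.cnt T x P := by
  classical
  unfold cnt
  have : ({p, p'} : Finset D.ι) ⊆ P.filter fun p => ∃ z ∈ T, z ∉ P ∧ D.Adj z x ∧ D.Adj z p := by
    intro q hq
    simp only [Finset.mem_insert, Finset.mem_singleton] at hq
    rcases hq with rfl | rfl
    · exact Finset.mem_filter.2 ⟨hp, z, hz, hzP, h1, h2⟩
    · exact Finset.mem_filter.2 ⟨hp', z', hz', hzP', h1', h2'⟩
  have h3 := Finset.card_le_card this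
  rwa [Finset.card_pair hne] at h3

/-- `y` is a leaf (or isolated) of `T - x` -/
def LeafAt (D : CoxData n) (T : Finset D.ι) (x y : D.ι) : Prop := (D.nb (T.erase x) y).card ≤ 1

theorem t8_ge5 (v : Finset D.ι) (b : D.ι) : 5 ≤ D.t8 v b := by
  unfold t8; split_ifs <;> omega

theorem t8_iso {v : Finset D.ι} {b : D.ι} (h : ∀ w ∈ v, ¬ D.Adj b w) : 19 ≤ D.t8 v b := by
  have h0 : (D.nb v b).card = 0 := by
    rw [Finset.card_eq_zero, Finset.eq_empty_iff_forall_notMem]
    intro w hw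
    obtain ⟨h1, h2⟩ := (mem_nb D).1 hw
    exact h w h1 h2
  unfold t8; rw [if_pos h0]

theorem t8_leaf {v : Finset D.ι} {b : D.ι} (h : (D.nb v b).card ≤ 1) : 9 ≤ D.t8 v b := by
  unfold t8; split_ifs <;> omega

/-- a leaf at an edge of label 5 -/
theorem t8_leaf5 {v : Finset D.ι} {b c : D.ι} (h : (D.nb v b).card ≤ 1) (hc : c ∈ v)
    (h5 : D.g b c = -c5) : 15 ≤ D.t8 v b := by
  have hb : ∃ c ∈ v, D.g b c = -c5 := ⟨c, hc, h5⟩
  unfold t8
  split_ifs with h1 h2 h3 <;> omega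

/-- a leaf at an edge of label 5 whose other end has degree at least two -/
theorem t8_leaf5' {v : Finset D.ι} {b c : D.ι} (h : (D.nb v b).card ≤ 1) (hc : c ∈ v)
    (h5 : D.g b c = -c5) (h2 : 2 ≤ (D.nb v c).card) : 21 ≤ D.t8 v b := by
  have hb : ∃ c ∈ v, D.g b c = -c5 ∧ 2 ≤ (D.nb v c).card := ⟨c, hc, h5, h2⟩
  have hbc : D.Adj b c := by
    have := c5_pos
    refine ⟨?_, by rw [h5]; intro e; linarith⟩
    rintro rfl
    rw [D.self] at h5; linarith
  have h0 : (D.nb v b).card ≠ 0 := by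
    have : 0 < (D.nb v b).card := Finset.card_pos.2 ⟨c, (mem_nb D).2 ⟨hc, hbc⟩⟩
    omega
  unfold t8
  rw [if_neg h0, if_pos (by omega), if_pos hb]

/-- `y` is a leaf of `T - x` if all neighbours of `y` in `T` are `x` or `z` -/
theorem leafAt_of {T : Finset D.ι} {x y z : D.ι} (h : ∀ w ∈ T, D.Adj y w → w = x ∨ w = z) :
    D.LeafAt T x y := by
  classical
  unfold LeafAt
  have : D.nb (T.erase x) y ⊆ {z} := by
    intro w hw
    obtain ⟨hw1, hw2⟩ := (mem_nb D).1 hw
    rw [Finset.mem_erase] at hw1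
    rcases h w hw1.2 hw2 with rfl | rfl
    · exact absurd rfl hw1.1
    · simp
  exact (Finset.card_le_card this).trans (by simp)

end CoxData

end MP345
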