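import Mathlib
import Pool.Agent.Work.MP_345ef2_gt_24.T_FIVE
import Pool.Agent.Work.MP_345ef2_gt_24.T_Lib

/-!
# The vertex level: edges, pairs at distance two and leaves of a positive definite diagram
-/

namespace MP345

open Finset

variable {n : ℕ}

/-- weight of a degree -/
def wd (d : ℕ) : ℤ := if d = 0 then 2 else if d = 1 then 1 else if d = 2 then 0 else -3

namespace CoxData

variable {D : CoxData n}

theorem nb_eraseV (S : Finset D.ι) (x z : D.ι) : D.nb (S.erase x) z = (D.nb S z).erase x := by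
  classical
  ext y
  simp only [mem_nb, Finset.mem_erase]
  tauto

theorem nb_erase_of_not_adj {S : Finset D.ι} {x z : D.ι} (h : ¬ D.Adj z x) :
    D.nb (S.erase x) z = D.nb S z := by
  classical
  rw [nb_eraseV, Finset.erase_eq_of_notMem]
  rw [mem_nb]; tauto

theorem nb_sdiff_of_not_adj {S A : Finset D.ι} {z : D.ι} (h : ∀ x ∈ A, ¬ D.Adj z x) :
    D.nb (S \ A) z = D.nb S z := by
  classical
  ext y
  simp only [mem_nb, Finset.mem_sdiff]
  constructor
  · rintro ⟨⟨h1, h2⟩, h3⟩; exact ⟨h1, h3⟩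
  · rintro ⟨h1, h3⟩; exact ⟨⟨h1, fun h2 => h y h2 h3⟩, h3⟩

/-- the only neighbour -/
theorem nb_eq_singleton {S : Finset D.ι} {x y : D.ι} (hc : (D.nb S x).card ≤ 1) (hy : y ∈ S)
    (hxy : D.Adj x y) : D.nb S x = {y} := by
  classical
  have hm : y ∈ D.nb S x := (mem_nb D).2 ⟨hy, hxy⟩
  refine Finset.eq_singleton_iff_unique_mem.2 ⟨hm, fun z hz => ?_⟩
  exact Finset.card_le_one.1 hc z hz y hm

/-- **Weighted count of the degrees** of a positive definite diagram: three times the number of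
branch nodes is at most the number of leaves plus twice the number of isolated nodes. -/
theorem wd_sum {S : Finset D.ι} (hS : PD D.g S) : 0 ≤ ∑ x ∈ S, wd (D.nb S x).card := by
  classical
  induction hk : S.card using Nat.strong_induction_on generalizing S with
  | _ k ih =>
  -- isolated nodes
  by_cases c0 : ∃ x ∈ S, (D.nb S x).card = 0
  · obtain ⟨x, hx, hx0⟩ := c0
    have hna : ∀ z, z ∈ S → ¬ D.Adj z x := fun z hz h => by
      have : z ∈ D.nb S x := (mem_nb D).2 ⟨hz, h.symm D⟩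
      rw [Finset.card_eq_zero.1 hx0] at this
      exact absurd this (Finset.notMem_empty _)
    have h1 := ih _ (by rw [← hk]; exact Finset.card_erase_lt_of_mem hx)
      (hS.mono (Finset.erase_subset x S)) rfl
    rw [← Finset.add_sum_erase S _ hx, hx0]
    have h2 : ∑ z ∈ S.erase x, wd (D.nb (S.erase x) z).card =
        ∑ z ∈ S.erase x, wd (D.nb S z).card :=
      Finset.sum_congr rfl fun z hz => by
        rw [nb_erase_of_not_adj (hna z (Finset.mem_of_mem_erase hz))]
    rw [h2] at h1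
    have : wd 0 = 2 := rfl
    omega
  -- leaves at nodes of degree at most two
  by_cases c1 : ∃ x ∈ S, ∃ y ∈ S, D.Adj x y ∧ (D.nb S x).card ≤ 1 ∧ (D.nb S y).card ≤ 2
  · obtain ⟨x, hx, y, hy, hxy, hx1, hy2⟩ := c1
    have hN := nb_eq_singleton hx1 hy hxy
    have h1 := ih _ (by rw [← hk]; exact Finset.card_erase_lt_of_mem hx)
      (hS.mono (Finset.erase_subset x S)) rfl
    have hyx : y ∈ S.erase x := Finset.mem_erase.2 ⟨Ne.symm hxy.1, hy⟩
    have hxN : x ∈ D.nb S y := (mem_nb D).2 ⟨hx, hxy.symm D⟩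
    have hyc : (D.nb (S.erase x) y).card = (D.nb S y).card - 1 := by
      rw [nb_eraseV, Finset.card_erase_of_mem hxN]
    have hy1 : 1 ≤ (D.nb S y).card := Finset.card_pos.2 ⟨x, hxN⟩
    have hna : ∀ z ∈ (S.erase x).erase y, ¬ D.Adj z x := fun z hz h => by
      have h3 : z ∈ D.nb S x := (mem_nb D).2
        ⟨Finset.mem_of_mem_erase (Finset.mem_of_mem_erase hz), h.symm D⟩
      rw [hN, Finset.mem_singleton] at h3
      exact (Finset.mem_erase.1 hz).1 h3
    have h2 : ∑ z ∈ (S.erase x).erase y, wd (D.nb (S.erase x) z).card =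
        ∑ z ∈ (S.erase x).erase y, wd (D.nb S z).card :=
      Finset.sum_congr rfl fun z hz => by rw [nb_erase_of_not_adj (hna z hz)]
    rw [← Finset.add_sum_erase (S.erase x) _ hyx, h2, hyc] at h1
    rw [← Finset.add_sum_erase S _ hx, ← Finset.add_sum_erase (S.erase x) _ hyx, hN,
      Finset.card_singleton]
    have hcase : (D.nb S y).card = 1 ∨ (D.nb S y).card = 2 := by omega
    rcases hcase with h | h
    · rw [h] at h1 ⊢
      have e1 : wd 1 = 1 := rfl
      have e0 : wd (1 - 1) = 2 := rfl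
      rw [e0] at h1; rw [e1]; linarith
    · rw [h] at h1 ⊢
      have e1 : wd 1 = 1 := rfl
      have e2 : wd 2 = 0 := rfl
      have e0 : wd (2 - 1) = 1 := rfl
      rw [e0] at h1; rw [e1, e2]; linarith
  push Not at c1
  -- a component of type D4
  by_cases c2 : ∃ y ∈ S, (D.nb S y).card = 3 ∧ ∀ z ∈ D.nb S y, (D.nb S z).card ≤ 1
  · obtain ⟨y, hy, hy3, hall⟩ := c2
    set A := insert y (D.nb S y) with hA
    have hyN : y ∉ D.nb S y := by rw [mem_nb]; rintro ⟨_, h⟩; exact h.1 rfl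
    have hAS : A ⊆ S := by
      intro z hz
      rcases Finset.mem_insert.1 hz with rfl | h
      · exact hy
      · exact ((mem_nb D).1 h).1
    have hna : ∀ z ∈ S \ A, ∀ x ∈ A, ¬ D.Adj z x := by
      intro z hz x hx hadj
      obtain ⟨hzS, hzA⟩ := Finset.mem_sdiff.1 hz
      rcases Finset.mem_insert.1 hx with rfl | h
      · exact hzA (Finset.mem_insert_of_mem ((mem_nb D).2 ⟨hzS, hadj.symm D⟩))
      · have h4 := (mem_nb D).1 h
        have h5 := nb_eq_singleton (hall x h) hy (h4.2.symm D)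
        have h6 : z ∈ D.nb S x := (mem_nb D).2 ⟨hzS, hadj.symm D⟩
        rw [h5, Finset.mem_singleton] at h6
        exact hzA (by rw [h6]; exact Finset.mem_insert_self _ _)
    have h1 := ih _ (by
      rw [← hk]
      exact Finset.card_lt_card (Finset.ssubset_iff_subset_ne.2 ⟨Finset.sdiff_subset, fun e => by
        have : y ∈ S \ A := by rw [e]; exact hy
        exact (Finset.mem_sdiff.1 this).2 (Finset.mem_insert_self _ _)⟩))
      (hS.mono (Finset.sdiff_subset (s := S) (t := A))) rfl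
    have h2 : ∑ z ∈ S \ A, wd (D.nb (S \ A) z).card = ∑ z ∈ S \ A, wd (D.nb S z).card :=
      Finset.sum_congr rfl fun z hz => by rw [nb_sdiff_of_not_adj (hna z hz)]
    rw [h2] at h1
    rw [← Finset.sum_sdiff hAS]
    have h3 : ∑ z ∈ A, wd (D.nb S z).card = 0 := by
      rw [hA, Finset.sum_insert hyN, hy3]
      have h4 : ∑ z ∈ D.nb S y, wd (D.nb S z).card = ∑ _z ∈ D.nb S y, 1 := by
        refine Finset.sum_congr rfl fun z hz => ?_
        rw [nb_eq_singleton (hall z hz) hy (((mem_nb D).1 hz).2.symm D), Finset.card_singleton]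
        rfl
      rw [h4, Finset.sum_const, hy3]
      rfl
    rw [h3, add_zero]; exact h1
  push Not at c2
  -- the rest
  by_cases hU : ∃ u ∈ S, 2 ≤ (D.nb S u).card
  swap
  · push Not at hU
    refine Finset.sum_nonneg fun x hx => ?_
    have := hU x hx
    have hcase : (D.nb S x).card = 0 ∨ (D.nb S x).card = 1 := by omega
    rcases hcase with h | h <;> rw [h] <;> decide
  exfalso
  obtain ⟨u0, hu0, hu02⟩ := hU
  refine core_test' hS (U := S.filter fun u => 2 ≤ (D.nb S u).card) (Finset.filter_subset _ _)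
    ⟨u0, Finset.mem_filter.2 ⟨hu0, hu02⟩⟩ ?_
  intro u hu
  obtain ⟨huS, hu2⟩ := Finset.mem_filter.1 hu
  have hd := D.deg_le hS huS
  have hsum := Finset.card_filter_add_card_filter_not (s := D.nb S u)
    (fun z => 2 ≤ (D.nb S z).card)
  -- small neighbours force degree three
  have hsm : ∀ z ∈ (D.nb S u).filter (fun z => ¬ 2 ≤ (D.nb S z).card), (D.nb S u).card = 3 := by
    intro z hz
    obtain ⟨hz1, hz2⟩ := Finset.mem_filter.1 hz
    obtain ⟨hzS, hadj⟩ := (mem_nb D).1 hz1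
    have := c1 z hzS u huS (hadj.symm D) (by omega)
    omega
  by_cases h2 : 2 ≤ ((D.nb S u).filter fun z => 2 ≤ (D.nb S z).card).card
  · left
    obtain ⟨v, hv, v', hv', hne⟩ := Finset.one_lt_card.1 h2
    obtain ⟨hv1, hv2⟩ := Finset.mem_filter.1 hv
    obtain ⟨hv1', hv2'⟩ := Finset.mem_filter.1 hv'
    obtain ⟨hvS, hadj⟩ := (mem_nb D).1 hv1
    obtain ⟨hvS', hadj'⟩ := (mem_nb D).1 hv1'
    exact ⟨v, Finset.mem_filter.2 ⟨hvS, hv2⟩, v', Finset.mem_filter.2 ⟨hvS', hv2'⟩, hne, hadj,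
      hadj'⟩
  · have hpos : 0 < ((D.nb S u).filter fun z => ¬ 2 ≤ (D.nb S z).card).card := by omega
    obtain ⟨z0, hz0⟩ := Finset.card_pos.1 hpos
    have h3 := hsm z0 hz0
    have h1 : 1 ≤ ((D.nb S u).filter fun z => 2 ≤ (D.nb S z).card).card := by
      by_contra hlt
      have h0 : ((D.nb S u).filter fun z => 2 ≤ (D.nb S z).card).card = 0 := by omega
      obtain ⟨z, hz, hz'⟩ := c2 u huS h3
      rw [Finset.card_eq_zero, Finset.filter_eq_empty_iff] at h0
      exact h0 hz (by omega)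
    obtain ⟨v, hv⟩ := Finset.card_pos.1 (show 0 < _ from h1)
    obtain ⟨hv1, hv2⟩ := Finset.mem_filter.1 hv
    obtain ⟨hvS, hadj⟩ := (mem_nb D).1 hv1
    right
    refine ⟨⟨v, Finset.mem_filter.2 ⟨hvS, hv2⟩, hadj⟩, Or.inr ?_⟩
    have h4 : 2 ≤ ((D.nb S u).filter fun z => ¬ 2 ≤ (D.nb S z).card).card := by omega
    obtain ⟨q, hq, q', hq', hne⟩ := Finset.one_lt_card.1 h4
    obtain ⟨hq1, hq2⟩ := Finset.mem_filter.1 hq
    obtain ⟨hq1', hq2'⟩ := Finset.mem_filter.1 hq'
    obtain ⟨hqS, hadjq⟩ := (mem_nb D).1 hq1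
    obtain ⟨hqS', hadjq'⟩ := (mem_nb D).1 hq1'
    exact ⟨q, hqS, q', hqS', fun h => hq2 (Finset.mem_filter.1 h).2,
      fun h => hq2' (Finset.mem_filter.1 h).2, hne, hadjq, hadjq'⟩

open scoped Classical in
theorem sum_nb_card (S : Finset D.ι) : ∑ i ∈ S, ((D.nb S i).card : ℝ) = 2 * (eN D.g S : ℝ) := by
  classical
  have h := sum_pairs S (fun P => if AdjP D.g P then (1 : ℝ) else 0)
  have h1 : ∑ P ∈ S.powersetCard 2, (if AdjP D.g P then (1 : ℝ) else 0) = (eN D.g S : ℝ) := by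
    rw [← Finset.sum_filter, Finset.sum_const, nsmul_eq_mul, mul_one]; rfl
  rw [h1] at h
  rw [← h]
  refine Finset.sum_congr rfl fun i hi => ?_
  rw [← Finset.sum_filter, Finset.sum_const, nsmul_eq_mul, mul_one]
  congr 1
  refine congrArg Finset.card ?_
  ext j
  rw [mem_nb, Finset.mem_filter, Finset.mem_erase]
  constructor
  · rintro ⟨h1, h2⟩
    exact ⟨⟨Ne.symm h2.1, h1⟩, i, by simp, j, by simp, h2.1, h2.2⟩
  · rintro ⟨⟨h1, h2⟩, a, ha, b, hb, hab, hg⟩
    refine ⟨h2, Ne.symm h1, ?_⟩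
    simp only [Finset.mem_insert, Finset.mem_singleton] at ha hb
    rcases ha with rfl | rfl <;> rcases hb with rfl | rfl
    · exact absurd rfl hab
    · exact hg
    · rw [D.symm]; exact hg
    · exact absurd rfl hab

open scoped Classical in
theorem d2_card_le (S : Finset D.ι) :
    ((S.powersetCard 2).filter fun P => D.D2 S P).card ≤ ∑ i ∈ S, (D.nb S i).card.choose 2 := by
  have hsub : ((S.powersetCard 2).filter fun P => D.D2 S P) ⊆
      S.biUnion fun z => (D.nb S z).powersetCard 2 := by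
    intro P hP
    rw [Finset.mem_filter, Finset.mem_powersetCard] at hP
    obtain ⟨⟨hPS, hPc⟩, z, hz, -, hadj⟩ := hP
    rw [Finset.mem_biUnion]
    refine ⟨z, hz, ?_⟩
    rw [Finset.mem_powersetCard]
    exact ⟨fun p hp => (mem_nb D).2 ⟨hPS hp, hadj p hp⟩, hPc⟩
  refine (Finset.card_le_card hsub).trans (Finset.card_biUnion_le.trans ?_)
  refine Finset.sum_le_sum fun z _ => ?_
  rw [Finset.card_powersetCard]

/-! ### closed subsets -/

/-- `A` is a union of components of `S` -/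
def Closed (D : CoxData n) (S A : Finset D.ι) : Prop := A ⊆ S ∧ ∀ z ∈ A, ∀ x ∈ S, D.Adj z x → x ∈ A

theorem Closed.nb {S A : Finset D.ι} (h : Closed D S A) {z : D.ι} (hz : z ∈ A) :
    D.nb A z = D.nb S z := by
  classical
  ext y
  rw [mem_nb, mem_nb]
  exact ⟨fun h' => ⟨h.1 h'.1, h'.2⟩, fun h' => ⟨h.2 z hz y h'.1 h'.2, h'.2⟩⟩

theorem Closed.t8 {S A : Finset D.ι} (h : Closed D S A) {z : D.ι} (hz : z ∈ A) :
    D.t8 A z = D.t8 S z := by
  classical
  have e1 : (∃ c ∈ A, D.g z c = -c5 ∧ 2 ≤ (D.nb A c).card) ↔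
      (∃ c ∈ S, D.g z c = -c5 ∧ 2 ≤ (D.nb S c).card) := by
    constructor
    · rintro ⟨c, hc, h1, h2⟩
      exact ⟨c, h.1 hc, h1, by rwa [h.nb hc] at h2⟩
    · rintro ⟨c, hc, h1, h2⟩
      have hcA := h.2 z hz c hc (D.adj_of_five h1)
      exact ⟨c, hcA, h1, by rwa [h.nb hcA]⟩
  have e2 : (∃ c ∈ A, D.g z c = -c5) ↔ (∃ c ∈ S, D.g z c = -c5) := by
    constructor
    · rintro ⟨c, hc, h1⟩
      exact ⟨c, h.1 hc, h1⟩
    · rintro ⟨c, hc, h1⟩
      exact ⟨c, h.2 z hz c hc (D.adj_of_five h1), h1⟩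
  unfold CoxData.t8
  rw [h.nb hz]
  simp only [e1, e2]

theorem Closed.compl {S A : Finset D.ι} (h : Closed D S A) : Closed D S (S \ A) := by
  classical
  refine ⟨Finset.sdiff_subset, fun z hz x hx hadj => ?_⟩
  rw [Finset.mem_sdiff] at hz ⊢
  exact ⟨hx, fun hxA => hz.2 (h.2 x hxA z hz.1 (hadj.symm D))⟩

/-- eight times the slack of a node -/
noncomputable def w8 (D : CoxData n) (S : Finset D.ι) (x : D.ι) : ℤ :=
  19 - 4 * ((D.nb S x).card : ℤ) - 6 * (((D.nb S x).card.choose 2 : ℕ) : ℤ) - (D.t8 S x : ℤ)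

theorem Closed.w8 {S A : Finset D.ι} (h : Closed D S A) {z : D.ι} (hz : z ∈ A) :
    w8 D A z = w8 D S z := by
  unfold CoxData.w8
  rw [h.nb hz, h.t8 hz]

theorem w8_zero {S : Finset D.ι} {x : D.ι} (h : (D.nb S x).card = 0) : w8 D S x = 0 := by
  unfold w8 CoxData.t8
  simp [h]

theorem w8_one {S : Finset D.ι} {x : D.ι} (h : (D.nb S x).card = 1) :
    w8 D S x = 15 - (D.t8 S x : ℤ) := by
  unfold w8
  rw [h]; norm_num

theorem w8_two {S : Finset D.ι} {x : D.ι} (h : (D.nb S x).card = 2) : w8 D S x = 0 := by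
  unfold w8 CoxData.t8
  rw [h]
  norm_num

theorem w8_three {S : Finset D.ι} {x : D.ι} (h : (D.nb S x).card = 3) : w8 D S x = -16 := by
  unfold w8 CoxData.t8
  rw [h]
  norm_num [Nat.choose]

theorem t8_cases (S : Finset D.ι) (x : D.ι) (h : (D.nb S x).card = 1) :
    (D.t8 S x = 21 ∧ ∃ c ∈ S, D.g x c = -c5 ∧ 2 ≤ (D.nb S c).card) ∨
    (D.t8 S x = 15 ∧ ∃ c ∈ S, D.g x c = -c5) ∨
    (D.t8 S x = 9 ∧ ∀ c ∈ S, D.g x c ≠ -c5) := by
  classical
  unfold CoxData.t8
  rw [if_neg (by omega), if_pos h]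
  by_cases h1 : ∃ c ∈ S, D.g x c = -c5 ∧ 2 ≤ (D.nb S c).card
  · left; rw [if_pos h1]; exact ⟨rfl, h1⟩
  · right
    rw [if_neg h1]
    by_cases h2 : ∃ c ∈ S, D.g x c = -c5
    · left; rw [if_pos h2]; exact ⟨rfl, h2⟩
    · right; rw [if_neg h2]
      push Not at h2
      exact ⟨rfl, h2⟩

/-- `[5,3,5]` is not positive definite -/
theorem no_535 {S : Finset D.ι} (hS : PD D.g S) {x y z w : D.ι} (hx : x ∈ S) (hy : y ∈ S)
    (hz : z ∈ S) (hw : w ∈ S) (hxy : D.g x y = -c5) (hyz : D.Adj y z) (hzw : D.g z w = -c5)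
    (hxz : x ≠ z) (hwy : w ≠ y) : False := by
  classical
  have h5 := c5_gt
  have a1 := D.adj_of_five hxy
  have a2 := D.adj_of_five hzw
  refine D.core_test hS (U := {y, z}) (by
    intro u hu
    simp only [Finset.mem_insert, Finset.mem_singleton] at hu
    rcases hu with rfl | rfl <;> assumption) (by simp) fun u hu => ?_
  have key : ∀ u v q : D.ι, D.Adj u v → q ∈ S → q ≠ u → q ≠ v → D.g u q = -c5 →
      1 ≤ ∑ v ∈ ({u, v} : Finset D.ι).erase u, -D.g u v + ∑ q ∈ S \ {u, v}, D.g u q ^ 2 := by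
    intro u v q huv hq hqu hqv hg
    have e1 : ({u, v} : Finset D.ι).erase u = {v} := by
      rw [Finset.erase_insert (by simp [huv.1])]
    have e2 : D.g u q ^ 2 ≤ ∑ q ∈ S \ {u, v}, D.g u q ^ 2 :=
      Finset.single_le_sum (f := fun q => D.g u q ^ 2) (fun q _ => sq_nonneg _)
        (by simp [hq, hqu, hqv])
    rw [e1, Finset.sum_singleton]
    have h1 := huv.g_le D
    rw [hg] at e2
    nlinarith
  simp only [Finset.mem_insert, Finset.mem_singleton] at hu
  rcases hu with rfl | rfl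
  · exact key u z x hyz hx a1.1 hxz (by rw [D.symm]; exact hxy)
  · rw [Finset.pair_comm]
    exact key u y w (hyz.symm D) hw (Ne.symm a2.1) hwy hzw

/-- a component with an edge of label 5 -/
theorem w8_comp {C : Finset D.ι} (hC : PD D.g C) (ht : D.TC C)
    (h5 : ∃ a ∈ C, ∃ b ∈ C, D.g a b = -c5) : 0 ≤ ∑ x ∈ C, w8 D C x := by
  classical
  obtain ⟨a, ha, b, hb, hab⟩ := h5
  have hadj := D.adj_of_five hab
  have hd : ∀ x ∈ C, (D.nb C x).card ≤ 2 :=
    D.stmtHEAVY C hC ht ⟨a, ha, b, hb, D.heavy_of_five hab⟩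
  have hcard : C.card ≤ 4 := D.stmtFIVE C hC ht ⟨a, ha, b, hb, hab⟩
  have h0 : ∀ x ∈ C, 1 ≤ (D.nb C x).card := by
    intro x hx
    obtain ⟨y, hy, z, hz, hzn, hyz⟩ := D.stmtSPLIT C {x} hC ht (by simpa using hx) (by simp)
      (by intro e; rw [← e] at ha hb
          simp only [Finset.mem_singleton] at ha hb
          exact hadj.1 (ha.trans hb.symm))
    rw [Finset.mem_singleton] at hy
    subst hy
    exact Finset.card_pos.2 ⟨z, (mem_nb D).2 ⟨hz, hyz⟩⟩
  obtain ⟨-, -, h3⟩ := D.stmtTREE C hC ht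
  have e0 : (C.filter fun x => (D.nb C x).card = 0) = ∅ := by
    rw [Finset.filter_eq_empty_iff]
    intro x hx h; have := h0 x hx; omega
  have e3 : (C.filter fun x => (D.nb C x).card = 3) = ∅ := by
    rw [Finset.filter_eq_empty_iff]
    intro x hx h; have := hd x hx; omega
  have h3' : 2 * (C.filter fun x => (D.nb C x).card = 0).card +
    (C.filter fun x => (D.nb C x).card = 1).card =
    2 + (C.filter fun x => (D.nb C x).card = 3).card := by convert h3
  rw [e0, e3, Finset.card_empty] at h3'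
  have h1 : (C.filter fun x => (D.nb C x).card = 1).card = 2 := by omega
  obtain ⟨l, m, hlm, hF⟩ := Finset.card_eq_two.1 h1
  have hl : l ∈ C ∧ (D.nb C l).card = 1 := by
    have : l ∈ C.filter fun x => (D.nb C x).card = 1 := by rw [hF]; simp
    exact Finset.mem_filter.1 this
  have hm : m ∈ C ∧ (D.nb C m).card = 1 := by
    have : m ∈ C.filter fun x => (D.nb C x).card = 1 := by rw [hF]; simp
    exact Finset.mem_filter.1 this
  have hsum : ∑ x ∈ C, w8 D C x = (15 - (D.t8 C l : ℤ)) + (15 - (D.t8 C m : ℤ)) := by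
    rw [← Finset.sum_filter_add_sum_filter_not C (fun x => (D.nb C x).card = 1)]
    have e : ∑ x ∈ C.filter (fun x => ¬ (D.nb C x).card = 1), w8 D C x = 0 := by
      refine Finset.sum_eq_zero fun x hx => ?_
      obtain ⟨hx, hx1⟩ := Finset.mem_filter.1 hx
      have := h0 x hx; have := hd x hx
      exact w8_two (by omega)
    rw [e, hF, Finset.sum_pair hlm, w8_one hl.2, w8_one hm.2]
    ring
  rw [hsum]
  have main : ∀ l m : D.ι, l ≠ m → l ∈ C ∧ (D.nb C l).card = 1 → m ∈ C ∧ (D.nb C m).card = 1 →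
      (∃ c ∈ C, D.g l c = -c5 ∧ 2 ≤ (D.nb C c).card) → ∀ c' ∈ C, D.g m c' ≠ -c5 := by
    rintro l m hlm hl hm ⟨c, hc, hlc, hc2⟩ c' hc' hmc
    have alc := D.adj_of_five hlc
    have amc := D.adj_of_five hmc
    have hNl := nb_eq_singleton hl.2.le hc alc
    have hNm := nb_eq_singleton hm.2.le hc' amc
    have h5 := c5_gt
    have hcm : c ≠ m := by rintro rfl; omega
    have hcl' : c' ≠ l := by
      rintro rfl
      have : m ∈ D.nb C c' := (mem_nb D).2 ⟨hm.1, amc.symm D⟩
      rw [hNl, Finset.mem_singleton] at this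
      exact hcm this.symm
    have q1 : (1 / 2 : ℝ) ≤ D.g c l ^ 2 := by rw [D.symm, hlc]; nlinarith
    by_cases hcc : c = c'
    · subst hcc
      have q2 : (1 / 2 : ℝ) ≤ D.g c m ^ 2 := by rw [D.symm, hmc]; nlinarith
      exact D.no_heavy2 hC hc hl.1 hm.1 hlm (Ne.symm alc.1) hcm q1 q2
    -- the second neighbour of `c`
    have hCeq : C = {l, c, c', m} := by
      symm
      refine Finset.eq_of_subset_of_card_le ?_ ?_
      · intro x hx
        simp only [Finset.mem_insert, Finset.mem_singleton] at hx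
        rcases hx with rfl | rfl | rfl | rfl
        · exact hl.1
        · exact hc
        · exact hc'
        · exact hm.1
      · rw [Finset.card_insert_of_notMem, Finset.card_insert_of_notMem, Finset.card_insert_of_notMem,
          Finset.card_singleton]
        · exact hcard
        · simp [Ne.symm amc.1]
        · simp [hcc, hcm]
        · simp [alc.1, Ne.symm hcl', hlm]
    obtain ⟨x, hx, y, hy, hxy⟩ := Finset.one_lt_card.1 (show 1 < (D.nb C c).card by omega)
    have hex : ∃ x ∈ D.nb C c, x ≠ l := by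
      by_cases e : x = l
      · exact ⟨y, hy, fun e' => hxy (e.trans e'.symm)⟩
      · exact ⟨x, hx, e⟩
    obtain ⟨x, hx, hxl⟩ := hex
    obtain ⟨hxC, hcx⟩ := (mem_nb D).1 hx
    rw [hCeq] at hxC
    simp only [Finset.mem_insert, Finset.mem_singleton] at hxC
    rcases hxC with rfl | rfl | rfl | rfl
    · exact hxl rfl
    · exact hcx.1 rfl
    · exact no_535 hC hl.1 hc hc' hm.1 hlc hcx (by rw [D.symm]; exact hmc) (Ne.symm hcl')
        (Ne.symm hcm)
    · have : c ∈ D.nb C x := (mem_nb D).2 ⟨hc, hcx.symm D⟩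
      rw [hNm, Finset.mem_singleton] at this
      exact hcc this
  rcases t8_cases C l hl.2 with ⟨e1, f1⟩ | ⟨e1, f1⟩ | ⟨e1, f1⟩ <;>
    rcases t8_cases C m hm.2 with ⟨e2, f2⟩ | ⟨e2, f2⟩ | ⟨e2, f2⟩ <;> rw [e1, e2] <;>
    first
    | (norm_num; done)
    | (exfalso
       first
       | (obtain ⟨c, hc, h, -⟩ := f2; exact main l m hlm hl hm f1 c hc h)
       | (obtain ⟨c, hc, h⟩ := f2; exact main l m hlm hl hm f1 c hc h)
       | (obtain ⟨c, hc, h⟩ := f1; exact main m l hlm.symm hm hl f2 c hc h))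

/-- **The weights of a vertex.** -/
theorem w8_sum {S : Finset D.ι} (hS : PD D.g S) : 0 ≤ ∑ x ∈ S, w8 D S x := by
  classical
  induction hk : S.card using Nat.strong_induction_on generalizing S with
  | _ k ih =>
  -- reduction to the complement of a closed subset
  have red : ∀ A : Finset D.ι, Closed D S A → A.Nonempty → 0 ≤ ∑ x ∈ A, w8 D A x →
      0 ≤ ∑ x ∈ S, w8 D S x := by
    intro A hA hne h0
    have h1 := ih (S \ A).card (by
      rw [← hk]
      exact Finset.card_lt_card (Finset.sdiff_ssubset hA.1 hne))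
      (hS.mono (Finset.sdiff_subset (s := S) (t := A))) rfl
    rw [← Finset.sum_sdiff hA.1]
    have e1 : ∑ x ∈ S \ A, w8 D S x = ∑ x ∈ S \ A, w8 D (S \ A) x :=
      Finset.sum_congr rfl fun z hz => (hA.compl.w8 hz).symm
    have e2 : ∑ x ∈ A, w8 D S x = ∑ x ∈ A, w8 D A x :=
      Finset.sum_congr rfl fun z hz => (hA.w8 hz).symm
    rw [e1, e2]; omega
  -- isolated nodes
  by_cases c0 : ∃ x ∈ S, (D.nb S x).card = 0
  · obtain ⟨x, hx, hx0⟩ := c0
    have hcl : Closed D S {x} := by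
      refine ⟨by simpa using hx, fun z hz y hy h => ?_⟩
      rw [Finset.mem_singleton] at hz
      subst hz
      have : y ∈ D.nb S z := (mem_nb D).2 ⟨hy, h⟩
      rw [Finset.card_eq_zero.1 hx0] at this
      exact absurd this (Finset.notMem_empty _)
    refine red {x} hcl (by simp) ?_
    rw [Finset.sum_singleton, w8_zero]
    rw [hcl.nb (by simp)]; exact hx0
  -- edges of label 5
  by_cases c5' : ∃ a ∈ S, ∃ b ∈ S, D.g a b = -c5
  · obtain ⟨a, ha, b, hb, hab⟩ := c5'
    have hadj := D.adj_of_five hab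
    obtain ⟨C, hCm, hmax⟩ := Finset.exists_max_image
      (S.powerset.filter fun C => a ∈ C ∧ b ∈ C ∧ D.TC C) Finset.card
      ⟨{a, b}, by
        rw [Finset.mem_filter, Finset.mem_powerset]
        refine ⟨?_, by simp, by simp, TC_pair hadj⟩
        intro z hz
        simp only [Finset.mem_insert, Finset.mem_singleton] at hz
        rcases hz with rfl | rfl <;> assumption⟩
    rw [Finset.mem_filter, Finset.mem_powerset] at hCm
    obtain ⟨hCS, haC, hbC, hTC⟩ := hCm
    have hcl : Closed D S C := by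
      refine ⟨hCS, fun z hz x hx h => ?_⟩
      by_contra hxC
      have h1 := hmax (insert x C) (by
        rw [Finset.mem_filter, Finset.mem_powerset]
        refine ⟨?_, Finset.mem_insert_of_mem haC, Finset.mem_insert_of_mem hbC,
          TC_insert hTC hxC hz (h.symm D)⟩
        intro y hy
        rcases Finset.mem_insert.1 hy with rfl | hy
        · exact hx
        · exact hCS hy)
      rw [Finset.card_insert_of_notMem hxC] at h1
      omega
    exact red C hcl ⟨a, haC⟩ (w8_comp (hS.mono hCS) hTC ⟨a, haC, b, hbC, hab⟩)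
  -- no edges of label 5, no isolated nodes
  push Not at c0 c5'
  have h1 := wd_sum hS
  have h2 : ∀ x ∈ S, 6 * wd (D.nb S x).card ≤ w8 D S x := by
    intro x hx
    have hd := D.deg_le hS hx
    have h0 := c0 x hx
    have hcase : (D.nb S x).card = 1 ∨ (D.nb S x).card = 2 ∨ (D.nb S x).card = 3 := by omega
    rcases hcase with h | h | h
    · rw [w8_one h, h]
      rcases t8_cases S x h with ⟨e, c, hc, hg, -⟩ | ⟨e, c, hc, hg⟩ | ⟨e, -⟩
      · exact absurd hg (c5' x hx c hc)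
      · exact absurd hg (c5' x hx c hc)
      · rw [e]; norm_num [wd]
    · rw [w8_two h, h]; norm_num [wd]
    · rw [w8_three h, h]; norm_num [wd]
  have h3 := Finset.sum_le_sum h2
  rw [← Finset.mul_sum] at h3
  omega

open scoped Classical in
/-- **The vertex level.** -/
theorem vertex_le24 {v : Finset D.ι} (hv : v ∈ Verts D.g n) :
    (eN D.g v : ℝ) + ∑ P ∈ v.powersetCard 2, D.cor v P +
      1 / 8 * ∑ b ∈ v, (D.t8 v b : ℝ) ≤ 19 / 8 * n := by
  obtain ⟨hv1, hv2⟩ := mem_Verts.1 hv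
  have h1 := sum_nb_card v
  have h2 : ∑ P ∈ v.powersetCard 2, D.cor v P =
      3 / 4 * (((v.powersetCard 2).filter fun P => D.D2 v P).card : ℝ) := by
    unfold cor
    rw [← Finset.sum_filter, Finset.sum_const, nsmul_eq_mul, mul_comm]
  have h3 : (((v.powersetCard 2).filter fun P => D.D2 v P).card : ℝ) ≤
      ∑ i ∈ v, (((D.nb v i).card.choose 2 : ℕ) : ℝ) := by
    exact_mod_cast d2_card_le v
  have h5 : (0 : ℝ) ≤ ∑ x ∈ v, (w8 D v x : ℝ) := by exact_mod_cast w8_sum hv1
  have h6 : ∑ x ∈ v, (w8 D v x : ℝ) = 19 * n - 4 * (2 * (eN D.g v : ℝ)) -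
      6 * ∑ i ∈ v, (((D.nb v i).card.choose 2 : ℕ) : ℝ) - ∑ b ∈ v, (D.t8 v b : ℝ) := by
    have hv2' : (n : ℝ) = (v.card : ℝ) := by rw [hv2]
    rw [← h1, Finset.mul_sum, Finset.mul_sum, hv2']
    have e : (19 : ℝ) * (v.card : ℝ) = ∑ _x ∈ v, (19 : ℝ) := by
      rw [Finset.sum_const, nsmul_eq_mul, mul_comm]
    rw [e, ← Finset.sum_sub_distrib, ← Finset.sum_sub_distrib, ← Finset.sum_sub_distrib]
    refine Finset.sum_congr rfl fun x _ => ?_
    unfold w8
    push_cast
    ring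
  rw [h2]
  linarith

end CoxData

end MP345
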