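import Mathlib
import Pool.Agent.Work.MP_345ef2_gt.Shape6
import Pool.Agent.Work.MP_345ef2_gt_24.LType

/-!
# The classification of the Lannér sets (MP_345ef2_gt)
-/

namespace MP345

open Finset

variable {n : ℕ}

namespace CoxData

variable (D : CoxData n)

theorem TPath4.toPath4 {x y z : ℝ} {L : Finset D.ι} (h : D.TPath4 x y z L) :
    ∃ a b c d, D.Path4 a b c d x y z L := by
  obtain ⟨a, b, c, d, hLe, hnd, h1, h2, h3, h4, h5, h6⟩ := h
  simp only [List.nodup_cons, List.mem_cons, List.not_mem_nil, or_false, not_or,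
      not_false_eq_true, List.nodup_nil, and_true] at hnd
  obtain ⟨⟨dab, dac, dad⟩, ⟨dbc, dbd⟩, dcd⟩ := hnd
  exact ⟨a, b, c, d, hLe, dab, dac, dad, dbc, dbd, dcd, h1, h2, h3, h4, h5, h6⟩

theorem TPath5.toPath5 {z : ℝ} {L : Finset D.ι} (h : D.TPath5 z L) :
    ∃ a b c d e, D.Path5 a b c d e c5 (1 / 2) (1 / 2) z L := by
  obtain ⟨a, b, c, d, e, hLe, hnd, h1, h2, h3, h4, h5, h6, h7, h8, h9, h10⟩ := h
  simp only [List.nodup_cons, List.mem_cons, List.not_mem_nil, or_false, not_or,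
      not_false_eq_true, List.nodup_nil, and_true] at hnd
  obtain ⟨⟨dab, dac, dad, dae⟩, ⟨dbc, dbd, dbe⟩, ⟨dcd, dce⟩, dde⟩ := hnd
  exact ⟨a, b, c, d, e, hLe, dab, dac, dad, dae, dbc, dbd, dbe, dcd, dce, dde, h1, h2, h3, h4,
    h5, h6, h7, h8, h9, h10⟩

/-- **Lannér's theorem** in the combinatorial form: the types of the minimal non positive
definite sets. -/
theorem stmtCLS : D.StmtCLS := by
  intro L hL
  have hc := hL.card_le
  by_cases h3 : L.card ≤ 3
  · exact LType.small h3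
  by_cases h4 : L.card = 4
  · rcases hL.shape4 h4 with h | h | h | h | h
    · obtain ⟨a, b, c, d, hLe, hnd, h1, h2, h3, h4, h5, h6⟩ := h
      simp only [List.nodup_cons, List.mem_cons, List.not_mem_nil, or_false, not_or,
        not_false_eq_true, List.nodup_nil, and_true] at hnd
      obtain ⟨⟨dab, dac, dad⟩, ⟨dbc, dbd⟩, dcd⟩ := hnd
      exact LType.cyc4 a b c d ⟨hLe, dac, dbd, h1, h2, h3, h4, h5, h6⟩
    · obtain ⟨z, u, p, q, hLe, hnd, h1, h2, h3, h4, h5, h6⟩ := h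
      simp only [List.nodup_cons, List.mem_cons, List.not_mem_nil, or_false, not_or,
        not_false_eq_true, List.nodup_nil, and_true] at hnd
      obtain ⟨⟨dzu, dzp, dzq⟩, ⟨dup, duq⟩, dpq⟩ := hnd
      exact LType.star4 z u p q ⟨hLe, dzu, dzp, dzq, dup, duq, dpq, h1, h2, h3, h4, h5, h6⟩
    · obtain ⟨a, b, c, d, h⟩ := TPath4.toPath4 D h
      exact LType.p353 a b c d h
    · obtain ⟨a, b, c, d, h⟩ := TPath4.toPath4 D h
      exact LType.p534 a b c d h
    · obtain ⟨a, b, c, d, h⟩ := TPath4.toPath4 D h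
      exact LType.p535 a b c d h
  have h5 : L.card = 5 := by omega
  rcases hL.shape5 h5 with h | (h | h | h) | h
  · obtain ⟨u, v, w, p, q, hLe, hnd, h1, h2, h3, h4, h5, h6, h7, h8, h9, h10⟩ := h
    simp only [List.nodup_cons, List.mem_cons, List.not_mem_nil, or_false, not_or,
      not_false_eq_true, List.nodup_nil, and_true] at hnd
    obtain ⟨⟨duv, duw, dup, duq⟩, ⟨dvw, dvp, dvq⟩, ⟨dwp, dwq⟩, dpq⟩ := hnd
    exact LType.fork u v w p q ⟨hLe, duv, duw, dup, duq, dvw, dvp, dvq, dwp, dwq, dpq, h1, h2,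
      h3, h4, h5, h6, h7, h8, h9, h10⟩
  · obtain ⟨a, b, c, d, e, h⟩ := TPath5.toPath5 D h
    exact LType.path5 a b c d e _ (Or.inl rfl) h
  · obtain ⟨a, b, c, d, e, h⟩ := TPath5.toPath5 D h
    exact LType.path5 a b c d e _ (Or.inr (Or.inl rfl)) h
  · obtain ⟨a, b, c, d, e, h⟩ := TPath5.toPath5 D h
    exact LType.path5 a b c d e _ (Or.inr (Or.inr rfl)) h
  · obtain ⟨a, b, c, d, e, hLe, hnd, h1, h2, h3, h4, h5, h6, h7, h8, h9, h10⟩ := h
    simp only [List.nodup_cons, List.mem_cons, List.not_mem_nil, or_false, not_or,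
      not_false_eq_true, List.nodup_nil, and_true] at hnd
    obtain ⟨⟨dab, dac, dad, dae⟩, ⟨dbc, dbd, dbe⟩, ⟨dcd, dce⟩, dde⟩ := hnd
    exact LType.cyc5 a b c d e ⟨hLe, dab, dac, dad, dae, dbc, dbd, dbe, dcd, dce, dde, h1, h2,
      h3, h4, h5, h6, h7, h8, h9, h10⟩

end CoxData

end MP345
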