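import Mathlib
import Pool.Agent.Work.MP_345ef2_gt_24.TI

/-!
# Block CTX and CGEN (MP_345ef2_gt, T level)
-/

namespace MP345

open Finset

variable {n : ℕ}

namespace CoxData

variable (D : CoxData n)

theorem Tset_not_pd {T : Finset D.ι} (hT : T ∈ Tsets D.g n) : ¬ PD D.g T := by
  intro h
  have h1 := D.card_le T h
  have h2 := (mem_Tsets.1 hT).1
  omega

theorem Rset_sub_of_not_pd {T A : Finset D.ι} (hA : A ⊆ T) (hn : ¬ PD D.g A) :
    Rset D.g T ⊆ A := by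
  intro x hx
  by_contra hxA
  refine hn ((mem_Rset.1 hx).2.mono fun y hy => ?_)
  exact Finset.mem_erase.2 ⟨fun e => hxA (e ▸ hy), hA hy⟩

theorem stmtCTX : D.StmtCTX := by
  classical
  intro T hT
  have hn := D.Tset_not_pd hT
  refine ⟨hn, LM_lan hn, LM_sub hn, D.Rset_sub_of_not_pd (LM_sub hn) (LM_lan hn).1,
    fun x hx => (mem_Rset.1 hx).2, ?_, ?_⟩
  · intro x hx hxR
    have h1 : ¬ PD D.g (T.erase x) := fun h => hxR (mem_Rset.2 ⟨hx, h⟩)
    exact D.exists_lan _ h1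
  · intro A hA hL
    exact ⟨D.Rset_sub_of_not_pd hA hL.1, LM_cls hn hA hL⟩

theorem stmtCGEN : D.StmtCGEN := by
  classical
  intro T hT a ha b hb hab V hV hTC
  obtain ⟨hn, hLan, hLT, hRL, hRP, -, -⟩ := D.stmtCTX T hT
  have hVL : V ⊆ D.LM T := hV.trans (Finset.erase_subset _ _)
  have hN1T : ∀ m ∈ D.N1 T (D.LM T) {a, b}, m ∈ T ∧ m ∉ D.LM T ∧ D.NA m {a, b} ∧
      ∃ s ∈ D.LM T, D.Adj m s := by
    intro m hm
    unfold N1 at hm
    simpa using hm
  have hN2T : ∀ m ∈ D.N2 T (D.LM T) {a, b}, m ∈ T ∧ m ∉ D.LM T ∧ D.NA m {a, b} ∧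
      D.NA m (D.LM T) ∧ ∃ m' ∈ D.N1 T (D.LM T) {a, b}, D.Adj m m' := by
    intro m hm
    unfold N2 at hm
    simpa using hm
  have hbL : b ∈ D.LM T := hRL hb
  refine ⟨⟨hRP b hb, ?_, ?_, ?_, ?_, ?_, ?_, hTC, ?_, ?_, ?_⟩, ?_⟩
  · intro x hx
    have := hV hx
    rw [Finset.mem_erase] at this
    exact Finset.mem_erase.2 ⟨this.1, hLT this.2⟩
  · intro x hx
    obtain ⟨h1, h2, -, -⟩ := hN1T x (Finset.mem_filter.1 hx).1
    exact Finset.mem_erase.2 ⟨fun e => h2 (e ▸ hbL), h1⟩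
  · intro x hx
    obtain ⟨h1, h2, -, -⟩ := hN2T x (Finset.mem_filter.1 hx).1
    exact Finset.mem_erase.2 ⟨fun e => h2 (e ▸ hbL), h1⟩
  · rw [Finset.disjoint_left]
    intro x hx hx'
    exact (hN1T x (Finset.mem_filter.1 hx').1).2.1 (hVL hx)
  · rw [Finset.disjoint_left]
    intro x hx hx'
    exact (hN2T x (Finset.mem_filter.1 hx').1).2.1 (hVL hx)
  · rw [Finset.disjoint_left]
    intro x hx hx'
    obtain ⟨-, -, -, s, hs, hxs⟩ := hN1T x (Finset.mem_filter.1 hx).1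
    exact (hN2T x (Finset.mem_filter.1 hx').1).2.2.2.1 s hs hxs
  · intro m hm
    exact (Finset.mem_filter.1 hm).2
  · intro x hx
    obtain ⟨m, hm, hmv, hxm⟩ := (Finset.mem_filter.1 hx).2
    exact ⟨m, Finset.mem_filter.2 ⟨hm, hmv⟩, hxm⟩
  · intro x hx v hv
    exact (hN2T x (Finset.mem_filter.1 hx).1).2.2.2.1 v (hVL hv)
  · intro hall
    have key : ∀ m ∈ D.N1 T (D.LM T) {a, b}, ∃ v ∈ V, D.Adj m v := by
      intro m hm
      obtain ⟨-, -, hna, s, hs, hms⟩ := hN1T m hm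
      refine ⟨s, hall s hs ?_ ?_, hms⟩
      · rintro rfl; exact hna s (by simp) hms
      · rintro rfl; exact hna s (by simp) hms
    constructor
    · exact Finset.filter_true_of_mem key
    · refine Finset.filter_true_of_mem fun x hx => ?_
      obtain ⟨-, -, -, -, m', hm', hxm⟩ := hN2T x hx
      exact ⟨m', hm', key m' hm', hxm⟩

end CoxData

end MP345
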