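import Mathlib
import Pool.Agent.Work.MP_345ef2_gt_24.D_BOTH
import Pool.Agent.Work.MP_345ef2_gt_24.T_CLF
import Pool.Agent.Work.MP_345ef2_gt.Shape

/-!
# D level, block WTOUCH: test vectors
-/

namespace MP345

open Finset

variable {n : ℕ}

namespace CoxData

variable (D : CoxData n)

/-- test vectors on three nodes -/
theorem negAt3 {a b c : D.ι} {L : Finset D.ι} (ab : a ≠ b) (ac : a ≠ c) (bc : b ≠ c) (ha : a ∈ L)
    (hb : b ∈ L) (hc : c ∈ L) (x y : ℝ) {A : ℝ}
    (h : 1 + x ^ 2 + y ^ 2 + 2 * (x * D.g a b + y * D.g a c + x * y * D.g b c) ≤ -A) :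
    D.NegAt L a A := by
  have hf : Function.Injective ![a, b, c] := by
    rw [← List.nodup_ofFn]; simp [List.ofFn_succ]; tauto
  have hfL : ∀ r, ![a, b, c] r ∈ L := by
    intro r; fin_cases r <;> simp [ha, hb, hc]
  refine D.negAt_of hf ![1, x, y] hfL 0 (by simp) ?_
  have : ∑ r, ∑ s, (![1, x, y] : Fin 3 → ℝ) r * (![1, x, y] : Fin 3 → ℝ) s *
      D.g (![a, b, c] r) (![a, b, c] s) =
      1 + x ^ 2 + y ^ 2 + 2 * (x * D.g a b + y * D.g a c + x * y * D.g b c) := by
    simp only [Fin.sum_univ_three]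
    change 1 * 1 * D.g a a + 1 * x * D.g a b + 1 * y * D.g a c +
      (x * 1 * D.g b a + x * x * D.g b b + x * y * D.g b c) +
      (y * 1 * D.g c a + y * x * D.g c b + y * y * D.g c c) = _
    rw [D.self, D.self, D.self, D.symm b a, D.symm c a, D.symm c b]; ring
  rw [this]; exact h

/-- test vectors on four nodes -/
theorem negAt4 {a b c d : D.ι} {L : Finset D.ι} (ab : a ≠ b) (ac : a ≠ c) (ad : a ≠ d)
    (bc : b ≠ c) (bd : b ≠ d) (cd : c ≠ d) (ha : a ∈ L)
    (hb : b ∈ L) (hc : c ∈ L) (hd : d ∈ L) (x y z : ℝ) {A : ℝ}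
    (h : 1 + x ^ 2 + y ^ 2 + z ^ 2 + 2 * (x * D.g a b + y * D.g a c + z * D.g a d +
      x * y * D.g b c + x * z * D.g b d + y * z * D.g c d) ≤ -A) :
    D.NegAt L a A := by
  have hf : Function.Injective ![a, b, c, d] := by
    rw [← List.nodup_ofFn]; simp [List.ofFn_succ]; tauto
  have hfL : ∀ r, ![a, b, c, d] r ∈ L := by
    intro r; fin_cases r <;> simp [ha, hb, hc, hd]
  refine D.negAt_of hf ![1, x, y, z] hfL 0 (by simp) ?_
  have : ∑ r, ∑ s, (![1, x, y, z] : Fin 4 → ℝ) r * (![1, x, y, z] : Fin 4 → ℝ) s *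
      D.g (![a, b, c, d] r) (![a, b, c, d] s) =
      1 + x ^ 2 + y ^ 2 + z ^ 2 + 2 * (x * D.g a b + y * D.g a c + z * D.g a d +
      x * y * D.g b c + x * z * D.g b d + y * z * D.g c d) := by
    simp only [Fin.sum_univ_four]
    change 1 * 1 * D.g a a + 1 * x * D.g a b + 1 * y * D.g a c + 1 * z * D.g a d +
      (x * 1 * D.g b a + x * x * D.g b b + x * y * D.g b c + x * z * D.g b d) +
      (y * 1 * D.g c a + y * x * D.g c b + y * y * D.g c c + y * z * D.g c d) +
      (z * 1 * D.g d a + z * x * D.g d b + z * y * D.g d c + z * z * D.g d d) = _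
    rw [D.self, D.self, D.self, D.self, D.symm b a, D.symm c a, D.symm c b, D.symm d a,
      D.symm d b, D.symm d c]; ring
  rw [this]; exact h

theorem NegAt.mono {L : Finset D.ι} {a : D.ι} {A B : ℝ} (h : D.NegAt L a A) (hB : B ≤ A) :
    D.NegAt L a B := by
  obtain ⟨y, h1, h2, h3⟩ := h
  exact ⟨y, h1, h2, by linarith⟩

/-- `a - b =5= c - d` -/
theorem negAt_353 {a b c d : D.ι} {L : Finset D.ι} (h : D.Path4 a b c d (1 / 2) c5 (1 / 2) L) :
    D.NegAt L a (9 / 10) := by
  refine D.negAt4 h.ab h.ac h.ad h.bc h.bd h.cd h.ma h.mb h.mc h.md 4 4.3 2.15 ?_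
  rw [h.vab, h.vac, h.vad, h.vbc, h.vbd, h.vcd]
  have := c5_gt
  nlinarith

theorem negAt_534a {a b c d : D.ι} {L : Finset D.ι}
    (h : D.Path4 a b c d c5 (1 / 2) (√2 / 2) L) : D.NegAt L a (3 / 10) := by
  refine D.negAt4 h.ab h.ac h.ad h.bc h.bd h.cd h.ma h.mb h.mc h.md 1.618 1.618 1.144 ?_
  rw [h.vab, h.vac, h.vad, h.vbc, h.vbd, h.vcd]
  have := c5_gt
  have := s2_gt
  nlinarith

theorem negAt_534d {a b c d : D.ι} {L : Finset D.ι}
    (h : D.Path4 a b c d c5 (1 / 2) (√2 / 2) L) : D.NegAt L d (3 / 10) := by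
  refine D.negAt4 h.cd.symm h.bd.symm h.ad.symm h.bc.symm h.ac.symm h.ab.symm h.md h.mc h.mb h.ma
    2.56 3.7 3 ?_
  rw [D.symm d c, D.symm d b, D.symm d a, D.symm c b, D.symm c a, D.symm b a,
    h.vab, h.vac, h.vad, h.vbc, h.vbd, h.vcd]
  have := c5_gt
  have := s2_gt
  nlinarith

theorem negAt_535 {a b c d : D.ι} {L : Finset D.ι}
    (h : D.Path4 a b c d c5 (1 / 2) c5 L) : D.NegAt L a (3 / 10) := by
  refine D.negAt4 h.ab h.ac h.ad h.bc h.bd h.cd h.ma h.mb h.mc h.md 2.9 4.2 3.4 ?_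
  rw [h.vab, h.vac, h.vad, h.vbc, h.vbd, h.vcd]
  have := c5_gt
  nlinarith

theorem negAt_star_u {z u a b : D.ι} {L : Finset D.ι} (h : D.Star4 z u a b L) :
    D.NegAt L u (3 / 10) := by
  refine D.negAt4 h.zu.symm h.up h.uq h.zp h.zq h.pq h.mu h.mz h.mp h.mq 1.618 0.809 0.809 ?_
  rw [D.symm u z, h.vzu, h.vup, h.vuq, h.vzp, h.vzq, h.vpq]
  have := c5_gt
  nlinarith

/-- a cycle of order four with a heavy edge -/
theorem negAt_cyc {a b c d : D.ι} {L : Finset D.ι} (h : D.Cyc4 a b c d L)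
    (hs : D.g a b + D.g b c + D.g c d + D.g d a ≤ -(3 / 2 + √2 / 2)) :
    D.NegAt L a (3 / 10) := by
  refine D.negAt4 h.ab.ne h.ac h.da.ne.symm h.bc.ne h.bd h.cd.ne h.ma h.mb h.mc h.md 1 1 1 ?_
  rw [h.vac, h.vbd, D.symm a d]
  have := s2_gt
  nlinarith

/-- the contact node `c` of a cycle with the label 5 edge `a b` only -/
theorem negAt_cyc5 {a b c d : D.ι} {L : Finset D.ι} (h : D.Cyc4 a b c d L)
    (hab : D.g a b = -c5) : D.NegAt L c (9 / 10) := by
  refine D.negAt4 h.bc.ne.symm h.ac.symm h.cd.ne h.ab.ne.symm h.bd h.da.ne.symm h.mc h.mb h.ma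
    h.md 3 3 2 ?_
  rw [D.symm c b, D.symm c a, D.symm b a, D.symm a d, h.vac, h.vbd, hab]
  have := c5_gt
  have h1 := h.bc.g_le D
  have h2 := h.cd.g_le D
  have h3 := h.da.g_le D
  nlinarith

/-- the node `u` of a fork -/
theorem negAt_fork_u {u v w a b : D.ι} {L : Finset D.ι} (h : D.Fork u v w a b L) :
    D.NegAt L u (3 / 10) := by
  have hf : Function.Injective ![u, v, w, a, b] := by
    rw [← List.nodup_ofFn]
    have h1 := h.uv; have h2 := h.uw; have h3 := h.up; have h4 := h.uq; have h5 := h.vw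
    have h6 := h.vp; have h7 := h.vq; have h8 := h.wp; have h9 := h.wq; have h10 := h.pq
    simp [List.ofFn_succ]
    tauto
  have hfL : ∀ x, ![u, v, w, a, b] x ∈ L := by
    intro x; rw [h.eq]; fin_cases x <;> simp
  refine D.negAt_of hf ![1, 1.618, 1.618, 0.809, 0.809] hfL 0 (by simp) ?_
  simp only [Fin.sum_univ_five]
  change 1 * 1 * D.g u u + 1 * 1.618 * D.g u v + 1 * 1.618 * D.g u w + 1 * 0.809 * D.g u a +
      1 * 0.809 * D.g u b +
    (1.618 * 1 * D.g v u + 1.618 * 1.618 * D.g v v + 1.618 * 1.618 * D.g v w +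
      1.618 * 0.809 * D.g v a + 1.618 * 0.809 * D.g v b) +
    (1.618 * 1 * D.g w u + 1.618 * 1.618 * D.g w v + 1.618 * 1.618 * D.g w w +
      1.618 * 0.809 * D.g w a + 1.618 * 0.809 * D.g w b) +
    (0.809 * 1 * D.g a u + 0.809 * 1.618 * D.g a v + 0.809 * 1.618 * D.g a w +
      0.809 * 0.809 * D.g a a + 0.809 * 0.809 * D.g a b) +
    (0.809 * 1 * D.g b u + 0.809 * 1.618 * D.g b v + 0.809 * 1.618 * D.g b w +
      0.809 * 0.809 * D.g b a + 0.809 * 0.809 * D.g b b) ≤ -(3 / 10)
  rw [D.self, D.self, D.self, D.self, D.self, D.symm v u, D.symm w u, D.symm w v, D.symm a u,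
    D.symm a v, D.symm a w, D.symm b u, D.symm b v, D.symm b w, D.symm b a, h.vuv, h.vuw, h.vup,
    h.vuq, h.vvw, h.vvp, h.vvq, h.vwp, h.vwq, h.vpq]
  have := c5_gt
  nlinarith

/-- a Lannér set of order three with a missing edge: the sum of the squares of the labels -/
theorem Lan.sq3 {L : Finset D.ι} {t x y : D.ι} (hL : D.Lan L) (e : L = {t, x, y}) (htx : t ≠ x)
    (hty : t ≠ y) (hxy : x ≠ y) (g2 : D.g t y = 0) : 1 < D.g t x ^ 2 + D.g x y ^ 2 := by
  classical
  obtain ⟨c, hc, hsub⟩ := hL.exists_sub'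
  have mt : t ∈ L := by rw [e]; simp
  have mx : x ∈ L := by rw [e]; simp
  have my : y ∈ L := by rw [e]; simp
  have expl : ∀ r ∈ L, r = t ∨ r = x ∨ r = y := by
    intro r hr; rw [e] at hr; simpa using hr
  have e1 : c t < -D.g t x * c x := by
    have := Lan.sub_le hc hsub mt {x} (by
      intro j hj ha
      rcases expl j hj with rfl | rfl | rfl
      · exact absurd rfl ha.1
      · simp
      · exact absurd g2 ha.2) (by simpa using mx) (by simpa using htx)
    simpa using this
  have e2 : c y < -D.g x y * c x := by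
    have := Lan.sub_le hc hsub my {x} (by
      intro j hj ha
      rcases expl j hj with rfl | rfl | rfl
      · exact absurd (by rw [D.symm]; exact g2) ha.2
      · simp
      · exact absurd rfl ha.1) (by simpa using mx) (by simpa using hxy.symm)
    rw [D.symm x y]; simpa using this
  have e3 : c x < -D.g t x * c t + -D.g x y * c y := by
    have := Lan.sub_le hc hsub mx {t, y} (by
      intro j hj ha
      rcases expl j hj with rfl | rfl | rfl
      · simp
      · exact absurd rfl ha.1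
      · simp) (by intro r hr; simp at hr; rcases hr with rfl | rfl <;> assumption)
      (by simp [htx.symm, hxy])
    rw [Finset.sum_pair hty] at this
    rw [D.symm t x]; exact this
  have h1 := D.g_nonpos htx
  have h2 := D.g_nonpos hxy
  have hx := hc x mx
  have k1 : -D.g t x * c t ≤ -D.g t x * (-D.g t x * c x) :=
    mul_le_mul_of_nonneg_left e1.le (by linarith)
  have k2 : -D.g x y * c y ≤ -D.g x y * (-D.g x y * c x) :=
    mul_le_mul_of_nonneg_left e2.le (by linarith)
  have k3 : c x < (D.g t x ^ 2 + D.g x y ^ 2) * c x := by nlinarith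
  by_contra hle
  push Not at hle
  nlinarith

/-- Lannér sets of order three, a contact node that is an end of the path -/
theorem negAt_three {L : Finset D.ι} {t x y : D.ι} (hL : D.Lan L) (e : L = {t, x, y}) (htx : t ≠ x)
    (hty : t ≠ y) (hxy : x ≠ y) (g2 : D.g t y = 0)
    (g1 : D.g t x = -(1 / 2) ∨ D.g t x = -(√2 / 2) ∨ D.g t x = -c5) :
    D.NegAt L t (3 / 10) := by
  have hsq := Lan.sq3 D hL e htx hty hxy g2
  have mt : t ∈ L := by rw [e]; simp
  have mx : x ∈ L := by rw [e]; simp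
  have my : y ∈ L := by rw [e]; simp
  have Axy : D.Adj x y := by
    refine ⟨hxy, fun h0 => ?_⟩
    rw [h0] at hsq
    have h5 := c5_sq
    have h5' := c5_lt
    have h2 := s2_sq
    rcases g1 with g1 | g1 | g1 <;> rw [g1] at hsq <;> nlinarith
  have h5 := c5_sq
  have h5' := c5_lt
  have h5'' := c5_gt
  have h2 := s2_sq
  have h2' := s2_gt
  have h2'' := s2_lt
  have h3 := s3_sq
  have h3' : 0 ≤ √3 / 2 := by positivity
  rcases g1 with g1 | g1 | g1
  · -- y ≥ 0.8992
    have hy : D.g x y ≤ -0.8992 := by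
      rcases D.off x y hxy with ⟨m, hm, hg⟩ | hg
      · by_cases h7 : 7 ≤ m
        · have := cos7_ge h7; rw [hg]; linarith
        · exfalso
          have h6 : m ≤ 6 := by omega
          have hcos : Real.cos (Real.pi / m) ≤ √3 / 2 := by
            rw [← Real.cos_pi_div_six]
            apply Real.cos_le_cos_of_nonneg_of_le_pi
            · positivity
            · have : (2 : ℝ) ≤ m := by exact_mod_cast hm
              rw [div_le_iff₀ (by linarith)]
              nlinarith [Real.pi_pos]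
            · apply div_le_div_of_nonneg_left Real.pi_pos.le
              · have : (2 : ℝ) ≤ m := by exact_mod_cast hm
                linarith
              · exact_mod_cast h6
          have h0 := D.g_nonpos hxy
          rw [g1] at hsq
          rw [hg] at hsq h0
          nlinarith
      · linarith
    refine D.negAt3 htx hty hxy mt mx my 2.6 2.34 ?_
    rw [g1, g2]
    nlinarith
  · -- y ≥ c5
    have hy : D.g x y ≤ -0.809 := by
      rw [g1] at hsq
      rcases Axy.cases D with k | k | k | k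
      · rw [k] at hsq; nlinarith
      · rw [k] at hsq; nlinarith
      · linarith
      · nlinarith
    refine D.negAt3 htx hty hxy mt mx my 2.05 1.66 ?_
    rw [g1, g2]
    nlinarith
  · -- y ≥ √2 / 2
    have hy : D.g x y ≤ -0.707 := by
      rw [g1] at hsq
      rcases Axy.cases D with k | k | k | k
      · rw [k] at hsq; nlinarith
      · linarith
      · linarith
      · nlinarith
    refine D.negAt3 htx hty hxy mt mx my 1.6 1.13 ?_
    rw [g1, g2]
    nlinarith

end CoxData

end MP345
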