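import Mathlib
import Pool.Agent.Work.MP_345ef2_gt_24.D_WT1

/-!
# D level, block WTOUCH: the core lemma
-/

namespace MP345

open Finset

variable {n : ℕ}

namespace CoxData

variable (D : CoxData n)

/-- the core: a single contact edge at distance one from `q`, no contact near `q'` -/
theorem wt_core (hcls : D.StmtCLS) {p p' q q' : D.ι} {L M : Finset D.ι}
    (du : D.Duo p p' q q' L M) (hdis : Disjoint L M) {y s0 t0 : D.ι} (hy : y = p ∨ y = p')
    (hs0 : s0 ∈ L) (hs0y : s0 ≠ y) (ht0 : t0 ∈ M) (hg : D.g s0 t0 = -(1 / 2))
    (hneg : D.NegAt L s0 (9 / 10)) (hqt : D.Adj q t0)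
    (nq' : ∀ t ∈ M, ∀ s ∈ L, D.Adj s t → ¬ D.Adj q' t)
    (nd : ∀ t ∈ M, D.Adj q t → ∀ s ∈ L, D.Adj s t → s = s0)
    (h4 : D.cls M ≤ 3) : False := by
  classical
  have Ast : D.Adj s0 t0 := ⟨fun e => (Finset.disjoint_left.1 hdis hs0) (by rw [e]; exact ht0),
    by rw [hg]; norm_num⟩
  have hqq := du.qq
  have ht0q : t0 ≠ q := hqt.1.symm
  have ht0q' : t0 ≠ q' := (Duo.con_ne D du hs0 ht0 Ast).2.2.2
  have nq't0 : ¬ D.Adj q' t0 := nq' t0 ht0 s0 hs0 Ast
  have dj : ∀ {t : D.ι}, t ∈ M → s0 ≠ t := fun {t} ht e =>
    (Finset.disjoint_left.1 hdis hs0) (by rw [e]; exact ht)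
  obtain ⟨S, hS, hSL, hSM⟩ := Duo.get2 D du hy (x := q') (Or.inr rfl)
  have s0S : s0 ∈ S := hSL s0 hs0 hs0y
  have t0S : t0 ∈ S := hSM t0 ht0 ht0q'
  have qS : q ∈ S := hSM q du.qM hqq
  -- signature
  have sg : (∀ t ∈ M, t ≠ t0 → t ≠ q → t ≠ q' → D.Adj q t ∨ D.Adj q' t) →
      D.NegAt M t0 (3 / 10) → False := by
    intro hX hB
    refine D.stmtSIGN L M s0 t0 (9 / 10) (3 / 10) hdis hs0 ht0 hg ?_ (by norm_num) (by norm_num)
      (by norm_num) hneg hB
    intro s hs t ht hst
    obtain ⟨-, -, k1, k2⟩ := Duo.con_ne D du hs ht hst
    by_cases e : t = t0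
    · subst e
      exact ⟨nd t ht hqt s hs hst, rfl⟩
    · exfalso
      rcases hX t ht e k1 k2 with h | h
      · have hs' := nd t ht h s hs hst
        subst hs'
        exact no_quad hS qS t0S s0S (hSM t ht k2) hqt (Ast.symm D) hst (h.symm D)
          (fun e' => dj du.qM e'.symm) (fun e' => e e'.symm)
      · exact nq' t ht s hs hst h
  -- an inner node with a heavy edge
  have inner : ∀ a ∈ M, ∀ b ∈ M, a ≠ b → D.Adj t0 a → D.Adj t0 b → 1 / 2 ≤ D.g t0 a ^ 2 →
      False := by
    intro a ha b hb hab h1 h2 h3
    have ha' : a ≠ q' := fun e => nq't0 (e ▸ h1.symm D)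
    have hb' : b ≠ q' := fun e => nq't0 (e ▸ h2.symm D)
    exact no_heavy3 hS t0S (hSM a ha ha') (hSM b hb hb') s0S hab (dj ha).symm (dj hb).symm h3
      h1.1 h2 (Ast.symm D)
  -- the label of the edge `t0 q`
  have lab : D.g t0 q = -(1 / 2) ∨ D.g t0 q = -(√2 / 2) ∨ D.g t0 q = -c5 := by
    rcases label_cases hS t0S qS s0S (dj du.qM).symm (hqt.symm D) (Ast.symm D) with h | h | h
    · exact Or.inl h
    · exact Or.inr (Or.inl h.1)
    · exact Or.inr (Or.inr h.1)
  have qm := du.qM
  have qm' := du.qM'
  -- an end of a path of order four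
  have pend : ∀ {a b c d : D.ι} {x y z : ℝ}, D.Path4 a b c d x y z M → 0 < x → 0 < y → 0 < z →
      t0 = a → D.NegAt M a (3 / 10) → False := by
    intro a b c d x y z k hx hy hz e hB
    subst e
    have expl : ∀ r ∈ M, r = t0 ∨ r = b ∨ r = c ∨ r = d := by
      intro r hr; rw [k.eq] at hr; simpa using hr
    have hqb : q = b := by
      rcases expl q qm with h | h | h | h
      · exact absurd h.symm ht0q
      · exact h
      · subst h; exact absurd hqt k.Nca
      · subst h; exact absurd hqt k.Nda
    subst hqb
    refine sg ?_ hB
    intro t ht h1 h2 h3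
    rcases expl t ht with h | h | h | h
    · exact absurd h h1
    · exact absurd h h2
    · subst h; exact Or.inl (k.Abc hy)
    · subst h
      rcases expl q' qm' with h | h | h | h
      · exact absurd h.symm ht0q'
      · exact absurd h.symm hqq
      · subst h; exact Or.inr (k.Acd hz)
      · exact absurd h.symm h3
  have pmid : ∀ {a b c d : D.ι} {x y z : ℝ}, D.Path4 a b c d x y z M → 0 < x → 0 < y →
      (1 / 2 ≤ x ^ 2 ∨ 1 / 2 ≤ y ^ 2) → t0 = b → False := by
    intro a b c d x y z k hx hy hxy e
    subst e
    rcases hxy with h | h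
    · exact inner a k.ma c k.mc k.ac (k.Aba hx) (k.Abc hy) (by rw [D.symm, k.vab]; simpa using h)
    · exact inner c k.mc a k.ma k.ac.symm (k.Abc hy) (k.Aba hx) (by rw [k.vbc]; simpa using h)
  have c5h : 1 / 2 ≤ c5 ^ 2 := by have := c5_gt; nlinarith
  have s2h : 1 / 2 ≤ (√2 / 2) ^ 2 := by have := s2_sq; linarith
  rcases hcls M du.lanM with k | ⟨a, b, c, d, k⟩ | ⟨z, u, a, b, k⟩ | ⟨a, b, c, d, k⟩ |
      ⟨a, b, c, d, k⟩ | ⟨a, b, c, d, k⟩ | ⟨u, v, w, a, b, k⟩ |
      ⟨a, b, c, d, e, z, hz, k⟩ | ⟨a, b, c, d, e, k⟩
  · -- order at most three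
    have hM : M = {t0, q, q'} := by
      symm
      apply Finset.eq_of_subset_of_card_le
      · intro r hr; simp only [Finset.mem_insert, Finset.mem_singleton] at hr
        rcases hr with rfl | rfl | rfl <;> assumption
      · rw [Finset.card_insert_of_notMem (by simp [ht0q, ht0q']), Finset.card_pair hqq]
        exact k
    refine sg ?_ (D.negAt_three du.lanM hM ht0q ht0q' hqq
      (D.g_eq_zero ht0q' fun h => nq't0 (h.symm D)) lab)
    intro t ht h1 h2 h3
    rw [hM] at ht
    simp only [Finset.mem_insert, Finset.mem_singleton] at ht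
    rcases ht with h | h | h
    · exact absurd h h1
    · exact absurd h h2
    · exact absurd h h3
  · -- cycle of order four
    have key : ∀ {a b c d : D.ι}, D.Cyc4 a b c d M → t0 = a → False := by
      intro a b c d k e
      subst e
      have expl : ∀ r ∈ M, r = t0 ∨ r = b ∨ r = c ∨ r = d := by
        intro r hr; rw [k.eq] at hr; simpa using hr
      have hq' : q' = c := by
        rcases expl q' qm' with h | h | h | h
        · exact absurd h.symm ht0q'
        · subst h; exact absurd (k.ab.symm D) nq't0
        · exact h
        · subst h; exact absurd k.da nq't0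
      subst hq'
      -- there is a heavy edge
      have hheavy : D.g t0 b + D.g b q' + D.g q' d + D.g d t0 ≤ -(3 / 2 + √2 / 2) := by
        have h1 := k.ab.g_le D
        have h2 := k.bc.g_le D
        have h3 := k.cd.g_le D
        have h4 := k.da.g_le D
        by_contra hlt
        push Not at hlt
        have s1 : D.g t0 b = -(1 / 2) := by
          rcases k.ab.simple_or D with h | h
          · exact h
          · linarith [h.1]
        have s2 : D.g b q' = -(1 / 2) := by
          rcases k.bc.simple_or D with h | h
          · exact h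
          · linarith [h.1]
        have s3 : D.g q' d = -(1 / 2) := by
          rcases k.cd.simple_or D with h | h
          · exact h
          · linarith [h.1]
        have s4 : D.g d t0 = -(1 / 2) := by
          rcases k.da.simple_or D with h | h
          · exact h
          · linarith [h.1]
        obtain ⟨cc, hc, hsub⟩ := du.lanM.exists_sub'
        have m1 := k.ma; have m2 := k.mb; have m3 := k.mc; have m4 := k.md
        have e1 := Lan.sub_le hc hsub m1 {b, d} (by
          intro j hj ha
          rcases expl j hj with h | h | h | h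
          · exact absurd h.symm ha.1
          · simp [h]
          · subst h; exact absurd ha k.Nac
          · simp [h]) (by intro r hr; simp at hr; rcases hr with rfl | rfl <;> assumption)
          (by simp [k.ab.ne, k.da.ne.symm])
        have e2 := Lan.sub_le hc hsub m2 {t0, q'} (by
          intro j hj ha
          rcases expl j hj with h | h | h | h
          · simp [h]
          · exact absurd h.symm ha.1
          · simp [h]
          · subst h; exact absurd ha k.Nbd)
          (by intro r hr; simp at hr; rcases hr with rfl | rfl <;> assumption)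
          (by simp [k.ab.ne.symm, k.bc.ne])
        have e3 := Lan.sub_le hc hsub m3 {b, d} (by
          intro j hj ha
          rcases expl j hj with h | h | h | h
          · subst h; exact absurd ha k.Nca
          · simp [h]
          · exact absurd h.symm ha.1
          · simp [h]) (by intro r hr; simp at hr; rcases hr with rfl | rfl <;> assumption)
          (by simp [k.bc.ne.symm, k.cd.ne])
        have e4 := Lan.sub_le hc hsub m4 {t0, q'} (by
          intro j hj ha
          rcases expl j hj with h | h | h | h
          · simp [h]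
          · subst h; exact absurd ha k.Ndb
          · simp [h]
          · exact absurd h.symm ha.1)
          (by intro r hr; simp at hr; rcases hr with rfl | rfl <;> assumption)
          (by simp [k.da.ne, k.cd.ne.symm])
        rw [Finset.sum_pair k.bd] at e1 e3
        rw [Finset.sum_pair k.ac] at e2 e4
        rw [s1, D.symm t0 d, s4] at e1
        rw [D.symm b t0, s1, s2] at e2
        rw [D.symm q' b, s2, s3] at e3
        rw [s4, D.symm d q', s3] at e4
        linarith
      refine sg ?_ (D.negAt_cyc k hheavy)
      intro t ht h1 h2 h3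
      rcases expl t ht with h | h | h | h
      · exact absurd h h1
      · subst h; exact Or.inr (k.bc.symm D)
      · exact absurd h h3
      · subst h; exact Or.inr k.cd
    have ex : t0 = a ∨ t0 = b ∨ t0 = c ∨ t0 = d := by
      have := ht0; rw [k.eq] at this; simpa using this
    have rot : ∀ {a b c d : D.ι}, D.Cyc4 a b c d M → D.Cyc4 b c d a M := by
      intro a b c d k
      refine ⟨?_, k.bd, k.ac.symm, k.bc, k.cd, k.da, k.ab, k.vbd, by rw [D.symm]; exact k.vac⟩
      rw [k.eq]; ext r; simp only [Finset.mem_insert, Finset.mem_singleton]; tauto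
    rcases ex with e | e | e | e
    · exact key k e
    · exact key (rot k) e
    · exact key (rot (rot k)) e
    · exact key (rot (rot (rot k))) e
  · -- star
    have expl : ∀ r ∈ M, r = z ∨ r = u ∨ r = a ∨ r = b := by
      intro r hr; rw [k.eq] at hr; simpa using hr
    -- all nodes but `z` are adjacent to `z`
    have az : ∀ r ∈ M, r ≠ z → D.Adj z r := by
      intro r hr h
      rcases expl r hr with h' | h' | h' | h'
      · exact absurd h' h
      · subst h'; exact k.Azu
      · subst h'; exact k.Azp
      · subst h'; exact k.Azq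
    have ht0z : t0 ≠ z := by
      rintro rfl
      exact nq't0 ((az q' qm' (fun h => ht0q' h.symm)).symm D)
    have only : ∀ r ∈ M, D.Adj r t0 → r = z := by
      intro r hr ha
      by_contra hne
      rcases expl t0 ht0 with h | h | h | h
      · exact ht0z h
      all_goals subst h
      · rcases expl r hr with h' | h' | h' | h'
        · exact hne h'
        · exact ha.1 h'
        · subst h'; exact k.Npu ha
        · subst h'; exact k.Nqu ha
      · rcases expl r hr with h' | h' | h' | h'
        · exact hne h'
        · subst h'; exact k.Nup ha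
        · exact ha.1 h'
        · subst h'; exact k.Nqp ha
      · rcases expl r hr with h' | h' | h' | h'
        · exact hne h'
        · subst h'; exact k.Nuq ha
        · subst h'; exact k.Npq ha
        · exact ha.1 h'
    have hqz : q = z := only q qm hqt
    subst hqz
    refine sg (fun t ht h1 h2 h3 => Or.inl (az t ht h2)) ?_
    rcases expl t0 ht0 with h | h | h | h
    · exact absurd h ht0q
    · subst h; exact D.negAt_star_u k
    · subst h; exact NegAt.mono D (D.star_negAt k) (by norm_num)
    · subst h; exact NegAt.mono D (D.star_negAt (Star4.swap D k)) (by norm_num)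
  · -- [3,5,3]
    have ex : t0 = a ∨ t0 = b ∨ t0 = c ∨ t0 = d := by
      have := ht0; rw [k.eq] at this; simpa using this
    have kr := Path4.rev D k
    rcases ex with e | e | e | e
    · exact pend k (by norm_num) c5_pos (by norm_num) e (NegAt.mono D (D.negAt_353 k) (by norm_num))
    · exact pmid k (by norm_num) c5_pos (Or.inr c5h) e
    · exact pmid kr (by norm_num) c5_pos (Or.inr c5h) e
    · exact pend kr (by norm_num) c5_pos (by norm_num) e
        (NegAt.mono D (D.negAt_353 kr) (by norm_num))
  · -- [5,3,4]
    have ex : t0 = a ∨ t0 = b ∨ t0 = c ∨ t0 = d := by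
      have := ht0; rw [k.eq] at this; simpa using this
    have kr := Path4.rev D k
    rcases ex with e | e | e | e
    · exact pend k c5_pos (by norm_num) s2_pos e (D.negAt_534a k)
    · exact pmid k c5_pos (by norm_num) (Or.inl c5h) e
    · exact pmid kr s2_pos (by norm_num) (Or.inl s2h) e
    · exact pend kr s2_pos (by norm_num) c5_pos e (D.negAt_534d k)
  · -- [5,3,5]
    have ex : t0 = a ∨ t0 = b ∨ t0 = c ∨ t0 = d := by
      have := ht0; rw [k.eq] at this; simpa using this
    have kr := Path4.rev D k
    rcases ex with e | e | e | e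
    · exact pend k c5_pos (by norm_num) c5_pos e (D.negAt_535 k)
    · exact pmid k c5_pos (by norm_num) (Or.inl c5h) e
    · exact pmid kr c5_pos (by norm_num) (Or.inl c5h) e
    · exact pend kr c5_pos (by norm_num) c5_pos e (D.negAt_535 kr)
  · -- fork
    have main : ∀ {u v w a b : D.ι}, D.Fork u v w a b M → t0 = a → False := by
      intro u v w a b k e
      subst e
      have expl : ∀ r ∈ M, r = u ∨ r = v ∨ r = w ∨ r = t0 ∨ r = b := by
        intro r hr; rw [k.eq] at hr; simpa using hr
      have hqw : q = w := by
        rcases expl q qm with h | h | h | h | h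
        · subst h; exact absurd hqt k.Nup
        · subst h; exact absurd hqt k.Nvp
        · exact h
        · exact absurd h.symm ht0q
        · subst h; exact absurd hqt k.Nqp
      subst hqw
      by_cases hb : q' = b
      · subst hb
        refine no_5333 hS (hSM u k.mu k.uq) (hSM v k.mv k.vq) qS t0S s0S
          (by rw [k.vuv]) k.Avw k.Awp (Ast.symm D) ?_
        exact nd5 k.uv k.uw k.up (dj k.mu).symm k.vw k.vp (dj k.mv).symm k.wp (dj k.mw).symm
          (dj ht0).symm
      · refine sg ?_ (NegAt.mono D (D.fork_negAt k) (by norm_num))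
        intro t ht h1 h2 h3
        rcases expl t ht with h | h | h | h | h
        · subst h
          rcases expl q' qm' with h | h | h | h | h
          · exact absurd h.symm h3
          · subst h; exact Or.inr k.Avu
          · exact absurd h.symm hqq
          · exact absurd h.symm ht0q'
          · exact absurd h hb
        · subst h; exact Or.inl k.Awv
        · exact absurd h h2
        · exact absurd h h1
        · subst h; exact Or.inl k.Awq
    have ex : t0 = u ∨ t0 = v ∨ t0 = w ∨ t0 = a ∨ t0 = b := by
      have := ht0; rw [k.eq] at this; simpa using this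
    rcases ex with e | e | e | e | e
    · subst e
      have expl : ∀ r ∈ M, r = t0 ∨ r = v ∨ r = w ∨ r = a ∨ r = b := by
        intro r hr; rw [k.eq] at hr; simpa using hr
      have hqv : q = v := by
        rcases expl q qm with h | h | h | h | h
        · exact absurd h.symm ht0q
        · exact h
        · subst h; exact absurd hqt k.Nwu
        · subst h; exact absurd hqt k.Npu
        · subst h; exact absurd hqt k.Nqu
      subst hqv
      by_cases hw : q' = w
      · subst hw
        refine sg ?_ (D.negAt_fork_u k)
        intro t ht h1 h2 h3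
        rcases expl t ht with h | h | h | h | h
        · exact absurd h h1
        · exact absurd h h2
        · exact absurd h h3
        · subst h; exact Or.inr k.Awp
        · subst h; exact Or.inr k.Awq
      · refine no_353 hS s0S t0S qS (hSM w k.mw (fun h => hw h.symm)) Ast (by rw [k.vuv]) k.uv.symm
          k.Avw (dj qm) (dj k.mw) k.uw.symm
    · subst e; exact inner u k.mu w k.mw k.uw k.Avu k.Avw (c5_heavy (by rw [D.symm]; exact k.vuv))
    · subst e
      have e1 : v ≠ q' := fun h => nq't0 (h ▸ k.Avw)
      have e2 : a ≠ q' := fun h => nq't0 (h ▸ k.Apw)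
      have e3 : b ≠ q' := fun h => nq't0 (h ▸ k.Aqw)
      have := D.sq_sum_lt hS t0S (N := {v, a, b, s0}) (by
        intro r hr; simp only [Finset.mem_insert, Finset.mem_singleton] at hr
        rcases hr with rfl | rfl | rfl | rfl
        · exact hSM _ k.mv e1
        · exact hSM _ k.mp e2
        · exact hSM _ k.mq e3
        · exact s0S) (by simp [k.vw.symm, k.wp, k.wq, (dj ht0).symm])
      rw [Finset.sum_insert (by simp [k.vp, k.vq, (dj k.mv).symm]),
        Finset.sum_insert (by simp [k.pq, (dj k.mp).symm]),
        Finset.sum_pair (dj k.mq).symm] at this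
      have a1 := k.Awv.sq_ge D
      have a2 := k.Awp.sq_ge D
      have a3 := k.Awq.sq_ge D
      have a4 := (Ast.symm D).sq_ge D
      linarith
    · exact main k e
    · exact main (Fork.swap D k) e
  · have hz0 : 0 < z := by
      rcases hz with rfl | rfl | rfl
      · norm_num
      · exact s2_pos
      · exact c5_pos
    have := D.stmtCLSV.1 M a b c d e z hz0 k
    omega
  · have := D.stmtCLSV.2 M a b c d e k
    omega

end CoxData

end MP345
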