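import Mathlib
import Pool.Agent.Work.MP_345ef2_gt_24.D_WT2

/-!
# D level, block WTOUCH
-/

namespace MP345

open Finset

variable {n : ℕ}

namespace CoxData

variable (D : CoxData n)

/-- the common hypotheses: a single contact edge near `q` -/
structure WT (p p' q q' : D.ι) (L M : Finset D.ι) (s0 t0 : D.ι) : Prop where
  du : D.Duo p p' q q' L M
  ht0 : t0 ∈ M
  ht0L : t0 ∉ L
  hs0 : s0 ∈ L
  Ast : D.Adj s0 t0
  hqt : D.Adj q t0
  nq' : ∀ t ∈ M, t ∉ L → ∀ s ∈ L, D.Adj s t → ¬ D.Adj q' t
  nd : ∀ t ∈ M, t ∉ L → D.Adj q t → ∀ s ∈ L, D.Adj s t → s = s0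
  h4 : D.cls M ≤ 3

/-- the conclusion from the contact edge in `L` -/
theorem WT.fin (hcls : D.StmtCLS) {p p' q q' : D.ι} {L M : Finset D.ι} {s0 t0 : D.ι}
    (h : D.WT p p' q q' L M s0 t0) (hdis : Disjoint L M) {y : D.ι} (hy : y = p ∨ y = p')
    (hs0y : s0 ≠ y) (hg : D.g s0 t0 = -(1 / 2)) (hneg : D.NegAt L s0 (9 / 10)) : False := by
  have hdj : ∀ {t : D.ι}, t ∈ M → t ∉ L := fun {t} ht h => (Finset.disjoint_left.1 hdis h) ht
  exact D.wt_core hcls h.du hdis hy h.hs0 hs0y h.ht0 hg hneg h.hqt
    (fun t ht s hs => h.nq' t ht (hdj ht) s hs) (fun t ht ha s hs => h.nd t ht (hdj ht) ha s hs) h.h4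

/-- `L` of type `[3,5,3]` -/
theorem WT.p353 (hcls : D.StmtCLS) {p p' q q' : D.ι} {L M : Finset D.ι} {s0 t0 : D.ι}
    (h : D.WT p p' q q' L M s0 t0)
    (min : ∀ A, A ⊆ L ∪ M → q ∉ A → q' ∉ A → D.Lan A → D.cls L ≤ D.cls A)
    (hdis : Disjoint L M) {b c d : D.ι} (k : D.Path4 s0 b c d (1 / 2) c5 (1 / 2) L)
    (hb : b = p ∨ b = p') (hc : c = p ∨ c = p') : False := by
  classical
  have du := h.du
  obtain ⟨-, -, k1, k2⟩ := Duo.con_ne D du h.hs0 h.ht0 h.Ast
  refine WT.fin D hcls h hdis hb k.ab ?_ (D.negAt_353 k)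
  have nb : ∀ t ∈ M, ¬ D.Adj b t := by rcases hb with rfl | rfl; exacts [du.nP, du.nP']
  have nc : ∀ t ∈ M, ¬ D.Adj c t := by rcases hc with rfl | rfl; exacts [du.nP, du.nP']
  have dj : ∀ {s : D.ι}, s ∈ L → s ≠ t0 := fun {s} hs e => h.ht0L (e ▸ hs)
  rcases heavy_or_simple h.Ast with hs | hs
  · exact hs
  exfalso
  have g1 : D.g t0 b = 0 := by
    rw [D.symm]; exact D.g_eq_zero (dj k.mb) (nb t0 h.ht0)
  have g2 : D.g t0 c = 0 := by
    rw [D.symm]; exact D.g_eq_zero (dj k.mc) (nc t0 h.ht0)
  have kA : D.Path4 t0 s0 b c (-D.g t0 s0) (1 / 2) c5 {t0, s0, b, c} :=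
    ⟨rfl, (dj k.ma).symm, (dj k.mb).symm, (dj k.mc).symm, k.ab, k.ac, k.bc, by ring, k.vab, k.vbc,
      g1, g2, k.vac⟩
  have hnpd : ¬ PD D.g {t0, s0, b, c} := by
    intro hS
    refine core_test' hS (U := {s0, b}) ?_ ⟨b, by simp⟩ ?_
    · intro r hr; simp only [Finset.mem_insert, Finset.mem_singleton] at hr ⊢
      rcases hr with rfl | rfl <;> simp
    · intro r hr; simp only [Finset.mem_insert, Finset.mem_singleton] at hr
      right
      rcases hr with rfl | rfl
      · exact ⟨⟨b, by simp, k.Aab (by norm_num)⟩, Or.inl ⟨t0, by simp,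
          by simp [(dj k.ma).symm, (dj k.mb).symm], hs⟩⟩
      · exact ⟨⟨s0, by simp, k.Aba (by norm_num)⟩, Or.inl ⟨c, by simp,
          by simp [k.ac.symm, k.bc.symm], c5_heavy k.vbc⟩⟩
  obtain ⟨A, hA, hAL⟩ := D.exists_lan _ hnpd
  have hAs : A ⊆ L ∪ M := by
    intro r hr
    have := hA hr
    simp only [Finset.mem_insert, Finset.mem_singleton] at this
    rcases this with rfl | rfl | rfl | rfl
    · exact Finset.mem_union_right _ h.ht0
    · exact Finset.mem_union_left _ k.ma
    · exact Finset.mem_union_left _ k.mb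
    · exact Finset.mem_union_left _ k.mc
  have nm : ∀ x : D.ι, x ∉ L → t0 ≠ x → x ∉ A := by
    intro x hx hne hxA
    have := hA hxA
    simp only [Finset.mem_insert, Finset.mem_singleton] at this
    rcases this with rfl | rfl | rfl | rfl
    · exact hne rfl
    · exact hx k.ma
    · exact hx k.mb
    · exact hx k.mc
  have hm := min A hAs (nm q du.qL k1) (nm q' du.qL' k2) hAL
  have hL2 := D.cls_path4 k
  have hcA := D.cls_card (show 2 ≤ D.cls A by omega)
  have hAe : A = {t0, s0, b, c} := by
    apply Finset.eq_of_subset_of_card_le hA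
    rw [Path4.card D kA]; exact hcA
  have := D.cls_one_of (Path4.card D kA) (D.not_353_path kA half_ne_c5)
  rw [← hAe] at this
  omega

/-- `L` the star -/
theorem WT.star (hcls : D.StmtCLS) {p p' q q' : D.ι} {L M : Finset D.ι} {s0 t0 : D.ι}
    (h : D.WT p p' q q' L M s0 t0) (hdis : Disjoint L M) {z u b : D.ι} (k : D.Star4 z u s0 b L)
    (hu : u = p ∨ u = p') : False := by
  classical
  have du := h.du
  obtain ⟨-, -, k1, k2⟩ := Duo.con_ne D du h.hs0 h.ht0 h.Ast
  refine WT.fin D hcls h hdis hu k.up.symm ?_ (NegAt.mono D (D.star_negAt k) (by norm_num))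
  have dj : ∀ {s : D.ι}, s ∈ L → s ≠ t0 := fun {s} hs e => h.ht0L (e ▸ hs)
  rcases h.Ast.simple_or D with hs | hs
  · exact hs
  exfalso
  obtain ⟨S, hS, hSL, hSM⟩ := Duo.get2 D du hu (x := q') (Or.inr rfl)
  refine no_F4t hS (hSM q du.qM du.qq) (hSM t0 h.ht0 k2) (hSL s0 k.mp k.up.symm) (hSL z k.mz k.zu)
    (hSL b k.mq k.uq.symm) h.hqt (by rw [D.symm]; exact hs.1) k.Apz k.Azq ?_
  have dq : ∀ {s : D.ι}, s ∈ L → q ≠ s := fun {s} hs e => du.qL (e ▸ hs)
  exact nd5 h.hqt.1 (dq k.mp) (dq k.mz) (dq k.mq) (dj k.mp).symm (dj k.mz).symm (dj k.mq).symm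
    k.zp.symm k.pq k.zq

/-- `L` the cycle of order four, `a b` the pair -/
theorem WT.cyc (hcls : D.StmtCLS) {p p' q q' : D.ι} {L M : Finset D.ι} {s0 t0 : D.ι}
    (h : D.WT p p' q q' L M s0 t0) (hdis : Disjoint L M) {a b d : D.ι} (k : D.Cyc4 a b s0 d L)
    (hab : D.g a b = -c5) (ha : a = p ∨ a = p') : False := by
  classical
  have du := h.du
  obtain ⟨-, -, k1, k2⟩ := Duo.con_ne D du h.hs0 h.ht0 h.Ast
  have dj : ∀ {s : D.ι}, s ∈ L → s ≠ t0 := fun {s} hs e => h.ht0L (e ▸ hs)
  refine WT.fin D hcls h hdis ha k.ac.symm ?_ (D.negAt_cyc5 k hab)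
  rcases heavy_or_simple h.Ast with hs | hs
  · exact hs
  exfalso
  obtain ⟨S, hS, hSL, hSM⟩ := Duo.get2 D du ha (x := q') (Or.inr rfl)
  exact no_heavy3 hS (hSL s0 k.mc k.ac.symm) (hSM t0 h.ht0 k2) (hSL b k.mb k.ab.ne.symm)
    (hSL d k.md k.da.ne) (dj k.mb).symm (dj k.md).symm k.bd hs (dj k.mc) (k.bc.symm D) k.cd

/-- `L` of type `[5,3,4]` or `[5,3,5]` -/
theorem wt_534 {p p' q q' : D.ι} {L M : Finset D.ι} (du : D.Duo p p' q q' L M)
    (hr : ¬ D.Remote p p' L M) {a b c d : D.ι} {z : ℝ} (hz : z = √2 / 2 ∨ z = c5)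
    (k : D.Path4 a b c d c5 (1 / 2) z L) (ha : a = p ∨ a = p') (hb : b = p ∨ b = p') : False := by
  classical
  have hz0 : 0 < z := by
    rcases hz with rfl | rfl
    · exact s2_pos
    · exact c5_pos
  have hcd := D.z_heavy hz k.vcd
  have hle : D.g c d ≤ -(√2 / 2) := by
    rw [k.vcd]
    rcases hz with rfl | rfl
    · exact le_rfl
    · have := c5_gt; have := s2_lt; linarith
  unfold Remote at hr
  push Not at hr
  obtain ⟨s, hs, hsM, ⟨t, ht, hst⟩, hadj⟩ := hr
  obtain ⟨n1, n2, n3, n4⟩ := Duo.con_ne D du hs ht hst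
  have expl : ∀ r ∈ L, r = a ∨ r = b ∨ r = c ∨ r = d := by
    intro r hr; rw [k.eq] at hr; simpa using hr
  have nP : ∀ r, (r = p ∨ r = p') → s ≠ r := by
    rintro r (rfl | rfl) <;> assumption
  have pab : ∀ r, (r = p ∨ r = p') → (r = a ∨ r = b) := by
    intro r hr
    obtain ⟨u1, u2⟩ := two_of ha hb k.ab
    rcases hr with rfl | rfl
    · exact u1
    · exact u2
  have hsc : s = c := by
    rcases expl s hs with h | h | h | h
    · exact absurd h (nP a ha)
    · exact absurd h (nP b hb)
    · exact h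
    · exfalso
      subst h
      have : D.Adj s p ∨ D.Adj s p' := by
        by_cases h1 : D.Adj s p
        · exact Or.inl h1
        · exact Or.inr (hadj h1)
      rcases this with h1 | h1
      · rcases pab p (Or.inl rfl) with e | e
        · rw [e] at h1; exact k.Nda h1
        · rw [e] at h1; exact k.Ndb h1
      · rcases pab p' (Or.inr rfl) with e | e
        · rw [e] at h1; exact k.Nda h1
        · rw [e] at h1; exact k.Ndb h1
  subst hsc
  have aM : a ∉ M := by rcases ha with rfl | rfl; exacts [du.pM, du.pM']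
  have bM : b ∉ M := by rcases hb with rfl | rfl; exacts [du.pM, du.pM']
  have htb : t ≠ b := fun e => bM (e ▸ ht)
  by_cases htd : t = d
  · -- `d` is in `M`
    subst htd
    obtain ⟨t2, ht2, h2⟩ := Duo.ext D du ht n3
    have t2s : t2 ≠ s := fun e => hsM (e ▸ ht2)
    have t2b : t2 ≠ b := fun e => bM (e ▸ ht2)
    have t2q : t2 ≠ q := by rintro rfl; exact du.nQ t k.md (h2.symm D)
    have t2q' : t2 ≠ q' := by rintro rfl; exact du.nQ' t k.md (h2.symm D)
    obtain ⟨a', ha', b', hb', hba', hab'⟩ := D.stmtLCON M {t, t2} du.lanM (by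
      intro r hr; simp only [Finset.mem_insert, Finset.mem_singleton] at hr
      rcases hr with rfl | rfl <;> assumption) ⟨t, by simp⟩ (by
      intro e
      have := du.qM; rw [← e] at this
      simp only [Finset.mem_insert, Finset.mem_singleton] at this
      rcases this with h | h
      · exact n3 h.symm
      · exact t2q h.symm)
    simp only [Finset.mem_insert, Finset.mem_singleton, not_or] at ha' hba'
    obtain ⟨S, hS, hSL, hSM, hSt⟩ := Duo.get D du ha b'
    have bS : b ∈ S := hSL b k.mb k.ab.symm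
    have sS : s ∈ S := hSL s hs k.ac.symm
    have tS : t ∈ S := hSL t k.md k.ad.symm
    have t2S : t2 ∈ S := hSM t2 ht2 t2q t2q'
    have b's : b' ≠ s := fun e => hsM (e ▸ hb')
    have b'b : b' ≠ b := fun e => bM (e ▸ hb')
    rcases ha' with e | e
    · rw [e] at hab'
      exact no_heavy3 hS tS sS t2S (hSt hb') t2s.symm b's.symm (Ne.symm hba'.2)
        (by rw [D.symm]; exact hcd) k.cd.symm h2 hab'
    · rw [e] at hab'
      exact no_F4t hS bS sS tS t2S (hSt hb') (k.Abc (by norm_num)) hle h2 hab'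
        (nd5 k.bc k.bd t2b.symm b'b.symm k.cd t2s.symm b's.symm h2.1 (Ne.symm hba'.1)
          (Ne.symm hba'.2))
  · obtain ⟨S, hS, hSL, hSM, hSt⟩ := Duo.get D du ha t
    exact no_heavy3 hS (hSL s hs k.ac.symm) (hSL d k.md k.ad.symm) (hSL b k.mb k.ab.symm)
      (hSt ht) k.bd.symm (fun e => htd e.symm) htb.symm hcd k.cd (k.Acb (by norm_num)) hst

/-- **main lemma**: both `q` and `q'` are at distance two, or `q` in two ways -/
theorem wt_aux (hcls : D.StmtCLS) {p p' q q' : D.ι} {L M : Finset D.ι}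
    (du : D.Duo p p' q q' L M)
    (min : ∀ A, A ⊆ L ∪ M → q ∉ A → q' ∉ A → D.Lan A → D.cls L ≤ D.cls A)
    (hw : D.Weak {p, p'} L) (hr : ¬ D.Remote p p' L M) (h2 : D.W2 q L M)
    (hnd : ¬ D.W2d q L M) (hn : ¬ D.W2 q' L M) (h4 : D.cls M ≤ 3) : False := by
  classical
  obtain ⟨hc12, hfive⟩ := hw
  obtain ⟨t0, ht0, ht0L, hqt, s0, hs0, hts⟩ := h2
  have h : D.WT p p' q q' L M s0 t0 := by
    refine ⟨du, ht0, ht0L, hs0, hts.symm D, hqt, ?_, ?_, h4⟩
    · intro t ht htL s hs hst hq't
      exact hn ⟨t, ht, htL, hq't, s, hs, hst.symm D⟩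
    · intro t ht htL hqt' s hs hst
      by_contra hne
      exact hnd ⟨t0, ht0, t, ht, ht0L, htL, hqt, hqt', s0, hs0, s, hs, fun e => hne e.symm, hts,
        hst.symm D⟩
  obtain ⟨n1, n2, -, -⟩ := Duo.con_ne D du hs0 ht0 (hts.symm D)
  -- the label of the pair
  have hpp : D.g p p' = -c5 := by
    obtain ⟨x, hx, y, hy, hxy⟩ := hfive
    simp only [Finset.mem_insert, Finset.mem_singleton] at hx hy
    have h5 := c5_pos
    rcases hx with rfl | rfl <;> rcases hy with rfl | rfl
    · rw [D.self] at hxy; linarith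
    · exact hxy
    · rw [D.symm]; exact hxy
    · rw [D.self] at hxy; linarith
  have h5 := c5_gt
  have h5' := c5_lt
  have h2' := s2_lt
  have hpp' : D.g p' p = -c5 := by rw [D.symm]; exact hpp
  have pL := du.pL
  have pL' := du.pL'
  -- disjointness
  have disj : (∀ s ∈ L, s = p ∨ s = p' ∨ D.Adj p s ∨ D.Adj p' s) → Disjoint L M := by
    intro hX
    rw [Finset.disjoint_left]
    intro s hs hsM
    rcases hX s hs with rfl | rfl | h | h
    · exact du.pM hsM
    · exact du.pM' hsM
    · exact du.nP s hsM h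
    · exact du.nP' s hsM h
  rcases hcls L du.lanL with k | ⟨a, b, c, d, k⟩ | ⟨z, u, a, b, k⟩ | ⟨a, b, c, d, k⟩ |
      ⟨a, b, c, d, k⟩ | ⟨a, b, c, d, k⟩ | ⟨u, v, w, a, b, k⟩ |
      ⟨a, b, c, d, e, z, hz, k⟩ | ⟨a, b, c, d, e, k⟩
  · have : D.cls L = 0 := by unfold cls; rw [if_pos k]
    omega
  · -- cycle
    have refl : ∀ {a b c d : D.ι}, D.Cyc4 a b c d L → D.Cyc4 b a d c L := by
      intro a b c d k
      refine ⟨?_, k.bd, k.ac, k.ab.symm D, k.da.symm D, k.cd.symm D, k.bc.symm D, k.vbd, k.vac⟩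
      rw [k.eq]; ext r; simp only [Finset.mem_insert, Finset.mem_singleton]; tauto
    have rot : ∀ {a b c d : D.ι}, D.Cyc4 a b c d L → D.Cyc4 b c d a L := by
      intro a b c d k
      refine ⟨?_, k.bd, k.ac.symm, k.bc, k.cd, k.da, k.ab, k.vbd, by rw [D.symm]; exact k.vac⟩
      rw [k.eq]; ext r; simp only [Finset.mem_insert, Finset.mem_singleton]; tauto
    have key : ∀ {a b c d : D.ι}, D.Cyc4 a b c d L → a = p → b = p' → False := by
      intro a b c d k e1 e2
      subst e1; subst e2
      have expl : ∀ r ∈ L, r = a ∨ r = b ∨ r = c ∨ r = d := by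
        intro r hr; rw [k.eq] at hr; simpa using hr
      have hdis := disj (by
        intro s hs
        rcases expl s hs with h | h | h | h
        · exact Or.inl h
        · exact Or.inr (Or.inl h)
        · subst h; exact Or.inr (Or.inr (Or.inr k.bc))
        · subst h; exact Or.inr (Or.inr (Or.inl (k.da.symm D))))
      rcases expl s0 hs0 with e | e | e | e
      · exact n1 e
      · exact n2 e
      · subst e; exact WT.cyc D hcls h hdis k hpp (Or.inl rfl)
      · subst e; exact WT.cyc D hcls h hdis (refl k) hpp' (Or.inr rfl)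
    have key' : ∀ {a b c d : D.ι}, D.Cyc4 a b c d L → a = p → False := by
      intro a b c d k e1
      have expl : ∀ r ∈ L, r = a ∨ r = b ∨ r = c ∨ r = d := by
        intro r hr; rw [k.eq] at hr; simpa using hr
      rcases expl p' pL' with e | e | e | e
      · exact du.pp (e1.symm.trans e.symm)
      · exact key k e1 e.symm
      · rw [← e1, e, k.vac] at hpp; linarith
      · exact key (rot (refl k)) e1 e.symm
    have ex : p = a ∨ p = b ∨ p = c ∨ p = d := by
      have := pL; rw [k.eq] at this; simpa using this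
    rcases ex with e | e | e | e
    · exact key' k e.symm
    · exact key' (rot k) e.symm
    · exact key' (rot (rot k)) e.symm
    · exact key' (rot (rot (rot k))) e.symm
  · -- star
    have expl : ∀ r ∈ L, r = z ∨ r = u ∨ r = a ∨ r = b := by
      intro r hr; rw [k.eq] at hr; simpa using hr
    have hzu : (z = p ∧ u = p') ∨ (z = p' ∧ u = p) := by
      have h1 := k.vup; have h2 := k.vuq; have h3 := k.vpq; have h4 := k.vzp; have h6 := k.vzq
      have h1' := k.vup; have h2' := k.vuq; have h3' := k.vpq; have h4' := k.vzp; have h6' := k.vzq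
      rw [D.symm] at h1' h2' h3' h4' h6'
      rcases expl p pL with e | e | e | e <;> rcases expl p' pL' with e' | e' | e' | e'
      · exact absurd (e.trans e'.symm) du.pp
      · exact Or.inl ⟨e.symm, e'.symm⟩
      · rw [e, e', h4] at hpp; linarith
      · rw [e, e', h6] at hpp; linarith
      · exact Or.inr ⟨e'.symm, e.symm⟩
      · exact absurd (e.trans e'.symm) du.pp
      · rw [e, e', h1] at hpp; linarith
      · rw [e, e', h2] at hpp; linarith
      · rw [e, e', h4'] at hpp; linarith
      · rw [e, e', h1'] at hpp; linarith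
      · exact absurd (e.trans e'.symm) du.pp
      · rw [e, e', h3] at hpp; linarith
      · rw [e, e', h6'] at hpp; linarith
      · rw [e, e', h2'] at hpp; linarith
      · rw [e, e', h3'] at hpp; linarith
      · exact absurd (e.trans e'.symm) du.pp
    have hz : z = p ∨ z = p' := hzu.imp And.left And.left
    have hu : u = p ∨ u = p' := (hzu.imp And.right And.right).symm
    have hdis := disj (by
      intro s hs
      have fin : D.Adj z s → s = p ∨ s = p' ∨ D.Adj p s ∨ D.Adj p' s := by
        intro ha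
        rcases hz with rfl | rfl
        · exact Or.inr (Or.inr (Or.inl ha))
        · exact Or.inr (Or.inr (Or.inr ha))
      rcases expl s hs with e | e | e | e
      · subst e; exact hz.imp id Or.inl
      · subst e; exact hu.imp id Or.inl
      · subst e; exact fin k.Azp
      · subst e; exact fin k.Azq)
    have ns : ∀ r, (r = p ∨ r = p') → s0 ≠ r := by
      rintro r (rfl | rfl) <;> assumption
    rcases expl s0 hs0 with e | e | e | e
    · exact ns z hz e
    · exact ns u hu e
    · subst e; exact WT.star D hcls h hdis k hu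
    · subst e; exact WT.star D hcls h hdis (Star4.swap D k) hu
  · -- [3,5,3]
    have expl : ∀ r ∈ L, r = a ∨ r = b ∨ r = c ∨ r = d := by
      intro r hr; rw [k.eq] at hr; simpa using hr
    have hbc : (b = p ∧ c = p') ∨ (b = p' ∧ c = p) := by
      have h1 := k.vab; have h2 := k.vcd; have h3 := k.vac; have h4 := k.vad; have h6 := k.vbd
      have h1' := k.vab; have h2' := k.vcd; have h3' := k.vac; have h4' := k.vad; have h6' := k.vbd
      rw [D.symm] at h1' h2' h3' h4' h6'
      rcases expl p pL with e | e | e | e <;> rcases expl p' pL' with e' | e' | e' | e'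
      · exact absurd (e.trans e'.symm) du.pp
      · rw [e, e', h1] at hpp; linarith
      · rw [e, e', h3] at hpp; linarith
      · rw [e, e', h4] at hpp; linarith
      · rw [e, e', h1'] at hpp; linarith
      · exact absurd (e.trans e'.symm) du.pp
      · exact Or.inl ⟨e.symm, e'.symm⟩
      · rw [e, e', h6] at hpp; linarith
      · rw [e, e', h3'] at hpp; linarith
      · exact Or.inr ⟨e'.symm, e.symm⟩
      · exact absurd (e.trans e'.symm) du.pp
      · rw [e, e', h2] at hpp; linarith
      · rw [e, e', h4'] at hpp; linarith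
      · rw [e, e', h6'] at hpp; linarith
      · rw [e, e', h2'] at hpp; linarith
      · exact absurd (e.trans e'.symm) du.pp
    have hb : b = p ∨ b = p' := hbc.imp And.left And.left
    have hc : c = p ∨ c = p' := (hbc.imp And.right And.right).symm
    have fin : ∀ r s, (r = p ∨ r = p') → D.Adj r s → s = p ∨ s = p' ∨ D.Adj p s ∨ D.Adj p' s := by
      rintro r s (rfl | rfl) ha
      · exact Or.inr (Or.inr (Or.inl ha))
      · exact Or.inr (Or.inr (Or.inr ha))
    have hdis := disj (by
      intro s hs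
      rcases expl s hs with e | e | e | e
      · subst e; exact fin b _ hb (k.Aba (by norm_num))
      · subst e; exact hb.imp id Or.inl
      · subst e; exact hc.imp id Or.inl
      · subst e; exact fin c _ hc (k.Acd (by norm_num)))
    have ns : ∀ r, (r = p ∨ r = p') → s0 ≠ r := by
      rintro r (rfl | rfl) <;> assumption
    rcases expl s0 hs0 with e | e | e | e
    · subst e; exact WT.p353 D hcls h min hdis k hb hc
    · exact ns b hb e
    · exact ns c hc e
    · subst e; exact WT.p353 D hcls h min hdis (Path4.rev D k) hc hb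
  · -- [5,3,4]
    have expl : ∀ r ∈ L, r = a ∨ r = b ∨ r = c ∨ r = d := by
      intro r hr; rw [k.eq] at hr; simpa using hr
    have hab : (a = p ∧ b = p') ∨ (a = p' ∧ b = p) := by
      have h1 := k.vbc; have h2 := k.vcd; have h3 := k.vac; have h4 := k.vad; have h6 := k.vbd
      have h1' := k.vbc; have h2' := k.vcd; have h3' := k.vac; have h4' := k.vad; have h6' := k.vbd
      rw [D.symm] at h1' h2' h3' h4' h6'
      rcases expl p pL with e | e | e | e <;> rcases expl p' pL' with e' | e' | e' | e'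
      · exact absurd (e.trans e'.symm) du.pp
      · exact Or.inl ⟨e.symm, e'.symm⟩
      · rw [e, e', h3] at hpp; linarith
      · rw [e, e', h4] at hpp; linarith
      · exact Or.inr ⟨e'.symm, e.symm⟩
      · exact absurd (e.trans e'.symm) du.pp
      · rw [e, e', h1] at hpp; linarith
      · rw [e, e', h6] at hpp; linarith
      · rw [e, e', h3'] at hpp; linarith
      · rw [e, e', h1'] at hpp; linarith
      · exact absurd (e.trans e'.symm) du.pp
      · rw [e, e', h2] at hpp; linarith
      · rw [e, e', h4'] at hpp; linarith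
      · rw [e, e', h6'] at hpp; linarith
      · rw [e, e', h2'] at hpp; linarith
      · exact absurd (e.trans e'.symm) du.pp
    exact D.wt_534 du hr (Or.inl rfl) k (hab.imp And.left And.left)
      (hab.imp And.right And.right).symm
  · -- [5,3,5]
    have expl : ∀ r ∈ L, r = a ∨ r = b ∨ r = c ∨ r = d := by
      intro r hr; rw [k.eq] at hr; simpa using hr
    have hab : ((a = p ∧ b = p') ∨ (a = p' ∧ b = p)) ∨ ((d = p ∧ c = p') ∨ (d = p' ∧ c = p)) := by
      have h1 := k.vbc; have h3 := k.vac; have h4 := k.vad; have h6 := k.vbd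
      have h1' := k.vbc; have h3' := k.vac; have h4' := k.vad; have h6' := k.vbd
      rw [D.symm] at h1' h3' h4' h6'
      rcases expl p pL with e | e | e | e <;> rcases expl p' pL' with e' | e' | e' | e'
      · exact absurd (e.trans e'.symm) du.pp
      · exact Or.inl (Or.inl ⟨e.symm, e'.symm⟩)
      · rw [e, e', h3] at hpp; linarith
      · rw [e, e', h4] at hpp; linarith
      · exact Or.inl (Or.inr ⟨e'.symm, e.symm⟩)
      · exact absurd (e.trans e'.symm) du.pp
      · rw [e, e', h1] at hpp; linarith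
      · rw [e, e', h6] at hpp; linarith
      · rw [e, e', h3'] at hpp; linarith
      · rw [e, e', h1'] at hpp; linarith
      · exact absurd (e.trans e'.symm) du.pp
      · exact Or.inr (Or.inr ⟨e'.symm, e.symm⟩)
      · rw [e, e', h4'] at hpp; linarith
      · rw [e, e', h6'] at hpp; linarith
      · exact Or.inr (Or.inl ⟨e.symm, e'.symm⟩)
      · exact absurd (e.trans e'.symm) du.pp
    rcases hab with hab | hab
    · exact D.wt_534 du hr (Or.inr rfl) k (hab.imp And.left And.left)
        (hab.imp And.right And.right).symm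
    · exact D.wt_534 du hr (Or.inr rfl) (Path4.rev D k) (hab.imp And.left And.left)
        (hab.imp And.right And.right).symm
  · have := D.stmtCLSF L u v w a b k
    omega
  · have hz0 : 0 < z := by
      rcases hz with rfl | rfl | rfl
      · norm_num
      · exact s2_pos
      · exact c5_pos
    have := D.stmtCLSV.1 L a b c d e z hz0 k
    omega
  · have := D.stmtCLSV.2 L a b c d e k
    omega

/-- the `Q` side pays at least two -/
theorem wt_pay (hcls : D.StmtCLS) {p p' q q' : D.ι} {L M : Finset D.ι}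
    (du : D.Duo p p' q q' L M)
    (min : ∀ A, A ⊆ L ∪ M → q ∉ A → q' ∉ A → D.Lan A → D.cls L ≤ D.cls A)
    (hw : D.Weak {p, p'} L) (hr : ¬ D.Remote p p' L M) (hr' : ¬ D.Remote q q' M L)
    (h4 : D.cls M ≤ 3) : 2 ≤ D.pay q {p, p'} L M + D.pay q' {p, p'} L M := by
  have hc4 : D.cls L ≠ 4 := by rcases hw.1 with h | h <;> omega
  have one : ∀ x, D.W2 x L M → 1 ≤ D.pay x {p, p'} L M := by
    intro x hx
    unfold pay
    rw [if_pos hx]
    split_ifs <;> omega
  have two : ∀ x, D.W2 x L M → D.W2d x L M → 2 ≤ D.pay x {p, p'} L M := by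
    intro x hx hd
    unfold pay
    rw [if_pos hx, if_neg hc4, if_neg (fun h => h.2 hd)]
  by_cases h1 : D.W2 q L M
  · by_cases h2 : D.W2 q' L M
    · have := one q h1; have := one q' h2; omega
    · by_cases hd : D.W2d q L M
      · have := two q h1 hd; omega
      · exact (D.wt_aux hcls du min hw hr h1 hd h2 h4).elim
  · rcases D.w2_of_not_remote hr' with h2 | h2
    · exact absurd h2 h1
    · by_cases hd : D.W2d q' L M
      · have := two q' h2 hd; omega
      · exact (D.wt_aux hcls (Duo.flipQ D du) (fun A hA a b => min A hA b a) hw hr h2 hd h1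
          h4).elim

theorem stmtWTOUCH (hcls : D.StmtCLS) : D.StmtWTOUCH := by
  intro p p' q q' L M du min hw hr hr'
  have any : ∀ (x : D.ι) (P L M : Finset D.ι), D.W2 x L M → 1 ≤ D.pay x P L M := by
    intro x P L M hx
    unfold pay
    rw [if_pos hx]
    split_ifs <;> omega
  by_cases h4 : D.cls M = 4
  · have h3 : ∀ (x : D.ι) (P : Finset D.ι), D.W2 x M L → 3 ≤ D.pay x P M L := by
      intro x P hx
      unfold pay
      rw [if_pos hx, if_pos h4]
    have hP := D.w2_of_not_remote hr
    have hQ := D.w2_of_not_remote hr'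
    rcases hP with hP | hP <;> rcases hQ with hQ | hQ
    · have := h3 p {q, q'} hP; have := any q {p, p'} L M hQ; omega
    · have := h3 p {q, q'} hP; have := any q' {p, p'} L M hQ; omega
    · have := h3 p' {q, q'} hP; have := any q {p, p'} L M hQ; omega
    · have := h3 p' {q, q'} hP; have := any q' {p, p'} L M hQ; omega
  · have h3 : D.cls M ≤ 3 := by have := D.cls_le_four M; omega
    have hQ := D.wt_pay hcls du min.minL hw hr hr' h3
    by_cases hwM : D.Weak {q, q'} M
    · have hL3 : D.cls L ≤ 3 := by rcases hw.1 with h | h <;> omega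
      have hP := D.wt_pay hcls (Duo.swap D du) min.swap.minL hwM hr' hr hL3
      omega
    · have h2 : ∀ (x : D.ι), D.W2 x M L → 2 ≤ D.pay x {q, q'} M L := by
        intro x hx
        unfold pay
        rw [if_pos hx, if_neg h4, if_neg (fun h => hwM h.1)]
      rcases D.w2_of_not_remote hr with hP | hP
      · have := h2 p hP; omega
      · have := h2 p' hP; omega

/-- **The D level**, from the classification of the Lannér sets -/
theorem stmtD_cls (hcls : D.StmtCLS) : D.StmtD :=
  D.stmtD_of_cls hcls D.stmtCLSF (D.stmtWTOUCH hcls)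

end CoxData

end MP345
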