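import Mathlib
import Pool.Agent.Work.MP_345ef2_gt_24.TI

/-!
# Block GDEC (MP_345ef2_gt, T level): decomposition of `G`
-/

namespace MP345

open Finset

variable {n : ℕ}

namespace CoxData

variable (D : CoxData n)

theorem sum_ind_le {α : Type*} [DecidableEq α] (S N : Finset α) (F : α → ℕ) :
    ∑ x ∈ S, (if x ∈ N then F x else 0) ≤ ∑ x ∈ N, F x := by
  rw [← Finset.sum_filter]
  refine Finset.sum_le_sum_of_subset fun x hx => ?_
  exact (Finset.mem_filter.1 hx).2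

open scoped Classical in
theorem gdec_aux {T P : Finset D.ι} {x : D.ι} (hx : x ∈ T) (hxR : x ∉ Rset D.g T)
    (hxP : D.NA x P) :
    (D.Near T x → x ∈ D.N0 T (D.LM T) P ∨ x ∈ D.N1 T (D.LM T) P) ∧
    (¬ D.Near T x → D.Far2 T x P → x ∈ D.N2 T (D.LM T) P) ∧
    (D.Far2s T x P → D.Far2 T x P) ∧
    (¬ D.Near T x → D.Far3s T x P → x ∈ D.N2 T (D.LM T) P ∨ x ∈ D.N3 T (D.LM T) P) := by
  have hfree : ∀ y, D.Free T P y → (∃ s ∈ D.LM T, D.Adj y s) → y ∈ D.N1 T (D.LM T) P := by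
    intro y hy hs
    obtain ⟨h1, h2, h3, h4⟩ := hy
    unfold N1
    exact Finset.mem_filter.2 ⟨h1, h3, h4, hs⟩
  have hN2 : ∀ y, y ∈ T → y ∉ D.LM T → D.NA y P → D.NA y (D.LM T) →
      (∃ m ∈ D.N1 T (D.LM T) P, D.Adj y m) → y ∈ D.N2 T (D.LM T) P := by
    intro y h1 h2 h3 h4 h5
    unfold N2
    exact Finset.mem_filter.2 ⟨h1, h2, h3, h4, h5⟩
  have hnear : ¬ D.Near T x → x ∉ D.LM T ∧ D.NA x (D.LM T) := by
    intro h
    unfold Near at h
    push Not at h
    exact h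
  refine ⟨?_, ?_, ?_, ?_⟩
  · rintro (h | h)
    · left
      unfold N0
      exact Finset.mem_filter.2 ⟨Finset.mem_sdiff.2 ⟨h, hxR⟩, hxP⟩
    · by_cases hL : x ∈ D.LM T
      · left
        unfold N0
        exact Finset.mem_filter.2 ⟨Finset.mem_sdiff.2 ⟨hL, hxR⟩, hxP⟩
      · right
        unfold N1
        exact Finset.mem_filter.2 ⟨hx, hL, hxP, h⟩
  · rintro h ⟨y, hy, hxy, s, hs, _, hys⟩
    exact hN2 x hx (hnear h).1 hxP (hnear h).2 ⟨y, hfree y hy ⟨s, hs, hys⟩, hxy⟩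
  · rintro ⟨y, hy, hxy, s, hs, hsP, hys, _⟩
    exact ⟨y, hy, hxy, s, hs, hsP, hys⟩
  · rintro h ⟨y, y', hy, hy', hxy, hyy, s, hs, hsP, hys, _⟩
    have h1 := hfree y' hy' ⟨s, hs, hys⟩
    by_cases h2 : ∃ m ∈ D.N1 T (D.LM T) P, D.Adj x m
    · exact Or.inl (hN2 x hx (hnear h).1 hxP (hnear h).2 h2)
    · right
      push Not at h2
      have h3 : y ∈ D.N2 T (D.LM T) P := by
        refine hN2 y hy.1 hy.2.2.1 hy.2.2.2 ?_ ⟨y', h1, hyy⟩
        intro s' hs' hys'
        exact h2 y (hfree y hy ⟨s', hs', hys'⟩) hxy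
      unfold N3
      exact Finset.mem_filter.2 ⟨hx, (hnear h).1, hxP, (hnear h).2, h2, y, h3, hxy⟩

theorem stmtGDEC : D.StmtGDEC := by
  classical
  intro T hT a ha b hb hab
  have hNA : ∀ x ∈ (T \ Rset D.g T).filter (fun x => ∀ p ∈ ({a, b} : Finset D.ι), D.g x p = 0),
      x ∈ T ∧ x ∉ Rset D.g T ∧ D.NA x {a, b} := by
    intro x hx
    rw [Finset.mem_filter, Finset.mem_sdiff] at hx
    exact ⟨hx.1.1, hx.1.2, fun p hp h => h.2 (hx.2 p hp)⟩
  have h1 : D.G T {a, b} ≤ ∑ x ∈ (T \ Rset D.g T).filter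
      (fun x => ∀ p ∈ ({a, b} : Finset D.ι), D.g x p = 0),
      ((if x ∈ D.N0 T (D.LM T) {a, b} then q4 (D.cnt T x {a, b}) else 0) +
      (if x ∈ D.N1 T (D.LM T) {a, b} then q4 (D.cnt T x {a, b}) else 0) +
      (if x ∈ D.N2 T (D.LM T) {a, b} then D.c2 T x {a, b} else 0) +
      (if x ∈ D.N3 T (D.LM T) {a, b} then D.c3 T x {a, b} else 0)) := by
    unfold G
    refine Finset.sum_le_sum fun x hx => ?_
    obtain ⟨h1, h2, h3⟩ := hNA x hx
    obtain ⟨g1, g2, g3, g4⟩ := D.gdec_aux h1 h2 h3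
    by_cases c1 : D.Near T x
    · have e : D.w4 T x {a, b} = q4 (D.cnt T x {a, b}) := by
        unfold w4 q4; rw [if_pos c1, if_pos c1]
      rw [e]
      rcases g1 c1 with h | h
      · rw [if_pos h]; omega
      · rw [if_pos h (c := x ∈ D.N1 T (D.LM T) {a, b})]; omega
    · by_cases h4 : D.cls (D.LM T) = 4 ∧ (D.Far2s T x {a, b} ∨ (D.Far3s T x {a, b} ∧
          D.Five {a, b}))
      · have e : D.w4 T x {a, b} = q4 (D.cnt T x {a, b}) := by
          unfold w4 q4 f4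
          rw [if_neg c1, if_neg c1, if_pos h4]; rfl
        rw [e]
        rcases h4.2 with h | ⟨h, h5⟩
        · have hx2 := g2 c1 (g3 h)
          have e2 : D.c2 T x {a, b} = q4 (D.cnt T x {a, b}) := by
            unfold c2 q4
            rw [if_pos h4.1, if_pos (Or.inl h)]
          rw [if_pos hx2 (c := x ∈ D.N2 T (D.LM T) {a, b}), e2]; omega
        · rcases g4 c1 h with hx2 | hx3
          · have e2 : D.c2 T x {a, b} = q4 (D.cnt T x {a, b}) := by
              unfold c2 q4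
              rw [if_pos h4.1, if_pos (Or.inr h5)]
            rw [if_pos hx2 (c := x ∈ D.N2 T (D.LM T) {a, b}), e2]; omega
          · have e2 : D.c3 T x {a, b} = q4 (D.cnt T x {a, b}) := by
              unfold c3
              rw [if_pos ⟨h4.1, h5⟩]
            rw [if_pos hx3 (c := x ∈ D.N3 T (D.LM T) {a, b}), e2]; omega
      · by_cases h2' : D.Far2 T x {a, b}
        · have hx2 := g2 c1 h2'
          have e2 : D.w4 T x {a, b} ≤ D.c2 T x {a, b} := by
            unfold w4 c2 f4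
            rw [if_neg c1, if_neg c1, if_neg h4, if_pos h2']
            split_ifs <;> omega
          rw [if_pos hx2 (c := x ∈ D.N2 T (D.LM T) {a, b})]; omega
        · have e2 : D.w4 T x {a, b} = 0 := by
            unfold w4 f4
            rw [if_neg c1, if_neg c1, if_neg h4, if_neg h2']
            split_ifs <;> rfl
          omega
  rw [Finset.sum_add_distrib, Finset.sum_add_distrib, Finset.sum_add_distrib] at h1
  have e0 := sum_ind_le ((T \ Rset D.g T).filter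
      (fun x => ∀ p ∈ ({a, b} : Finset D.ι), D.g x p = 0)) (D.N0 T (D.LM T) {a, b})
      (fun x => q4 (D.cnt T x {a, b}))
  have e1 := sum_ind_le ((T \ Rset D.g T).filter
      (fun x => ∀ p ∈ ({a, b} : Finset D.ι), D.g x p = 0)) (D.N1 T (D.LM T) {a, b})
      (fun x => q4 (D.cnt T x {a, b}))
  have e2 := sum_ind_le ((T \ Rset D.g T).filter
      (fun x => ∀ p ∈ ({a, b} : Finset D.ι), D.g x p = 0)) (D.N2 T (D.LM T) {a, b})
      (fun x => D.c2 T x {a, b})
  have e3 := sum_ind_le ((T \ Rset D.g T).filter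
      (fun x => ∀ p ∈ ({a, b} : Finset D.ι), D.g x p = 0)) (D.N3 T (D.LM T) {a, b})
      (fun x => D.c3 T x {a, b})
  refine h1.trans ?_
  exact Nat.add_le_add (Nat.add_le_add (Nat.add_le_add e0 e1) e2) e3

end CoxData

end MP345
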