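import Mathlib
import Pool.Agent.Work.MP_345ef2_gt_24.T_Lib

/-!
# Bounds for the pairs of the T level (helper82)
-/

namespace MP345

open Finset

variable {n : ℕ}

namespace CoxData

namespace TP

variable {D : CoxData n}

theorem mem_N1 {T L P : Finset D.ι} {m : D.ι} :
    m ∈ D.N1 T L P ↔ m ∈ T ∧ m ∉ L ∧ D.NA m P ∧ ∃ s ∈ L, D.Adj m s := by
  classical
  unfold N1; simp

theorem mem_N2 {T L P : Finset D.ι} {m : D.ι} :
    m ∈ D.N2 T L P ↔ m ∈ T ∧ m ∉ L ∧ D.NA m P ∧ D.NA m L ∧ ∃ x ∈ D.N1 T L P, D.Adj m x := by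
  classical
  unfold N2; simp

theorem mem_N0 {T L P : Finset D.ι} {m : D.ι} :
    m ∈ D.N0 T L P ↔ (m ∈ L ∧ m ∉ Rset D.g T) ∧ D.NA m P := by
  classical
  unfold N0; simp

theorem NA_pair {m x y : D.ι} : D.NA m {x, y} ↔ ¬ D.Adj m x ∧ ¬ D.Adj m y := by
  unfold NA
  constructor
  · intro h; exact ⟨h x (by simp), h y (by simp)⟩
  · rintro ⟨h1, h2⟩ p hp
    simp only [Finset.mem_insert, Finset.mem_singleton] at hp
    rcases hp with rfl | rfl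
    · exact h1
    · exact h2

/-- contact count -/
theorem cnt_pos_of_contact {T : Finset D.ι} {m s x y : D.ι} (hs : s ∈ T) (hsx : s ≠ x)
    (hsy : s ≠ y) (hm : D.Adj m s) (h : D.Adj s x ∨ D.Adj s y) : 1 ≤ D.cnt T m {x, y} := by
  have hsP : s ∉ ({x, y} : Finset D.ι) := by simp [hsx, hsy]
  rcases h with h | h
  · exact cnt_pos (p := x) (by simp) hs hsP (hm.symm D) h
  · exact cnt_pos (p := y) (by simp) hs hsP (hm.symm D) h

/-- two common neighbours -/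
theorem cnt_two_of {T : Finset D.ι} {m s s' x y : D.ι} (hxy : x ≠ y) (hs : s ∈ T) (hsx : s ≠ x)
    (hsy : s ≠ y) (hs' : s' ∈ T) (hsx' : s' ≠ x) (hsy' : s' ≠ y) (h1 : D.Adj s m)
    (h2 : D.Adj s x) (h1' : D.Adj s' m) (h2' : D.Adj s' y) : 2 ≤ D.cnt T m {x, y} :=
  cnt_two (p := x) (p' := y) (by simp) (by simp) hxy hs (by simp [hsx, hsy]) h1 h2 hs'
    (by simp [hsx', hsy']) h1' h2'

theorem q4_anti {k l : ℕ} (h : k ≤ l) : q4 l ≤ q4 k := by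
  unfold q4; split_ifs <;> omega

theorem q4_le4 (k : ℕ) : q4 k ≤ 4 := q4_anti (Nat.zero_le k)

theorem q4_le1 {k : ℕ} (h : 1 ≤ k) : q4 k ≤ 1 := q4_anti h

theorem q4_zero {k : ℕ} (h : 2 ≤ k) : q4 k = 0 := by
  unfold q4; split_ifs <;> omega

theorem c2_le4 (T : Finset D.ι) (x : D.ι) (P : Finset D.ι) : D.c2 T x P ≤ 4 := by
  unfold c2; split_ifs <;> omega

theorem c2_le1 {T : Finset D.ι} {x : D.ι} {P : Finset D.ι} (h : 1 ≤ D.cnt T x P) :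
    D.c2 T x P ≤ 1 := by
  unfold c2; split_ifs <;> omega

theorem c2_zero {T : Finset D.ι} {x : D.ι} {P : Finset D.ι} (h : 2 ≤ D.cnt T x P) :
    D.c2 T x P = 0 := by
  unfold c2; split_ifs <;> omega

theorem c2_le2 {T : Finset D.ι} {x : D.ι} {P : Finset D.ι} (h : D.cls (D.LM T) ≠ 4) :
    D.c2 T x P ≤ 2 := by
  unfold c2; split_ifs <;> omega

theorem c2_le3 {T : Finset D.ι} {x : D.ι} {P : Finset D.ι} (h : ¬ D.Far2s T x P)
    (h5 : ¬ D.Five P) : D.c2 T x P ≤ 3 := by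
  unfold c2; split_ifs <;> first | omega | simp_all

theorem c2_weak {T : Finset D.ι} {x : D.ι} {P : Finset D.ι}
    (hc : D.cls (D.LM T) = 1 ∨ D.cls (D.LM T) = 2) (h5 : D.Five P) (hd : ¬ D.Far2d T x P) :
    D.c2 T x P ≤ 1 := by
  have h4 : D.cls (D.LM T) ≠ 4 := by rcases hc with h | h <;> omega
  have h6 : (D.cls (D.LM T) = 1 ∨ D.cls (D.LM T) = 2) ∧ D.Five P ∧ ¬ D.Far2d T x P := ⟨hc, h5, hd⟩
  unfold c2
  rw [if_neg h4, if_pos h6]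
  split_ifs <;> omega

theorem c3_zero {T : Finset D.ι} {x : D.ι} {P : Finset D.ι}
    (h : D.cls (D.LM T) ≠ 4 ∨ ¬ D.Five P) : D.c3 T x P = 0 := by
  unfold c3
  rw [if_neg]
  rintro ⟨h1, h2⟩
  rcases h with h | h
  · exact h h1
  · exact h h2

theorem N0_sum_le {T L P : Finset D.ι} (F : Finset D.ι) (k : D.ι → ℕ)
    (h : ∀ z ∈ D.N0 T L P, z ∈ F ∧ q4 (D.cnt T z P) ≤ k z) :
    ∑ z ∈ D.N0 T L P, q4 (D.cnt T z P) ≤ ∑ z ∈ F, k z :=
  (Finset.sum_le_sum fun z hz => (h z hz).2).trans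
    (Finset.sum_le_sum_of_subset_of_nonneg (fun z hz => (h z hz).1) fun _ _ _ => Nat.zero_le _)

theorem N0_sum_zero {T L P : Finset D.ι} (h : ∀ z ∈ D.N0 T L P, 2 ≤ D.cnt T z P) :
    ∑ z ∈ D.N0 T L P, q4 (D.cnt T z P) = 0 :=
  Finset.sum_eq_zero fun z hz => q4_zero (h z hz)

/-- the covering condition: every node of `L` outside the pair is adjacent to the pair or not
adjacent to `N1` -/
def Cov (D : CoxData n) (T : Finset D.ι) (x y : D.ι) : Prop :=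
  ∀ s ∈ D.LM T, s ≠ x → s ≠ y →
    (D.Adj s x ∨ D.Adj s y) ∨ ∀ m ∈ D.N1 T (D.LM T) {x, y}, ¬ D.Adj m s

theorem Cov.cnt {T : Finset D.ι} (hLT : D.LM T ⊆ T) {x y : D.ι} (h : Cov D T x y) :
    ∀ m ∈ D.N1 T (D.LM T) {x, y}, 1 ≤ D.cnt T m {x, y} := by
  intro m hm
  obtain ⟨hmT, hmL, hNA, s, hs, hms⟩ := mem_N1.1 hm
  rw [NA_pair] at hNA
  have hsx : s ≠ x := by rintro rfl; exact hNA.1 hms
  have hsy : s ≠ y := by rintro rfl; exact hNA.2 hms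
  rcases h s hs hsx hsy with h1 | h1
  · exact cnt_pos_of_contact (hLT hs) hsx hsy hms h1
  · exact absurd hms (h1 m hm)

theorem Cov.far {T : Finset D.ι} {x y : D.ι} (h : Cov D T x y) (z : D.ι) :
    ¬ D.Far2s T z {x, y} := by
  rintro ⟨m, ⟨hmT, hmP, hmL, hmNA⟩, hzm, s, hs, hsP, hms, hsNA⟩
  have hsx : s ≠ x := by rintro rfl; exact hsP (by simp)
  have hsy : s ≠ y := by rintro rfl; exact hsP (by simp)
  rcases h s hs hsx hsy with h1 | h1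
  · rcases h1 with h1 | h1
    · exact hsNA x (by simp) h1
    · exact hsNA y (by simp) h1
  · exact h1 m (mem_N1.2 ⟨hmT, hmL, hmNA, s, hs, hms⟩) hms

section

variable (hG : D.StmtGDEC)

include hG

/-- the general bound: `c0` for `N0`, `k1` for each element of `N1`, `k2` for each element of
`N2`; no payment for `N3` -/
theorem G_le_gen {T : Finset D.ι} (hT : T ∈ Tsets D.g n) {x y : D.ι} (hx : x ∈ Rset D.g T)
    (hy : y ∈ Rset D.g T) (hxy : x ≠ y)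
    (h5 : D.cls (D.LM T) ≠ 4 ∨ ¬ D.Five {x, y}) {c0 k1 k2 : ℕ}
    (h0 : ∑ z ∈ D.N0 T (D.LM T) {x, y}, q4 (D.cnt T z {x, y}) ≤ c0)
    (h1 : ∀ z ∈ D.N1 T (D.LM T) {x, y}, q4 (D.cnt T z {x, y}) ≤ k1)
    (h2 : ∀ z ∈ D.N2 T (D.LM T) {x, y}, D.c2 T z {x, y} ≤ k2) :
    D.G T {x, y} ≤ c0 + k1 * (D.N1 T (D.LM T) {x, y}).card +
      k2 * (D.N2 T (D.LM T) {x, y}).card := by
  classical
  have g := hG T hT x hx y hy hxy
  have e1 : ∑ z ∈ D.N1 T (D.LM T) {x, y}, q4 (D.cnt T z {x, y}) ≤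
      k1 * (D.N1 T (D.LM T) {x, y}).card := by
    rw [mul_comm, ← smul_eq_mul]; exact Finset.sum_le_card_nsmul _ _ _ h1
  have e2 : ∑ z ∈ D.N2 T (D.LM T) {x, y}, D.c2 T z {x, y} ≤
      k2 * (D.N2 T (D.LM T) {x, y}).card := by
    rw [mul_comm, ← smul_eq_mul]; exact Finset.sum_le_card_nsmul _ _ _ h2
  have e3 : ∑ z ∈ D.N3 T (D.LM T) {x, y}, D.c3 T z {x, y} = 0 :=
    Finset.sum_eq_zero fun z _ => c3_zero h5
  omega

/-- covering pairs, class at most 3: payments `1` on `N1` and `2` on `N2` -/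
theorem G_le_cov {T : Finset D.ι} (hT : T ∈ Tsets D.g n) {x y : D.ι} (hx : x ∈ Rset D.g T)
    (hy : y ∈ Rset D.g T) (hxy : x ≠ y) (hLT : D.LM T ⊆ T) (hc : Cov D T x y)
    (h5 : D.cls (D.LM T) ≠ 4) {c0 : ℕ}
    (h0 : ∑ z ∈ D.N0 T (D.LM T) {x, y}, q4 (D.cnt T z {x, y}) ≤ c0) :
    D.G T {x, y} ≤ c0 + (D.N1 T (D.LM T) {x, y}).card + 2 * (D.N2 T (D.LM T) {x, y}).card := by
  have := G_le_gen hG hT hx hy hxy (Or.inl h5) h0 (k1 := 1) (k2 := 2)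
    (fun z hz => q4_le1 (hc.cnt hLT z hz)) (fun _ _ => c2_le2 h5)
  omega

/-- covering pairs, class 4: payments `1` on `N1` and `3` on `N2` -/
theorem G_le_cov4 {T : Finset D.ι} (hT : T ∈ Tsets D.g n) {x y : D.ι} (hx : x ∈ Rset D.g T)
    (hy : y ∈ Rset D.g T) (hxy : x ≠ y) (hLT : D.LM T ⊆ T) (hc : Cov D T x y)
    (h5 : ¬ D.Five {x, y}) {c0 : ℕ}
    (h0 : ∑ z ∈ D.N0 T (D.LM T) {x, y}, q4 (D.cnt T z {x, y}) ≤ c0) :
    D.G T {x, y} ≤ c0 + (D.N1 T (D.LM T) {x, y}).card + 3 * (D.N2 T (D.LM T) {x, y}).card := by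
  have := G_le_gen hG hT hx hy hxy (Or.inr h5) h0 (k1 := 1) (k2 := 3)
    (fun z hz => q4_le1 (hc.cnt hLT z hz)) (fun z _ => c2_le3 (hc.far z) h5)
  omega

/-- payments `4` on `N1` and `N2`; no payment for `N3` -/
theorem G_le_four {T : Finset D.ι} (hT : T ∈ Tsets D.g n) {x y : D.ι} (hx : x ∈ Rset D.g T)
    (hy : y ∈ Rset D.g T) (hxy : x ≠ y)
    (h5 : D.cls (D.LM T) ≠ 4 ∨ ¬ D.Five {x, y}) {c0 : ℕ}
    (h0 : ∑ z ∈ D.N0 T (D.LM T) {x, y}, q4 (D.cnt T z {x, y}) ≤ c0) :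
    D.G T {x, y} ≤ c0 + 4 * (D.N1 T (D.LM T) {x, y}).card +
      4 * (D.N2 T (D.LM T) {x, y}).card :=
  G_le_gen hG hT hx hy hxy h5 h0 (fun _ _ => q4_le4 _) (fun _ _ => c2_le4 _ _ _)

/-- class at most 3: payments `4` on `N1`, `2` on `N2` -/
theorem G_le_42 {T : Finset D.ι} (hT : T ∈ Tsets D.g n) {x y : D.ι} (hx : x ∈ Rset D.g T)
    (hy : y ∈ Rset D.g T) (hxy : x ≠ y) (h5 : D.cls (D.LM T) ≠ 4) {c0 : ℕ}
    (h0 : ∑ z ∈ D.N0 T (D.LM T) {x, y}, q4 (D.cnt T z {x, y}) ≤ c0) :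
    D.G T {x, y} ≤ c0 + 4 * (D.N1 T (D.LM T) {x, y}).card +
      2 * (D.N2 T (D.LM T) {x, y}).card :=
  G_le_gen hG hT hx hy hxy (Or.inl h5) h0 (fun _ _ => q4_le4 _) (fun _ _ => c2_le2 h5)

end

/-- `GenHyp` with the full neighbourhoods, second element of the pair removed -/
theorem gen_full (hC : D.StmtCGEN) {T : Finset D.ι} (hT : T ∈ Tsets D.g n) {x y : D.ι}
    (hx : x ∈ Rset D.g T) (hy : y ∈ Rset D.g T) (hxy : x ≠ y) {V : Finset D.ι}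
    (hV : V ⊆ (D.LM T).erase y) (hTC : D.TC V) (hcov : ∀ s ∈ D.LM T, s ≠ x → s ≠ y → s ∈ V) :
    D.GenHyp (T.erase y) V (D.N1 T (D.LM T) {x, y}) (D.N2 T (D.LM T) {x, y}) := by
  obtain ⟨h1, h2⟩ := hC T hT x hx y hy hxy V hV hTC
  obtain ⟨e1, e2⟩ := h2 hcov
  rw [e1, e2] at h1
  exact h1

/-- `GenHyp` with the full neighbourhoods, first element of the pair removed -/
theorem gen_full' (hC : D.StmtCGEN) {T : Finset D.ι} (hT : T ∈ Tsets D.g n) {x y : D.ι}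
    (hx : x ∈ Rset D.g T) (hy : y ∈ Rset D.g T) (hxy : x ≠ y) {V : Finset D.ι}
    (hV : V ⊆ (D.LM T).erase x) (hTC : D.TC V) (hcov : ∀ s ∈ D.LM T, s ≠ x → s ≠ y → s ∈ V) :
    D.GenHyp (T.erase x) V (D.N1 T (D.LM T) {x, y}) (D.N2 T (D.LM T) {x, y}) := by
  have h := gen_full hC hT hy hx hxy.symm hV hTC fun s hs h1 h2 => hcov s hs h2 h1
  rw [Finset.pair_comm] at h
  exact h

end TP

end CoxData

end MP345
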