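import Mathlib
import Pool.Agent.Work.MP_345ef2_gt_24.TI

/-!
# Block SUM and RED (MP_345ef2_gt, T level)
-/

namespace MP345

open Finset

variable {n : ℕ}

/-! ### sums over the subsets of order two and three -/

theorem sum_pc_succ {α M : Type*} [DecidableEq α] [AddCommMonoid M] {m : α} {s : Finset α}
    (hm : m ∉ s) (j : ℕ) (F : Finset α → M) :
    ∑ P ∈ (insert m s).powersetCard (j + 1), F P =
      ∑ P ∈ s.powersetCard (j + 1), F P + ∑ P ∈ s.powersetCard j, F (insert m P) := by
  rw [Finset.powersetCard_succ_insert hm, Finset.sum_union, Finset.sum_image]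
  · intro P hP Q hQ h
    have hP' : m ∉ P := fun h' => hm ((Finset.mem_powersetCard.1 hP).1 h')
    have hQ' : m ∉ Q := fun h' => hm ((Finset.mem_powersetCard.1 hQ).1 h')
    have h1 : (insert m P).erase m = (insert m Q).erase m := congrArg (fun S => S.erase m) h
    rwa [Finset.erase_insert hP', Finset.erase_insert hQ'] at h1
  · rw [Finset.disjoint_left]
    intro P hP hP'
    obtain ⟨Q, -, rfl⟩ := Finset.mem_image.1 hP'
    exact hm ((Finset.mem_powersetCard.1 hP).1 (Finset.mem_insert_self _ _))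

theorem sum_pc2 {α M : Type*} [LinearOrder α] [AddCommMonoid M] (I : Finset α)
    (F : Finset α → M) :
    ∑ P ∈ I.powersetCard 2, F P = ∑ a ∈ I, ∑ b ∈ I, if a < b then F {a, b} else 0 := by
  induction I using Finset.induction_on_max with
  | empty => rw [Finset.powersetCard_eq_empty.2 (by simp)]; simp
  | insert m s hmax ih =>
    have hm : m ∉ s := fun h => lt_irrefl _ (hmax m h)
    rw [sum_pc_succ hm 1, ih, Finset.sum_insert hm]
    have h1 : (∑ b ∈ insert m s, if m < b then F {m, b} else 0) = 0 := by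
      refine Finset.sum_eq_zero fun b hb => ?_
      rw [if_neg]
      rcases Finset.mem_insert.1 hb with rfl | hb
      · exact lt_irrefl _
      · exact not_lt_of_gt (hmax b hb)
    rw [h1, zero_add]
    have h2 : ∀ a ∈ s, (∑ b ∈ insert m s, if a < b then F {a, b} else 0) =
        F {m, a} + ∑ b ∈ s, if a < b then F {a, b} else 0 := by
      intro a ha
      rw [Finset.sum_insert hm, if_pos (hmax a ha), Finset.pair_comm]
    rw [Finset.sum_congr rfl h2, Finset.sum_add_distrib, add_comm]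
    congr 1
    rw [Finset.powersetCard_one, Finset.sum_map]
    rfl

theorem sum_pc3 {α M : Type*} [LinearOrder α] [AddCommMonoid M] (I : Finset α)
    (F : Finset α → M) :
    ∑ P ∈ I.powersetCard 3, F P =
      ∑ a ∈ I, ∑ b ∈ I, ∑ c ∈ I, if a < b ∧ b < c then F {a, b, c} else 0 := by
  induction I using Finset.induction_on_max with
  | empty => rw [Finset.powersetCard_eq_empty.2 (by simp)]; simp
  | insert m s hmax ih =>
    have hm : m ∉ s := fun h => lt_irrefl _ (hmax m h)
    rw [sum_pc_succ hm 2, ih, sum_pc2, Finset.sum_insert hm]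
    have h1 : (∑ b ∈ insert m s, ∑ c ∈ insert m s, if m < b ∧ b < c then F {m, b, c} else 0)
        = 0 := by
      refine Finset.sum_eq_zero fun b hb => Finset.sum_eq_zero fun c _ => ?_
      rw [if_neg]
      rintro ⟨h, -⟩
      rcases Finset.mem_insert.1 hb with rfl | hb
      · exact lt_irrefl _ h
      · exact not_lt_of_gt (hmax b hb) h
    rw [h1, zero_add]
    have h2 : ∀ a ∈ s, (∑ b ∈ insert m s, ∑ c ∈ insert m s,
          if a < b ∧ b < c then F {a, b, c} else 0) =
        (∑ b ∈ s, if a < b then F (insert m {a, b}) else 0) +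
          ∑ b ∈ s, ∑ c ∈ s, if a < b ∧ b < c then F {a, b, c} else 0 := by
      intro a ha
      rw [Finset.sum_insert hm]
      have h3 : (∑ c ∈ insert m s, if a < m ∧ m < c then F {a, m, c} else 0) = 0 := by
        refine Finset.sum_eq_zero fun c hc => ?_
        rw [if_neg]
        rintro ⟨-, h⟩
        rcases Finset.mem_insert.1 hc with rfl | hc
        · exact lt_irrefl _ h
        · exact not_lt_of_gt (hmax c hc) h
      rw [h3, zero_add, ← Finset.sum_add_distrib]
      refine Finset.sum_congr rfl fun b hb => ?_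
      rw [Finset.sum_insert hm]
      congr 1
      have hbm := hmax b hb
      by_cases hab : a < b
      · rw [if_pos ⟨hab, hbm⟩, if_pos hab]
        congr 1
        ext x; simp; tauto
      · rw [if_neg (fun h => hab h.1), if_neg hab]
    rw [Finset.sum_congr rfl h2, Finset.sum_add_distrib, add_comm]

namespace CoxData

variable (D : CoxData n)

theorem sum_Rset2 {k : ℕ} {f : Fin k → D.ι} (hf : Function.Injective f) (I : Finset (Fin k))
    {M : Type*} [AddCommMonoid M] (F : Finset D.ι → M) :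
    ∑ P ∈ (I.map ⟨f, hf⟩).powersetCard 2, F P =
      ∑ a ∈ I, ∑ b ∈ I, if a < b then F {f a, f b} else 0 := by
  rw [Finset.powersetCard_map, Finset.sum_map, sum_pc2]
  refine Finset.sum_congr rfl fun a _ => Finset.sum_congr rfl fun b _ => ?_
  split_ifs with h
  · congr 1
    ext x; simp [Finset.mapEmbedding]
  · rfl

theorem sum_Rset3 {k : ℕ} {f : Fin k → D.ι} (hf : Function.Injective f) (I : Finset (Fin k))
    {M : Type*} [AddCommMonoid M] (F : Finset D.ι → M) :
    ∑ P ∈ (I.map ⟨f, hf⟩).powersetCard 3, F P =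
      ∑ a ∈ I, ∑ b ∈ I, ∑ c ∈ I, if a < b ∧ b < c then F {f a, f b, f c} else 0 := by
  rw [Finset.powersetCard_map, Finset.sum_map, sum_pc3]
  refine Finset.sum_congr rfl fun a _ => Finset.sum_congr rfl fun b _ =>
    Finset.sum_congr rfl fun c _ => ?_
  split_ifs with h
  · congr 1
    ext x; simp [Finset.mapEmbedding]
  · rfl

theorem eN_ge3 {k : ℕ} {f : Fin k → D.ι} (hf : Function.Injective f)
    {A : Fin k → Fin k → Bool} (hA : ∀ a b, A a b = true → D.Adj (f a) (f b))
    {a b c : Fin k} (hab : a < b) (hbc : b < c) :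
    (A a b).toNat + (A a c).toNat + (A b c).toNat ≤ eN D.g {f a, f b, f c} := by
  classical
  have hac := hab.trans hbc
  have e : ({f a, f b, f c} : Finset D.ι) = ({a, b, c} : Finset (Fin k)).map ⟨f, hf⟩ := by
    ext x; simp
  have h1 : eN D.g {f a, f b, f c} =
      ∑ P ∈ (({a, b, c} : Finset (Fin k)).map ⟨f, hf⟩).powersetCard 2,
        if AdjP D.g P then 1 else 0 := by
    rw [e]; unfold eN; rw [Finset.card_filter]
  rw [h1, D.sum_Rset2 hf]
  have hav : ∀ u v : Fin k, (A u v).toNat ≤ if AdjP D.g {f u, f v} then 1 else 0 := by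
    intro u v
    by_cases hh : A u v = true
    · rw [hh, if_pos]
      · rfl
      · have := hA u v hh
        exact ⟨f u, by simp, f v, by simp, this.1, this.2⟩
    · have : A u v = false := by simpa using hh
      rw [this]; simp
  have n1 : a ∉ ({b, c} : Finset (Fin k)) := by simp [hab.ne, hac.ne]
  have n2 : b ∉ ({c} : Finset (Fin k)) := by simp [hbc.ne]
  rw [Finset.sum_insert n1, Finset.sum_insert n2, Finset.sum_singleton]
  simp only [Finset.sum_insert n1, Finset.sum_insert n2, Finset.sum_singleton, lt_irrefl, if_false,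
    hab, hbc, hac, if_true, not_lt_of_gt hab, not_lt_of_gt hbc, not_lt_of_gt hac, zero_add,
    add_zero]
  exact Nat.add_le_add (Nat.add_le_add (hav _ _) (hav _ _)) (hav _ _)

theorem stmtSUM : D.StmtSUM := by
  classical
  intro k f A β τ I T hf hR hA hβ hτ hsum
  have hRI : Rset D.g T = I.map ⟨f, hf⟩ := by
    ext x; rw [hR]; simp
  unfold TB
  have h2 : ∑ P ∈ (Rset D.g T).powersetCard 2, (D.G T P : ℝ) ≤
      ((∑ a ∈ I, ∑ b ∈ I, if a < b then β a b else 0 : ℕ) : ℝ) := by
    rw [hRI, D.sum_Rset2 hf]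
    push_cast
    refine Finset.sum_le_sum fun a ha => Finset.sum_le_sum fun b hb => ?_
    split_ifs with h
    · exact_mod_cast hβ a ha b hb h
    · exact le_rfl
  have h3 : ∑ P ∈ (Rset D.g T).powersetCard 3, D.tri P ≤
      ((∑ a ∈ I, ∑ b ∈ I, ∑ c ∈ I, if a < b ∧ b < c then
        2 - (A a b).toNat - (A a c).toNat - (A b c).toNat else 0 : ℕ) : ℝ) := by
    rw [hRI, D.sum_Rset3 hf, Nat.cast_sum]
    refine Finset.sum_le_sum fun a ha => ?_
    rw [Nat.cast_sum]
    refine Finset.sum_le_sum fun b hb => ?_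
    rw [Nat.cast_sum]
    refine Finset.sum_le_sum fun c hc => ?_
    split_ifs with h
    · have h4 := D.eN_ge3 hf hA h.1 h.2
      unfold tri
      refine max_le ?_ (Nat.cast_nonneg _)
      have h5 : 2 ≤ (2 - (A a b).toNat - (A a c).toNat - (A b c).toNat) +
        eN D.g {f a, f b, f c} := by omega
      have h6 : (2 : ℝ) ≤ ((2 - (A a b).toNat - (A a c).toNat - (A b c).toNat : ℕ) : ℝ) +
        (eN D.g {f a, f b, f c} : ℝ) := by exact_mod_cast h5
      linarith
    · simp
  have h4 : ∑ r ∈ I, ∑ b ∈ I, (if r ≠ b then τ r b else 0) ≤ D.B8 T := by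
    unfold B8
    rw [hRI, Finset.sum_map]
    refine Finset.sum_le_sum fun r hr => ?_
    have e : (I.map ⟨f, hf⟩).erase (f r) = (I.erase r).map ⟨f, hf⟩ := by
      ext x
      simp only [Finset.mem_erase, Finset.mem_map, Function.Embedding.coeFn_mk]
      constructor
      · rintro ⟨h1, a, ha, rfl⟩
        exact ⟨a, ⟨fun e => h1 (e ▸ rfl), ha⟩, rfl⟩
      · rintro ⟨a, ⟨h1, ha⟩, rfl⟩
        exact ⟨fun e => h1 (hf e), a, ha, rfl⟩
    have e' : ∑ b ∈ (I.map ⟨f, hf⟩).erase ((⟨f, hf⟩ : Fin k ↪ D.ι) r),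
        D.t8 (T.erase ((⟨f, hf⟩ : Fin k ↪ D.ι) r)) b =
        ∑ b ∈ I.erase r, D.t8 (T.erase (f r)) (f b) := by
      change ∑ b ∈ (I.map ⟨f, hf⟩).erase (f r), D.t8 (T.erase (f r)) b = _
      rw [e, Finset.sum_map]; rfl
    rw [e']
    have e2 : ∑ b ∈ I, (if r ≠ b then τ r b else 0) = ∑ b ∈ I.erase r, τ r b := by
      rw [← Finset.sum_filter]
      congr 1
      ext b
      simp only [Finset.mem_filter, Finset.mem_erase]
      exact ⟨fun h => ⟨fun e => h.2 e.symm, h.1⟩, fun h => ⟨h.2, fun e => h.1 e.symm⟩⟩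
    rw [e2]
    refine Finset.sum_le_sum fun b hb => ?_
    have hb' := Finset.mem_erase.1 hb
    exact hτ r hr b hb'.2 (Ne.symm hb'.1)
  have h7 : (2 : ℝ) * ((∑ a ∈ I, ∑ b ∈ I, if a < b then β a b else 0 : ℕ) : ℝ) +
      8 * ((∑ a ∈ I, ∑ b ∈ I, ∑ c ∈ I, if a < b ∧ b < c then
        2 - (A a b).toNat - (A a c).toNat - (A b c).toNat else 0 : ℕ) : ℝ) ≤
      ((∑ r ∈ I, ∑ b ∈ I, (if r ≠ b then τ r b else 0) : ℕ) : ℝ) := by
    exact_mod_cast hsum
  have h8 : ((∑ r ∈ I, ∑ b ∈ I, (if r ≠ b then τ r b else 0) : ℕ) : ℝ) ≤ (D.B8 T : ℝ) := by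
    exact_mod_cast h4
  linarith

theorem chg_eq_w4 {T : Finset D.ι} {x : D.ι} {P : Finset D.ι} (hP : P.card = 2) :
    D.chg T x P = (D.w4 T x P : ℝ) / 4 := by
  unfold chg
  rw [if_pos hP]

theorem stmtRED : D.StmtRED := by
  classical
  intro h T hT
  have h1 := h T hT
  unfold TB at h1
  have hswap : ∑ i ∈ T \ Rset D.g T, ∑ P ∈ freePairs D.g T i, D.chg T i P =
      (∑ P ∈ (Rset D.g T).powersetCard 2, (D.G T P : ℝ)) / 4 := by
    have e1 : ∑ i ∈ T \ Rset D.g T, ∑ P ∈ freePairs D.g T i, D.chg T i P =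
        ∑ P ∈ (Rset D.g T).powersetCard 2,
          ∑ i ∈ (T \ Rset D.g T).filter (fun x => ∀ p ∈ P, D.g x p = 0), D.chg T i P := by
      refine Finset.sum_comm' ?_
      intro i P
      unfold freePairs
      simp only [Finset.mem_filter]
      tauto
    rw [e1, Finset.sum_div]
    refine Finset.sum_congr rfl fun P hP => ?_
    have hPc := (Finset.mem_powersetCard.1 hP).2
    unfold G
    rw [Nat.cast_sum, Finset.sum_div]
    exact Finset.sum_congr rfl fun x _ => D.chg_eq_w4 hPc
  rw [hswap]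
  linarith

end CoxData

end MP345
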