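import Mathlib
import Pool.Agent.Work.MP_345ef2_gt_24.T_PairH
import Pool.Agent.Work.MP_345ef2_gt_24.T_CTX
import Pool.Agent.Work.MP_345ef2_gt_24.T_SUM

/-!
# Summation for `L` indexed by `Fin k`
-/

namespace MP345

open Finset

variable {n : ℕ}

namespace CoxData

variable (D : CoxData n)

theorem inj4_h {α : Type*} {a b c d : α} (h1 : a ≠ b) (h2 : a ≠ c) (h3 : a ≠ d) (h4 : b ≠ c)
    (h5 : b ≠ d) (h6 : c ≠ d) : Function.Injective ![a, b, c, d] := by
  intro i j h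
  fin_cases i <;> fin_cases j <;> simp_all

/-- reduction of `TB` to the pairs; `τ i j` bounds `t8 (T - f i) (f j)`, `C` collects known facts
on the set of indices of `R(T)` -/
theorem tb_of {T : Finset D.ι} (hT : T ∈ Tsets D.g n) {k : ℕ} (f : Fin k → D.ι)
    (hf : Function.Injective f) (hL : ∀ x ∈ D.LM T, ∃ i, f i = x)
    (A : Fin k → Fin k → Bool) (β τ : Fin k → Fin k → ℕ)
    (hA : ∀ i j, A i j = true → D.Adj (f i) (f j))
    (hβ : ∀ i j, i < j → f i ∈ Rset D.g T → f j ∈ Rset D.g T → D.G T {f i, f j} ≤ β i j)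
    (hτ : ∀ i j, i ≠ j → f i ∈ Rset D.g T → f j ∈ Rset D.g T → τ i j ≤ D.t8 (T.erase (f i)) (f j))
    (C : Finset (Fin k) → Prop)
    (hC : ∀ I : Finset (Fin k), (∀ i, i ∈ I ↔ f i ∈ Rset D.g T) → C I)
    (hnum : ∀ I : Finset (Fin k), C I →
      2 * (∑ a ∈ I, ∑ b ∈ I, if a < b then β a b else 0) +
      8 * (∑ a ∈ I, ∑ b ∈ I, ∑ c ∈ I, if a < b ∧ b < c then
      2 - (A a b).toNat - (A a c).toNat - (A b c).toNat else 0) ≤
      ∑ r ∈ I, ∑ b ∈ I, (if r ≠ b then τ r b else 0)) : D.TB T := by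
  classical
  have hI : ∀ i, i ∈ (Finset.univ.filter fun i => f i ∈ Rset D.g T) ↔ f i ∈ Rset D.g T := by
    intro i; simp
  refine D.stmtSUM k f A β τ (Finset.univ.filter fun i => f i ∈ Rset D.g T) T hf ?_ hA ?_ ?_
    (hnum _ (hC _ hI))
  · intro x
    constructor
    · intro hx
      obtain ⟨i, rfl⟩ := hL x ((D.stmtCTX T hT).2.2.2.1 hx)
      exact ⟨i, (hI i).2 hx, rfl⟩
    · rintro ⟨i, hi, rfl⟩
      exact (hI i).1 hi
  · intro a ha b hb hab
    exact hβ a b hab ((hI a).1 ha) ((hI b).1 hb)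
  · intro a ha b hb hab
    exact hτ a b hab ((hI a).1 ha) ((hI b).1 hb)

/-- a second neighbour has no two different contact nodes in a tree `V` -/
theorem no_far2d {T : Finset D.ι} {a b : D.ι} {V : Finset D.ι}
    (hg : D.GenHyp (T.erase b) V (D.N1 T (D.LM T) {a, b}) (D.N2 T (D.LM T) {a, b}))
    (hcov : ∀ s ∈ D.LM T, s ≠ a → s ≠ b → s ∈ V) {x : D.ι}
    (hx : x ∈ D.N2 T (D.LM T) {a, b}) : ¬ D.Far2d T x {a, b} := by
  classical
  rintro ⟨y, y', s, s', ⟨hyT, hyP, hyL, hyN⟩, ⟨hyT', hyP', hyL', hyN'⟩, hxy, hxy', hne, hs, hs',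
    hsP, hsP', hys, hys'⟩
  obtain ⟨-, h1, -, h2, -⟩ := D.stmtGEN _ _ _ _ hg
  have hsV : s ∈ V := hcov s hs (fun e => hsP (by simp [e])) (fun e => hsP (by simp [e]))
  have hsV' : s' ∈ V := hcov s' hs' (fun e => hsP' (by simp [e])) (fun e => hsP' (by simp [e]))
  have m1 : y ∈ D.N1 T (D.LM T) {a, b} := D.mem_N1_h.2 ⟨hyT, hyL, hyN, s, hs, hys⟩
  have m2 : y' ∈ D.N1 T (D.LM T) {a, b} := D.mem_N1_h.2 ⟨hyT', hyL', hyN', s', hs', hys'⟩
  have e1 : y = y' := by
    have h3 := h2 x hx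
    exact Finset.card_le_one.1 h3.le y ((mem_nb D).2 ⟨m1, hxy⟩) y' ((mem_nb D).2 ⟨m2, hxy'⟩)
  subst e1
  have h3 := h1 y m1
  exact hne (Finset.card_le_one.1 h3.le s ((mem_nb D).2 ⟨hsV, hys⟩) s' ((mem_nb D).2 ⟨hsV', hys'⟩))

/-- `b` is a leaf of `S` at the edge `b a` of label 5 if `a` has another neighbour -/
theorem t8_21 {S : Finset D.ι} (hS : PD D.g S) {a b m : D.ι} (ha : a ∈ S) (hb : b ∈ S)
    (hm : m ∈ S) (hba : D.g b a = -c5) (ham : D.Adj a m) (hmb : m ≠ b) : 21 ≤ D.t8 S b := by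
  classical
  have hadj := D.adj_of_five hba
  refine t8_leaf5' (c := a) ?_ ha hba ?_
  · refine Finset.card_le_one.2 fun x hx y hy => ?_
    have key : ∀ x ∈ D.nb S b, x = a := by
      intro x hx
      obtain ⟨hxS, hbx⟩ := (mem_nb D).1 hx
      by_contra hne
      by_cases hxm : x = m
      · subst hxm
        exact D.no_tri hS hb ha hxS hadj ham hbx
      · exact no_353 hS (s := x) (q := b) (p := a) (r := m) hxS hb ha hm (hbx.symm D) hba.le
          (Ne.symm hadj.1) ham hne hxm hmb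
    rw [key x hx, key y hy]
  · have h1 : ({b, m} : Finset D.ι) ⊆ D.nb S a := by
      intro x hx
      simp only [Finset.mem_insert, Finset.mem_singleton] at hx
      rcases hx with rfl | rfl
      · exact (mem_nb D).2 ⟨hb, hadj.symm D⟩
      · exact (mem_nb D).2 ⟨hm, ham⟩
    have h2 := Finset.card_le_card h1
    rwa [Finset.card_pair (Ne.symm hmb)] at h2

/-- If the neighbourhoods `N1`, `N2` of `L = LM T` for the pair `{y, x}` have together at least four
elements, the tree `W` covers `L - x - y` and `y` is adjacent to `W`, then `y` is a leaf of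
`T - x`. -/
theorem leaf_of_four {T : Finset D.ι} (hT : T ∈ Tsets D.g n) {x y w : D.ι} {W : Finset D.ι}
    (hx : x ∈ Rset D.g T) (hy : y ∈ Rset D.g T) (hyx : y ≠ x)
    (hWL : W ⊆ D.LM T) (hxW : x ∉ W) (hyW : y ∉ W) (hTC : D.TC W)
    (hcov : ∀ s ∈ D.LM T, s ≠ y → s ≠ x → s ∈ W) (hw : w ∈ W) (hyw : D.Adj y w)
    (h4 : 4 ≤ (D.N1 T (D.LM T) {y, x}).card + (D.N2 T (D.LM T) {y, x}).card) :
    (D.nb (T.erase x) y).card ≤ 1 := by
  classical
  by_contra hlt
  push Not at hlt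
  have hLT := (D.stmtCTX T hT).2.2.1
  have hRL := (D.stmtCTX T hT).2.2.2.1
  have hRP := (D.stmtCTX T hT).2.2.2.2.1
  have hS := hRP x hx
  have hxL := hRL hx
  have hyL := hRL hy
  have hyS : y ∈ T.erase x := Finset.mem_erase.2 ⟨hyx, hLT hyL⟩
  have hWS : W ⊆ T.erase x := fun s hs => Finset.mem_erase.2 ⟨fun e => hxW (e ▸ hs), hLT (hWL hs)⟩
  obtain ⟨u1, hu1, u2, hu2, hne⟩ := Finset.one_lt_card.1 hlt
  have hex : ∃ t ∈ D.nb (T.erase x) y, t ≠ w := by
    by_cases e : u1 = w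
    · exact ⟨u2, hu2, fun e' => hne (e.trans e'.symm)⟩
    · exact ⟨u1, hu1, e⟩
  obtain ⟨t, ht, htw⟩ := hex
  obtain ⟨htS, hyt⟩ := (mem_nb D).1 ht
  -- `t` is not in `W`
  have g1 : D.GenHyp (T.erase x) W {y} ∅ := by
    refine ⟨hS, hWS, by simpa using hyS, by simp, ?_, by simp, by simp, hTC, ?_, by simp, by simp⟩
    · rw [Finset.disjoint_singleton_right]; exact hyW
    · intro m hm
      rw [Finset.mem_singleton] at hm
      subst hm
      exact ⟨w, hw, hyw⟩
  have htW : t ∉ W := by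
    intro htW
    have h1 := (D.stmtGEN _ _ _ _ g1).2.1 y (by simp)
    exact htw (Finset.card_le_one.1 h1.le t ((mem_nb D).2 ⟨htW, hyt⟩) w ((mem_nb D).2 ⟨hw, hyw⟩))
  -- `t` is not adjacent to `W`
  have htn : ∀ v ∈ W, ¬ D.Adj t v := by
    intro v hv htv
    have g2 : D.GenHyp (T.erase x) W {y, t} ∅ := by
      refine ⟨hS, hWS, ?_, by simp, ?_, by simp, by simp, hTC, ?_, by simp, by simp⟩
      · intro s hs
        simp only [Finset.mem_insert, Finset.mem_singleton] at hs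
        rcases hs with rfl | rfl <;> assumption
      · rw [Finset.disjoint_right]
        intro s hs
        simp only [Finset.mem_insert, Finset.mem_singleton] at hs
        rcases hs with rfl | rfl <;> assumption
      · intro m hm
        simp only [Finset.mem_insert, Finset.mem_singleton] at hm
        rcases hm with rfl | rfl
        · exact ⟨w, hw, hyw⟩
        · exact ⟨v, hv, htv⟩
    exact (D.stmtGEN _ _ _ _ g2).2.2.1 y (by simp) t (by simp) hyt
  have hm1 : ∀ m ∈ D.N1 T (D.LM T) {y, x}, m ∈ T.erase x ∧ m ∉ D.LM T ∧ ¬ D.Adj m y ∧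
      ∃ v ∈ W, D.Adj m v := by
    intro m hm
    obtain ⟨a1, a2, a3, s, hs, hms⟩ := D.mem_N1_h.1 hm
    refine ⟨Finset.mem_erase.2 ⟨fun e => a2 (e ▸ hxL), a1⟩, a2, a3 y (by simp), s,
      hcov s hs ?_ ?_, hms⟩
    · rintro rfl; exact a3 s (by simp) hms
    · rintro rfl; exact a3 s (by simp) hms
  have hm2 : ∀ m ∈ D.N2 T (D.LM T) {y, x}, m ∈ T.erase x ∧ m ∉ D.LM T ∧ ¬ D.Adj m y ∧
      (∀ v ∈ W, ¬ D.Adj m v) ∧ ∃ m' ∈ D.N1 T (D.LM T) {y, x}, D.Adj m m' := by
    intro m hm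
    obtain ⟨a1, a2, a3, a4, a5⟩ := D.mem_N2_h.1 hm
    exact ⟨Finset.mem_erase.2 ⟨fun e => a2 (e ▸ hxL), a1⟩, a2, a3 y (by simp),
      fun v hv => a4 v (hWL hv), a5⟩
  have htN1 : t ∉ D.N1 T (D.LM T) {y, x} := fun h => (hm1 t h).2.2.1 (hyt.symm D)
  have htN2 : t ∉ D.N2 T (D.LM T) {y, x} := fun h => (hm2 t h).2.2.1 (hyt.symm D)
  have hyN1 : y ∉ D.N1 T (D.LM T) {y, x} := fun h => (hm1 y h).2.1 hyL
  have hgen : D.GenHyp (T.erase x) W (insert y (D.N1 T (D.LM T) {y, x}))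
      (insert t (D.N2 T (D.LM T) {y, x})) := by
    refine ⟨hS, hWS, ?_, ?_, ?_, ?_, ?_, hTC, ?_, ?_, ?_⟩
    · intro s hs
      rcases Finset.mem_insert.1 hs with rfl | hs
      · exact hyS
      · exact (hm1 s hs).1
    · intro s hs
      rcases Finset.mem_insert.1 hs with rfl | hs
      · exact htS
      · exact (hm2 s hs).1
    · rw [Finset.disjoint_right]
      intro s hs
      rcases Finset.mem_insert.1 hs with rfl | hs
      · exact hyW
      · exact fun h => (hm1 s hs).2.1 (hWL h)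
    · rw [Finset.disjoint_right]
      intro s hs
      rcases Finset.mem_insert.1 hs with rfl | hs
      · exact htW
      · exact fun h => (hm2 s hs).2.1 (hWL h)
    · rw [Finset.disjoint_left]
      intro s hs hs'
      rcases Finset.mem_insert.1 hs with rfl | hs
      · rcases Finset.mem_insert.1 hs' with rfl | hs'
        · exact hyt.1 rfl
        · exact (hm2 s hs').2.1 hyL
      · rcases Finset.mem_insert.1 hs' with rfl | hs'
        · exact htN1 hs
        · obtain ⟨v, hv, hsv⟩ := (hm1 s hs).2.2.2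
          exact (hm2 s hs').2.2.2.1 v hv hsv
    · intro m hm
      rcases Finset.mem_insert.1 hm with rfl | hm
      · exact ⟨w, hw, hyw⟩
      · exact (hm1 m hm).2.2.2
    · intro m hm
      rcases Finset.mem_insert.1 hm with rfl | hm
      · exact ⟨y, Finset.mem_insert_self _ _, hyt.symm D⟩
      · obtain ⟨m', hm', h⟩ := (hm2 m hm).2.2.2.2
        exact ⟨m', Finset.mem_insert_of_mem hm', h⟩
    · intro m hm v hv
      rcases Finset.mem_insert.1 hm with rfl | hm
      · exact htn v hv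
      · exact (hm2 m hm).2.2.2.1 v hv
  obtain ⟨-, -, -, -, -, -, h7, -⟩ := D.stmtGEN _ _ _ _ hgen
  rw [Finset.card_insert_of_notMem hyN1, Finset.card_insert_of_notMem htN2] at h7
  omega

end CoxData

end MP345
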