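import Mathlib
import Pool.Agent.Work.MP_345ef2_gt_24.T_TB
import Pool.Agent.Work.MP_345ef2_gt_24.T_GDEC
import Pool.Agent.Work.MP_345ef2_gt_24.T_CLF
import Pool.Agent.Work.MP_345ef2_gt_24.D_SIGN

/-!
# Block T353 (MP_345ef2_gt, T level, n <= 24)
-/

namespace MP345

open Finset

variable {n : ℕ}

namespace CoxData

variable (D : CoxData n)

theorem p353_leaf (hcls : D.StmtCLS) {T : Finset D.ι}
    (hT : T ∈ Tsets D.g n) {a b c d : D.ι}
    (h : D.Path4 a b c d (1 / 2) c5 (1 / 2) (D.LM T)) : LeafAt D T c b := by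
  classical
  refine leafAt_of (z := a) fun y hy hby => ?_
  by_contra hno
  push Not at hno
  have hLT := (D.stmtCTX T hT).2.2.1
  have h3 := (D.stmtCLF hcls).2.1 _ a b c d h
  have hpd : PD D.g ({a, b, c, y} : Finset D.ι) := by
    refine (D.stmtCLT hcls T hT).2.1 (by omega) _ ?_ Finset.card_le_four ⟨b, by simp, ?_⟩
    · intro s hs
      simp only [Finset.mem_insert, Finset.mem_singleton] at hs
      rcases hs with rfl | rfl | rfl | rfl
      · exact hLT h.ma
      · exact hLT h.mb
      · exact hLT h.mc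
      · exact hy
    · have h1 : ({a, c, y} : Finset D.ι) ⊆ D.nb {a, b, c, y} b := by
        intro s hs
        simp only [Finset.mem_insert, Finset.mem_singleton] at hs
        rcases hs with rfl | rfl | rfl
        · exact (mem_nb D).2 ⟨by simp, h.Aba (by norm_num)⟩
        · exact (mem_nb D).2 ⟨by simp, h.Abc c5_pos⟩
        · exact (mem_nb D).2 ⟨by simp, hby⟩
      have h2 := Finset.card_le_card h1
      rw [Finset.card_insert_of_notMem (by simp [h.ac, Ne.symm hno.2]),
        Finset.card_pair (Ne.symm hno.1)] at h2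
      exact h2
  exact no_heavy3 hpd (p := b) (q := c) (r := a) (s := y) (by simp) (by simp) (by simp) (by simp)
    h.ac.symm (Ne.symm hno.1) (Ne.symm hno.2) (c5_heavy h.vbc) h.bc (h.Aba (by norm_num)) hby

/-- the facts on the tree `d - c - b` in `T - a` -/
theorem p353_gen {T : Finset D.ι} (hT : T ∈ Tsets D.g n) {a b c d x : D.ι}
    (h : D.Path4 a b c d (1 / 2) c5 (1 / 2) (D.LM T)) (hx : x ∈ Rset D.g T)
    (ha : a ∈ Rset D.g T) (hne : x ≠ a) :
    (D.N1 T (D.LM T) {x, a}).card + (D.N2 T (D.LM T) {x, a}).card ≤ 1 := by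
  classical
  have e := h.eq
  have Acb := h.Acb c5_pos
  have Acd := h.Acd (by norm_num)
  have tbcd : D.TC {d, c, b} := TC_insert (TC_pair Acb) (by simp [h.cd.symm, h.bd.symm])
    (u := c) (by simp) (Acd.symm D)
  have h5 := (D.gen_at_h D.stmtCGEN hT hx ha hne (V := {d, c, b}) (by
    intro s hs
    simp only [Finset.mem_insert, Finset.mem_singleton] at hs
    rw [Finset.mem_erase]
    rcases hs with rfl | rfl | rfl
    · exact ⟨h.ad.symm, h.md⟩
    · exact ⟨h.ac.symm, h.mc⟩
    · exact ⟨h.ab.symm, h.mb⟩) tbcd (by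
    intro s hs _ h2
    rw [e] at hs
    simp only [Finset.mem_insert, Finset.mem_singleton] at hs ⊢
    tauto)).2.2.2.2.2 ⟨b, by simp, c, by simp, h.vbc⟩
  have c3 : ({d, c, b} : Finset D.ι).card = 3 := by
    rw [Finset.card_insert_of_notMem (by simp [h.cd.symm, h.bd.symm]), Finset.card_pair h.bc.symm]
  omega

/-- the pair of an end and its neighbour -/
theorem p353_ab {T : Finset D.ι} (hT : T ∈ Tsets D.g n) {a b c d : D.ι}
    (h : D.Path4 a b c d (1 / 2) c5 (1 / 2) (D.LM T)) (ha : a ∈ Rset D.g T)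
    (hb : b ∈ Rset D.g T) : D.G T {a, b} ≤ 5 := by
  classical
  have e := h.eq
  have Acb := h.Acb c5_pos
  have Acd := h.Acd (by norm_num)
  have hcard : (D.LM T).card ≤ 4 := by rw [e]; exact Finset.card_le_four
  have hcls := D.cls_ne_four_h hcard
  have hcT : c ∈ T := (D.stmtCTX T hT).2.2.1 h.mc
  rw [D.G_comm_h]
  have h2 := D.N0_sum_le_h T hb ha {d} (fun s hs h3 h4 h5 h6 => by
    rw [e] at hs
    simp only [Finset.mem_insert, Finset.mem_singleton] at hs ⊢
    rcases hs with rfl | rfl | rfl | rfl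
    · exact absurd rfl h4
    · exact absurd rfl h3
    · exact absurd Acb h5
    · rfl)
  rw [Finset.sum_singleton] at h2
  have h3 : 1 ≤ D.cnt T d {b, a} := cnt_pos (p := b) (by simp) hcT
    (by simp [h.bc.symm, h.ac.symm]) Acd Acb
  have h2' := h2.trans (TP.q4_le1 h3)
  have h4 := TP.G_le_four D.stmtGDEC hT hb ha h.ab.symm (Or.inl hcls) h2'
  have h5 := D.p353_gen hT h hb ha h.ab.symm
  omega

/-- a covering pair that contains an end of the path -/
theorem p353_cov {T : Finset D.ι} (hT : T ∈ Tsets D.g n) {a b c d x : D.ι}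
    (h : D.Path4 a b c d (1 / 2) c5 (1 / 2) (D.LM T)) (hx : x ∈ Rset D.g T)
    (ha : a ∈ Rset D.g T) (hxa : x = c ∨ x = d) : D.G T {x, a} ≤ 2 := by
  classical
  have e := h.eq
  have Aba := h.Aba (by norm_num)
  have Acb := h.Acb c5_pos
  have Acd := h.Acd (by norm_num)
  have hcard : (D.LM T).card ≤ 4 := by rw [e]; exact Finset.card_le_four
  have hcls := D.cls_ne_four_h hcard
  have hne : x ≠ a := by
    rcases hxa with rfl | rfl
    · exact h.ac.symm
    · exact h.ad.symm
  have h1 := D.G_le_cov_h D.stmtCTX D.stmtGDEC hT hx ha hne hcls (by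
    intro s hs h1 h2
    rw [e] at hs
    simp only [Finset.mem_insert, Finset.mem_singleton] at hs
    rcases hs with rfl | rfl | rfl | rfl
    · exact absurd rfl h2
    · exact Or.inr Aba
    · rcases hxa with rfl | rfl
      · exact absurd rfl h1
      · exact Or.inl Acd
    · rcases hxa with rfl | rfl
      · exact Or.inl (Acd.symm D)
      · exact absurd rfl h1)
  have h5 := D.p353_gen hT h hx ha hne
  omega

/-- the middle edge -/
theorem p353_bc {T : Finset D.ι} (hT : T ∈ Tsets D.g n) {a b c d : D.ι}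
    (h : D.Path4 a b c d (1 / 2) c5 (1 / 2) (D.LM T)) (hb : b ∈ Rset D.g T)
    (hc : c ∈ Rset D.g T) : D.G T {b, c} ≤ 8 := by
  classical
  have e := h.eq
  have hLT := (D.stmtCTX T hT).2.2.1
  have Aab := h.Aab (by norm_num)
  have Adc := h.Adc (by norm_num)
  have hcard : (D.LM T).card ≤ 4 := by rw [e]; exact Finset.card_le_four
  have hcls := D.cls_ne_four_h hcard
  have hc2 : D.cls (D.LM T) = 1 ∨ D.cls (D.LM T) = 2 := Or.inr (D.cls_path4 h)
  have h0 : ∑ w ∈ D.N0 T (D.LM T) {b, c}, q4 (D.cnt T w {b, c}) ≤ 0 := by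
    have h2 := D.N0_sum_le_h T hb hc ∅ (fun s hs h3 h4 h5 h6 => by
      rw [e] at hs
      simp only [Finset.mem_insert, Finset.mem_singleton] at hs
      rcases hs with rfl | rfl | rfl | rfl
      · exact absurd Aab h5
      · exact absurd rfl h3
      · exact absurd rfl h4
      · exact absurd Adc h6)
    rwa [Finset.sum_empty] at h2
  have hCov : TP.Cov D T b c := by
    intro s hs h1 h2
    rw [e] at hs
    simp only [Finset.mem_insert, Finset.mem_singleton] at hs
    rcases hs with rfl | rfl | rfl | rfl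
    · exact Or.inl (Or.inl Aab)
    · exact absurd rfl h1
    · exact absurd rfl h2
    · exact Or.inl (Or.inr Adc)
  have g := D.stmtGDEC T hT b hb c hc h.bc
  have e1 : ∑ z ∈ D.N1 T (D.LM T) {b, c}, q4 (D.cnt T z {b, c}) ≤
      (D.N1 T (D.LM T) {b, c}).card := by
    rw [Finset.card_eq_sum_ones]
    exact Finset.sum_le_sum fun w hw => TP.q4_le1 (hCov.cnt hLT w hw)
  have e3 : ∑ z ∈ D.N3 T (D.LM T) {b, c}, D.c3 T z {b, c} = 0 :=
    Finset.sum_eq_zero fun z _ => TP.c3_zero (Or.inl hcls)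
  obtain ⟨p1, p2⟩ := D.parts_le_h T (a := b) (b := c) (V := {a, b}) (W := {d, c}) (by
    intro s hs h1 h2
    rw [e] at hs
    simp only [Finset.mem_insert, Finset.mem_singleton] at hs ⊢
    tauto)
  -- the second neighbours
  have e2 : ∑ z ∈ D.N2 T (D.LM T) {b, c}, D.c2 T z {b, c} ≤
      (D.N2p_h T (D.LM T) {b, c} {a, b}).card + (D.N2p_h T (D.LM T) {b, c} {d, c}).card := by
    have h1 : ∀ z ∈ D.N2 T (D.LM T) {b, c}, D.c2 T z {b, c} ≤
        (if z ∈ D.N2p_h T (D.LM T) {b, c} {a, b} then 1 else 0) +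
        (if z ∈ D.N2p_h T (D.LM T) {b, c} {d, c} then 1 else 0) := by
      intro z hz
      have hcontact : ∀ y, D.Free T {b, c} y → D.Adj z y → ∀ s ∈ D.LM T, s ∉ ({b, c} : Finset D.ι) →
          D.Adj y s → (s = a ∧ z ∈ D.N2p_h T (D.LM T) {b, c} {a, b}) ∨
            (s = d ∧ z ∈ D.N2p_h T (D.LM T) {b, c} {d, c}) := by
        rintro y ⟨hyT, hyP, hyL, hyN⟩ hzy s hs hsP hys
        have m1 : y ∈ D.N1 T (D.LM T) {b, c} := D.mem_N1_h.2 ⟨hyT, hyL, hyN, s, hs, hys⟩
        rw [e] at hs
        simp only [Finset.mem_insert, Finset.mem_singleton] at hs hsP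
        push Not at hsP
        rcases hs with rfl | rfl | rfl | rfl
        · exact Or.inl ⟨rfl, Finset.mem_filter.2 ⟨hz, y, m1, ⟨s, by simp, hys⟩, hzy⟩⟩
        · exact absurd rfl hsP.1
        · exact absurd rfl hsP.2
        · exact Or.inr ⟨rfl, Finset.mem_filter.2 ⟨hz, y, m1, ⟨s, by simp, hys⟩, hzy⟩⟩
      by_cases hd : D.Far2d T z {b, c}
      · obtain ⟨y, y', s, s', hf, hf', hzy, hzy', hne, hs, hs', hsP, hsP', hys, hys'⟩ := hd
        have k1 := hcontact y hf hzy s hs hsP hys
        have k2 := hcontact y' hf' hzy' s' hs' hsP' hys'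
        have hc2' := TP.c2_le2 (T := T) (x := z) (P := {b, c}) hcls
        rcases k1 with ⟨rfl, k1⟩ | ⟨rfl, k1⟩
        · rcases k2 with ⟨rfl, k2⟩ | ⟨rfl, k2⟩
          · exact absurd rfl hne
          · rw [if_pos k1, if_pos k2]; exact hc2'
        · rcases k2 with ⟨rfl, k2⟩ | ⟨rfl, k2⟩
          · rw [if_pos k1, if_pos k2]; exact hc2'
          · exact absurd rfl hne
      · have hw := TP.c2_weak (x := z) hc2 ⟨b, by simp, c, by simp, h.vbc⟩ hd
        obtain ⟨_, _, _, _, y, hy, hzy⟩ := D.mem_N2_h.1 hz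
        obtain ⟨hyT, hyL, hyN, s, hs, hys⟩ := D.mem_N1_h.1 hy
        have hsP : s ∉ ({b, c} : Finset D.ι) := fun hh => hyN s hh hys
        have hyP : y ∉ ({b, c} : Finset D.ι) := by
          intro hh
          simp only [Finset.mem_insert, Finset.mem_singleton] at hh
          rcases hh with rfl | rfl
          · exact hyL h.mb
          · exact hyL h.mc
        rcases hcontact y ⟨hyT, hyP, hyL, hyN⟩ hzy s hs hsP hys with ⟨_, k⟩ | ⟨_, k⟩
        · rw [if_pos k]; omega
        · rw [if_pos k (c := z ∈ D.N2p_h T (D.LM T) {b, c} {d, c})]; omega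
    refine (Finset.sum_le_sum h1).trans ?_
    rw [Finset.sum_add_distrib]
    have k1 := sum_ind_le (D.N2 T (D.LM T) {b, c}) (D.N2p_h T (D.LM T) {b, c} {a, b}) (fun _ => 1)
    have k2 := sum_ind_le (D.N2 T (D.LM T) {b, c}) (D.N2p_h T (D.LM T) {b, c} {d, c}) (fun _ => 1)
    rw [← Finset.card_eq_sum_ones] at k1 k2
    exact Nat.add_le_add k1 k2
  have q3 := (D.gen_part_h D.stmtCGEN hT hb hc h.bc (V := {a, b}) (by
      intro s hs
      simp only [Finset.mem_insert, Finset.mem_singleton] at hs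
      rw [Finset.mem_erase]
      rcases hs with rfl | rfl
      · exact ⟨h.ac, h.ma⟩
      · exact ⟨h.bc, h.mb⟩) (TC_pair Aab)).2.2.2.1 b
      (D.prot_of_h (z := a) (D.N1p_sub_h _ _ _ _) (by simp) (by simp)
        (by rw [Finset.card_pair h.ab]) (by
        intro v hv hbv
        simp only [Finset.mem_insert, Finset.mem_singleton] at hv
        rcases hv with rfl | rfl
        · rfl
        · exact absurd rfl hbv.1))
  have q4' := (D.gen_part_h D.stmtCGEN hT hc hb h.bc.symm (V := {d, c}) (by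
      intro s hs
      simp only [Finset.mem_insert, Finset.mem_singleton] at hs
      rw [Finset.mem_erase]
      rcases hs with rfl | rfl
      · exact ⟨h.bd.symm, h.md⟩
      · exact ⟨h.bc.symm, h.mc⟩) (TC_pair Adc)).2.2.2.1 c
      (D.prot_of_h (z := d) (D.N1p_sub_h _ _ _ _) (by simp) (by simp)
        (by rw [Finset.card_pair h.cd.symm]) (by
        intro v hv hbv
        simp only [Finset.mem_insert, Finset.mem_singleton] at hv
        rcases hv with rfl | rfl
        · rfl
        · exact absurd rfl hbv.1))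
  rw [Finset.pair_comm c b] at q4'
  omega

theorem stmtT353 (hcls : D.StmtCLS) : D.StmtT353 := by
  classical
  intro T hT a b c d h
  have e := h.eq
  have Aab := h.Aab (by norm_num)
  have Aba := h.Aba (by norm_num)
  have Abc := h.Abc c5_pos
  have Acb := h.Acb c5_pos
  have Acd := h.Acd (by norm_num)
  have Adc := h.Adc (by norm_num)
  have hinj := inj4_h h.ab h.ac h.ad h.bc h.bd h.cd
  have b02 : a ∈ Rset D.g T → c ∈ Rset D.g T → D.G T {a, c} ≤ 2 := fun h1 h2 => by
    rw [D.G_comm_h]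
    exact D.p353_cov hT h h2 h1 (Or.inl rfl)
  have b03 : a ∈ Rset D.g T → d ∈ Rset D.g T → D.G T {a, d} ≤ 2 := fun h1 h2 => by
    rw [D.G_comm_h]
    exact D.p353_cov hT h h2 h1 (Or.inr rfl)
  have b13 : b ∈ Rset D.g T → d ∈ Rset D.g T → D.G T {b, d} ≤ 2 := fun h1 h2 =>
    D.p353_cov hT h.rev h1 h2 (Or.inl rfl)
  have b23 : c ∈ Rset D.g T → d ∈ Rset D.g T → D.G T {c, d} ≤ 5 := fun h1 h2 => by
    rw [D.G_comm_h]
    exact D.p353_ab hT h.rev h2 h1
  have b01 : a ∈ Rset D.g T → b ∈ Rset D.g T → D.G T {a, b} ≤ 5 := fun h1 h2 =>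
    D.p353_ab hT h h1 h2
  have b12 : b ∈ Rset D.g T → c ∈ Rset D.g T → D.G T {b, c} ≤ 8 := fun h1 h2 =>
    D.p353_bc hT h h1 h2
  have t21 : 9 ≤ D.t8 (T.erase c) b := t8_leaf (D.p353_leaf hcls hT h)
  have t12 : 9 ≤ D.t8 (T.erase b) c := t8_leaf (D.p353_leaf hcls hT h.rev)
  refine D.tb_of hT ![a, b, c, d] hinj ?_
    ![![false, true, false, false], ![true, false, true, false], ![false, true, false, true],
      ![false, false, true, false]]
    ![![0, 5, 2, 2], ![0, 0, 8, 2], ![0, 0, 0, 5], ![0, 0, 0, 0]]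
    ![![5, 5, 5, 5], ![5, 5, 9, 5], ![5, 9, 5, 5], ![5, 5, 5, 5]] ?_ ?_ ?_
    (fun _ => True) (fun _ _ => trivial) ?_
  · intro x hx
    rw [e] at hx
    simp only [Finset.mem_insert, Finset.mem_singleton] at hx
    rcases hx with rfl | rfl | rfl | rfl
    · exact ⟨0, rfl⟩
    · exact ⟨1, rfl⟩
    · exact ⟨2, rfl⟩
    · exact ⟨3, rfl⟩
  · intro i j hij
    fin_cases i <;> fin_cases j <;>
      first
      | exact absurd hij (by decide)
      | exact Aab
      | exact Aba
      | exact Abc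
      | exact Acb
      | exact Acd
      | exact Adc
  · intro i j hij h1 h2
    fin_cases i <;> fin_cases j <;>
      first
      | exact absurd hij (by decide)
      | exact b01 h1 h2
      | exact b02 h1 h2
      | exact b03 h1 h2
      | exact b12 h1 h2
      | exact b13 h1 h2
      | exact b23 h1 h2
  · intro i j hij h1 h2
    fin_cases i <;> fin_cases j <;>
      first
      | exact absurd rfl hij
      | exact t8_ge5 _ _
      | exact t21
      | exact t12
  · intro I _
    revert I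
    decide

end CoxData

end MP345
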