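import Mathlib
import Pool.Agent.Work.MP_345ef2_gt_24.T_Lib

/-!
# T level: neighbours of `LM T = [5,3,3,z]` (helper29)
-/

namespace MP345

open Finset

variable {n : ℕ}

namespace CoxData

variable {D : CoxData n}

/-- the chain `m - e =4= d - c - b` is not a minimal set -/
theorem no_F4t_lan {A : Finset D.ι} {b c d e m : D.ι} (hcls : D.StmtCLS) (hA : D.Lan A)
    (hAe : A = {b, c, d, e, m}) (hnd : [b, c, d, e, m].Nodup)
    (vbc : D.g b c = -(1 / 2)) (vcd : D.g c d = -(1 / 2)) (vde : D.g d e = -(√2 / 2))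
    (vem : D.g e m = -(1 / 2)) (vbd : D.g b d = 0) (vbe : D.g b e = 0) (vbm : D.g b m = 0)
    (vce : D.g c e = 0) (vcm : D.g c m = 0) (vdm : D.g d m = 0) : False := by
  classical
  have h5 := c5_gt
  have h2 := s2_lt
  have h2' := s2_gt
  have hcard : A.card = 5 := by
    rw [hAe]
    simp only [List.nodup_cons, List.mem_cons, List.not_mem_nil, or_false, not_or,
      List.nodup_nil, and_true] at hnd
    obtain ⟨⟨h1, h2, h3, h4⟩, ⟨h5, h6, h7⟩, ⟨h8, h9⟩, h10, -⟩ := hnd
    rw [Finset.card_insert_of_notMem (by simp [h1, h2, h3, h4]),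
      Finset.card_insert_of_notMem (by simp [h5, h6, h7]),
      Finset.card_insert_of_notMem (by simp [h8, h9]), Finset.card_pair h10]
  have hent : ∀ x ∈ A, ∀ y ∈ A, D.g x y ≠ -c5 := by
    intro x hx y hy hxy
    rw [hAe] at hx hy
    simp only [Finset.mem_insert, Finset.mem_singleton] at hx hy
    rcases hx with rfl | rfl | rfl | rfl | rfl <;> rcases hy with rfl | rfl | rfl | rfl | rfl <;>
      first
      | (rw [D.self] at hxy; linarith)
      | (rw [vbc] at hxy; linarith) | (rw [vcd] at hxy; linarith) | (rw [vde] at hxy; linarith)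
      | (rw [vem] at hxy; linarith) | (rw [vbd] at hxy; linarith) | (rw [vbe] at hxy; linarith)
      | (rw [vbm] at hxy; linarith) | (rw [vce] at hxy; linarith) | (rw [vcm] at hxy; linarith)
      | (rw [vdm] at hxy; linarith)
      | (rw [D.symm, vbc] at hxy; linarith) | (rw [D.symm, vcd] at hxy; linarith)
      | (rw [D.symm, vde] at hxy; linarith)
      | (rw [D.symm, vem] at hxy; linarith) | (rw [D.symm, vbd] at hxy; linarith)
      | (rw [D.symm, vbe] at hxy; linarith)
      | (rw [D.symm, vbm] at hxy; linarith) | (rw [D.symm, vce] at hxy; linarith)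
      | (rw [D.symm, vcm] at hxy; linarith)
      | (rw [D.symm, vdm] at hxy; linarith)
  have hb : ∀ x ∈ A, D.Adj b x → x = c := by
    intro x hx h
    rw [hAe] at hx
    simp only [Finset.mem_insert, Finset.mem_singleton] at hx
    rcases hx with rfl | rfl | rfl | rfl | rfl
    · exact absurd rfl h.1
    · rfl
    · exact absurd vbd h.2
    · exact absurd vbe h.2
    · exact absurd vbm h.2
  have hbA : b ∈ A := by rw [hAe]; simp
  have c4 : ∀ {x y z w : D.ι}, ({x, y, z, w} : Finset D.ι).card ≤ 4 := fun {x y z w} =>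
    Finset.card_le_four
  rcases hcls A hA with h | ⟨x, y, z, w, h⟩ | ⟨x, y, z, w, h⟩ | ⟨x, y, z, w, h⟩ |
    ⟨x, y, z, w, h⟩ | ⟨x, y, z, w, h⟩ | ⟨x, y, z, w, v, h⟩ | ⟨x, y, z, w, v, r, hr, h⟩ |
    ⟨x, y, z, w, v, h⟩
  · omega
  · have := c4 (x := x) (y := y) (z := z) (w := w); rw [← h.eq] at this; omega
  · have := c4 (x := x) (y := y) (z := z) (w := w); rw [← h.eq] at this; omega
  · have := c4 (x := x) (y := y) (z := z) (w := w); rw [← h.eq] at this; omega
  · have := c4 (x := x) (y := y) (z := z) (w := w); rw [← h.eq] at this; omega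
  · have := c4 (x := x) (y := y) (z := z) (w := w); rw [← h.eq] at this; omega
  · exact hent x (by rw [h.eq]; simp) y (by rw [h.eq]; simp) h.vuv
  · exact hent x (by rw [h.eq]; simp) y (by rw [h.eq]; simp) h.vab
  · have hb' := hbA
    rw [h.eq] at hb'
    simp only [Finset.mem_insert, Finset.mem_singleton] at hb'
    rcases hb' with rfl | rfl | rfl | rfl | rfl
    · exact h.be ((hb _ h.mb h.Aab).trans (hb _ h.me h.Aae).symm)
    · exact h.ac ((hb _ h.ma h.Aba).trans (hb _ h.mc h.Abc).symm)
    · exact h.bd ((hb _ h.mb h.Acb).trans (hb _ h.md h.Acd).symm)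
    · exact h.ce ((hb _ h.mc h.Adc).trans (hb _ h.me h.Ade).symm)
    · exact h.ad ((hb _ h.ma h.Aea).trans (hb _ h.md h.Aed).symm)

theorem stmtNB (D : CoxData n) (hclf : D.StmtCLF) (hclt : D.StmtCLT) (hcls : D.StmtCLS)
    (hctx : D.StmtCTX) : D.StmtNB := by
  classical
  intro T hT a b c d e z hz hp m hm hmL
  have hz0 : 0 < z := by
    rcases hz with rfl | rfl | rfl
    · norm_num
    · exact s2_pos
    · exact c5_pos
  have hc4 : D.cls (D.LM T) = 4 := hclf.2.2.1 _ _ _ _ _ _ _ hz0 hp
  obtain ⟨_, _, _, k4, k5⟩ := hclt T hT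
  have k4 := k4 (by omega)
  have k5 := k5 (by omega)
  have hsub := (hctx T hT).2.2.1
  have ma := hsub hp.ma
  have mb := hsub hp.mb
  have mc := hsub hp.mc
  have md := hsub hp.md
  have me := hsub hp.me
  have na : m ≠ a := fun h => hmL (h ▸ hp.ma)
  have nb : m ≠ b := fun h => hmL (h ▸ hp.mb)
  have nc : m ≠ c := fun h => hmL (h ▸ hp.mc)
  have nd : m ≠ d := fun h => hmL (h ▸ hp.md)
  have ne : m ≠ e := fun h => hmL (h ▸ hp.me)
  have PD4 : ∀ x y z w : D.ι, x ∈ T → y ∈ T → z ∈ T → w ∈ T →
      PD D.g ({x, y, z, w} : Finset D.ι) := by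
    intro x y z w hx hy hz hw
    refine k4 _ ?_ Finset.card_le_four
    intro v hv
    simp only [Finset.mem_insert, Finset.mem_singleton] at hv
    rcases hv with rfl | rfl | rfl | rfl <;> assumption
  have Aab : D.Adj a b := hp.Aab c5_pos
  have Abc : D.Adj b c := hp.Abc (by norm_num)
  have Acd : D.Adj c d := hp.Acd (by norm_num)
  have Ade : D.Adj d e := hp.Ade hz0
  have h1 : ¬ D.Adj m a := fun h =>
    no_353 (PD4 m a b c hm ma mb mc) (s := m) (q := a) (p := b) (r := c) (by simp) (by simp)
      (by simp) (by simp) h hp.vab.le hp.ab.symm Abc nb nc hp.ac.symm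
  have h2 : ¬ D.Adj m b := fun h =>
    no_heavy3 (PD4 m a b c hm ma mb mc) (p := b) (q := a) (r := c) (s := m) (by simp) (by simp)
      (by simp) (by simp) hp.ac na.symm nc.symm (c5_heavy (by rw [D.symm]; exact hp.vab))
      hp.ab.symm Abc (h.symm D)
  have htri : ∀ x y : D.ι, x ∈ T → y ∈ T → D.Adj x y → ¬ (D.Adj m x ∧ D.Adj m y) := by
    rintro x y hx hy hxy ⟨hmx, hmy⟩
    exact no_tri (PD4 m x y y hm hx hy hy) (a := m) (b := x) (d := y) (by simp) (by simp)
      (by simp) hmx hxy hmy
  have h3 : ¬ D.Adj m c := by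
    intro h
    have hmd : ¬ D.Adj m d := fun h' => htri c d mc md Acd ⟨h, h'⟩
    have hmem : ∀ x ∈ ({a, b, c, d, m} : Finset D.ι), x ∈ T := by
      intro x hx
      simp only [Finset.mem_insert, Finset.mem_singleton] at hx
      rcases hx with rfl | rfl | rfl | rfl | rfl <;> assumption
    have hnpd : ¬ PD D.g ({a, b, c, d, m} : Finset D.ι) := by
      intro hpd
      refine core_test' hpd (U := {b, c}) ?_ ⟨b, by simp⟩ ?_
      · intro x hx
        rcases Finset.mem_insert.1 hx with rfl | hx
        · simp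
        · rw [Finset.mem_singleton] at hx
          subst hx
          simp
      · intro u hu
        simp only [Finset.mem_insert, Finset.mem_singleton] at hu
        right
        rcases hu with rfl | rfl
        · refine ⟨⟨c, by simp, Abc⟩, Or.inl ⟨a, by simp, ?_, c5_heavy (by rw [D.symm]; exact hp.vab)⟩⟩
          simp [hp.ab, hp.ac]
        · refine ⟨⟨b, by simp, Abc.symm D⟩, Or.inr ⟨d, by simp, m, by simp, ?_, ?_, nd.symm, Acd,
            h.symm D⟩⟩
          · simp [hp.bd.symm, hp.cd.symm]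
          · simp [nb, nc]
    obtain ⟨A, hA, hLan⟩ := D.exists_lan _ hnpd
    have hAT : A ⊆ T := fun x hx => hmem x (hA hx)
    have hAe : A = {a, b, c, d, m} := by
      by_contra hne
      have hlt := Finset.card_lt_card (Finset.ssubset_iff_subset_ne.2 ⟨hA, hne⟩)
      have h5 : ({a, b, c, d, m} : Finset D.ι).card ≤ 5 := Finset.card_le_five
      exact hLan.1 (k4 A hAT (by omega))
    have h6 := k5 A hAT hLan c (by rw [hAe]; simp)
    have h7 : ({b, d, m} : Finset D.ι) ⊆ D.nb A c := by
      intro x hx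
      rw [mem_nb, hAe]
      simp only [Finset.mem_insert, Finset.mem_singleton] at hx ⊢
      rcases hx with rfl | rfl | rfl
      · exact ⟨by simp, Abc.symm D⟩
      · exact ⟨by simp, Acd⟩
      · exact ⟨by simp, h.symm D⟩
    have h8 := Finset.card_le_card h7
    rw [Finset.card_eq_three.2 ⟨b, d, m, hp.bd, nb.symm, nd.symm, rfl⟩] at h8
    omega
  refine ⟨h1, h2, h3, ?_, htri d e md me Ade, ?_⟩
  · intro hz1
    have hz2 : z = √2 / 2 ∨ z = c5 := hz.resolve_left hz1
    have h4 : ¬ D.Adj m d := fun h =>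
      no_heavy3 (PD4 c d e m mc md me hm) (p := d) (q := e) (r := c) (s := m) (by simp) (by simp)
        (by simp) (by simp) hp.ce.symm ne.symm nc.symm (z_heavy hz2 hp.vde)
        hp.de (Acd.symm D) (h.symm D)
    refine ⟨h4, fun h => ?_⟩
    rcases hz2 with rfl | rfl
    · -- label 4
      have hem : D.g e m = -(1 / 2) := by
        rcases heavy_or_simple (h.symm D) with h' | h'
        · exact h'
        · exact (no_heavy2 (PD4 c d e m mc md me hm) (p := e) (q := d) (r := m) (by simp)
            (by simp) (by simp) nd.symm hp.de.symm ne.symm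
            (by rw [D.symm]; exact s2_heavy hp.vde) h').elim
      have hmem : ∀ x ∈ ({b, c, d, e, m} : Finset D.ι), x ∈ T := by
        intro x hx
        simp only [Finset.mem_insert, Finset.mem_singleton] at hx
        rcases hx with rfl | rfl | rfl | rfl | rfl <;> assumption
      have hnpd : ¬ PD D.g ({b, c, d, e, m} : Finset D.ι) := by
        intro hpd
        refine no_F4t hpd (s := m) (q := e) (p := d) (r := c) (t := b) (by simp) (by simp)
          (by simp) (by simp) (by simp) h ?_ (Acd.symm D) (Abc.symm D) ?_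
        · rw [D.symm, hp.vde]
        · simp [ne, nd, nc, nb, hp.de.symm, hp.ce.symm, hp.be.symm, hp.cd.symm, hp.bd.symm,
            hp.bc.symm]
      obtain ⟨A, hA, hLan⟩ := D.exists_lan _ hnpd
      have hAT : A ⊆ T := fun x hx => hmem x (hA hx)
      have hAe : A = {b, c, d, e, m} := by
        by_contra hne
        have hlt := Finset.card_lt_card (Finset.ssubset_iff_subset_ne.2 ⟨hA, hne⟩)
        have h5 : ({b, c, d, e, m} : Finset D.ι).card ≤ 5 := Finset.card_le_five
        exact hLan.1 (k4 A hAT (by omega))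
      refine no_F4t_lan hcls hLan hAe ?_ hp.vbc hp.vcd hp.vde hem hp.vbd hp.vbe ?_ hp.vce ?_ ?_
      · simp [ne.symm, nd.symm, nc.symm, nb.symm, hp.de, hp.ce, hp.be, hp.cd, hp.bd,
            hp.bc]
      · exact D.g_eq_zero nb.symm fun h' => h2 (h'.symm D)
      · exact D.g_eq_zero nc.symm fun h' => h3 (h'.symm D)
      · exact D.g_eq_zero nd.symm fun h' => h4 (h'.symm D)
    · exact no_353 (PD4 c d e m mc md me hm) (s := c) (q := d) (p := e) (r := m) (by simp)
        (by simp) (by simp) (by simp) Acd hp.vde.le hp.de.symm (h.symm D) hp.ce nc.symm nd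
  · intro h
    rcases heavy_or_simple h with h' | h'
    · exact h'
    · exact (no_heavy3 (PD4 c d e m mc md me hm) (p := d) (q := m) (r := c) (s := e) (by simp)
        (by simp) (by simp) (by simp) nc ne hp.ce (by rw [D.symm]; exact h')
        nd.symm (Acd.symm D) Ade).elim

end CoxData

end MP345
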