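import Mathlib
import Pool.Agent.Work.MP_345ef2_gt_24.T_Lib
import Pool.Agent.Work.MP_345ef2_gt_24.DI

/-!
# T level: `R(T)` for `LM T = [5,3,3,3]` (helper29)
-/

namespace MP345

open Finset

variable {n : ℕ}

namespace CoxData

variable {D : CoxData n}

/-- a Lannér set that meets a small closed set is impossible -/
theorem no_closed (hlcon : D.StmtLCON) {T A C : Finset D.ι} {y : D.ι}
    (hA : D.Lan A) (hAT : A ⊆ T) (hy : y ∈ A) (hyC : y ∈ C)
    (hC : ∀ x ∈ C, ∀ w ∈ A, D.Adj x w → w ∈ C) (h4 : ∀ B ⊆ T, B.card ≤ 4 → PD D.g B)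
    (hCc : C.card ≤ 4) : False := by
  classical
  by_cases hne : A ∩ C = A
  · have hsub : A ⊆ C := by rw [← hne]; exact Finset.inter_subset_right
    exact hA.1 (h4 A hAT ((Finset.card_le_card hsub).trans hCc))
  · obtain ⟨x, hx, w, hw, hwn, hxw⟩ := hlcon A (A ∩ C) hA Finset.inter_subset_left
      ⟨y, Finset.mem_inter.2 ⟨hy, hyC⟩⟩ hne
    exact hwn (Finset.mem_inter.2 ⟨hw, hC x (Finset.mem_inter.1 hx).2 w hw hxw⟩)

theorem stmtR5 (D : CoxData n) (hctx : D.StmtCTX) (hclf : D.StmtCLF) (hclt : D.StmtCLT)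
    (hnb : D.StmtNB) (hlcon : D.StmtLCON) : D.StmtR5 := by
  classical
  intro T hT a b c d e hp
  obtain ⟨-, x2, x3, x4, x5, x6, x7⟩ := hctx T hT
  have hc4 : D.cls (D.LM T) = 4 := hclf.2.2.1 _ _ _ _ _ _ _ (by norm_num) hp
  obtain ⟨_, _, _, k4, _⟩ := hclt T hT
  have k4 := k4 (by omega)
  have hNB := hnb T hT a b c d e (1 / 2) (Or.inl rfl) hp
  have memL : ∀ x ∈ D.LM T, x = a ∨ x = b ∨ x = c ∨ x = d ∨ x = e := by
    intro x hx
    rw [hp.eq] at hx
    simpa using hx
  have nbA : ∀ w ∈ T, D.Adj a w → w = b := by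
    intro w hw h
    by_cases hwL : w ∈ D.LM T
    · rcases memL w hwL with rfl | rfl | rfl | rfl | rfl
      · exact absurd rfl h.1
      · rfl
      · exact absurd h hp.Nac
      · exact absurd h hp.Nad
      · exact absurd h hp.Nae
    · exact absurd (h.symm D) (hNB w hw hwL).1
  have nbB : ∀ w ∈ T, D.Adj b w → w = a ∨ w = c := by
    intro w hw h
    by_cases hwL : w ∈ D.LM T
    · rcases memL w hwL with rfl | rfl | rfl | rfl | rfl
      · exact Or.inl rfl
      · exact absurd rfl h.1
      · exact Or.inr rfl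
      · exact absurd h hp.Nbd
      · exact absurd h hp.Nbe
    · exact absurd (h.symm D) (hNB w hw hwL).2.1
  have nbC : ∀ w ∈ T, D.Adj c w → w = b ∨ w = d := by
    intro w hw h
    by_cases hwL : w ∈ D.LM T
    · rcases memL w hwL with rfl | rfl | rfl | rfl | rfl
      · exact absurd h hp.Nca
      · exact Or.inl rfl
      · exact absurd rfl h.1
      · exact Or.inr rfl
      · exact absurd h hp.Nce
    · exact absurd (h.symm D) (hNB w hw hwL).2.2.1
  -- a Lannér set avoiding `x`
  have key : ∀ x ∈ D.LM T, x ∉ Rset D.g T → ∃ A, A ⊆ T ∧ x ∉ A ∧ D.Lan A ∧ Rset D.g T ⊆ A := by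
    intro x hx hxR
    obtain ⟨A, hA, hLan⟩ := x6 x (x3 hx) hxR
    have hAT : A ⊆ T := hA.trans (Finset.erase_subset _ _)
    exact ⟨A, hAT, fun h => (Finset.mem_erase.1 (hA h)).1 rfl, hLan, (x7 A hAT hLan).1⟩
  refine ⟨fun ha => ?_, fun hb => ?_, fun hc => ?_, ?_, ?_⟩
  · by_contra hb
    obtain ⟨A, hAT, hbA, hLan, hR⟩ := key b hp.mb hb
    refine no_closed hlcon hLan hAT (hR ha) (C := {a}) (by simp) ?_ k4 (by simp)
    intro x hx w hw hxw
    rw [Finset.mem_singleton] at hx
    subst hx
    have := nbA w (hAT hw) hxw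
    subst this
    exact absurd hw hbA
  · by_contra hc
    obtain ⟨A, hAT, hcA, hLan, hR⟩ := key c hp.mc hc
    refine no_closed hlcon hLan hAT (hR hb) (C := {a, b}) (by simp) ?_ k4
      (Finset.card_le_two.trans (by norm_num))
    intro x hx w hw hxw
    simp only [Finset.mem_insert, Finset.mem_singleton] at hx
    rcases hx with rfl | rfl
    · rw [nbA w (hAT hw) hxw]; simp
    · rcases nbB w (hAT hw) hxw with h | h
      · rw [h]; simp
      · exact absurd (h ▸ hw) hcA
  · by_contra hd
    obtain ⟨A, hAT, hdA, hLan, hR⟩ := key d hp.md hd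
    refine no_closed hlcon hLan hAT (hR hc) (C := {a, b, c}) (by simp) ?_ k4
      (Finset.card_le_three.trans (by norm_num))
    intro x hx w hw hxw
    simp only [Finset.mem_insert, Finset.mem_singleton] at hx
    rcases hx with rfl | rfl | rfl
    · rw [nbA w (hAT hw) hxw]; simp
    · rcases nbB w (hAT hw) hxw with h | h
      · rw [h]; simp
      · rw [h]; simp
    · rcases nbC w (hAT hw) hxw with h | h
      · rw [h]; simp
      · exact absurd (h ▸ hw) hdA
  · intro m hm hmL hmd heR
    have na : m ≠ a := fun h => hmL (h ▸ hp.ma)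
    have nb : m ≠ b := fun h => hmL (h ▸ hp.mb)
    have nc : m ≠ c := fun h => hmL (h ▸ hp.mc)
    have nd : m ≠ d := fun h => hmL (h ▸ hp.md)
    have ne : m ≠ e := fun h => hmL (h ▸ hp.me)
    have hnpd : ¬ PD D.g ({a, b, c, d, m} : Finset D.ι) := by
      intro hpd
      exact no_5333 hpd (q := a) (p := b) (r := c) (t := d) (u := m) (by simp) (by simp)
        (by simp) (by simp) (by simp) hp.vab.le (hp.Abc (by norm_num)) (hp.Acd (by norm_num))
        (hmd.symm D) (by simp [hp.ab, hp.ac, hp.ad, hp.bc, hp.bd, hp.cd, na.symm, nb.symm,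
          nc.symm, nd.symm])
    obtain ⟨A, hA, hLan⟩ := D.exists_lan _ hnpd
    have hAT : A ⊆ T := by
      intro x hx
      have := hA hx
      simp only [Finset.mem_insert, Finset.mem_singleton] at this
      rcases this with rfl | rfl | rfl | rfl | rfl
      · exact x3 hp.ma
      · exact x3 hp.mb
      · exact x3 hp.mc
      · exact x3 hp.md
      · exact hm
    have := hA ((x7 A hAT hLan).1 heR)
    simp only [Finset.mem_insert, Finset.mem_singleton] at this
    rcases this with h | h | h | h | h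
    · exact hp.ae h.symm
    · exact hp.be h.symm
    · exact hp.ce h.symm
    · exact hp.de h.symm
    · exact ne h.symm
  · intro hc he
    by_contra hcon
    push Not at hcon
    obtain ⟨A, hAT, heA, hLan, hR⟩ := key e hp.me he
    refine no_closed hlcon hLan hAT (hR hc) (C := {a, b, c, d}) (by simp) ?_ k4
      Finset.card_le_four
    intro x hx w hw hxw
    simp only [Finset.mem_insert, Finset.mem_singleton] at hx
    rcases hx with rfl | rfl | rfl | rfl
    · rw [nbA w (hAT hw) hxw]; simp
    · rcases nbB w (hAT hw) hxw with h | h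
      · rw [h]; simp
      · rw [h]; simp
    · rcases nbC w (hAT hw) hxw with h | h
      · rw [h]; simp
      · rw [h]; simp
    · by_cases hwL : w ∈ D.LM T
      · rcases memL w hwL with h | h | h | h | h
        · rw [h]; simp
        · rw [h]; simp
        · rw [h]; simp
        · rw [h]; simp
        · exact absurd (h ▸ hw) heA
      · exact absurd (hxw.symm D) (hcon w (hAT hw) hwL)

end CoxData

end MP345
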