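import Mathlib
import Pool.Agent.Work.MP_345ef2_gt_24.T_TB
import Pool.Agent.Work.MP_345ef2_gt_24.T_GDEC

/-!
# Summation for `L` of order five
-/

namespace MP345

open Finset

variable {n : ℕ}

namespace CoxData

variable (D : CoxData n)

theorem inj5_h {α : Type*} {a b c d e : α} (h : [a, b, c, d, e].Nodup) :
    Function.Injective ![a, b, c, d, e] := by
  rw [← List.nodup_ofFn]; simpa using h

/-- all pairs `i < j` of `Fin 5` -/
theorem lt5_cases {P : Fin 5 → Fin 5 → Prop} (h01 : P 0 1) (h02 : P 0 2) (h03 : P 0 3)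
    (h04 : P 0 4) (h12 : P 1 2) (h13 : P 1 3) (h14 : P 1 4) (h23 : P 2 3) (h24 : P 2 4)
    (h34 : P 3 4) : ∀ i j, i < j → P i j := by
  intro i j hij
  fin_cases i <;> fin_cases j <;>
    first
    | exact absurd hij (by decide)
    | exact h01
    | exact h02
    | exact h03
    | exact h04
    | exact h12
    | exact h13
    | exact h14
    | exact h23
    | exact h24
    | exact h34

/-- all ordered pairs `i ≠ j` of `Fin 5` -/
theorem ne5_cases {P : Fin 5 → Fin 5 → Prop} (h : ∀ i j, i < j → P i j)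
    (h' : ∀ i j, i < j → P j i) : ∀ i j, i ≠ j → P i j := by
  intro i j hij
  rcases lt_or_gt_of_ne hij with h1 | h1
  · exact h i j h1
  · exact h' j i h1

/-- reduction of `TB` for `L` of order five -/
theorem tb5 {T : Finset D.ι} (hT : T ∈ Tsets D.g n) {a b c d e : D.ι}
    (hL : D.LM T = {a, b, c, d, e}) (hnd : [a, b, c, d, e].Nodup)
    (A : Fin 5 → Fin 5 → Bool) (β τ : Fin 5 → Fin 5 → ℕ)
    (hA : ∀ i j, A i j = true → D.Adj (![a, b, c, d, e] i) (![a, b, c, d, e] j))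
    (b01 : a ∈ Rset D.g T → b ∈ Rset D.g T → D.G T {a, b} ≤ β 0 1)
    (b02 : a ∈ Rset D.g T → c ∈ Rset D.g T → D.G T {a, c} ≤ β 0 2)
    (b03 : a ∈ Rset D.g T → d ∈ Rset D.g T → D.G T {a, d} ≤ β 0 3)
    (b04 : a ∈ Rset D.g T → e ∈ Rset D.g T → D.G T {a, e} ≤ β 0 4)
    (b12 : b ∈ Rset D.g T → c ∈ Rset D.g T → D.G T {b, c} ≤ β 1 2)
    (b13 : b ∈ Rset D.g T → d ∈ Rset D.g T → D.G T {b, d} ≤ β 1 3)
    (b14 : b ∈ Rset D.g T → e ∈ Rset D.g T → D.G T {b, e} ≤ β 1 4)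
    (b23 : c ∈ Rset D.g T → d ∈ Rset D.g T → D.G T {c, d} ≤ β 2 3)
    (b24 : c ∈ Rset D.g T → e ∈ Rset D.g T → D.G T {c, e} ≤ β 2 4)
    (b34 : d ∈ Rset D.g T → e ∈ Rset D.g T → D.G T {d, e} ≤ β 3 4)
    (hτ : ∀ i j, i ≠ j → ![a, b, c, d, e] i ∈ Rset D.g T → ![a, b, c, d, e] j ∈ Rset D.g T →
      τ i j ≤ D.t8 (T.erase (![a, b, c, d, e] i)) (![a, b, c, d, e] j))
    (C : Finset (Fin 5) → Prop)
    (hC : ∀ I : Finset (Fin 5), (∀ i, i ∈ I ↔ ![a, b, c, d, e] i ∈ Rset D.g T) → C I)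
    (hnum : ∀ I : Finset (Fin 5), C I →
      2 * (∑ a ∈ I, ∑ b ∈ I, if a < b then β a b else 0) +
      8 * (∑ a ∈ I, ∑ b ∈ I, ∑ c ∈ I, if a < b ∧ b < c then
      2 - (A a b).toNat - (A a c).toNat - (A b c).toNat else 0) ≤
      ∑ r ∈ I, ∑ b ∈ I, (if r ≠ b then τ r b else 0)) : D.TB T := by
  refine D.tb_of hT ![a, b, c, d, e] (inj5_h hnd) ?_ A β τ hA ?_ hτ C hC hnum
  · intro x hx
    rw [hL] at hx
    simp only [Finset.mem_insert, Finset.mem_singleton] at hx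
    rcases hx with rfl | rfl | rfl | rfl | rfl
    · exact ⟨0, rfl⟩
    · exact ⟨1, rfl⟩
    · exact ⟨2, rfl⟩
    · exact ⟨3, rfl⟩
    · exact ⟨4, rfl⟩
  · exact lt5_cases b01 b02 b03 b04 b12 b13 b14 b23 b24 b34

/-- the sum over `N0` -/
theorem N0_sum5 {T : Finset D.ι} {a b c d e : D.ι}
    (hL : D.LM T = {a, b, c, d, e}) (hnd : [a, b, c, d, e].Nodup)
    (P : Finset D.ι) (fa fb fc fd fe : ℕ)
    (ha : a ∉ P → D.NA a P → a ∉ Rset D.g T → q4 (D.cnt T a P) ≤ fa)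
    (hb : b ∉ P → D.NA b P → b ∉ Rset D.g T → q4 (D.cnt T b P) ≤ fb)
    (hc : c ∉ P → D.NA c P → c ∉ Rset D.g T → q4 (D.cnt T c P) ≤ fc)
    (hd : d ∉ P → D.NA d P → d ∉ Rset D.g T → q4 (D.cnt T d P) ≤ fd)
    (he : e ∉ P → D.NA e P → e ∉ Rset D.g T → q4 (D.cnt T e P) ≤ fe)
    (hPR : ∀ p ∈ P, p ∈ Rset D.g T) :
    ∑ x ∈ D.N0 T (D.LM T) P, q4 (D.cnt T x P) ≤ fa + fb + fc + fd + fe := by
  classical
  simp only [List.nodup_cons, List.mem_cons, List.not_mem_nil, or_false, not_or,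
    List.nodup_nil, and_true, not_false_eq_true] at hnd
  obtain ⟨⟨n1, n2, n3, n4⟩, ⟨n5, n6, n7⟩, ⟨n8, n9⟩, n10⟩ := hnd
  have h1 : ∑ x ∈ D.N0 T (D.LM T) P, q4 (D.cnt T x P) =
      ∑ x ∈ D.LM T, if x ∉ Rset D.g T ∧ D.NA x P then q4 (D.cnt T x P) else 0 := by
    rw [← Finset.sum_filter]
    refine Finset.sum_congr ?_ fun _ _ => rfl
    ext x
    rw [TP.mem_N0, Finset.mem_filter]
    tauto
  have e1 : a ∉ ({b, c, d, e} : Finset D.ι) := by simp [n1, n2, n3, n4]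
  have e2 : b ∉ ({c, d, e} : Finset D.ι) := by simp [n5, n6, n7]
  have e3 : c ∉ ({d, e} : Finset D.ι) := by simp [n8, n9]
  have e4 : d ∉ ({e} : Finset D.ι) := by simp [n10]
  rw [h1, hL, Finset.sum_insert e1, Finset.sum_insert e2, Finset.sum_insert e3,
    Finset.sum_insert e4, Finset.sum_singleton]
  have key : ∀ (x : D.ι) (f : ℕ), (x ∉ P → D.NA x P → x ∉ Rset D.g T →
      q4 (D.cnt T x P) ≤ f) →
      (if x ∉ Rset D.g T ∧ D.NA x P then q4 (D.cnt T x P) else 0) ≤ f := by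
    intro x f hx
    split_ifs with h
    · exact hx (fun hxP => h.1 (hPR x hxP)) h.2 h.1
    · exact Nat.zero_le _
  have := key a fa ha
  have := key b fb hb
  have := key c fc hc
  have := key d fd hd
  have := key e fe he
  omega

end CoxData

end MP345
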