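import Mathlib
import Pool.Agent.Work.MP_345ef2_gt_24.T_TB5
import Pool.Agent.Work.MP_345ef2_gt_24.T_GDEC
import Pool.Agent.Work.MP_345ef2_gt_24.T_CLF
import Pool.Agent.Work.MP_345ef2_gt_24.T_NB
import Pool.Agent.Work.MP_345ef2_gt_24.T_R5

/-!
# T level, type `[5,3,3,3]` (n ≤ 24)
-/

namespace MP345

open Finset

variable {n : ℕ}

namespace CoxData

variable {D : CoxData n}

/-! ### forbidden shapes -/

/-- four neighbours -/
theorem four_nb {S : Finset D.ι} (hS : PD D.g S) {v a b c d : D.ι} (hv : v ∈ S) (ha : a ∈ S)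
    (hb : b ∈ S) (hc : c ∈ S) (hd : d ∈ S) (h1 : D.Adj v a) (h2 : D.Adj v b) (h3 : D.Adj v c)
    (h4 : D.Adj v d) (hab : a ≠ b) (hac : a ≠ c) (had : a ≠ d) (hbc : b ≠ c) (hbd : b ≠ d)
    (hcd : c ≠ d) : False := by
  classical
  have := D.sq_sum_lt hS hv (N := {a, b, c, d}) (by
    intro r hr; simp only [Finset.mem_insert, Finset.mem_singleton] at hr
    rcases hr with rfl | rfl | rfl | rfl <;> assumption) (by simp [h1.ne, h2.ne, h3.ne, h4.ne])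
  rw [Finset.sum_insert (by simp [hab, hac, had]), Finset.sum_insert (by simp [hbc, hbd]),
    Finset.sum_pair hcd] at this
  have := h1.sq_ge D
  have := h2.sq_ge D
  have := h3.sq_ge D
  have := h4.sq_ge D
  linarith

/-- two adjacent branch nodes -/
theorem br1 {S : Finset D.ι} (hS : PD D.g S) {p x q q' r r' : D.ι} (hp : p ∈ S) (hx : x ∈ S)
    (hq : q ∈ S) (hq' : q' ∈ S) (hr : r ∈ S) (hr' : r' ∈ S) (px : D.Adj p x) (pq : D.Adj p q)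
    (pq' : D.Adj p q') (xr : D.Adj x r) (xr' : D.Adj x r') (hqq : q ≠ q') (hrr : r ≠ r')
    (n1 : q ≠ x) (n2 : q' ≠ x) (n3 : r ≠ p) (n4 : r' ≠ p) : False := by
  refine no_sp2 hS hp hx px (Or.inr ⟨q, hq, q', hq', ?_, ?_, hqq, pq, pq'⟩)
    (Or.inr ⟨r, hr, r', hr', ?_, ?_, hrr, xr, xr'⟩)
  · simp [pq.1.symm, n1]
  · simp [pq'.1.symm, n2]
  · simp [xr.1.symm, n3]
  · simp [xr'.1.symm, n4]

/-- two branch nodes at distance two -/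
theorem br2 {S : Finset D.ι} (hS : PD D.g S) {p y x q q' r r' : D.ι} (hp : p ∈ S) (hy : y ∈ S)
    (hx : x ∈ S) (hq : q ∈ S) (hq' : q' ∈ S) (hr : r ∈ S) (hr' : r' ∈ S) (py : D.Adj p y)
    (yx : D.Adj y x) (hpx : p ≠ x) (pq : D.Adj p q) (pq' : D.Adj p q') (xr : D.Adj x r)
    (xr' : D.Adj x r') (hqq : q ≠ q') (hrr : r ≠ r') (n1 : q ≠ y ∧ q ≠ x) (n2 : q' ≠ y ∧ q' ≠ x)
    (n3 : r ≠ p ∧ r ≠ y) (n4 : r' ≠ p ∧ r' ≠ y) : False := by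
  classical
  refine core_test' hS (U := {p, y, x}) ?_ ⟨p, by simp⟩ ?_
  · intro z hz; simp only [Finset.mem_insert, Finset.mem_singleton] at hz
    rcases hz with rfl | rfl | rfl <;> assumption
  · intro z hz; simp only [Finset.mem_insert, Finset.mem_singleton] at hz
    rcases hz with rfl | rfl | rfl
    · right
      refine ⟨⟨y, by simp, py⟩, Or.inr ⟨q, hq, q', hq', ?_, ?_, hqq, pq, pq'⟩⟩
      · simp [pq.1.symm, n1.1, n1.2]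
      · simp [pq'.1.symm, n2.1, n2.2]
    · left; exact ⟨p, by simp, x, by simp, hpx, py.symm D, yx⟩
    · right
      refine ⟨⟨y, by simp, yx.symm D⟩, Or.inr ⟨r, hr, r', hr', ?_, ?_, hrr, xr, xr'⟩⟩
      · simp [xr.1.symm, n3.1, n3.2]
      · simp [xr'.1.symm, n4.1, n4.2]

/-- two branch nodes at distance three -/
theorem br3 {S : Finset D.ι} (hS : PD D.g S) {p y z x q q' r r' : D.ι} (hp : p ∈ S) (hy : y ∈ S)
    (hz : z ∈ S) (hx : x ∈ S) (hq : q ∈ S) (hq' : q' ∈ S) (hr : r ∈ S) (hr' : r' ∈ S)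
    (py : D.Adj p y) (yz : D.Adj y z) (zx : D.Adj z x) (hpz : p ≠ z) (hyx : y ≠ x)
    (pq : D.Adj p q) (pq' : D.Adj p q') (xr : D.Adj x r)
    (xr' : D.Adj x r') (hqq : q ≠ q') (hrr : r ≠ r') (n1 : q ≠ y ∧ q ≠ z ∧ q ≠ x)
    (n2 : q' ≠ y ∧ q' ≠ z ∧ q' ≠ x)
    (n3 : r ≠ p ∧ r ≠ y ∧ r ≠ z) (n4 : r' ≠ p ∧ r' ≠ y ∧ r' ≠ z) : False := by
  classical
  refine core_test' hS (U := {p, y, z, x}) ?_ ⟨p, by simp⟩ ?_
  · intro w hw; simp only [Finset.mem_insert, Finset.mem_singleton] at hw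
    rcases hw with rfl | rfl | rfl | rfl <;> assumption
  · intro w hw; simp only [Finset.mem_insert, Finset.mem_singleton] at hw
    rcases hw with rfl | rfl | rfl | rfl
    · right
      refine ⟨⟨y, by simp, py⟩, Or.inr ⟨q, hq, q', hq', ?_, ?_, hqq, pq, pq'⟩⟩
      · simp [pq.1.symm, n1.1, n1.2.1, n1.2.2]
      · simp [pq'.1.symm, n2.1, n2.2.1, n2.2.2]
    · left; exact ⟨p, by simp, z, by simp, hpz, py.symm D, yz⟩
    · left; exact ⟨y, by simp, x, by simp, hyx, yz.symm D, zx⟩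
    · right
      refine ⟨⟨z, by simp, zx.symm D⟩, Or.inr ⟨r, hr, r', hr', ?_, ?_, hrr, xr, xr'⟩⟩
      · simp [xr.1.symm, n3.1, n3.2.1, n3.2.2]
      · simp [xr'.1.symm, n4.1, n4.2.1, n4.2.2]

/-- `E6~` in list form -/
theorem no_E6 {S : Finset D.ι} (hS : PD D.g S) {p x x2 y y2 z z2 : D.ι} (hp : p ∈ S) (hx : x ∈ S)
    (hx2 : x2 ∈ S) (hy : y ∈ S) (hy2 : y2 ∈ S) (hz : z ∈ S) (hz2 : z2 ∈ S) (hpx : D.Adj p x)
    (hpy : D.Adj p y) (hpz : D.Adj p z) (hxx : D.Adj x x2) (hyy : D.Adj y y2) (hzz : D.Adj z z2)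
    (h1 : p ≠ x2) (h2 : p ≠ y2) (h3 : p ≠ z2) (h4 : x ≠ y) (h5 : x ≠ y2) (h6 : x ≠ z)
    (h7 : x ≠ z2) (h8 : x2 ≠ y) (h9 : x2 ≠ y2) (h10 : x2 ≠ z) (h11 : x2 ≠ z2) (h12 : y ≠ z)
    (h13 : y ≠ z2) (h14 : y2 ≠ z) (h15 : y2 ≠ z2) : False := by
  refine no_E6t hS hp hx hx2 hy hy2 hz hz2 hpx hpy hpz hxx hyy hzz ?_
  have := hpx.1; have := hpy.1; have := hpz.1; have := hxx.1; have := hyy.1; have := hzz.1
  simp only [List.nodup_cons, List.mem_cons, List.not_mem_nil, or_false, not_or,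
    List.nodup_nil, and_true, not_false_eq_true]
  tauto

/-- facts on `T` with `LM T = [5,3,3,3]` -/
structure K5 (D : CoxData n) (T : Finset D.ι) (a b c d e : D.ι) : Prop where
  hT : T ∈ Tsets D.g n
  p : D.Path5 a b c d e c5 (1 / 2) (1 / 2) (1 / 2) (D.LM T)
  c4 : D.cls (D.LM T) = 4
  sub : D.LM T ⊆ T
  Rsub : Rset D.g T ⊆ D.LM T
  pdR : ∀ x ∈ Rset D.g T, PD D.g (T.erase x)
  na : ∀ m ∈ T, m ∉ D.LM T → ¬ D.Adj m a
  nb : ∀ m ∈ T, m ∉ D.LM T → ¬ D.Adj m b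
  nc : ∀ m ∈ T, m ∉ D.LM T → ¬ D.Adj m c
  nde : ∀ m ∈ T, m ∉ D.LM T → ¬ (D.Adj m d ∧ D.Adj m e)

theorem not_five5 {x y : D.ι} (h : D.g x y = 0 ∨ D.g x y = -(1 / 2)) : ¬ D.Five {x, y} := by
  have h5 := c5_gt
  rintro ⟨s, hs, t, ht, hst⟩
  simp only [Finset.mem_insert, Finset.mem_singleton] at hs ht
  have hyx := D.symm y x
  rcases hs with rfl | rfl <;> rcases ht with rfl | rfl
  · rw [D.self] at hst; linarith
  · rcases h with h | h <;> rw [h] at hst <;> linarith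
  · rw [hyx] at hst
    rcases h with h | h <;> rw [h] at hst <;> linarith
  · rw [D.self] at hst; linarith

theorem mem_N3_5 {T L P : Finset D.ι} {x : D.ι} :
    x ∈ D.N3 T L P ↔ x ∈ T ∧ x ∉ L ∧ D.NA x P ∧ D.NA x L ∧ D.NA x (D.N1 T L P) ∧
      ∃ m ∈ D.N2 T L P, D.Adj x m := by
  classical
  simp [N3]

namespace K5

open TP

variable {T : Finset D.ι} {a b c d e : D.ι} (H : D.K5 T a b c d e)

include H

theorem memL {x : D.ι} (hx : x ∈ D.LM T) : x = a ∨ x = b ∨ x = c ∨ x = d ∨ x = e := by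
  rw [H.p.eq] at hx
  simpa using hx

theorem Aab : D.Adj a b := H.p.Aab c5_pos
theorem Aba : D.Adj b a := H.Aab.symm D
theorem Abc : D.Adj b c := H.p.Abc (by norm_num)
theorem Acb : D.Adj c b := H.Abc.symm D
theorem Acd : D.Adj c d := H.p.Acd (by norm_num)
theorem Adc : D.Adj d c := H.Acd.symm D
theorem Ade : D.Adj d e := H.p.Ade (by norm_num)
theorem Aed : D.Adj e d := H.Ade.symm D

theorem nodup : [a, b, c, d, e].Nodup := by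
  simp [H.p.ab, H.p.ac, H.p.ad, H.p.ae, H.p.bc, H.p.bd, H.p.be, H.p.cd, H.p.ce, H.p.de]

/-- a node outside `L` adjacent to `L` is adjacent to `d` or `e` -/
theorem contact {m s : D.ι} (hm : m ∈ T) (hmL : m ∉ D.LM T) (hs : s ∈ D.LM T) (h : D.Adj m s) :
    s = d ∨ s = e := by
  rcases H.memL hs with rfl | rfl | rfl | rfl | rfl
  · exact absurd h (H.na m hm hmL)
  · exact absurd h (H.nb m hm hmL)
  · exact absurd h (H.nc m hm hmL)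
  · exact Or.inl rfl
  · exact Or.inr rfl

theorem N1_sub {P : Finset D.ι} : D.N1 T (D.LM T) P ⊆ D.N1 T (D.LM T) {a, b} := by
  intro m hm
  obtain ⟨h1, h2, h3, h4⟩ := mem_N1.1 hm
  exact mem_N1.2 ⟨h1, h2, NA_pair.2 ⟨H.na m h1 h2, H.nb m h1 h2⟩, h4⟩

theorem N2_sub {P : Finset D.ι} : D.N2 T (D.LM T) P ⊆ D.N2 T (D.LM T) {a, b} := by
  intro x hx
  obtain ⟨h1, h2, h3, h4, m, hm, hxm⟩ := mem_N2.1 hx
  exact mem_N2.2 ⟨h1, h2, NA_pair.2 ⟨h4 a H.p.ma, h4 b H.p.mb⟩, h4, m, H.N1_sub hm, hxm⟩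

/-- elements of `N1` -/
theorem y1 {P : Finset D.ι} {m : D.ι} (hm : m ∈ D.N1 T (D.LM T) P) :
    m ∈ T ∧ m ∉ D.LM T ∧ (D.Adj m d ∨ D.Adj m e) ∧ D.NA m P := by
  obtain ⟨h1, h2, h3, s, hs, h4⟩ := mem_N1.1 hm
  refine ⟨h1, h2, ?_, h3⟩
  rcases H.contact h1 h2 hs h4 with rfl | rfl
  · exact Or.inl h4
  · exact Or.inr h4

/-- an outer node differs from the nodes of `L` -/
theorem ne_of {m z : D.ι} (hm : m ∉ D.LM T) (hz : z ∈ D.LM T) : z ≠ m := by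
  rintro rfl; exact hm hz

/-! ### no node adjacent to `d` -/

section path

variable (hD : ∀ m ∈ T, m ∉ D.LM T → ¬ D.Adj m d)

include hD

theorem y1e {P : Finset D.ι} {m : D.ι} (hm : m ∈ D.N1 T (D.LM T) P) :
    m ∈ T ∧ m ∉ D.LM T ∧ D.Adj m e := by
  obtain ⟨h1, h2, h3, -⟩ := H.y1 hm
  exact ⟨h1, h2, h3.resolve_left (hD m h1 h2)⟩

/-- `Y1` has at most two elements -/
theorem y1_le {r : D.ι} (hr : r ∈ Rset D.g T) (hrd : r ≠ d) (hre : r ≠ e) :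
    (D.N1 T (D.LM T) {a, b}).card ≤ 2 := by
  classical
  by_contra hlt
  push Not at hlt
  obtain ⟨m1, h1, m2, h2, m3, h3, n12, n13, n23⟩ := Finset.two_lt_card.1 hlt
  have hS := H.pdR r hr
  have hrL := H.Rsub hr
  obtain ⟨a1, a2, a3⟩ := H.y1e hD h1
  obtain ⟨b1, b2, b3⟩ := H.y1e hD h2
  obtain ⟨c1, c2, c3⟩ := H.y1e hD h3
  have inS : ∀ {z : D.ι}, z ∈ T → z ≠ r → z ∈ T.erase r := fun hz hne =>
    Finset.mem_erase.2 ⟨hne, hz⟩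
  exact four_nb hS (inS (H.sub H.p.me) hre.symm) (inS (H.sub H.p.md) hrd.symm)
    (inS a1 (H.ne_of a2 hrL).symm) (inS b1 (H.ne_of b2 hrL).symm) (inS c1 (H.ne_of c2 hrL).symm)
    H.Aed (a3.symm D) (b3.symm D) (c3.symm D) (H.ne_of a2 H.p.md) (H.ne_of b2 H.p.md)
    (H.ne_of c2 H.p.md) n12 n13 n23

/-- two elements of `Y2` adjacent to the same element of `Y1` -/
theorem same_m {r : D.ι} (hr : r ∈ Rset D.g T) (hrd : r ≠ d) (hre : r ≠ e) {m x x' : D.ι}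
    (hm : m ∈ D.N1 T (D.LM T) {a, b}) (hx : x ∈ D.N2 T (D.LM T) {a, b})
    (hx' : x' ∈ D.N2 T (D.LM T) {a, b}) (hxx : x ≠ x') (h1 : D.Adj x m) (h2 : D.Adj x' m) :
    ∀ m' ∈ D.N1 T (D.LM T) {a, b}, m' = m := by
  intro m' hm'
  by_contra hne
  have hS := H.pdR r hr
  have hrL := H.Rsub hr
  obtain ⟨a1, a2, a3⟩ := H.y1e hD hm
  obtain ⟨b1, b2, b3⟩ := H.y1e hD hm'
  obtain ⟨c1, c2, c3, c4, -⟩ := mem_N2.1 hx
  obtain ⟨e1, e2, e3, e4, -⟩ := mem_N2.1 hx'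
  have inS : ∀ {z : D.ι}, z ∈ T → z ≠ r → z ∈ T.erase r := fun hz hne =>
    Finset.mem_erase.2 ⟨hne, hz⟩
  exact br1 hS (p := e) (x := m) (q := d) (q' := m') (r := x) (r' := x')
    (inS (H.sub H.p.me) hre.symm) (inS a1 (H.ne_of a2 hrL).symm)
    (inS (H.sub H.p.md) hrd.symm) (inS b1 (H.ne_of b2 hrL).symm) (inS c1 (H.ne_of c2 hrL).symm)
    (inS e1 (H.ne_of e2 hrL).symm) (a3.symm D) H.Aed (b3.symm D) (h1.symm D) (h2.symm D)
    (H.ne_of b2 H.p.md) hxx (H.ne_of a2 H.p.md) hne (H.ne_of c2 H.p.me).symm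
    (H.ne_of e2 H.p.me).symm

/-- `Y2` has at most two elements -/
theorem y2_le {r : D.ι} (hr : r ∈ Rset D.g T) (hrd : r ≠ d) (hre : r ≠ e) :
    (D.N2 T (D.LM T) {a, b}).card ≤ 2 := by
  classical
  by_contra hlt
  push Not at hlt
  obtain ⟨x1, h1, x2, h2, x3, h3, n12, n13, n23⟩ := Finset.two_lt_card.1 hlt
  have hS := H.pdR r hr
  have hrL := H.Rsub hr
  obtain ⟨a1, a2, -, a4, m1, am, ax⟩ := mem_N2.1 h1
  obtain ⟨b1, b2, -, b4, m2, bm, bx⟩ := mem_N2.1 h2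
  obtain ⟨c1, c2, -, c4, m3, cm, cx⟩ := mem_N2.1 h3
  have inS : ∀ {z : D.ι}, z ∈ T → z ≠ r → z ∈ T.erase r := fun hz hne =>
    Finset.mem_erase.2 ⟨hne, hz⟩
  have key : ∀ m ∈ D.N1 T (D.LM T) {a, b}, (∀ m' ∈ D.N1 T (D.LM T) {a, b}, m' = m) → False := by
    intro m hm hall
    rw [hall m1 am] at ax
    rw [hall m2 bm] at bx
    rw [hall m3 cm] at cx
    obtain ⟨e1, e2, e3⟩ := H.y1e hD hm
    exact four_nb hS (inS e1 (H.ne_of e2 hrL).symm) (inS (H.sub H.p.me) hre.symm)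
      (inS a1 (H.ne_of a2 hrL).symm) (inS b1 (H.ne_of b2 hrL).symm)
      (inS c1 (H.ne_of c2 hrL).symm) e3 (ax.symm D) (bx.symm D) (cx.symm D)
      (H.ne_of a2 H.p.me) (H.ne_of b2 H.p.me) (H.ne_of c2 H.p.me) n12 n13 n23
  by_cases e12 : m1 = m2
  · exact key m1 am (H.same_m hD hr hrd hre am h1 h2 n12 ax (e12 ▸ bx))
  by_cases e13 : m1 = m3
  · exact key m1 am (H.same_m hD hr hrd hre am h1 h3 n13 ax (e13 ▸ cx))
  by_cases e23 : m2 = m3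
  · exact key m2 bm (H.same_m hD hr hrd hre bm h2 h3 n23 bx (e23 ▸ cx))
  have := H.y1_le hD hr hrd hre
  have h4 : 2 < (D.N1 T (D.LM T) {a, b}).card :=
    Finset.two_lt_card.2 ⟨m1, am, m2, bm, m3, cm, e12, e13, e23⟩
  omega

/-- different elements of `Y1` do not both continue -/
theorem diff_m {r : D.ι} (hr : r ∈ Rset D.g T) (hrc : r ≠ c) (hrd : r ≠ d) (hre : r ≠ e)
    {m m' x x' : D.ι} (hm : m ∈ D.N1 T (D.LM T) {a, b}) (hm' : m' ∈ D.N1 T (D.LM T) {a, b})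
    (hx : x ∈ D.N2 T (D.LM T) {a, b})
    (hx' : x' ∈ D.N2 T (D.LM T) {a, b}) (hmm : m ≠ m') (hxx : x ≠ x') (h1 : D.Adj x m)
    (h2 : D.Adj x' m') : False := by
  have hS := H.pdR r hr
  have hrL := H.Rsub hr
  obtain ⟨a1, a2, a3⟩ := H.y1e hD hm
  obtain ⟨b1, b2, b3⟩ := H.y1e hD hm'
  obtain ⟨c1, c2, c3, c4, -⟩ := mem_N2.1 hx
  obtain ⟨e1, e2, e3, e4, -⟩ := mem_N2.1 hx'
  have inS : ∀ {z : D.ι}, z ∈ T → z ≠ r → z ∈ T.erase r := fun hz hne =>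
    Finset.mem_erase.2 ⟨hne, hz⟩
  exact no_E6 hS (p := e) (x := d) (x2 := c) (y := m) (y2 := x) (z := m') (z2 := x')
    (inS (H.sub H.p.me) hre.symm) (inS (H.sub H.p.md) hrd.symm) (inS (H.sub H.p.mc) hrc.symm)
    (inS a1 (H.ne_of a2 hrL).symm) (inS c1 (H.ne_of c2 hrL).symm)
    (inS b1 (H.ne_of b2 hrL).symm) (inS e1 (H.ne_of e2 hrL).symm)
    H.Aed (a3.symm D) (b3.symm D) H.Adc (h1.symm D) (h2.symm D) H.p.ce.symm
    (H.ne_of c2 H.p.me) (H.ne_of e2 H.p.me) (H.ne_of a2 H.p.md) (H.ne_of c2 H.p.md)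
    (H.ne_of b2 H.p.md) (H.ne_of e2 H.p.md) (H.ne_of a2 H.p.mc) (H.ne_of c2 H.p.mc)
    (H.ne_of b2 H.p.mc) (H.ne_of e2 H.p.mc) hmm
    (by rintro rfl; exact e4 e H.p.me a3) (by rintro rfl; exact c4 e H.p.me b3) hxx

/-- not both `Y1` and `Y2` have two elements -/
theorem y12 {r : D.ι} (hr : r ∈ Rset D.g T) (hrc : r ≠ c) (hrd : r ≠ d) (hre : r ≠ e) :
    (D.N1 T (D.LM T) {a, b}).card + (D.N2 T (D.LM T) {a, b}).card ≤ 3 := by
  classical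
  have h1 := H.y1_le hD hr hrd hre
  have h2 := H.y2_le hD hr hrd hre
  by_contra hlt
  push Not at hlt
  obtain ⟨m, hm, m', hm', hmm⟩ := Finset.one_lt_card.1
    (show 1 < (D.N1 T (D.LM T) {a, b}).card by omega)
  obtain ⟨x, hx, x', hx', hxx⟩ := Finset.one_lt_card.1
    (show 1 < (D.N2 T (D.LM T) {a, b}).card by omega)
  obtain ⟨-, -, -, -, m1, am, ax⟩ := mem_N2.1 hx
  obtain ⟨-, -, -, -, m2, bm, bx⟩ := mem_N2.1 hx'
  by_cases e12 : m1 = m2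
  · have := H.same_m hD hr hrd hre am hx hx' hxx ax (e12 ▸ bx)
    exact hmm ((this m hm).trans (this m' hm').symm)
  · exact H.diff_m hD hr hrc hrd hre am bm hx hx' e12 hxx ax bx

/-- elements of `N3` -/
theorem y3 {y : D.ι} (hy : y ∈ D.N3 T (D.LM T) {a, b}) :
    y ∈ T ∧ y ∉ D.LM T ∧ D.NA y (D.LM T) ∧ (∀ m ∈ D.N1 T (D.LM T) {a, b}, y ≠ m ∧ ¬ D.Adj y m) ∧
      (∀ x ∈ D.N2 T (D.LM T) {a, b}, y ≠ x) ∧
      ∃ x ∈ D.N2 T (D.LM T) {a, b}, D.Adj y x := by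
  obtain ⟨h1, h2, h3, h4, h5, x, hx, h6⟩ := mem_N3_5.1 hy
  refine ⟨h1, h2, h4, fun m hm => ⟨?_, h5 m hm⟩, fun x hx => ?_, x, hx, h6⟩
  · rintro rfl
    exact h4 e H.p.me (H.y1e hD hm).2.2
  · rintro rfl
    obtain ⟨_, _, _, _, m, hm, hxm⟩ := mem_N2.1 hx
    exact h5 m hm hxm

/-- two elements of `N3` -/
theorem same_x (ha : a ∈ Rset D.g T) {x y y' : D.ι}
    (hx : x ∈ D.N2 T (D.LM T) {a, b}) (hy : y ∈ D.N3 T (D.LM T) {a, b})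
    (hy' : y' ∈ D.N3 T (D.LM T) {a, b}) (hyy : y ≠ y') (h1 : D.Adj y x) (h2 : D.Adj y' x) :
    (D.N1 T (D.LM T) {a, b}).card ≤ 1 ∧ ∀ x' ∈ D.N2 T (D.LM T) {a, b}, x' = x := by
  classical
  have hS := H.pdR a ha
  obtain ⟨c1, c2, c3, c4, m, hm, hxm⟩ := mem_N2.1 hx
  obtain ⟨a1, a2, a3⟩ := H.y1e hD hm
  obtain ⟨y1, y2, y3, y4, y5, -⟩ := H.y3 hD hy
  obtain ⟨z1, z2, z3, z4, z5, -⟩ := H.y3 hD hy'
  have inS : ∀ {z : D.ι}, z ∈ T → z ≠ a → z ∈ T.erase a := fun hz hne =>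
    Finset.mem_erase.2 ⟨hne, hz⟩
  have oS : ∀ {z : D.ι}, z ∈ T → z ∉ D.LM T → z ∈ T.erase a := fun hz hne =>
    inS hz (H.ne_of hne H.p.ma).symm
  have hone : ∀ m' ∈ D.N1 T (D.LM T) {a, b}, m' = m := by
    intro m' hm'
    by_contra hne
    obtain ⟨b1, b2, b3⟩ := H.y1e hD hm'
    exact br2 hS (p := e) (y := m) (x := x) (q := d) (q' := m') (r := y) (r' := y')
      (inS (H.sub H.p.me) H.p.ae.symm) (oS a1 a2) (oS c1 c2) (inS (H.sub H.p.md) H.p.ad.symm)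
      (oS b1 b2) (oS y1 y2) (oS z1 z2) (a3.symm D) (hxm.symm D) (H.ne_of c2 H.p.me) H.Aed
      (b3.symm D) (h1.symm D) (h2.symm D) (H.ne_of b2 H.p.md) hyy
      ⟨H.ne_of a2 H.p.md, H.ne_of c2 H.p.md⟩ ⟨hne, by rintro rfl; exact c4 e H.p.me b3⟩
      ⟨(H.ne_of y2 H.p.me).symm, (y4 m hm).1⟩ ⟨(H.ne_of z2 H.p.me).symm, (z4 m hm).1⟩
  refine ⟨Finset.card_le_one.2 fun m1 hm1 m2 hm2 => (hone m1 hm1).trans (hone m2 hm2).symm, ?_⟩
  intro x' hx'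
  by_contra hne
  obtain ⟨e1, e2, e3, e4, m2, hm2, hxm2⟩ := mem_N2.1 hx'
  rw [hone m2 hm2] at hxm2
  exact br1 hS (p := m) (x := x) (q := e) (q' := x') (r := y) (r' := y')
    (oS a1 a2) (oS c1 c2) (inS (H.sub H.p.me) H.p.ae.symm) (oS e1 e2) (oS y1 y2) (oS z1 z2)
    (hxm.symm D) a3 (hxm2.symm D) (h1.symm D) (h2.symm D) (H.ne_of e2 H.p.me) hyy
    (H.ne_of c2 H.p.me) hne (y4 m hm).1 (z4 m hm).1

/-- `Y1`, `Y2`, `N3` have together at most four elements -/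
theorem y123 (ha : a ∈ Rset D.g T) :
    (D.N1 T (D.LM T) {a, b}).card + (D.N2 T (D.LM T) {a, b}).card +
      (D.N3 T (D.LM T) {a, b}).card ≤ 4 := by
  classical
  have h12 := H.y12 hD ha H.p.ac H.p.ad H.p.ae
  by_cases h3 : (D.N3 T (D.LM T) {a, b}).card ≤ 1
  · omega
  push Not at h3
  have hS := H.pdR a ha
  have inS : ∀ {z : D.ι}, z ∈ T → z ≠ a → z ∈ T.erase a := fun hz hne =>
    Finset.mem_erase.2 ⟨hne, hz⟩
  have oS : ∀ {z : D.ι}, z ∈ T → z ∉ D.LM T → z ∈ T.erase a := fun hz hne =>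
    inS hz (H.ne_of hne H.p.ma).symm
  -- two elements of `N3` are adjacent to the same element of `Y2`
  have key : ∀ y ∈ D.N3 T (D.LM T) {a, b}, ∀ y' ∈ D.N3 T (D.LM T) {a, b}, y ≠ y' →
      ∀ x ∈ D.N2 T (D.LM T) {a, b}, ∀ x' ∈ D.N2 T (D.LM T) {a, b}, D.Adj y x → D.Adj y' x' →
      x = x' := by
    intro y hy y' hy' hyy x hx x' hx' h1 h2
    by_contra hne
    obtain ⟨c1, c2, c3, c4, m, hm, hxm⟩ := mem_N2.1 hx
    obtain ⟨e1, e2, e3, e4, m', hm', hxm'⟩ := mem_N2.1 hx'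
    obtain ⟨a1, a2, a3⟩ := H.y1e hD hm
    obtain ⟨y1, y2, y3, y4, y5, -⟩ := H.y3 hD hy
    obtain ⟨z1, z2, z3, z4, z5, -⟩ := H.y3 hD hy'
    by_cases hmm : m = m'
    · subst hmm
      exact no_E6 hS (p := m) (x := e) (x2 := d) (y := x) (y2 := y) (z := x') (z2 := y')
        (oS a1 a2) (inS (H.sub H.p.me) H.p.ae.symm) (inS (H.sub H.p.md) H.p.ad.symm) (oS c1 c2)
        (oS y1 y2) (oS e1 e2) (oS z1 z2) a3 (hxm.symm D) (hxm'.symm D) H.Aed (h1.symm D)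
        (h2.symm D) (H.ne_of a2 H.p.md).symm (y4 m hm).1.symm (z4 m hm).1.symm
        (H.ne_of c2 H.p.me) (H.ne_of y2 H.p.me) (H.ne_of e2 H.p.me) (H.ne_of z2 H.p.me)
        (H.ne_of c2 H.p.md) (H.ne_of y2 H.p.md) (H.ne_of e2 H.p.md) (H.ne_of z2 H.p.md)
        hne (z5 x hx).symm (y5 x' hx') hyy
    · exact H.diff_m hD ha H.p.ac H.p.ad H.p.ae hm hm' hx hx' hmm hne hxm hxm'
  obtain ⟨y, hy, y', hy', hyy⟩ := Finset.one_lt_card.1 h3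
  obtain ⟨-, -, -, -, -, x, hx, hyx⟩ := H.y3 hD hy
  obtain ⟨-, -, -, -, -, x', hx', hyx'⟩ := H.y3 hD hy'
  have hxx := key y hy y' hy' hyy x hx x' hx' hyx hyx'
  rw [← hxx] at hyx'
  obtain ⟨k1, k2⟩ := H.same_x hD ha hx hy hy' hyy hyx hyx'
  have k3 : (D.N2 T (D.LM T) {a, b}).card ≤ 1 :=
    Finset.card_le_one.2 fun u hu v hv => (k2 u hu).trans (k2 v hv).symm
  have k4 : (D.N3 T (D.LM T) {a, b}).card ≤ 2 := by
    by_contra hlt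
    push Not at hlt
    obtain ⟨y1, h1, y2, h2, y3, h3, n12, n13, n23⟩ := Finset.two_lt_card.1 hlt
    obtain ⟨p1, p2, -, p4, -, x1, hx1, p5⟩ := H.y3 hD h1
    obtain ⟨q1, q2, -, q4, -, x2, hx2, q5⟩ := H.y3 hD h2
    obtain ⟨r1, r2, -, r4, -, x3, hx3, r5⟩ := H.y3 hD h3
    rw [k2 x1 hx1] at p5
    rw [k2 x2 hx2] at q5
    rw [k2 x3 hx3] at r5
    obtain ⟨c1, c2, c3, c4, m, hm, hxm⟩ := mem_N2.1 hx
    obtain ⟨a1, a2, a3⟩ := H.y1e hD hm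
    exact four_nb hS (oS c1 c2) (oS a1 a2) (oS p1 p2) (oS q1 q2) (oS r1 r2) hxm (p5.symm D)
      (q5.symm D) (r5.symm D) (p4 m hm).1.symm (q4 m hm).1.symm (r4 m hm).1.symm n12 n13 n23
  omega

end path

end K5

end CoxData

end MP345
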