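import Mathlib
import Pool.Agent.Work.MP_345ef2_gt_24.T_TB5
import Pool.Agent.Work.MP_345ef2_gt_24.T_GDEC
import Pool.Agent.Work.MP_345ef2_gt_24.T_CLF
import Pool.Agent.Work.MP_345ef2_gt_24.T_NB

/-!
# T level, types `[5,3,3,4]` and `[5,3,3,5]` (n <= 24)
-/

namespace MP345

open Finset

variable {n : ℕ}

namespace CoxData

variable {D : CoxData n}

/-- edges of a path of order five -/
def E5 : Fin 5 → Fin 5 → Bool :=
  ![![false, true, false, false, false], ![false, false, true, false, false],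
    ![false, false, false, true, false], ![false, false, false, false, true],
    ![false, false, false, false, false]]

theorem num533X : ∀ I : Finset (Fin 5),
    2 * (∑ a ∈ I, ∑ b ∈ I, if a < b then
      (![![0, 5, 4, 0, 0], ![0, 0, 1, 0, 0], ![0, 0, 0, 1, 1], ![0, 0, 0, 0, 5],
        ![0, 0, 0, 0, 0]] : Fin 5 → Fin 5 → ℕ) a b else 0) +
    8 * (∑ a ∈ I, ∑ b ∈ I, ∑ c ∈ I, if a < b ∧ b < c then
      2 - (E5 a b).toNat - (E5 a c).toNat - (E5 b c).toNat else 0) ≤
    ∑ r ∈ I, ∑ b ∈ I, (if r ≠ b then (fun _ _ => 5 : Fin 5 → Fin 5 → ℕ) r b else 0) := by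
  decide +kernel

theorem stmtT533X (D : CoxData n) (hcls : D.StmtCLS) : D.StmtT533X := by
  classical
  intro T hT a b c d e z hz hp
  obtain ⟨_, _, x3, x4, x5, _, _⟩ := D.stmtCTX T hT
  have hz0 : 0 < z := by
    rcases hz with rfl | rfl
    · exact s2_pos
    · exact c5_pos
  have hz1 : z ≠ 1 / 2 := by
    rcases hz with rfl | rfl
    · have := s2_gt; intro h; linarith
    · have := c5_gt; intro h; linarith
  have hNB := D.stmtNB (D.stmtCLF hcls) (D.stmtCLT hcls) hcls D.stmtCTX T hT a b c d e z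
    (Or.inr hz) hp
  have memL : ∀ x ∈ D.LM T, x = a ∨ x = b ∨ x = c ∨ x = d ∨ x = e := by
    intro x hx
    rw [hp.eq] at hx
    simpa using hx
  have hN1 : ∀ P, D.N1 T (D.LM T) P = ∅ := by
    intro P
    rw [Finset.eq_empty_iff_forall_notMem]
    intro m hm
    obtain ⟨h1, h2, _, s, hs, h3⟩ := D.mem_N1_h.1 hm
    obtain ⟨k1, k2, k3, k4, _⟩ := hNB m h1 h2
    obtain ⟨k4, k5⟩ := k4 hz1
    rcases memL s hs with rfl | rfl | rfl | rfl | rfl
    · exact k1 h3
    · exact k2 h3
    · exact k3 h3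
    · exact k4 h3
    · exact k5 h3
  have hN2 : ∀ P, D.N2 T (D.LM T) P = ∅ := by
    intro P
    rw [Finset.eq_empty_iff_forall_notMem]
    intro m hm
    obtain ⟨_, _, _, _, s, hs, _⟩ := D.mem_N2_h.1 hm
    rw [hN1] at hs
    exact absurd hs (Finset.notMem_empty _)
  have hN3 : ∀ P, D.N3 T (D.LM T) P = ∅ := by
    intro P
    rw [Finset.eq_empty_iff_forall_notMem]
    intro m hm
    unfold N3 at hm
    rw [Finset.mem_filter] at hm
    obtain ⟨_, _, _, _, _, s, hs, _⟩ := hm
    rw [hN2] at hs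
    exact absurd hs (Finset.notMem_empty _)
  have hnd : [a, b, c, d, e].Nodup := by
    simp [hp.ab, hp.ac, hp.ad, hp.ae, hp.bc, hp.bd, hp.be, hp.cd, hp.ce, hp.de]
  have hG : ∀ x ∈ Rset D.g T, ∀ y ∈ Rset D.g T, x ≠ y →
      D.G T {x, y} ≤ ∑ w ∈ D.N0 T (D.LM T) {x, y}, q4 (D.cnt T w {x, y}) := by
    intro x hx y hy hne
    have h := D.stmtGDEC T hT x hx y hy hne
    rw [hN1, hN2, hN3] at h
    simpa using h
  -- the sum over `N0`
  have hsumN0 : ∀ (P : Finset D.ι) (fa fb fc fd fe : ℕ),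
      (a ∉ P → D.NA a P → q4 (D.cnt T a P) ≤ fa) → (b ∉ P → D.NA b P → q4 (D.cnt T b P) ≤ fb) →
      (c ∉ P → D.NA c P → q4 (D.cnt T c P) ≤ fc) → (d ∉ P → D.NA d P → q4 (D.cnt T d P) ≤ fd) →
      (e ∉ P → D.NA e P → q4 (D.cnt T e P) ≤ fe) → (∀ p ∈ P, p ∈ Rset D.g T) →
      ∑ x ∈ D.N0 T (D.LM T) P, q4 (D.cnt T x P) ≤ fa + fb + fc + fd + fe := by
    intro P fa fb fc fd fe ha hb hc hd he hPR
    exact D.N0_sum5 hp.eq hnd P fa fb fc fd fe (fun h1 h2 _ => ha h1 h2) (fun h1 h2 _ => hb h1 h2)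
      (fun h1 h2 _ => hc h1 h2) (fun h1 h2 _ => hd h1 h2) (fun h1 h2 _ => he h1 h2) hPR
  have Aab : D.Adj a b := hp.Aab c5_pos
  have Abc : D.Adj b c := hp.Abc (by norm_num)
  have Acd : D.Adj c d := hp.Acd (by norm_num)
  have Ade : D.Adj d e := hp.Ade hz0
  have Aba := Aab.symm D
  have Acb := Abc.symm D
  have Adc := Acd.symm D
  have Aed := Ade.symm D
  have hpr : ∀ {x y : D.ι}, x ∈ Rset D.g T → y ∈ Rset D.g T → ∀ p ∈ ({x, y} : Finset D.ι),
      p ∈ Rset D.g T := by
    intro x y hx hy p hp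
    simp only [Finset.mem_insert, Finset.mem_singleton] at hp
    rcases hp with rfl | rfl <;> assumption
  have b01 : a ∈ Rset D.g T → b ∈ Rset D.g T → D.G T {a, b} ≤ 5 := by
    intro hx hy
    refine (hG a hx b hy hp.ab).trans ((hsumN0 {a, b} 0 0 0 1 4 ?_ ?_ ?_ ?_ ?_
      (hpr hx hy)).trans (by norm_num))
    · intro h; exact absurd (by simp) h
    · intro h; exact absurd (by simp) h
    · intro _ h; exact absurd Acb (h b (by simp))
    · intro _ _
      exact TP.q4_le1 (cnt_pos (p := b) (z := c) (by simp) (x3 hp.mc)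
        (by simp [hp.ac.symm, hp.bc.symm]) Acd Acb)
    · intro _ _; exact TP.q4_le4 _
  have b02 : a ∈ Rset D.g T → c ∈ Rset D.g T → D.G T {a, c} ≤ 4 := by
    intro hx hy
    refine (hG a hx c hy hp.ac).trans ((hsumN0 {a, c} 0 0 0 0 4 ?_ ?_ ?_ ?_ ?_
      (hpr hx hy)).trans (by norm_num))
    · intro h; exact absurd (by simp) h
    · intro _ h; exact absurd Aba (h a (by simp))
    · intro h; exact absurd (by simp) h
    · intro _ h; exact absurd Adc (h c (by simp))
    · intro _ _; exact TP.q4_le4 _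
  have b03 : a ∈ Rset D.g T → d ∈ Rset D.g T → D.G T {a, d} ≤ 0 := by
    intro hx hy
    refine (hG a hx d hy hp.ad).trans ((hsumN0 {a, d} 0 0 0 0 0 ?_ ?_ ?_ ?_ ?_
      (hpr hx hy)).trans (by norm_num))
    · intro h; exact absurd (by simp) h
    · intro _ h; exact absurd Aba (h a (by simp))
    · intro _ h; exact absurd Acd (h d (by simp))
    · intro h; exact absurd (by simp) h
    · intro _ h; exact absurd Aed (h d (by simp))
  have b04 : a ∈ Rset D.g T → e ∈ Rset D.g T → D.G T {a, e} ≤ 0 := by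
    intro hx hy
    refine (hG a hx e hy hp.ae).trans ((hsumN0 {a, e} 0 0 0 0 0 ?_ ?_ ?_ ?_ ?_
      (hpr hx hy)).trans (by norm_num))
    · intro h; exact absurd (by simp) h
    · intro _ h; exact absurd Aba (h a (by simp))
    · intro _ _
      exact (TP.q4_zero (cnt_two (p := a) (p' := e) (by simp) (by simp) hp.ae (x3 hp.mb)
        (by simp [hp.ab.symm, hp.be]) Abc Aba (x3 hp.md) (by simp [hp.ad.symm, hp.de])
        Adc Ade)).le
    · intro _ h; exact absurd Ade (h e (by simp))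
    · intro h; exact absurd (by simp) h
  have b12 : b ∈ Rset D.g T → c ∈ Rset D.g T → D.G T {b, c} ≤ 1 := by
    intro hx hy
    refine (hG b hx c hy hp.bc).trans ((hsumN0 {b, c} 0 0 0 0 1 ?_ ?_ ?_ ?_ ?_
      (hpr hx hy)).trans (by norm_num))
    · intro _ h; exact absurd Aab (h b (by simp))
    · intro h; exact absurd (by simp) h
    · intro h; exact absurd (by simp) h
    · intro _ h; exact absurd Adc (h c (by simp))
    · intro _ _
      exact TP.q4_le1 (cnt_pos (p := c) (z := d) (by simp) (x3 hp.md)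
        (by simp [hp.bd.symm, hp.cd.symm]) Ade Adc)
  have b13 : b ∈ Rset D.g T → d ∈ Rset D.g T → D.G T {b, d} ≤ 0 := by
    intro hx hy
    refine (hG b hx d hy hp.bd).trans ((hsumN0 {b, d} 0 0 0 0 0 ?_ ?_ ?_ ?_ ?_
      (hpr hx hy)).trans (by norm_num))
    · intro _ h; exact absurd Aab (h b (by simp))
    · intro h; exact absurd (by simp) h
    · intro _ h; exact absurd Acb (h b (by simp))
    · intro h; exact absurd (by simp) h
    · intro _ h; exact absurd Aed (h d (by simp))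
  have b14 : b ∈ Rset D.g T → e ∈ Rset D.g T → D.G T {b, e} ≤ 0 := by
    intro hx hy
    refine (hG b hx e hy hp.be).trans ((hsumN0 {b, e} 0 0 0 0 0 ?_ ?_ ?_ ?_ ?_
      (hpr hx hy)).trans (by norm_num))
    · intro _ h; exact absurd Aab (h b (by simp))
    · intro h; exact absurd (by simp) h
    · intro _ h; exact absurd Acb (h b (by simp))
    · intro _ h; exact absurd Ade (h e (by simp))
    · intro h; exact absurd (by simp) h
  have b23 : c ∈ Rset D.g T → d ∈ Rset D.g T → D.G T {c, d} ≤ 1 := by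
    intro hx hy
    refine (hG c hx d hy hp.cd).trans ((hsumN0 {c, d} 1 0 0 0 0 ?_ ?_ ?_ ?_ ?_
      (hpr hx hy)).trans (by norm_num))
    · intro _ _
      exact TP.q4_le1 (cnt_pos (p := c) (z := b) (by simp) (x3 hp.mb)
        (by simp [hp.bc, hp.bd]) Aba Abc)
    · intro _ h; exact absurd Abc (h c (by simp))
    · intro h; exact absurd (by simp) h
    · intro h; exact absurd (by simp) h
    · intro _ h; exact absurd Aed (h d (by simp))
  have b24 : c ∈ Rset D.g T → e ∈ Rset D.g T → D.G T {c, e} ≤ 1 := by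
    intro hx hy
    refine (hG c hx e hy hp.ce).trans ((hsumN0 {c, e} 1 0 0 0 0 ?_ ?_ ?_ ?_ ?_
      (hpr hx hy)).trans (by norm_num))
    · intro _ _
      exact TP.q4_le1 (cnt_pos (p := c) (z := b) (by simp) (x3 hp.mb)
        (by simp [hp.bc, hp.be]) Aba Abc)
    · intro _ h; exact absurd Abc (h c (by simp))
    · intro h; exact absurd (by simp) h
    · intro _ h; exact absurd Adc (h c (by simp))
    · intro h; exact absurd (by simp) h
  have b34 : d ∈ Rset D.g T → e ∈ Rset D.g T → D.G T {d, e} ≤ 5 := by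
    intro hx hy
    refine (hG d hx e hy hp.de).trans ((hsumN0 {d, e} 4 1 0 0 0 ?_ ?_ ?_ ?_ ?_
      (hpr hx hy)).trans (by norm_num))
    · intro _ _; exact TP.q4_le4 _
    · intro _ _
      exact TP.q4_le1 (cnt_pos (p := d) (z := c) (by simp) (x3 hp.mc)
        (by simp [hp.cd, hp.ce]) Acb Acd)
    · intro _ h; exact absurd Acd (h d (by simp))
    · intro h; exact absurd (by simp) h
    · intro h; exact absurd (by simp) h
  refine D.tb5 hT hp.eq hnd E5
    _ _ ?_ b01 b02 b03 b04 b12 b13 b14 b23 b24 b34 (fun _ _ _ _ _ => t8_ge5 _ _)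
    (fun _ => True) (fun _ _ => trivial) (fun I _ => num533X I)
  intro i j h
  fin_cases i <;> fin_cases j <;>
    first | exact absurd h (by decide) | exact Aab | exact Abc | exact Acd | exact Ade

end CoxData

end MP345
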