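import Mathlib
import Pool.Agent.Work.MP_345ef2_gt_24.T_T5333a
import Pool.Agent.Work.MP_345ef2_gt_24.T_T533X
import Pool.Agent.Work.MP_345ef2_gt_24.D_LCON

/-!
# T level, type `[5,3,3,3]` (n ≤ 24), part 2
-/

namespace MP345

open Finset

variable {n : ℕ}

namespace CoxData

variable {D : CoxData n}

/-- a Lannér set of class 4 with an end `y` at an edge of label 3 -/
theorem end4 (hcls : D.StmtCLS) {A : Finset D.ι} (hA : D.Lan A) (h4 : 4 ≤ D.cls A) {y w : D.ι}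
    (hy : y ∈ A) (hw : ∀ v ∈ A, D.Adj y v → v = w) (hg : D.g y w = -(1 / 2)) :
    ∃ a' b' c', D.Path5 a' b' c' w y c5 (1 / 2) (1 / 2) (1 / 2) A := by
  have h5 := c5_gt
  obtain ⟨q1, q2, -⟩ := D.stmtCLF hcls
  rcases D.cls_ge_two_types hcls hA (by omega) with ⟨a', b', c', d', h⟩ | ⟨u, v, w', p, q, h⟩ |
    ⟨a', b', c', d', e', z, hz, h⟩ | ⟨a', b', c', d', e', h⟩
  · have := q2 _ _ _ _ _ h; omega
  · have := q1 _ _ _ _ _ _ h; omega
  · have hz0 : 0 < z := by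
      rcases hz with rfl | rfl | rfl
      · norm_num
      · exact s2_pos
      · exact c5_pos
    have Aab := h.Aab c5_pos
    have Abc := h.Abc (by norm_num)
    have Acd := h.Acd (by norm_num)
    have Ade := h.Ade hz0
    have hy' : y = a' ∨ y = b' ∨ y = c' ∨ y = d' ∨ y = e' := by
      rw [h.eq] at hy; simpa using hy
    rcases hy' with rfl | rfl | rfl | rfl | rfl
    · exfalso
      have e1 := hw b' h.mb Aab
      rw [← e1, h.vab] at hg
      linarith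
    · exact absurd ((hw a' h.ma (Aab.symm D)).trans (hw c' h.mc Abc).symm) h.ac
    · exact absurd ((hw b' h.mb (Abc.symm D)).trans (hw d' h.md Acd).symm) h.bd
    · exact absurd ((hw c' h.mc (Acd.symm D)).trans (hw e' h.me Ade).symm) h.ce
    · have e1 := hw d' h.md (Ade.symm D)
      have e2 := h.vde
      rw [e1, D.symm, hg] at e2
      have e3 : z = 1 / 2 := by linarith
      subst e3
      subst e1
      exact ⟨a', b', c', h⟩
  · exfalso
    have hy' : y = a' ∨ y = b' ∨ y = c' ∨ y = d' ∨ y = e' := by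
      rw [h.eq] at hy; simpa using hy
    rcases hy' with rfl | rfl | rfl | rfl | rfl
    · exact h.be ((hw b' h.mb h.Aab).trans (hw e' h.me h.Aae).symm)
    · exact h.ac ((hw a' h.ma h.Aba).trans (hw c' h.mc h.Abc).symm)
    · exact h.bd ((hw b' h.mb h.Acb).trans (hw d' h.md h.Acd).symm)
    · exact h.ce ((hw c' h.mc h.Adc).trans (hw e' h.me h.Ade).symm)
    · exact h.ad.symm ((hw d' h.md h.Aed).trans (hw a' h.ma h.Aea).symm)

namespace K5

open TP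

variable {T : Finset D.ι} {a b c d e : D.ι} (H : D.K5 T a b c d e)

include H

theorem mem_e {x : D.ι} (hx : x ∈ D.LM T) : x ∈ T := H.sub hx

/-- neighbours of `a` in `T` -/
theorem nbA {w : D.ι} (hw : w ∈ T) (h : D.Adj a w) : w = b := by
  by_cases hwL : w ∈ D.LM T
  · rcases H.memL hwL with rfl | rfl | rfl | rfl | rfl
    · exact absurd rfl h.1
    · rfl
    · exact absurd h H.p.Nac
    · exact absurd h H.p.Nad
    · exact absurd h H.p.Nae
  · exact absurd (h.symm D) (H.na w hw hwL)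

/-- neighbours of `b` in `T` -/
theorem nbB {w : D.ι} (hw : w ∈ T) (h : D.Adj b w) : w = a ∨ w = c := by
  by_cases hwL : w ∈ D.LM T
  · rcases H.memL hwL with rfl | rfl | rfl | rfl | rfl
    · exact Or.inl rfl
    · exact absurd rfl h.1
    · exact Or.inr rfl
    · exact absurd h H.p.Nbd
    · exact absurd h H.p.Nbe
  · exact absurd (h.symm D) (H.nb w hw hwL)

/-- neighbours of `c` in `T` -/
theorem nbC {w : D.ι} (hw : w ∈ T) (h : D.Adj c w) : w = b ∨ w = d := by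
  by_cases hwL : w ∈ D.LM T
  · rcases H.memL hwL with rfl | rfl | rfl | rfl | rfl
    · exact absurd h H.p.Nca
    · exact Or.inl rfl
    · exact absurd rfl h.1
    · exact Or.inr rfl
    · exact absurd h H.p.Nce
  · exact absurd (h.symm D) (H.nc w hw hwL)

/-- neighbours of `d` in `T` -/
theorem nbD {w : D.ι} (h : D.Adj d w) : w = c ∨ w = e ∨ w ∉ D.LM T := by
  by_cases hwL : w ∈ D.LM T
  · rcases H.memL hwL with rfl | rfl | rfl | rfl | rfl
    · exact absurd h H.p.Nda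
    · exact absurd h H.p.Ndb
    · exact Or.inl rfl
    · exact absurd rfl h.1
    · exact Or.inr (Or.inl rfl)
  · exact Or.inr (Or.inr hwL)

/-- `b` and `a` lie in `R(T)` -/
theorem bR (hcls : D.StmtCLS) {m : D.ι} (hm : m ∈ T) (hmL : m ∉ D.LM T) (hmd : D.Adj d m)
    (hc : c ∈ Rset D.g T) : b ∈ Rset D.g T := by
  classical
  by_contra hb
  obtain ⟨-, -, -, -, x5, x6, x7⟩ := D.stmtCTX T H.hT
  obtain ⟨A, hAb, hLan⟩ := x6 b (H.sub H.p.mb) hb
  have hAT : A ⊆ T := hAb.trans (Finset.erase_subset _ _)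
  have hbA : b ∉ A := fun h => (Finset.mem_erase.1 (hAb h)).1 rfl
  obtain ⟨hR, hc4⟩ := x7 A hAT hLan
  rw [H.c4] at hc4
  obtain ⟨a', b', c', h⟩ := end4 hcls hLan hc4 (hR hc) (w := d) (fun v hv hcv => by
    rcases H.nbC (hAT hv) hcv with rfl | rfl
    · exact absurd hv hbA
    · rfl) H.p.vcd
  have Aab := h.Aab c5_pos
  have Abc := h.Abc (by norm_num)
  have Acd := h.Acd (by norm_num)
  have hS := x5 c hc
  -- the other neighbour of `d`
  have key : ∀ o ∈ T, D.Adj d o → o ≠ c → o ≠ c' → False := by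
    intro o ho hdo hoc hoc'
    have inS : ∀ {z : D.ι}, z ∈ A → z ≠ c → z ∈ T.erase c := fun hz hne =>
      Finset.mem_erase.2 ⟨hne, hAT hz⟩
    have n1 : o ≠ a' := by rintro rfl; exact h.Nda hdo
    have n2 : o ≠ b' := by rintro rfl; exact h.Ndb hdo
    exact no_5333 hS (q := a') (p := b') (r := c') (t := d) (u := o) (inS h.ma h.ae)
      (inS h.mb h.be) (inS h.mc h.ce) (inS h.md h.de) (Finset.mem_erase.2 ⟨hoc, ho⟩)
      h.vab.le Abc Acd hdo (by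
        simp [h.ab, h.ac, h.ad, h.bc, h.bd, h.cd, n1.symm, n2.symm, hoc'.symm, hdo.1])
  by_cases hce : c' = e
  · refine key m hm hmd ?_ ?_
    · rintro rfl; exact hmL H.p.mc
    · rintro rfl; exact hmL (hce ▸ H.p.me)
  · exact key e (H.sub H.p.me) H.Ade H.p.ce.symm (Ne.symm hce)

theorem aR (hcls : D.StmtCLS) {m : D.ι} (hm : m ∈ T) (hmL : m ∉ D.LM T) (hmd : D.Adj d m)
    (hb : b ∈ Rset D.g T) : a ∈ Rset D.g T := by
  classical
  by_contra ha
  obtain ⟨-, -, -, -, x5, x6, x7⟩ := D.stmtCTX T H.hT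
  obtain ⟨A, hAa, hLan⟩ := x6 a (H.sub H.p.ma) ha
  have hAT : A ⊆ T := hAa.trans (Finset.erase_subset _ _)
  have haA : a ∉ A := fun h => (Finset.mem_erase.1 (hAa h)).1 rfl
  obtain ⟨hR, hc4⟩ := x7 A hAT hLan
  rw [H.c4] at hc4
  obtain ⟨a', b', c', h⟩ := end4 hcls hLan hc4 (hR hb) (w := c) (fun v hv hcv => by
    rcases H.nbB (hAT hv) hcv with rfl | rfl
    · exact absurd hv haA
    · rfl) H.p.vbc
  have Aab := h.Aab c5_pos
  have Abc := h.Abc (by norm_num)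
  have Acd := h.Acd (by norm_num)
  have hS := x5 b hb
  have e1 : c' = d := by
    rcases H.nbC (hAT h.mc) (Acd.symm D) with e1 | e1
    · exact absurd e1 h.ce
    · exact e1
  subst e1
  have key : ∀ o ∈ T, D.Adj c' o → o ≠ c → o ≠ b' → False := by
    intro o ho hdo hoc hob'
    have inS : ∀ {z : D.ι}, z ∈ A → z ≠ b → z ∈ T.erase b := fun hz hne =>
      Finset.mem_erase.2 ⟨hne, hAT hz⟩
    have hob : o ≠ b := by rintro rfl; exact H.p.Ndb hdo
    refine no_sp2 hS (p := c') (x := b') (inS h.mc h.ce) (inS h.mb h.be) (Abc.symm D)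
      (Or.inr ⟨c, inS h.md h.de, o, Finset.mem_erase.2 ⟨hob, ho⟩, ?_, ?_, hoc.symm, Acd, hdo⟩)
      (Or.inl ⟨a', inS h.ma h.ae, ?_, ?_⟩)
    · simp [h.cd.symm, h.bd.symm]
    · simp [hdo.1.symm, hob']
    · simp [h.ab, h.ac]
    · exact c5_heavy (by rw [D.symm]; exact h.vab)
  by_cases hbe : b' = e
  · refine key m hm hmd ?_ ?_
    · rintro rfl; exact hmL H.p.mc
    · rintro rfl; exact hmL (hbe ▸ H.p.me)
  · exact key e (H.sub H.p.me) H.Ade H.p.ce.symm (Ne.symm hbe)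

/-! ### leaves -/

theorem tab : 9 ≤ D.t8 (T.erase a) b :=
  t8_leaf (leafAt_of (z := c) fun _ hw h => H.nbB hw h)

theorem tba : 19 ≤ D.t8 (T.erase b) a :=
  t8_iso fun _ hw h => (Finset.mem_erase.1 hw).1 (H.nbA (Finset.mem_erase.1 hw).2 h)

theorem tbc : 9 ≤ D.t8 (T.erase b) c :=
  t8_leaf (leafAt_of (z := d) fun _ hw h => H.nbC hw h)

theorem tca : 15 ≤ D.t8 (T.erase c) a :=
  t8_leaf5 (leafAt_of (z := b) fun _ hw h => Or.inr (H.nbA hw h))
    (Finset.mem_erase.2 ⟨H.p.bc, H.sub H.p.mb⟩) H.p.vab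

theorem tcb : 15 ≤ D.t8 (T.erase c) b :=
  t8_leaf5 (leafAt_of (z := a) fun _ hw h => (H.nbB hw h).symm)
    (Finset.mem_erase.2 ⟨H.p.ac, H.sub H.p.ma⟩) (by rw [D.symm]; exact H.p.vab)

theorem txa {x : D.ι} (h1 : x ≠ a) (h2 : x ≠ b) (h3 : x ≠ c) : 21 ≤ D.t8 (T.erase x) a := by
  classical
  refine t8_leaf5' (leafAt_of (z := b) fun _ hw h => Or.inr (H.nbA hw h))
    (Finset.mem_erase.2 ⟨h2.symm, H.sub H.p.mb⟩) H.p.vab ?_
  have h4 : ({a, c} : Finset D.ι) ⊆ D.nb (T.erase x) b := by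
    intro w hw
    simp only [Finset.mem_insert, Finset.mem_singleton] at hw
    rcases hw with rfl | rfl
    · exact (mem_nb D).2 ⟨Finset.mem_erase.2 ⟨h1.symm, H.sub H.p.ma⟩, H.Aba⟩
    · exact (mem_nb D).2 ⟨Finset.mem_erase.2 ⟨h3.symm, H.sub H.p.mc⟩, H.Abc⟩
  have h5 := Finset.card_le_card h4
  rwa [Finset.card_pair H.p.ac] at h5

theorem tdc : 9 ≤ D.t8 (T.erase d) c :=
  t8_leaf (leafAt_of (z := b) fun _ hw h => (H.nbC hw h).symm)

theorem tcd (hD : ∀ m ∈ T, m ∉ D.LM T → ¬ D.Adj m d) : 9 ≤ D.t8 (T.erase c) d :=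
  t8_leaf (leafAt_of (z := e) fun w hw h => by
    rcases H.nbD h with h1 | h1 | h1
    · exact Or.inl h1
    · exact Or.inr h1
    · exact absurd (h.symm D) (hD w hw h1))

theorem ted (hD : ∀ m ∈ T, m ∉ D.LM T → ¬ D.Adj m d) : 9 ≤ D.t8 (T.erase e) d :=
  t8_leaf (leafAt_of (z := c) fun w hw h => by
    rcases H.nbD h with h1 | h1 | h1
    · exact Or.inr h1
    · exact Or.inl h1
    · exact absurd (h.symm D) (hD w hw h1))

/-! ### bounds for the pairs -/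

/-- a pair containing `d` -/
theorem gXD {x : D.ι} (hx : x ∈ Rset D.g T) (hd : d ∈ Rset D.g T) (hxd : x ≠ d) (hxe : x ≠ e)
    (hf : D.g x d = 0 ∨ D.g x d = -(1 / 2)) {c0 : ℕ}
    (h0 : ∑ z ∈ D.N0 T (D.LM T) {x, d}, q4 (D.cnt T z {x, d}) ≤ c0) :
    D.G T {x, d} ≤ c0 + (D.N1 T (D.LM T) {x, d}).card + 3 * (D.N2 T (D.LM T) {x, d}).card := by
  have h5 : ¬ D.Five {x, d} := not_five5 hf
  have := G_le_gen D.stmtGDEC H.hT hx hd hxd (Or.inr h5) h0 (k1 := 1) (k2 := 3) ?_ ?_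
  · omega
  · intro z hz
    obtain ⟨h1, h2, h3, h4⟩ := H.y1 hz
    have h6 : D.Adj z e := h3.resolve_left (h4 d (by simp))
    exact q4_le1 (cnt_pos_of_contact (s := e) (H.sub H.p.me) hxe.symm H.p.de.symm h6
      (Or.inr H.Aed))
  · intro z _
    refine c2_le3 ?_ h5
    rintro ⟨m, ⟨hmT, hmP, hmL, hmNA⟩, hzm, s, hs, hsP, hms, hsNA⟩
    rcases H.contact hmT hmL hs hms with rfl | rfl
    · exact hsP (by simp)
    · exact hsNA d (by simp) H.Aed

/-- a pair without first neighbours -/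
theorem gNone {x y : D.ι} (hx : x ∈ Rset D.g T) (hy : y ∈ Rset D.g T) (hxy : x ≠ y)
    (hf : D.g x y = 0 ∨ D.g x y = -(1 / 2)) (h1 : D.N1 T (D.LM T) {x, y} = ∅) {c0 : ℕ}
    (h0 : ∑ z ∈ D.N0 T (D.LM T) {x, y}, q4 (D.cnt T z {x, y}) ≤ c0) :
    D.G T {x, y} ≤ c0 := by
  have h2 : D.N2 T (D.LM T) {x, y} = ∅ := by
    rw [Finset.eq_empty_iff_forall_notMem]
    intro z hz
    obtain ⟨-, -, -, -, m, hm, -⟩ := mem_N2.1 hz
    rw [h1] at hm
    exact absurd hm (Finset.notMem_empty _)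
  have := G_le_four D.stmtGDEC H.hT hx hy hxy (Or.inr (not_five5 hf)) h0
  rw [h1, h2] at this
  simpa using this

/-- the pair `a, b` -/
theorem gAB (ha : a ∈ Rset D.g T) (hb : b ∈ Rset D.g T) {c0 : ℕ}
    (h0 : ∑ z ∈ D.N0 T (D.LM T) {a, b}, q4 (D.cnt T z {a, b}) ≤ c0) :
    D.G T {a, b} ≤ c0 + 4 * ((D.N1 T (D.LM T) {a, b}).card + (D.N2 T (D.LM T) {a, b}).card +
      (D.N3 T (D.LM T) {a, b}).card) := by
  classical
  have g := D.stmtGDEC T H.hT a ha b hb H.p.ab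
  have e1 : ∑ z ∈ D.N1 T (D.LM T) {a, b}, q4 (D.cnt T z {a, b}) ≤
      4 * (D.N1 T (D.LM T) {a, b}).card := by
    rw [mul_comm, ← smul_eq_mul]
    exact Finset.sum_le_card_nsmul _ _ _ fun _ _ => q4_le4 _
  have e2 : ∑ z ∈ D.N2 T (D.LM T) {a, b}, D.c2 T z {a, b} ≤
      4 * (D.N2 T (D.LM T) {a, b}).card := by
    rw [mul_comm, ← smul_eq_mul]
    exact Finset.sum_le_card_nsmul _ _ _ fun _ _ => c2_le4 _ _ _
  have e3 : ∑ z ∈ D.N3 T (D.LM T) {a, b}, D.c3 T z {a, b} ≤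
      4 * (D.N3 T (D.LM T) {a, b}).card := by
    rw [mul_comm, ← smul_eq_mul]
    refine Finset.sum_le_card_nsmul _ _ _ fun z _ => ?_
    unfold c3
    split_ifs
    · exact q4_le4 _
    · exact Nat.zero_le _
  omega

/-- no first neighbours for `d, e` -/
theorem N1_de : D.N1 T (D.LM T) {d, e} = ∅ := by
  rw [Finset.eq_empty_iff_forall_notMem]
  intro z hz
  obtain ⟨-, -, h3, h4⟩ := H.y1 hz
  rcases h3 with h3 | h3
  · exact h4 d (by simp) h3
  · exact h4 e (by simp) h3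

theorem N1_xe (hD : ∀ m ∈ T, m ∉ D.LM T → ¬ D.Adj m d) {x : D.ι} :
    D.N1 T (D.LM T) {x, e} = ∅ := by
  rw [Finset.eq_empty_iff_forall_notMem]
  intro z hz
  obtain ⟨h1, h2, h3, h4⟩ := H.y1 hz
  rcases h3 with h3 | h3
  · exact hD z h1 h2 h3
  · exact h4 e (by simp) h3

end K5

/-! ### the numbers -/

def b5E1 : Fin 5 → Fin 5 → ℕ :=
  ![![0, 16, 12, 7, 0], ![0, 0, 12, 7, 0], ![0, 0, 0, 7, 0], ![0, 0, 0, 0, 0], ![0, 0, 0, 0, 0]]

def b5E2 : Fin 5 → Fin 5 → ℕ :=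
  ![![0, 0, 0, 0, 0], ![0, 0, 12, 7, 0], ![0, 0, 0, 9, 1], ![0, 0, 0, 0, 5], ![0, 0, 0, 0, 0]]

def b5F : Fin 5 → Fin 5 → ℕ :=
  ![![0, 20, 10, 4, 0], ![0, 0, 10, 4, 0], ![0, 0, 0, 4, 0], ![0, 0, 0, 0, 0], ![0, 0, 0, 0, 0]]

def t5E : Fin 5 → Fin 5 → ℕ :=
  ![![0, 9, 5, 5, 5], ![19, 0, 9, 5, 5], ![15, 15, 0, 9, 5], ![21, 5, 9, 0, 5], ![21, 5, 5, 9, 0]]

def t5F : Fin 5 → Fin 5 → ℕ :=
  ![![0, 9, 5, 5, 5], ![19, 0, 9, 5, 5], ![15, 15, 0, 5, 5], ![21, 5, 9, 0, 5], ![21, 5, 5, 5, 0]]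

theorem num5E1 : ∀ I : Finset (Fin 5), I = Finset.univ →
    2 * (∑ a ∈ I, ∑ b ∈ I, if a < b then b5E1 a b else 0) +
    8 * (∑ a ∈ I, ∑ b ∈ I, ∑ c ∈ I, if a < b ∧ b < c then
      2 - (E5 a b).toNat - (E5 a c).toNat - (E5 b c).toNat else 0) ≤
    ∑ r ∈ I, ∑ b ∈ I, (if r ≠ b then t5E r b else 0) := by
  rintro I rfl
  decide +kernel

theorem num5E2 : ∀ I : Finset (Fin 5), (0 ∉ I ∧ 4 ∈ I ∧ (1 ∈ I → 2 ∈ I) ∧ (2 ∈ I → 3 ∈ I)) →
    2 * (∑ a ∈ I, ∑ b ∈ I, if a < b then b5E2 a b else 0) +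
    8 * (∑ a ∈ I, ∑ b ∈ I, ∑ c ∈ I, if a < b ∧ b < c then
      2 - (E5 a b).toNat - (E5 a c).toNat - (E5 b c).toNat else 0) ≤
    ∑ r ∈ I, ∑ b ∈ I, (if r ≠ b then t5E r b else 0) := by
  decide +kernel

theorem num5F : ∀ I : Finset (Fin 5), I = {0, 1, 2, 3} →
    2 * (∑ a ∈ I, ∑ b ∈ I, if a < b then b5F a b else 0) +
    8 * (∑ a ∈ I, ∑ b ∈ I, ∑ c ∈ I, if a < b ∧ b < c then
      2 - (E5 a b).toNat - (E5 a c).toNat - (E5 b c).toNat else 0) ≤
    ∑ r ∈ I, ∑ b ∈ I, (if r ≠ b then t5F r b else 0) := by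
  rintro I rfl
  decide +kernel

theorem num5G : ∀ I : Finset (Fin 5), (0 ∉ I ∧ 1 ∉ I ∧ 2 ∉ I ∧ 4 ∉ I) →
    2 * (∑ a ∈ I, ∑ b ∈ I, if a < b then b5E1 a b else 0) +
    8 * (∑ a ∈ I, ∑ b ∈ I, ∑ c ∈ I, if a < b ∧ b < c then
      2 - (E5 a b).toNat - (E5 a c).toNat - (E5 b c).toNat else 0) ≤
    ∑ r ∈ I, ∑ b ∈ I, (if r ≠ b then (fun _ _ => 0 : Fin 5 → Fin 5 → ℕ) r b else 0) := by
  decide +kernel

namespace K5

open TP

variable {T : Finset D.ι} {a b c d e : D.ι} (H : D.K5 T a b c d e)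

include H

theorem tauE (hD : ∀ m ∈ T, m ∉ D.LM T → ¬ D.Adj m d) : ∀ i j, i ≠ j →
    ![a, b, c, d, e] i ∈ Rset D.g T → ![a, b, c, d, e] j ∈ Rset D.g T →
    t5E i j ≤ D.t8 (T.erase (![a, b, c, d, e] i)) (![a, b, c, d, e] j) := by
  intro i j hij _ _
  fin_cases i <;> fin_cases j <;>
    first
    | exact absurd rfl hij
    | exact t8_ge5 _ _
    | skip
  · exact H.tab
  · exact H.tba
  · exact H.tbc
  · exact H.tca
  · exact H.tcb
  · exact H.tcd hD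
  · exact H.txa H.p.ad.symm H.p.bd.symm H.p.cd.symm
  · exact H.tdc
  · exact H.txa H.p.ae.symm H.p.be.symm H.p.ce.symm
  · exact H.ted hD

theorem tauF : ∀ i j, i ≠ j →
    ![a, b, c, d, e] i ∈ Rset D.g T → ![a, b, c, d, e] j ∈ Rset D.g T →
    t5F i j ≤ D.t8 (T.erase (![a, b, c, d, e] i)) (![a, b, c, d, e] j) := by
  intro i j hij _ _
  fin_cases i <;> fin_cases j <;>
    first
    | exact absurd rfl hij
    | exact t8_ge5 _ _
    | skip
  · exact H.tab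
  · exact H.tba
  · exact H.tbc
  · exact H.tca
  · exact H.tcb
  · exact H.txa H.p.ad.symm H.p.bd.symm H.p.cd.symm
  · exact H.tdc
  · exact H.txa H.p.ae.symm H.p.be.symm H.p.ce.symm

theorem hA5 : ∀ i j, E5 i j = true → D.Adj (![a, b, c, d, e] i) (![a, b, c, d, e] j) := by
  intro i j h
  fin_cases i <;> fin_cases j <;>
    first | exact absurd h (by decide) | exact H.Aab | exact H.Abc | exact H.Acd | exact H.Ade

theorem pr2 {x y : D.ι} (hx : x ∈ Rset D.g T) (hy : y ∈ Rset D.g T) :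
    ∀ p ∈ ({x, y} : Finset D.ι), p ∈ Rset D.g T := by
  intro p hp
  simp only [Finset.mem_insert, Finset.mem_singleton] at hp
  rcases hp with rfl | rfl <;> assumption

/-- sizes of the neighbourhoods -/
theorem cN1 (P : Finset D.ι) : (D.N1 T (D.LM T) P).card ≤ (D.N1 T (D.LM T) {a, b}).card :=
  Finset.card_le_card H.N1_sub

theorem cN2 (P : Finset D.ι) : (D.N2 T (D.LM T) P).card ≤ (D.N2 T (D.LM T) {a, b}).card :=
  Finset.card_le_card H.N2_sub

/-- `R(T) = L` -/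
theorem caseE1 (hD : ∀ m ∈ T, m ∉ D.LM T → ¬ D.Adj m d) (ha : a ∈ Rset D.g T)
    (hb : b ∈ Rset D.g T) (hc : c ∈ Rset D.g T) (hd : d ∈ Rset D.g T) (he : e ∈ Rset D.g T) :
    D.TB T := by
  classical
  have hN0 : ∀ P : Finset D.ι, ∑ z ∈ D.N0 T (D.LM T) P, q4 (D.cnt T z P) ≤ 0 := by
    intro P
    refine (Finset.sum_eq_zero fun z hz => ?_).le
    obtain ⟨⟨h1, h2⟩, -⟩ := mem_N0.1 hz
    exact absurd (by rcases H.memL h1 with rfl | rfl | rfl | rfl | rfl <;> assumption) h2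
  have h12 := H.y12 hD ha H.p.ac H.p.ad H.p.ae
  have h2 := H.y2_le hD ha H.p.ad H.p.ae
  refine D.tb5 H.hT H.p.eq H.nodup E5 b5E1 t5E H.hA5 ?_ ?_ ?_ ?_ ?_ ?_ ?_ ?_ ?_ ?_
    (H.tauE hD) (fun I => I = Finset.univ) ?_ num5E1
  · intro _ _
    have := H.gAB ha hb (hN0 _)
    have := H.y123 hD ha
    show D.G T {a, b} ≤ 16
    omega
  · intro _ _
    have := G_le_four D.stmtGDEC H.hT ha hc H.p.ac (Or.inr (not_five5 (Or.inl H.p.vac))) (hN0 _)
    have := H.cN1 {a, c}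
    have := H.cN2 {a, c}
    show D.G T {a, c} ≤ 12
    omega
  · intro _ _
    have := H.gXD ha hd H.p.ad H.p.ae (Or.inl H.p.vad) (hN0 _)
    have := H.cN1 {a, d}
    have := H.cN2 {a, d}
    show D.G T {a, d} ≤ 7
    omega
  · intro _ _
    exact H.gNone ha he H.p.ae (Or.inl H.p.vae) (H.N1_xe hD) (hN0 _)
  · intro _ _
    have := G_le_four D.stmtGDEC H.hT hb hc H.p.bc (Or.inr (not_five5 (Or.inr H.p.vbc))) (hN0 _)
    have := H.cN1 {b, c}
    have := H.cN2 {b, c}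
    show D.G T {b, c} ≤ 12
    omega
  · intro _ _
    have := H.gXD hb hd H.p.bd H.p.be (Or.inl H.p.vbd) (hN0 _)
    have := H.cN1 {b, d}
    have := H.cN2 {b, d}
    show D.G T {b, d} ≤ 7
    omega
  · intro _ _
    exact H.gNone hb he H.p.be (Or.inl H.p.vbe) (H.N1_xe hD) (hN0 _)
  · intro _ _
    have := H.gXD hc hd H.p.cd H.p.ce (Or.inr H.p.vcd) (hN0 _)
    have := H.cN1 {c, d}
    have := H.cN2 {c, d}
    show D.G T {c, d} ≤ 7
    omega
  · intro _ _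
    exact H.gNone hc he H.p.ce (Or.inl H.p.vce) (H.N1_xe hD) (hN0 _)
  · intro _ _
    exact H.gNone hd he H.p.de (Or.inr H.p.vde) H.N1_de (hN0 _)
  · intro I hI
    ext i
    simp only [Finset.mem_univ, iff_true]
    rw [hI]
    fin_cases i <;> assumption

/-- `e ∈ R(T)`, `a ∉ R(T)` -/
theorem caseE2 (hD : ∀ m ∈ T, m ∉ D.LM T → ¬ D.Adj m d) (ha : a ∉ Rset D.g T)
    (hbc : b ∈ Rset D.g T → c ∈ Rset D.g T) (hcd : c ∈ Rset D.g T → d ∈ Rset D.g T)
    (he : e ∈ Rset D.g T) : D.TB T := by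
  classical
  refine D.tb5 H.hT H.p.eq H.nodup E5 b5E2 t5E H.hA5 ?_ ?_ ?_ ?_ ?_ ?_ ?_ ?_ ?_ ?_
    (H.tauE hD) (fun I => 0 ∉ I ∧ 4 ∈ I ∧ (1 ∈ I → 2 ∈ I) ∧ (2 ∈ I → 3 ∈ I)) ?_ num5E2
  · intro h; exact absurd h ha
  · intro h; exact absurd h ha
  · intro h; exact absurd h ha
  · intro h; exact absurd h ha
  · intro hb hc
    have h0 := D.N0_sum5 H.p.eq H.nodup {b, c} 0 0 0 0 0
      (fun _ h _ => absurd H.Aab (h b (by simp))) (fun h => absurd (by simp) h)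
      (fun h => absurd (by simp) h) (fun _ h _ => absurd H.Adc (h c (by simp)))
      (fun _ _ h => absurd he h) (H.pr2 hb hc)
    have := G_le_four D.stmtGDEC H.hT hb hc H.p.bc (Or.inr (not_five5 (Or.inr H.p.vbc))) h0
    have := H.cN1 {b, c}
    have := H.cN2 {b, c}
    have := H.y12 hD hb H.p.bc H.p.bd H.p.be
    show D.G T {b, c} ≤ 12
    omega
  · intro hb hd
    have h0 := D.N0_sum5 H.p.eq H.nodup {b, d} 0 0 0 0 0
      (fun _ h _ => absurd H.Aab (h b (by simp))) (fun h => absurd (by simp) h)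
      (fun _ h _ => absurd H.Acb (h b (by simp))) (fun h => absurd (by simp) h)
      (fun _ _ h => absurd he h) (H.pr2 hb hd)
    have := H.gXD hb hd H.p.bd H.p.be (Or.inl H.p.vbd) h0
    have := H.cN1 {b, d}
    have := H.cN2 {b, d}
    have := H.y12 hD hb H.p.bc H.p.bd H.p.be
    have := H.y2_le hD hb H.p.bd H.p.be
    show D.G T {b, d} ≤ 7
    omega
  · intro hb he
    have h0 := D.N0_sum5 H.p.eq H.nodup {b, e} 0 0 0 0 0
      (fun _ h _ => absurd H.Aab (h b (by simp))) (fun h => absurd (by simp) h)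
      (fun _ h _ => absurd H.Acb (h b (by simp))) (fun _ h _ => absurd H.Ade (h e (by simp)))
      (fun h => absurd (by simp) h) (H.pr2 hb he)
    exact H.gNone hb he H.p.be (Or.inl H.p.vbe) (H.N1_xe hD) h0
  · intro hc hd
    have h0 := D.N0_sum5 H.p.eq H.nodup {c, d} 1 0 0 0 0
      (fun _ _ _ => q4_le1 (cnt_pos (p := c) (z := b) (by simp) (H.sub H.p.mb)
        (by simp [H.p.bc, H.p.bd]) H.Aba H.Abc))
      (fun _ h _ => absurd H.Abc (h c (by simp))) (fun h => absurd (by simp) h)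
      (fun h => absurd (by simp) h) (fun _ _ h => absurd he h) (H.pr2 hc hd)
    have := H.gXD hc hd H.p.cd H.p.ce (Or.inr H.p.vcd) h0
    have := H.cN1 {c, d}
    have := H.cN2 {c, d}
    have := H.y1_le hD hc H.p.cd H.p.ce
    have := H.y2_le hD hc H.p.cd H.p.ce
    show D.G T {c, d} ≤ 9
    omega
  · intro hc he
    have h0 := D.N0_sum5 H.p.eq H.nodup {c, e} 1 0 0 0 0
      (fun _ _ _ => q4_le1 (cnt_pos (p := c) (z := b) (by simp) (H.sub H.p.mb)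
        (by simp [H.p.bc, H.p.be]) H.Aba H.Abc))
      (fun _ h _ => absurd H.Abc (h c (by simp))) (fun h => absurd (by simp) h)
      (fun _ h _ => absurd H.Ade (h e (by simp))) (fun h => absurd (by simp) h) (H.pr2 hc he)
    exact H.gNone hc he H.p.ce (Or.inl H.p.vce) (H.N1_xe hD) h0
  · intro hd he
    have h0 := D.N0_sum5 H.p.eq H.nodup {d, e} 4 1 0 0 0
      (fun _ _ _ => q4_le4 _)
      (fun _ _ _ => q4_le1 (cnt_pos (p := d) (z := c) (by simp) (H.sub H.p.mc)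
        (by simp [H.p.cd, H.p.ce]) H.Acb H.Acd))
      (fun _ h _ => absurd H.Acd (h d (by simp))) (fun h => absurd (by simp) h)
      (fun h => absurd (by simp) h) (H.pr2 hd he)
    exact H.gNone hd he H.p.de (Or.inr H.p.vde) H.N1_de h0
  · intro I hI
    refine ⟨fun h => ha ((hI 0).1 h), (hI 4).2 he, fun h => (hI 2).2 (hbc ((hI 1).1 h)),
      fun h => (hI 3).2 (hcd ((hI 2).1 h))⟩

/-! ### a node adjacent to `d` -/

section branch

variable (ha : a ∈ Rset D.g T) {m : D.ι} (hm : m ∈ T) (hmL : m ∉ D.LM T) (hmd : D.Adj d m)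

include ha hm hmL hmd

theorem oS {z : D.ι} (hz : z ∈ T) (hzL : z ∉ D.LM T) : z ∈ T.erase a :=
  Finset.mem_erase.2 ⟨(H.ne_of hzL H.p.ma).symm, hz⟩

theorem one_d {m' : D.ι} (h1 : m' ∈ T) (h2 : m' ∉ D.LM T) (h3 : D.Adj m' d) : m' = m := by
  by_contra hne
  exact four_nb (H.pdR a ha) (Finset.mem_erase.2 ⟨H.p.ad.symm, H.sub H.p.md⟩)
    (Finset.mem_erase.2 ⟨H.p.ac.symm, H.sub H.p.mc⟩)
    (Finset.mem_erase.2 ⟨H.p.ae.symm, H.sub H.p.me⟩) (H.oS ha hm hmL hmd hm hmL)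
    (H.oS ha hm hmL hmd h1 h2) H.Adc H.Ade hmd (h3.symm D) H.p.ce (H.ne_of hmL H.p.mc)
    (H.ne_of h2 H.p.mc) (H.ne_of hmL H.p.me) (H.ne_of h2 H.p.me) (Ne.symm hne)

theorem one_e {m1 m2 : D.ι} (h1 : m1 ∈ T) (h2 : m1 ∉ D.LM T) (h3 : D.Adj m1 e)
    (k1 : m2 ∈ T) (k2 : m2 ∉ D.LM T) (k3 : D.Adj m2 e) : m1 = m2 := by
  by_contra hne
  exact br1 (H.pdR a ha) (p := d) (x := e) (q := c) (q' := m) (r := m1) (r' := m2)
    (Finset.mem_erase.2 ⟨H.p.ad.symm, H.sub H.p.md⟩)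
    (Finset.mem_erase.2 ⟨H.p.ae.symm, H.sub H.p.me⟩)
    (Finset.mem_erase.2 ⟨H.p.ac.symm, H.sub H.p.mc⟩)
    (H.oS ha hm hmL hmd hm hmL) (H.oS ha hm hmL hmd h1 h2) (H.oS ha hm hmL hmd k1 k2)
    H.Ade H.Adc hmd (h3.symm D) (k3.symm D) (H.ne_of hmL H.p.mc) hne H.p.ce
    (H.ne_of hmL H.p.me).symm (H.ne_of h2 H.p.md).symm (H.ne_of k2 H.p.md).symm

/-- a node of `N1` is `m` or adjacent to `e` -/
theorem N1_or {P : Finset D.ι} {z : D.ι} (hz : z ∈ D.N1 T (D.LM T) P) :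
    z = m ∨ D.Adj z e := by
  obtain ⟨h1, h2, h3, -⟩ := H.y1 hz
  rcases h3 with h3 | h3
  · exact Or.inl (H.one_d ha hm hmL hmd h1 h2 h3)
  · exact Or.inr h3

/-- at most one second neighbour -/
theorem N2_one : (D.N2 T (D.LM T) {a, b}).card ≤ 1 := by
  classical
  refine Finset.card_le_one.2 fun x hx x' hx' => ?_
  by_contra hne
  obtain ⟨a1, a2, -, a4, z, hz, hxz⟩ := mem_N2.1 hx
  obtain ⟨b1, b2, -, b4, z', hz', hxz'⟩ := mem_N2.1 hx'
  have hS := H.pdR a ha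
  have dS : d ∈ T.erase a := Finset.mem_erase.2 ⟨H.p.ad.symm, H.sub H.p.md⟩
  have eS : e ∈ T.erase a := Finset.mem_erase.2 ⟨H.p.ae.symm, H.sub H.p.me⟩
  have cS : c ∈ T.erase a := Finset.mem_erase.2 ⟨H.p.ac.symm, H.sub H.p.mc⟩
  have bS : b ∈ T.erase a := Finset.mem_erase.2 ⟨H.p.ab.symm, H.sub H.p.mb⟩
  have mS := H.oS ha hm hmL hmd hm hmL
  have xS := H.oS ha hm hmL hmd a1 a2
  have xS' := H.oS ha hm hmL hmd b1 b2
  -- mixed case
  have mix : ∀ {x z' : D.ι}, x ∈ T → x ∉ D.LM T → D.NA x (D.LM T) → D.Adj x m →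
      z' ∈ D.N1 T (D.LM T) {a, b} → D.Adj z' e → False := by
    intro x z' h1 h2 h3 h4 h5 h6
    obtain ⟨k1, k2, -, -⟩ := H.y1 h5
    have k3 : z' ≠ m := by
      rintro rfl
      exact H.nde z' k1 k2 ⟨hmd.symm D, h6⟩
    exact no_E6 hS (p := d) (x := c) (x2 := b) (y := m) (y2 := x) (z := e) (z2 := z') dS cS bS
      mS (H.oS ha hm hmL hmd h1 h2) eS (H.oS ha hm hmL hmd k1 k2) H.Adc hmd H.Ade H.Acb
      (h4.symm D) (h6.symm D) H.p.bd.symm (H.ne_of h2 H.p.md) (H.ne_of k2 H.p.md)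
      (H.ne_of hmL H.p.mc) (H.ne_of h2 H.p.mc) H.p.ce (H.ne_of k2 H.p.mc)
      (H.ne_of hmL H.p.mb) (H.ne_of h2 H.p.mb) H.p.be (H.ne_of k2 H.p.mb)
      (H.ne_of hmL H.p.me).symm k3.symm (H.ne_of h2 H.p.me).symm
      (by rintro rfl; exact h3 e H.p.me h6)
  have same_e : D.Adj z e → D.Adj z' e → False := by
    intro h1 h2
    obtain ⟨k1, k2, -, -⟩ := H.y1 hz
    obtain ⟨l1, l2, -, -⟩ := H.y1 hz'
    have e1 : z = z' := H.one_e ha hm hmL hmd k1 k2 h1 l1 l2 h2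
    subst e1
    exact br2 hS (p := d) (y := e) (x := z) (q := c) (q' := m) (r := x) (r' := x') dS eS
      (H.oS ha hm hmL hmd k1 k2) cS mS xS xS' H.Ade (h1.symm D) (H.ne_of k2 H.p.md) H.Adc hmd
      (hxz.symm D) (hxz'.symm D) (H.ne_of hmL H.p.mc) hne ⟨H.p.ce, H.ne_of k2 H.p.mc⟩
      ⟨(H.ne_of hmL H.p.me).symm, by rintro rfl; exact H.nde m hm hmL ⟨hmd.symm D, h1⟩⟩
      ⟨(H.ne_of a2 H.p.md).symm, (H.ne_of a2 H.p.me).symm⟩
      ⟨(H.ne_of b2 H.p.md).symm, (H.ne_of b2 H.p.me).symm⟩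
  rcases H.N1_or ha hm hmL hmd hz with e1 | e1
  · rcases H.N1_or ha hm hmL hmd hz' with e2 | e2
    · subst e1
      subst e2
      exact br1 hS (p := d) (x := z') (q := c) (q' := e) (r := x) (r' := x') dS mS cS eS xS xS'
        hmd H.Adc H.Ade (hxz.symm D) (hxz'.symm D) H.p.ce hne (H.ne_of hmL H.p.mc)
        (H.ne_of hmL H.p.me) (H.ne_of a2 H.p.md).symm (H.ne_of b2 H.p.md).symm
    · subst e1
      exact mix a1 a2 a4 hxz hz' e2
  · rcases H.N1_or ha hm hmL hmd hz' with e2 | e2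
    · subst e2
      exact mix b1 b2 b4 hxz' hz e1
    · exact same_e e1 e2

/-- at most one third neighbour -/
theorem N3_one : (D.N3 T (D.LM T) {a, b}).card ≤ 1 := by
  classical
  refine Finset.card_le_one.2 fun y hy y' hy' => ?_
  by_contra hne
  obtain ⟨a1, a2, a3, a4, a5, x, hx, hyx⟩ := mem_N3_5.1 hy
  obtain ⟨b1, b2, b3, b4, b5, x', hx', hyx'⟩ := mem_N3_5.1 hy'
  have e1 : x' = x := Finset.card_le_one.1 (H.N2_one ha hm hmL hmd) x' hx' x hx
  subst e1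
  obtain ⟨c1, c2, -, c4, z, hz, hxz⟩ := mem_N2.1 hx
  obtain ⟨k1, k2, -, -⟩ := H.y1 hz
  have hS := H.pdR a ha
  have dS : d ∈ T.erase a := Finset.mem_erase.2 ⟨H.p.ad.symm, H.sub H.p.md⟩
  have eS : e ∈ T.erase a := Finset.mem_erase.2 ⟨H.p.ae.symm, H.sub H.p.me⟩
  have cS : c ∈ T.erase a := Finset.mem_erase.2 ⟨H.p.ac.symm, H.sub H.p.mc⟩
  have mS := H.oS ha hm hmL hmd hm hmL
  have xS := H.oS ha hm hmL hmd c1 c2
  have yS := H.oS ha hm hmL hmd a1 a2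
  have yS' := H.oS ha hm hmL hmd b1 b2
  rcases H.N1_or ha hm hmL hmd hz with e1 | e1
  · subst e1
    exact br2 hS (p := d) (y := z) (x := x') (q := c) (q' := e) (r := y) (r' := y') dS mS xS cS
      eS yS yS' hmd (hxz.symm D) (H.ne_of c2 H.p.md) H.Adc H.Ade (hyx.symm D) (hyx'.symm D)
      H.p.ce hne ⟨H.ne_of hmL H.p.mc, H.ne_of c2 H.p.mc⟩
      ⟨H.ne_of hmL H.p.me, H.ne_of c2 H.p.me⟩
      ⟨(H.ne_of a2 H.p.md).symm, by rintro rfl; exact a4 d H.p.md (hmd.symm D)⟩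
      ⟨(H.ne_of b2 H.p.md).symm, by rintro rfl; exact b4 d H.p.md (hmd.symm D)⟩
  · exact br3 hS (p := d) (y := e) (z := z) (x := x') (q := c) (q' := m) (r := y) (r' := y') dS
      eS (H.oS ha hm hmL hmd k1 k2) xS cS mS yS yS' H.Ade (e1.symm D) (hxz.symm D)
      (H.ne_of k2 H.p.md) (H.ne_of c2 H.p.me) H.Adc hmd (hyx.symm D) (hyx'.symm D)
      (H.ne_of hmL H.p.mc) hne ⟨H.p.ce, H.ne_of k2 H.p.mc, H.ne_of c2 H.p.mc⟩
      ⟨(H.ne_of hmL H.p.me).symm, by rintro rfl; exact H.nde m hm hmL ⟨hmd.symm D, e1⟩,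
        by rintro rfl; exact c4 d H.p.md (hmd.symm D)⟩
      ⟨(H.ne_of a2 H.p.md).symm, (H.ne_of a2 H.p.me).symm,
        by rintro rfl; exact a4 e H.p.me e1⟩
      ⟨(H.ne_of b2 H.p.md).symm, (H.ne_of b2 H.p.me).symm,
        by rintro rfl; exact b4 e H.p.me e1⟩

/-- a weighted sum over the first neighbours -/
theorem N1_sum (P : Finset D.ι) (f : D.ι → ℕ) (k : ℕ) (hf : ∀ z ∈ D.N1 T (D.LM T) P, f z ≤ 4)
    (hk : m ∈ D.N1 T (D.LM T) P → f m ≤ k) :
    ∑ z ∈ D.N1 T (D.LM T) P, f z ≤ k + 4 := by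
  classical
  have h1 : (((D.N1 T (D.LM T) P).filter fun z => z ≠ m)).card ≤ 1 := by
    refine Finset.card_le_one.2 fun z hz z' hz' => ?_
    rw [Finset.mem_filter] at hz hz'
    obtain ⟨k1, k2, -, -⟩ := H.y1 hz.1
    obtain ⟨l1, l2, -, -⟩ := H.y1 hz'.1
    exact H.one_e ha hm hmL hmd k1 k2 ((H.N1_or ha hm hmL hmd hz.1).resolve_left hz.2) l1 l2
      ((H.N1_or ha hm hmL hmd hz'.1).resolve_left hz'.2)
  rw [← Finset.sum_filter_add_sum_filter_not _ (fun z => z = m)]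
  have h2 : ∑ z ∈ (D.N1 T (D.LM T) P).filter (fun z => ¬ z = m), f z ≤ 4 := by
    refine (Finset.sum_le_card_nsmul _ _ 4 fun z hz => hf z (Finset.mem_filter.1 hz).1).trans ?_
    rw [smul_eq_mul]
    have : (((D.N1 T (D.LM T) P).filter fun z => ¬ z = m)).card ≤ 1 := h1
    omega
  have h3 : ∑ z ∈ (D.N1 T (D.LM T) P).filter (fun z => z = m), f z ≤ k := by
    by_cases hmN : m ∈ D.N1 T (D.LM T) P
    · refine (Finset.sum_le_card_nsmul _ _ k fun z hz => ?_).trans ?_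
      · rw [(Finset.mem_filter.1 hz).2]; exact hk hmN
      · rw [smul_eq_mul]
        have : ((D.N1 T (D.LM T) P).filter fun z => z = m).card ≤ 1 :=
          Finset.card_le_one.2 fun z hz z' hz' =>
            (Finset.mem_filter.1 hz).2.trans (Finset.mem_filter.1 hz').2.symm
        nlinarith
    · have : ((D.N1 T (D.LM T) P).filter fun z => z = m) = ∅ := by
        rw [Finset.eq_empty_iff_forall_notMem]
        intro z hz
        rw [Finset.mem_filter] at hz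
        exact hmN (hz.2 ▸ hz.1)
      rw [this]; simp
  omega

theorem N1_two : (D.N1 T (D.LM T) {a, b}).card ≤ 2 := by
  classical
  have h1 : ((D.N1 T (D.LM T) {a, b}).erase m).card ≤ 1 := by
    refine Finset.card_le_one.2 fun z hz z' hz' => ?_
    rw [Finset.mem_erase] at hz hz'
    obtain ⟨k1, k2, -, -⟩ := H.y1 hz.2
    obtain ⟨l1, l2, -, -⟩ := H.y1 hz'.2
    exact H.one_e ha hm hmL hmd k1 k2 ((H.N1_or ha hm hmL hmd hz.2).resolve_left hz.1) l1 l2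
      ((H.N1_or ha hm hmL hmd hz'.2).resolve_left hz'.1)
  have := Finset.pred_card_le_card_erase (s := D.N1 T (D.LM T) {a, b}) (a := m)
  omega

/-- pairs with `d` -/
theorem N1_d {x : D.ι} : (D.N1 T (D.LM T) {x, d}).card ≤ 1 := by
  classical
  refine Finset.card_le_one.2 fun z hz z' hz' => ?_
  obtain ⟨k1, k2, k3, k4⟩ := H.y1 hz
  obtain ⟨l1, l2, l3, l4⟩ := H.y1 hz'
  exact H.one_e ha hm hmL hmd k1 k2 (k3.resolve_left (k4 d (by simp))) l1 l2
    (l3.resolve_left (l4 d (by simp)))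

/-- pairs with `c` and without `d` -/
theorem gXC {x : D.ι} (hx : x ∈ Rset D.g T) (hc : c ∈ Rset D.g T) (hxc : x ≠ c)
    (hxd : x ≠ d) (hf : D.g x c = 0 ∨ D.g x c = -(1 / 2)) {c0 : ℕ}
    (h0 : ∑ z ∈ D.N0 T (D.LM T) {x, c}, q4 (D.cnt T z {x, c}) ≤ c0) :
    D.G T {x, c} ≤ c0 + 9 := by
  classical
  have g := D.stmtGDEC T H.hT x hx c hc hxc
  have e1 : ∑ z ∈ D.N1 T (D.LM T) {x, c}, q4 (D.cnt T z {x, c}) ≤ 1 + 4 := by
    refine H.N1_sum ha hm hmL hmd _ _ 1 (fun _ _ => q4_le4 _) fun _ => ?_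
    exact q4_le1 (cnt_pos_of_contact (s := d) (H.sub H.p.md) hxd.symm H.p.cd.symm
      (hmd.symm D) (Or.inr H.Adc))
  have e2 : ∑ z ∈ D.N2 T (D.LM T) {x, c}, D.c2 T z {x, c} ≤ 4 := by
    refine (Finset.sum_le_card_nsmul _ _ 4 fun _ _ => c2_le4 _ _ _).trans ?_
    rw [smul_eq_mul]
    have := H.cN2 {x, c}
    have := H.N2_one ha hm hmL hmd
    omega
  have e3 : ∑ z ∈ D.N3 T (D.LM T) {x, c}, D.c3 T z {x, c} = 0 :=
    Finset.sum_eq_zero fun z _ => c3_zero (Or.inr (not_five5 hf))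
  omega

/-- `R(T) = {a, b, c, d}` -/
theorem caseF (hb : b ∈ Rset D.g T) (hc : c ∈ Rset D.g T) (hd : d ∈ Rset D.g T)
    (he : e ∉ Rset D.g T) : D.TB T := by
  classical
  have y1 := H.N1_two ha hm hmL hmd
  have y2 := H.N2_one ha hm hmL hmd
  have y3 := H.N3_one ha hm hmL hmd
  refine D.tb5 H.hT H.p.eq H.nodup E5 b5F t5F H.hA5 ?_ ?_ ?_ ?_ ?_ ?_ ?_ ?_ ?_ ?_
    H.tauF (fun I => I = {0, 1, 2, 3}) ?_ num5F
  · intro _ _
    have h0 := D.N0_sum5 H.p.eq H.nodup {a, b} 0 0 0 0 4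
      (fun h => absurd (by simp) h) (fun h => absurd (by simp) h)
      (fun _ h _ => absurd H.Acb (h b (by simp))) (fun _ _ h => absurd hd h)
      (fun _ _ _ => q4_le4 _) (H.pr2 ha hb)
    have := H.gAB ha hb h0
    show D.G T {a, b} ≤ 20
    omega
  · intro _ _
    have h0 := D.N0_sum5 H.p.eq H.nodup {a, c} 0 0 0 0 1
      (fun h => absurd (by simp) h) (fun _ h _ => absurd H.Aba (h a (by simp)))
      (fun h => absurd (by simp) h) (fun _ _ h => absurd hd h)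
      (fun _ _ _ => q4_le1 (cnt_pos (p := c) (z := d) (by simp) (H.sub H.p.md)
        (by simp [H.p.ad.symm, H.p.cd.symm]) H.Ade H.Adc)) (H.pr2 ha hc)
    have := H.gXC ha hm hmL hmd ha hc H.p.ac H.p.ad (Or.inl H.p.vac) h0
    show D.G T {a, c} ≤ 10
    omega
  · intro _ _
    have h0 := D.N0_sum5 H.p.eq H.nodup {a, d} 0 0 0 0 0
      (fun h => absurd (by simp) h) (fun _ h _ => absurd H.Aba (h a (by simp)))
      (fun _ _ h => absurd hc h) (fun h => absurd (by simp) h)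
      (fun _ h _ => absurd H.Aed (h d (by simp))) (H.pr2 ha hd)
    have := H.gXD ha hd H.p.ad H.p.ae (Or.inl H.p.vad) h0
    have := H.N1_d ha hm hmL hmd (x := a)
    have := H.cN2 {a, d}
    show D.G T {a, d} ≤ 4
    omega
  · intro _ h; exact absurd h he
  · intro _ _
    have h0 := D.N0_sum5 H.p.eq H.nodup {b, c} 0 0 0 0 1
      (fun _ _ h => absurd ha h) (fun h => absurd (by simp) h)
      (fun h => absurd (by simp) h) (fun _ _ h => absurd hd h)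
      (fun _ _ _ => q4_le1 (cnt_pos (p := c) (z := d) (by simp) (H.sub H.p.md)
        (by simp [H.p.bd.symm, H.p.cd.symm]) H.Ade H.Adc)) (H.pr2 hb hc)
    have := H.gXC ha hm hmL hmd hb hc H.p.bc H.p.bd (Or.inr H.p.vbc) h0
    show D.G T {b, c} ≤ 10
    omega
  · intro _ _
    have h0 := D.N0_sum5 H.p.eq H.nodup {b, d} 0 0 0 0 0
      (fun _ _ h => absurd ha h) (fun h => absurd (by simp) h)
      (fun _ _ h => absurd hc h) (fun h => absurd (by simp) h)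
      (fun _ h _ => absurd H.Aed (h d (by simp))) (H.pr2 hb hd)
    have := H.gXD hb hd H.p.bd H.p.be (Or.inl H.p.vbd) h0
    have := H.N1_d ha hm hmL hmd (x := b)
    have := H.cN2 {b, d}
    show D.G T {b, d} ≤ 4
    omega
  · intro _ h; exact absurd h he
  · intro _ _
    have h0 := D.N0_sum5 H.p.eq H.nodup {c, d} 0 0 0 0 0
      (fun _ _ h => absurd ha h) (fun _ _ h => absurd hb h)
      (fun h => absurd (by simp) h) (fun h => absurd (by simp) h)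
      (fun _ h _ => absurd H.Aed (h d (by simp))) (H.pr2 hc hd)
    have := H.gXD hc hd H.p.cd H.p.ce (Or.inr H.p.vcd) h0
    have := H.N1_d ha hm hmL hmd (x := c)
    have := H.cN2 {c, d}
    show D.G T {c, d} ≤ 4
    omega
  · intro _ h; exact absurd h he
  · intro _ h; exact absurd h he
  · intro I hI
    ext i
    rw [hI]
    fin_cases i
    · exact iff_of_true ha (by decide)
    · exact iff_of_true hb (by decide)
    · exact iff_of_true hc (by decide)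
    · exact iff_of_true hd (by decide)
    · exact iff_of_false he (by decide)

end branch

end K5

/-- **Block T5333** -/
theorem stmtT5333 (D : CoxData n) (hcls : D.StmtCLS) : D.StmtT5333 := by
  classical
  intro T hT a b c d e hp
  obtain ⟨_, _, x3, x4, x5, _, _⟩ := D.stmtCTX T hT
  have hNB := D.stmtNB (D.stmtCLF hcls) (D.stmtCLT hcls) hcls D.stmtCTX
  have hNB' := hNB T hT a b c d e (1 / 2) (Or.inl rfl) hp
  have hc4 : D.cls (D.LM T) = 4 :=
    (D.stmtCLF hcls).2.2.1 _ _ _ _ _ _ _ (by norm_num) hp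
  have H : D.K5 T a b c d e :=
    { hT := hT
      p := hp
      c4 := hc4
      sub := x3
      Rsub := x4
      pdR := x5
      na := fun m h1 h2 => (hNB' m h1 h2).1
      nb := fun m h1 h2 => (hNB' m h1 h2).2.1
      nc := fun m h1 h2 => (hNB' m h1 h2).2.2.1
      nde := fun m h1 h2 => (hNB' m h1 h2).2.2.2.2.1 }
  obtain ⟨rab, rbc, rcd, r4, r5⟩ := stmtR5 D D.stmtCTX (D.stmtCLF hcls) (D.stmtCLT hcls) hNB
    D.stmtLCON T hT a b c d e hp
  by_cases he : e ∈ Rset D.g T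
  · have hD : ∀ m ∈ T, m ∉ D.LM T → ¬ D.Adj m d := fun m h1 h2 h3 => r4 m h1 h2 h3 he
    by_cases ha : a ∈ Rset D.g T
    · exact H.caseE1 hD ha (rab ha) (rbc (rab ha)) (rcd (rbc (rab ha))) he
    · exact H.caseE2 hD ha rbc rcd he
  · by_cases hc : c ∈ Rset D.g T
    · obtain ⟨m, h1, h2, h3⟩ := r5 hc he
      have hb := H.bR hcls h1 h2 (h3.symm D) hc
      have ha := H.aR hcls h1 h2 (h3.symm D) hb
      exact H.caseF ha h1 h2 (h3.symm D) hb hc (rcd hc) he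
    · -- `R(T)` has at most one element
      have hb : b ∉ Rset D.g T := fun h => hc (rbc h)
      have ha : a ∉ Rset D.g T := fun h => hb (rab h)
      refine D.tb5 hT hp.eq H.nodup E5 b5E1 (fun _ _ => 0) H.hA5 (fun h => absurd h ha)
        (fun h => absurd h ha) (fun h => absurd h ha) (fun h => absurd h ha)
        (fun h => absurd h hb) (fun h => absurd h hb) (fun h => absurd h hb)
        (fun h => absurd h hc) (fun h => absurd h hc) (fun _ h => absurd h he)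
        (fun _ _ _ _ _ => Nat.zero_le _) (fun I => 0 ∉ I ∧ 1 ∉ I ∧ 2 ∉ I ∧ 4 ∉ I) ?_ num5G
      intro I hI
      exact ⟨fun h => ha ((hI 0).1 h), fun h => hb ((hI 1).1 h), fun h => hc ((hI 2).1 h),
        fun h => he ((hI 4).1 h)⟩

end CoxData

end MP345
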