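import Mathlib
import Pool.Agent.Work.MP_345ef2_gt_24.T_TB
import Pool.Agent.Work.MP_345ef2_gt_24.T_GDEC

/-!
# Block T53X (MP_345ef2_gt, T level, n <= 24)
-/

namespace MP345

open Finset

variable {n : ℕ}

namespace CoxData

variable (D : CoxData n)

/-- a heavy edge with `z = √2/2` or `z = c5` -/
theorem le_s2_of {z g : ℝ} (hz : z = √2 / 2 ∨ z = c5) (h : g = -z) : g ≤ -(√2 / 2) := by
  have h1 := s2_lt
  have h2 := c5_gt
  rcases hz with rfl | rfl
  · rw [h]
  · rw [h]; linarith

/-- neighbours of the path `b - c = d` in `T - a`, pairs `{a, b}`, `{a, c}`, `{a, d}`: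
at most one neighbour and at most one second neighbour; no second neighbour if the neighbour is
adjacent to `d` -/
theorem p53_a {T : Finset D.ι} (hT : T ∈ Tsets D.g n) {a b c d x : D.ι} {z : ℝ}
    (hz : z = √2 / 2 ∨ z = c5) (h : D.Path4 a b c d c5 (1 / 2) z (D.LM T))
    (hx : x ∈ Rset D.g T) (ha : a ∈ Rset D.g T) (hxa : x ≠ a) :
    (D.N1 T (D.LM T) {x, a}).card ≤ 1 ∧ (D.N2 T (D.LM T) {x, a}).card ≤ 1 ∧
    ((∃ m ∈ D.N1 T (D.LM T) {x, a}, D.Adj m d) → (D.N2 T (D.LM T) {x, a}).card = 0) := by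
  classical
  have e := h.eq
  have hz0 : 0 < z := by
    rcases hz with rfl | rfl
    · exact s2_pos
    · exact c5_pos
  have hzne : z ≠ 1 / 2 := by
    rcases hz with rfl | rfl
    · have := s2_gt; intro h'; linarith
    · have := c5_gt; intro h'; linarith
  have Abc := h.Abc (by norm_num)
  have Acb := h.Acb (by norm_num)
  have Acd := h.Acd hz0
  have Adc := h.Adc hz0
  have hLT := (D.stmtCTX T hT).2.2.1
  have hRP := (D.stmtCTX T hT).2.2.2.2.1
  have hS := hRP a ha
  have haL := h.ma
  have hbS : b ∈ T.erase a := Finset.mem_erase.2 ⟨h.ab.symm, hLT h.mb⟩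
  have hcS : c ∈ T.erase a := Finset.mem_erase.2 ⟨h.ac.symm, hLT h.mc⟩
  have hdS : d ∈ T.erase a := Finset.mem_erase.2 ⟨h.ad.symm, hLT h.md⟩
  have tbcd : D.TC {d, c, b} := TC_insert (TC_pair Acb) (by simp [h.cd.symm, h.bd.symm])
    (u := c) (by simp) Adc
  have Hcd : D.Heavy c d := ⟨Acd, by rw [h.vcd]; intro h'; exact hzne (neg_injective h')⟩
  have sub_a : ({d, c, b} : Finset D.ι) ⊆ (D.LM T).erase a := by
    intro s hs
    simp only [Finset.mem_insert, Finset.mem_singleton] at hs
    rw [Finset.mem_erase, e]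
    simp only [Finset.mem_insert, Finset.mem_singleton]
    rcases hs with rfl | rfl | rfl
    · exact ⟨h.ad.symm, by simp⟩
    · exact ⟨h.ac.symm, by simp⟩
    · exact ⟨h.ab.symm, by simp⟩
  have cov_a : ∀ s ∈ D.LM T, s ≠ x → s ≠ a → s ∈ ({d, c, b} : Finset D.ι) := by
    intro s hs _ h1
    rw [e] at hs
    simp only [Finset.mem_insert, Finset.mem_singleton] at hs ⊢
    tauto
  have c3 : ({d, c, b} : Finset D.ι).card = 3 := by
    rw [Finset.card_insert_of_notMem (by simp [h.cd.symm, h.bd.symm]), Finset.card_pair h.bc.symm]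
  have hm1 : ∀ m ∈ D.N1 T (D.LM T) {x, a}, m ∈ T.erase a ∧ m ∉ D.LM T ∧
      (D.Adj m b ∨ D.Adj m c ∨ D.Adj m d) := by
    intro m hm
    obtain ⟨h1, h2, h3, s, hs, hms⟩ := D.mem_N1_h.1 hm
    refine ⟨Finset.mem_erase.2 ⟨fun e => h2 (e ▸ haL), h1⟩, h2, ?_⟩
    have hsa : s ≠ a := by rintro rfl; exact h3 s (by simp) hms
    rw [e] at hs
    simp only [Finset.mem_insert, Finset.mem_singleton] at hs
    rcases hs with rfl | rfl | rfl | rfl
    · exact absurd rfl hsa
    · exact Or.inl hms
    · exact Or.inr (Or.inl hms)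
    · exact Or.inr (Or.inr hms)
  -- no neighbour at `c`
  have hnc : ∀ m ∈ D.N1 T (D.LM T) {x, a}, ¬ D.Adj m c := by
    intro m hm hmc
    obtain ⟨h1, h2, _⟩ := hm1 m hm
    have hmb : m ≠ b := fun e => h2 (e ▸ h.mb)
    have hmd : m ≠ d := fun e => h2 (e ▸ h.md)
    exact no_heavy3 hS (p := c) (q := d) (r := b) (s := m) hcS hdS hbS h1 h.bd.symm
      (Ne.symm hmd) (Ne.symm hmb) (z_heavy hz h.vcd) h.cd Acb (hmc.symm D)
  obtain ⟨-, -, -, -, g5, -⟩ := D.gen_at_h D.stmtCGEN hT hx ha hxa sub_a tbcd cov_a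
  obtain ⟨-, -, g⟩ := g5 ⟨c, by simp, d, by simp, Hcd⟩
  by_cases hd : ∃ m ∈ D.N1 T (D.LM T) {x, a}, D.Adj m d
  · obtain ⟨m, hm, hmd⟩ := hd
    obtain ⟨h1, h2, _⟩ := hm1 m hm
    have hmb : m ≠ b := fun e => h2 (e ▸ h.mb)
    have hmc : m ≠ c := fun e => h2 (e ▸ h.mc)
    have hN1 : (D.N1 T (D.LM T) {x, a}).card ≤ 1 := by
      refine Finset.card_le_one.2 ?_
      have key : ∀ m' ∈ D.N1 T (D.LM T) {x, a}, m' = m := by
        intro m' hm'
        by_contra hne
        obtain ⟨k1, k2, k3⟩ := hm1 m' hm'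
        have hmb' : m' ≠ b := fun e => k2 (e ▸ h.mb)
        have hmc' : m' ≠ c := fun e => k2 (e ▸ h.mc)
        have hmd' : m' ≠ d := fun e => k2 (e ▸ h.md)
        rcases k3 with k3 | k3 | k3
        · refine no_F4t hS (s := m) (q := d) (p := c) (r := b) (t := m') h1 hdS hcS hbS k1 hmd
            (by rw [D.symm]; exact le_s2_of hz h.vcd) Acb (k3.symm D) ?_
          simp only [List.nodup_cons, List.mem_cons, List.not_mem_nil, or_false, not_or,
            List.nodup_nil, and_true, not_false_eq_true]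
          exact ⟨⟨hmd.1, hmc, hmb, Ne.symm hne⟩, ⟨h.cd.symm, h.bd.symm, Ne.symm hmd'⟩,
            ⟨h.bc.symm, Ne.symm hmc'⟩, Ne.symm hmb'⟩
        · exact hnc m' hm' k3
        · exact no_heavy3 hS (p := d) (q := c) (r := m) (s := m') hdS hcS h1 k1 (Ne.symm hmc)
            (Ne.symm hmc') (Ne.symm hne) (by rw [D.symm]; exact z_heavy hz h.vcd) h.cd.symm
            (hmd.symm D) (k3.symm D)
      intro y hy y' hy'
      rw [key y hy, key y' hy']
    have hN2 : (D.N2 T (D.LM T) {x, a}).card = 0 := by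
      rw [Finset.card_eq_zero, Finset.eq_empty_iff_forall_notMem]
      intro y hy
      obtain ⟨y1, y2, _, y4, m', hm', hym⟩ := D.mem_N2_h.1 hy
      have e1 : m' = m := Finset.card_le_one.1 hN1 m' hm' m hm
      subst e1
      have hyS : y ∈ T.erase a := Finset.mem_erase.2 ⟨fun e => y2 (e ▸ haL), y1⟩
      have hyb : y ≠ b := fun e => y2 (e ▸ h.mb)
      have hyc : y ≠ c := fun e => y2 (e ▸ h.mc)
      have hyd : y ≠ d := fun e => y2 (e ▸ h.md)
      refine no_F4t hS (s := b) (q := c) (p := d) (r := m') (t := y) hbS hcS hdS h1 hyS Abc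
        (le_s2_of hz h.vcd) (hmd.symm D) (hym.symm D) ?_
      simp only [List.nodup_cons, List.mem_cons, List.not_mem_nil, or_false, not_or,
        List.nodup_nil, and_true, not_false_eq_true]
      exact ⟨⟨h.bc, h.bd, Ne.symm hmb, Ne.symm hyb⟩, ⟨h.cd, Ne.symm hmc, Ne.symm hyc⟩,
        ⟨Ne.symm hmd.1, Ne.symm hyd⟩, Ne.symm hym.1⟩
    exact ⟨hN1, by omega, fun _ => hN2⟩
  · push Not at hd
    have h1 := g d ⟨by simp, by omega, by
      refine Finset.card_le_one.2 fun v hv w hw => ?_
      have key : ∀ v ∈ D.nb ({d, c, b} : Finset D.ι) d, v = c := by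
        intro v hv
        obtain ⟨hv1, hv2⟩ := (mem_nb D).1 hv
        simp only [Finset.mem_insert, Finset.mem_singleton] at hv1
        rcases hv1 with rfl | rfl | rfl
        · exact absurd rfl hv2.1
        · rfl
        · exact absurd hv2 h.Ndb
      rw [key v hv, key w hw], fun m hm h' => hd m hm (h'.symm D)⟩
    exact ⟨h1.1, h1.2, fun ⟨m, hm, hmd⟩ => absurd hmd (hd m hm)⟩

/-- neighbours of the path `a = b - c` in `T - d` -/
theorem p53_d {T : Finset D.ι} (hT : T ∈ Tsets D.g n) {a b c d x : D.ι} {z : ℝ}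
    (h : D.Path4 a b c d c5 (1 / 2) z (D.LM T))
    (hx : x ∈ Rset D.g T) (hd : d ∈ Rset D.g T) (hxd : x ≠ d) :
    (D.N1 T (D.LM T) {x, d}).card + (D.N2 T (D.LM T) {x, d}).card ≤ 1 := by
  classical
  have e := h.eq
  have Abc := h.Abc (by norm_num)
  have Aab := h.Aab c5_pos
  have tabc : D.TC {a, b, c} := TC_insert (TC_pair Abc) (by simp [h.ab, h.ac])
    (u := b) (by simp) Aab
  have sub_d : ({a, b, c} : Finset D.ι) ⊆ (D.LM T).erase d := by
    intro s hs
    simp only [Finset.mem_insert, Finset.mem_singleton] at hs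
    rw [Finset.mem_erase, e]
    simp only [Finset.mem_insert, Finset.mem_singleton]
    rcases hs with rfl | rfl | rfl
    · exact ⟨h.ad, by simp⟩
    · exact ⟨h.bd, by simp⟩
    · exact ⟨h.cd, by simp⟩
  have cov_d : ∀ s ∈ D.LM T, s ≠ x → s ≠ d → s ∈ ({a, b, c} : Finset D.ι) := by
    intro s hs _ h1
    rw [e] at hs
    simp only [Finset.mem_insert, Finset.mem_singleton] at hs ⊢
    tauto
  have c3' : ({a, b, c} : Finset D.ι).card = 3 := by
    rw [Finset.card_insert_of_notMem (by simp [h.ab, h.ac]), Finset.card_pair h.bc]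
  have h5 := (D.gen_at_h D.stmtCGEN hT hx hd hxd sub_d tabc cov_d).2.2.2.2.2
    ⟨a, by simp, b, by simp, h.vab⟩
  omega

/-- the middle edge: either no neighbour at `a` and `G ≤ 3`, or `G ≤ 6` and `b` is a leaf of
`T - c` at an edge of label 5 -/
theorem p53_bc {T : Finset D.ι} (hT : T ∈ Tsets D.g n) {a b c d : D.ι} {z : ℝ}
    (hz : z = √2 / 2 ∨ z = c5) (h : D.Path4 a b c d c5 (1 / 2) z (D.LM T))
    (hb : b ∈ Rset D.g T) (hc : c ∈ Rset D.g T) :
    D.G T {b, c} ≤ 3 ∨ (D.G T {b, c} ≤ 6 ∧ 21 ≤ D.t8 (T.erase c) b) := by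
  classical
  have e := h.eq
  have hz0 : 0 < z := by
    rcases hz with rfl | rfl
    · exact s2_pos
    · exact c5_pos
  have hzne : z ≠ 1 / 2 := by
    rcases hz with rfl | rfl
    · have := s2_gt; intro h'; linarith
    · have := c5_gt; intro h'; linarith
  have Aab := h.Aab c5_pos
  have Acd := h.Acd hz0
  have Adc := h.Adc hz0
  have Hcd : D.Heavy c d := ⟨Acd, by rw [h.vcd]; intro h'; exact hzne (neg_injective h')⟩
  have Hab : D.Heavy a b := D.heavy_of_five h.vab
  have hcard : (D.LM T).card ≤ 4 := by rw [e]; exact Finset.card_le_four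
  have hcls := D.cls_ne_four_h hcard
  have hLT := (D.stmtCTX T hT).2.2.1
  have hRP := (D.stmtCTX T hT).2.2.2.2.1
  have h1 := D.G_le_cov_h D.stmtCTX D.stmtGDEC hT hb hc h.bc hcls (by
    intro s hs h1 h2
    rw [e] at hs
    simp only [Finset.mem_insert, Finset.mem_singleton] at hs
    rcases hs with rfl | rfl | rfl | rfl
    · exact Or.inl Aab
    · exact absurd rfl h1
    · exact absurd rfl h2
    · exact Or.inr Adc)
  obtain ⟨p1, p2⟩ := D.parts_le_h T (a := b) (b := c) (V := {a, b}) (W := {d, c}) (by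
    intro s hs h1 h2
    rw [e] at hs
    simp only [Finset.mem_insert, Finset.mem_singleton] at hs ⊢
    tauto)
  have q1 := (D.gen_part_h D.stmtCGEN hT hb hc h.bc (V := {a, b}) (by
    intro s hs
    simp only [Finset.mem_insert, Finset.mem_singleton] at hs
    rw [Finset.mem_erase]
    rcases hs with rfl | rfl
    · exact ⟨h.ac, h.ma⟩
    · exact ⟨h.bc, h.mb⟩) (TC_pair Aab)).2.2.2.2.1 ⟨a, by simp, b, by simp, Hab⟩
  have q2 := q1.2.2 b (D.prot_of_h (z := a) (D.N1p_sub_h _ _ _ _) (by simp) (by simp)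
    (by rw [Finset.card_pair h.ab]) (by
    intro v hv hbv
    simp only [Finset.mem_insert, Finset.mem_singleton] at hv
    rcases hv with rfl | rfl
    · rfl
    · exact absurd rfl hbv.1))
  have q3 := (D.gen_part_h D.stmtCGEN hT hc hb h.bc.symm (V := {d, c}) (by
    intro s hs
    simp only [Finset.mem_insert, Finset.mem_singleton] at hs
    rw [Finset.mem_erase]
    rcases hs with rfl | rfl
    · exact ⟨h.bd.symm, h.md⟩
    · exact ⟨h.bc.symm, h.mc⟩) (TC_pair Adc)).2.2.2.2.1 ⟨c, by simp, d, by simp, Hcd⟩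
  have q4' := q3.2.2 c (D.prot_of_h (z := d) (D.N1p_sub_h _ _ _ _) (by simp) (by simp)
    (by rw [Finset.card_pair h.cd.symm]) (by
    intro v hv hbv
    simp only [Finset.mem_insert, Finset.mem_singleton] at hv
    rcases hv with rfl | rfl
    · rfl
    · exact absurd rfl hbv.1))
  rw [Finset.pair_comm c b] at q4'
  by_cases hm : (D.N1p_h T (D.LM T) {b, c} {a, b}).Nonempty
  · right
    refine ⟨by omega, ?_⟩
    obtain ⟨m, hm⟩ := hm
    obtain ⟨hm1, v, hv, hmv⟩ := Finset.mem_filter.1 hm
    obtain ⟨hmT, hmL, hmP, _⟩ := D.mem_N1_h.1 hm1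
    have hma : D.Adj m a := by
      simp only [Finset.mem_insert, Finset.mem_singleton] at hv
      rcases hv with rfl | rfl
      · exact hmv
      · exact absurd hmv (hmP v (by simp))
    exact D.t8_21 (hRP c hc) (a := a) (b := b) (m := m)
      (Finset.mem_erase.2 ⟨h.ac, hLT h.ma⟩) (Finset.mem_erase.2 ⟨h.bc, hLT h.mb⟩)
      (Finset.mem_erase.2 ⟨fun e => hmL (e ▸ h.mc), hmT⟩) (by rw [D.symm]; exact h.vab)
      (hma.symm D) (fun e => hmL (e ▸ h.mb))
  · left
    rw [Finset.not_nonempty_iff_eq_empty] at hm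
    have hm2 : D.N2p_h T (D.LM T) {b, c} {a, b} = ∅ := by
      rw [Finset.eq_empty_iff_forall_notMem]
      intro y hy
      obtain ⟨_, m, hm1, hmv, _⟩ := Finset.mem_filter.1 hy
      have : m ∈ D.N1p_h T (D.LM T) {b, c} {a, b} := Finset.mem_filter.2 ⟨hm1, hmv⟩
      rw [hm] at this
      exact absurd this (Finset.notMem_empty _)
    rw [hm, Finset.card_empty] at p1
    rw [hm2, Finset.card_empty] at p2
    omega

theorem stmtT53X : D.StmtT53X := by
  classical
  intro T hT a b c d z hz h
  have e := h.eq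
  have hz0 : 0 < z := by
    rcases hz with rfl | rfl
    · exact s2_pos
    · exact c5_pos
  have Aab := h.Aab c5_pos
  have Aba := h.Aba c5_pos
  have Abc := h.Abc (by norm_num)
  have Acb := h.Acb (by norm_num)
  have Acd := h.Acd hz0
  have Adc := h.Adc hz0
  have hcard : (D.LM T).card ≤ 4 := by rw [e]; exact Finset.card_le_four
  have hcls := D.cls_ne_four_h hcard
  have hLT := (D.stmtCTX T hT).2.2.1
  have hbT : b ∈ T := hLT h.mb
  have hcT : c ∈ T := hLT h.mc
  have hinj := inj4_h h.ab h.ac h.ad h.bc h.bd h.cd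
  -- a b
  have b01 : a ∈ Rset D.g T → b ∈ Rset D.g T → D.G T {a, b} ≤ 5 := by
    intro ha hb
    rw [D.G_comm_h]
    have h2 := D.N0_sum_le_h T hb ha {d} (fun s hs h3 h4 h5 h6 => by
      rw [e] at hs
      simp only [Finset.mem_insert, Finset.mem_singleton] at hs ⊢
      rcases hs with rfl | rfl | rfl | rfl
      · exact absurd rfl h4
      · exact absurd rfl h3
      · exact absurd Acb h5
      · rfl)
    rw [Finset.sum_singleton] at h2
    have h3 : 1 ≤ D.cnt T d {b, a} := cnt_pos (p := b) (by simp) hcT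
      (by simp [h.bc.symm, h.ac.symm]) Acd Acb
    have h2' := h2.trans (TP.q4_le1 h3)
    obtain ⟨g1, g2, g3⟩ := D.p53_a hT hz h hb ha h.ab.symm
    by_cases hd : ∃ m ∈ D.N1 T (D.LM T) {b, a}, D.Adj m d
    · have g3 := g3 hd
      have h4 := TP.G_le_four D.stmtGDEC hT hb ha h.ab.symm (Or.inl hcls) h2'
      omega
    · push Not at hd
      have hCov : TP.Cov D T b a := by
        intro s hs h1 h2
        rw [e] at hs
        simp only [Finset.mem_insert, Finset.mem_singleton] at hs
        rcases hs with rfl | rfl | rfl | rfl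
        · exact absurd rfl h2
        · exact absurd rfl h1
        · exact Or.inl (Or.inl Acb)
        · exact Or.inr hd
      have h4 := TP.G_le_cov D.stmtGDEC hT hb ha h.ab.symm hLT hCov hcls h2'
      omega
  -- a c
  have b02 : a ∈ Rset D.g T → c ∈ Rset D.g T → D.G T {a, c} ≤ 3 := by
    intro ha hc
    rw [D.G_comm_h]
    have h1 := D.G_le_cov_h D.stmtCTX D.stmtGDEC hT hc ha h.ac.symm hcls (by
      intro s hs h1 h2
      rw [e] at hs
      simp only [Finset.mem_insert, Finset.mem_singleton] at hs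
      rcases hs with rfl | rfl | rfl | rfl
      · exact absurd rfl h2
      · exact Or.inl Abc
      · exact absurd rfl h1
      · exact Or.inl Adc)
    obtain ⟨g1, g2, _⟩ := D.p53_a hT hz h hc ha h.ac.symm
    omega
  -- a d
  have b03 : a ∈ Rset D.g T → d ∈ Rset D.g T → D.G T {a, d} ≤ 2 := by
    intro ha hd
    have h1 := D.G_le_cov_h D.stmtCTX D.stmtGDEC hT ha hd h.ad hcls (by
      intro s hs h1 h2
      rw [e] at hs
      simp only [Finset.mem_insert, Finset.mem_singleton] at hs
      rcases hs with rfl | rfl | rfl | rfl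
      · exact absurd rfl h1
      · exact Or.inl Aba
      · exact Or.inr Acd
      · exact absurd rfl h2)
    have g := D.p53_d hT h ha hd h.ad
    omega
  -- b d
  have b13 : b ∈ Rset D.g T → d ∈ Rset D.g T → D.G T {b, d} ≤ 2 := by
    intro hb hd
    have h1 := D.G_le_cov_h D.stmtCTX D.stmtGDEC hT hb hd h.bd hcls (by
      intro s hs h1 h2
      rw [e] at hs
      simp only [Finset.mem_insert, Finset.mem_singleton] at hs
      rcases hs with rfl | rfl | rfl | rfl
      · exact Or.inl Aab
      · exact absurd rfl h1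
      · exact Or.inl Acb
      · exact absurd rfl h2)
    have g := D.p53_d hT h hb hd h.bd
    omega
  -- c d
  have b23 : c ∈ Rset D.g T → d ∈ Rset D.g T → D.G T {c, d} ≤ 5 := by
    intro hc hd
    have h2 := D.N0_sum_le_h T hc hd {a} (fun s hs h3 h4 h5 h6 => by
      rw [e] at hs
      simp only [Finset.mem_insert, Finset.mem_singleton] at hs ⊢
      rcases hs with rfl | rfl | rfl | rfl
      · rfl
      · exact absurd Abc h5
      · exact absurd rfl h3
      · exact absurd rfl h4)
    rw [Finset.sum_singleton] at h2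
    have h3 : 1 ≤ D.cnt T a {c, d} := cnt_pos (p := c) (by simp) hbT
      (by simp [h.bc, h.bd]) Aba Abc
    have h2' := h2.trans (TP.q4_le1 h3)
    have h4 := TP.G_le_four D.stmtGDEC hT hc hd h.cd (Or.inl hcls) h2'
    have g := D.p53_d hT h hc hd h.cd
    omega
  by_cases hbc : (b ∈ Rset D.g T ∧ c ∈ Rset D.g T) ∧ 3 < D.G T {b, c}
  · obtain ⟨⟨hb, hc⟩, h3⟩ := hbc
    have hG : D.G T {b, c} ≤ 6 ∧ 21 ≤ D.t8 (T.erase c) b := by
      rcases D.p53_bc hT hz h hb hc with h4 | h4
      · omega
      · exact h4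
    have b12 := hG.1
    have t21 := hG.2
    refine D.tb_of hT ![a, b, c, d] hinj ?_
      ![![false, true, false, false], ![true, false, true, false], ![false, true, false, true],
        ![false, false, true, false]]
      ![![0, 5, 3, 2], ![0, 0, 6, 2], ![0, 0, 0, 5], ![0, 0, 0, 0]]
      ![![5, 5, 5, 5], ![5, 5, 5, 5], ![5, 21, 5, 5], ![5, 5, 5, 5]] ?_ ?_ ?_
      (fun I => (1 : Fin 4) ∈ I ∧ (2 : Fin 4) ∈ I)
      (fun I hI => ⟨(hI 1).2 hb, (hI 2).2 hc⟩) ?_
    · intro x hx
      rw [e] at hx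
      simp only [Finset.mem_insert, Finset.mem_singleton] at hx
      rcases hx with rfl | rfl | rfl | rfl
      · exact ⟨0, rfl⟩
      · exact ⟨1, rfl⟩
      · exact ⟨2, rfl⟩
      · exact ⟨3, rfl⟩
    · intro i j hij
      fin_cases i <;> fin_cases j <;>
        first
        | exact absurd hij (by decide)
        | exact Aab
        | exact Aba
        | exact Abc
        | exact Acb
        | exact Acd
        | exact Adc
    · intro i j hij h1 h2
      fin_cases i <;> fin_cases j <;>
        first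
        | exact absurd hij (by decide)
        | exact b01 h1 h2
        | exact b02 h1 h2
        | exact b03 h1 h2
        | exact b12
        | exact b13 h1 h2
        | exact b23 h1 h2
    · intro i j hij h1 h2
      fin_cases i <;> fin_cases j <;>
        first
        | exact absurd rfl hij
        | exact t8_ge5 _ _
        | exact t21
    · decide
  · have b12 : b ∈ Rset D.g T → c ∈ Rset D.g T → D.G T {b, c} ≤ 3 := by
      intro h1 h2
      by_contra hlt
      exact hbc ⟨⟨h1, h2⟩, by omega⟩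
    refine D.tb_of hT ![a, b, c, d] hinj ?_
      ![![false, true, false, false], ![true, false, true, false], ![false, true, false, true],
        ![false, false, true, false]]
      ![![0, 5, 3, 2], ![0, 0, 3, 2], ![0, 0, 0, 5], ![0, 0, 0, 0]]
      (fun _ _ => 5) ?_ ?_ (fun _ _ _ _ _ => t8_ge5 _ _)
      (fun _ => True) (fun _ _ => trivial) ?_
    · intro x hx
      rw [e] at hx
      simp only [Finset.mem_insert, Finset.mem_singleton] at hx
      rcases hx with rfl | rfl | rfl | rfl
      · exact ⟨0, rfl⟩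
      · exact ⟨1, rfl⟩
      · exact ⟨2, rfl⟩
      · exact ⟨3, rfl⟩
    · intro i j hij
      fin_cases i <;> fin_cases j <;>
        first
        | exact absurd hij (by decide)
        | exact Aab
        | exact Aba
        | exact Abc
        | exact Acb
        | exact Acd
        | exact Adc
    · intro i j hij h1 h2
      fin_cases i <;> fin_cases j <;>
        first
        | exact absurd hij (by decide)
        | exact b01 h1 h2
        | exact b02 h1 h2
        | exact b03 h1 h2
        | exact b12 h1 h2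
        | exact b13 h1 h2
        | exact b23 h1 h2
    · intro I _
      revert I
      decide

end CoxData

end MP345
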