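import Mathlib
import Pool.Agent.Work.MP_345ef2_gt_24.T_TB
import Pool.Agent.Work.MP_345ef2_gt_24.T_GDEC
import Pool.Agent.Work.MP_345ef2_gt_24.T_CLF

/-!
# Block TCYC4 (MP_345ef2_gt, T level, n <= 24)
-/

namespace MP345

open Finset

variable {n : ℕ}

namespace CoxData

variable (D : CoxData n)

theorem Cyc4.rot {a b c d : D.ι} {L : Finset D.ι} (h : D.Cyc4 a b c d L) :
    D.Cyc4 b c d a L :=
  ⟨by rw [h.eq]; ext s; simp only [Finset.mem_insert, Finset.mem_singleton]; tauto,
    h.bd, h.ac.symm, h.bc, h.cd, h.da, h.ab, h.vbd, by rw [D.symm]; exact h.vac⟩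

/-- a Lannér cycle of order four has a heavy edge -/
theorem heavy_of_cyc4 {L : Finset D.ι} (hL : D.Lan L) {a b c d : D.ι} (h : D.Cyc4 a b c d L) :
    D.Heavy a b ∨ D.Heavy b c ∨ D.Heavy c d ∨ D.Heavy d a := by
  classical
  by_contra hno
  push Not at hno
  obtain ⟨n1, n2, n3, n4⟩ := hno
  have hs : ∀ x y : D.ι, D.Adj x y → ¬ D.Heavy x y → D.g x y = -(1 / 2) := by
    intro x y hadj hh
    unfold Heavy at hh
    push Not at hh
    exact hh hadj
  have e1 := hs a b h.ab n1
  have e2 := hs b c h.bc n2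
  have e3 := hs c d h.cd n3
  have e4 := hs d a h.da n4
  obtain ⟨t, ht1, ht2⟩ := hL.exists_sub'
  have expl : ∀ s ∈ L, s = a ∨ s = b ∨ s = c ∨ s = d := by
    intro s hs; rw [h.eq] at hs; simpa using hs
  have row : ∀ x ∈ L, ∀ N : Finset D.ι, D.nb L x ⊆ N → N ⊆ L → x ∉ N →
      t x < ∑ j ∈ N, -D.g x j * t j := by
    intro x hx N hN hNL hxN
    refine (ht2 x hx).trans_le (Finset.sum_le_sum_of_subset_of_nonneg hN fun j hj _ => ?_)
    have h1 := D.g_nonpos (i := x) (j := j) (fun e => hxN (e ▸ hj))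
    have h2 := ht1 j (hNL hj)
    nlinarith
  have nac : ¬ D.Adj a c := fun h' => h'.2 h.vac
  have nbd : ¬ D.Adj b d := fun h' => h'.2 h.vbd
  have r1 := row a h.ma {b, d} (by
    intro s hs
    obtain ⟨h1, h2⟩ := (mem_nb D).1 hs
    rcases expl s h1 with rfl | rfl | rfl | rfl
    · exact absurd rfl h2.1
    · simp
    · exact absurd h2 nac
    · simp) (by
    intro s hs
    simp only [Finset.mem_insert, Finset.mem_singleton] at hs
    rcases hs with rfl | rfl
    · exact h.mb
    · exact h.md) (by simp [h.ab.1, h.da.1.symm])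
  have r2 := row b h.mb {a, c} (by
    intro s hs
    obtain ⟨h1, h2⟩ := (mem_nb D).1 hs
    rcases expl s h1 with rfl | rfl | rfl | rfl
    · simp
    · exact absurd rfl h2.1
    · simp
    · exact absurd h2 nbd) (by
    intro s hs
    simp only [Finset.mem_insert, Finset.mem_singleton] at hs
    rcases hs with rfl | rfl
    · exact h.ma
    · exact h.mc) (by simp [h.ab.1.symm, h.bc.1])
  have r3 := row c h.mc {b, d} (by
    intro s hs
    obtain ⟨h1, h2⟩ := (mem_nb D).1 hs
    rcases expl s h1 with rfl | rfl | rfl | rfl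
    · exact absurd (h2.symm D) nac
    · simp
    · exact absurd rfl h2.1
    · simp) (by
    intro s hs
    simp only [Finset.mem_insert, Finset.mem_singleton] at hs
    rcases hs with rfl | rfl
    · exact h.mb
    · exact h.md) (by simp [h.bc.1.symm, h.cd.1])
  have r4 := row d h.md {a, c} (by
    intro s hs
    obtain ⟨h1, h2⟩ := (mem_nb D).1 hs
    rcases expl s h1 with rfl | rfl | rfl | rfl
    · simp
    · exact absurd (h2.symm D) nbd
    · simp
    · exact absurd rfl h2.1) (by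
    intro s hs
    simp only [Finset.mem_insert, Finset.mem_singleton] at hs
    rcases hs with rfl | rfl
    · exact h.ma
    · exact h.mc) (by simp [h.da.1, h.cd.1.symm])
  rw [Finset.sum_pair h.bd] at r1 r3
  rw [Finset.sum_pair h.ac] at r2 r4
  rw [e1, D.symm a d, e4] at r1
  rw [D.symm b a, e1, e2] at r2
  rw [D.symm c b, e2, e3] at r3
  rw [e4, D.symm d c, e3] at r4
  linarith

/-- an adjacent pair `x`, `y` of the cycle `x - y - v - u - x` -/
theorem cyc_edge {T : Finset D.ι} (hT : T ∈ Tsets D.g n) {x y v u : D.ι}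
    (h : D.Cyc4 x y v u (D.LM T)) (h4 : D.cls (D.LM T) ≠ 4)
    (hx : x ∈ Rset D.g T) (hy : y ∈ Rset D.g T) :
    D.G T {x, y} ≤ 6 ∧ ((D.Heavy y v ∨ D.Heavy v u) → D.G T {x, y} ≤ 3) ∧
    (5 < D.G T {x, y} → 9 ≤ D.t8 (T.erase x) y) := by
  classical
  have hxy := h.ab.1
  have hyu := h.bd
  have hyv := h.bc.1
  have huv := h.cd.1.symm
  have hxu := h.da.1.symm
  have hxv := h.ac
  have expl : ∀ s ∈ D.LM T, s = x ∨ s = y ∨ s = v ∨ s = u := by
    intro s hs; rw [h.eq] at hs; simpa using hs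
  have h1 := D.G_le_cov_h D.stmtCTX D.stmtGDEC hT hy hx hxy.symm h4 (by
    intro s hs h1 h2
    rcases expl s hs with rfl | rfl | rfl | rfl
    · exact absurd rfl h2
    · exact absurd rfl h1
    · exact Or.inl (h.bc.symm D)
    · exact Or.inr h.da)
  have ht : D.TC {y, v, u} := TC_insert (TC_pair h.cd) (by simp [hyv, hyu])
    (u := v) (by simp) h.bc
  obtain ⟨-, -, -, g4, g5, -⟩ := D.gen_at_h D.stmtCGEN hT hy hx hxy.symm (V := {y, v, u}) (by
    intro s hs
    simp only [Finset.mem_insert, Finset.mem_singleton] at hs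
    rcases hs with rfl | rfl | rfl
    · exact Finset.mem_erase.2 ⟨hxy.symm, h.mb⟩
    · exact Finset.mem_erase.2 ⟨hxv.symm, h.mc⟩
    · exact Finset.mem_erase.2 ⟨hxu.symm, h.md⟩) ht (by
    intro s hs h1 h2
    rcases expl s hs with rfl | rfl | rfl | rfl
    · exact absurd rfl h2
    · exact absurd rfl h1
    · simp
    · simp)
  have c3 : ({y, v, u} : Finset D.ι).card = 3 := by
    rw [Finset.card_insert_of_notMem (by simp [hyv, hyu]), Finset.card_pair huv.symm]
  have hprot : D.Prot {y, v, u} (D.N1 T (D.LM T) {y, x}) y :=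
    D.prot_of_h (z := v) subset_rfl (by simp) (by simp) (by omega) (by
      intro w hw hyw
      simp only [Finset.mem_insert, Finset.mem_singleton] at hw
      rcases hw with rfl | rfl | rfl
      · exact absurd rfl hyw.1
      · rfl
      · exact absurd h.vbd hyw.2)
  have g4 := g4 y hprot
  rw [D.G_comm_h T x y]
  refine ⟨by omega, ?_, ?_⟩
  · rintro (hh | hh)
    · have := (g5 ⟨y, by simp, v, by simp, hh⟩).2.2 y hprot
      omega
    · have := (g5 ⟨v, by simp, u, by simp, hh⟩).2.2 y hprot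
      omega
  · intro h5
    refine t8_leaf (D.leaf_of_four hT (x := x) (y := y) (w := v) (W := {v, u}) hx hy hxy.symm ?_ ?_ ?_
      (TC_pair h.cd) ?_ (by simp) h.bc (by omega))
    · intro s hs
      simp only [Finset.mem_insert, Finset.mem_singleton] at hs
      rcases hs with rfl | rfl
      · exact h.mc
      · exact h.md
    · simp [hxv, hxu]
    · simp [hyv, hyu]
    · intro s hs h1 h2
      rcases expl s hs with rfl | rfl | rfl | rfl
      · exact absurd rfl h2
      · exact absurd rfl h1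
      · simp
      · simp

/-- an opposite pair `x`, `z` of the cycle `x - y - z - w - x`, with a heavy edge at `x` -/
theorem cyc_diag {T : Finset D.ι} (hT : T ∈ Tsets D.g n) {x y z w : D.ι}
    (h : D.Cyc4 x y z w (D.LM T)) (h4 : D.cls (D.LM T) ≠ 4)
    (hx : x ∈ Rset D.g T) (hz : z ∈ Rset D.g T) (hh : D.Heavy x y ∨ D.Heavy x w) :
    D.G T {x, z} ≤ 4 := by
  classical
  have hLT := (D.stmtCTX T hT).2.2.1
  have hxy := h.ab.1
  have hyw := h.bd
  have hyz := h.bc.1
  have hzw := h.cd.1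
  have hwx := h.da.1
  have hxz := h.ac
  have expl : ∀ s ∈ D.LM T, s = x ∨ s = y ∨ s = z ∨ s = w := by
    intro s hs; rw [h.eq] at hs; simpa using hs
  have h0 := D.N0_sum_le_h T hx hz ∅ (fun s hs h3 h4 h5 h6 => by
    rcases expl s hs with rfl | rfl | rfl | rfl
    · exact absurd rfl h3
    · exact absurd (h.ab.symm D) h5
    · exact absurd rfl h4
    · exact absurd h.da h5)
  rw [Finset.sum_empty] at h0
  have h1 := TP.G_le_gen D.stmtGDEC hT hx hz hxz (Or.inl h4) h0 (k1 := 0) (k2 := 2)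
    (fun m hm => by
      obtain ⟨hmT, hmL, hmP, s, hs, hms⟩ := D.mem_N1_h.1 hm
      have key : ∀ s ∈ D.LM T, D.Adj m s → s ≠ x → s ≠ z → D.Adj s x → D.Adj s z →
          q4 (D.cnt T m {x, z}) ≤ 0 := by
        intro s hs hms h1 h2 h3 h4
        have hsP : s ∉ ({x, z} : Finset D.ι) := by simp [h1, h2]
        rw [TP.q4_zero (cnt_two (p := x) (p' := z) (by simp) (by simp) hxz (hLT hs) hsP
          (hms.symm D) h3 (hLT hs) hsP (hms.symm D) h4)]
      rcases expl s hs with rfl | rfl | rfl | rfl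
      · exact absurd hms (hmP s (by simp))
      · exact key s hs hms hxy.symm hyz (h.ab.symm D) h.bc
      · exact absurd hms (hmP s (by simp))
      · exact key s hs hms hwx hzw.symm h.da (h.cd.symm D))
    (fun _ _ => TP.c2_le2 h4)
  have ht : D.TC {y, x, w} := TC_insert (TC_pair (h.da.symm D)) (by simp [hxy.symm, hyw])
    (u := x) (by simp) (h.ab.symm D)
  have g := ((D.gen_at_h D.stmtCGEN hT hx hz hxz (V := {y, x, w}) (by
    intro s hs
    simp only [Finset.mem_insert, Finset.mem_singleton] at hs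
    rcases hs with rfl | rfl | rfl
    · exact Finset.mem_erase.2 ⟨hyz, h.mb⟩
    · exact Finset.mem_erase.2 ⟨hxz, h.ma⟩
    · exact Finset.mem_erase.2 ⟨hzw.symm, h.md⟩) ht (by
    intro s hs h1 h2
    rcases expl s hs with rfl | rfl | rfl | rfl
    · exact absurd rfl h1
    · simp
    · exact absurd rfl h2
    · simp)).2.2.2.2.1 (by
      rcases hh with hh | hh
      · exact ⟨x, by simp, y, by simp, hh⟩
      · exact ⟨x, by simp, w, by simp, hh⟩)).2.1
  omega

/-- the case of a heavy edge `a b` -/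
theorem cyc4_heavy {T : Finset D.ι} (hT : T ∈ Tsets D.g n) {a b c d : D.ι}
    (h : D.Cyc4 a b c d (D.LM T)) (hh : D.Heavy a b) : D.TB T := by
  classical
  have h4 : D.cls (D.LM T) ≠ 4 := by
    rw [D.cls_one_of (Cyc4.card D h) (D.not_353_cyc h)]; norm_num
  have hh' : D.Heavy b a := ⟨hh.1.symm D, by rw [D.symm]; exact hh.2⟩
  have rev : D.Cyc4 b a d c (D.LM T) :=
    ⟨by rw [h.eq]; ext s; simp only [Finset.mem_insert, Finset.mem_singleton]; tauto,
      h.bd, h.ac, h.ab.symm D, h.da.symm D, h.cd.symm D, h.bc.symm D, h.vbd, h.vac⟩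
  have hf := inj4_h h.ab.1 h.ac h.da.1.symm h.bc.1 h.bd h.cd.1
  have b01 : a ∈ Rset D.g T → b ∈ Rset D.g T → D.G T {a, b} ≤ 6 ∧
      (5 < D.G T {a, b} → 9 ≤ D.t8 (T.erase a) b) := fun h1 h2 => by
    have := D.cyc_edge hT h h4 h1 h2
    exact ⟨this.1, this.2.2⟩
  -- b c : cycle c - b - a - d
  have b12 : b ∈ Rset D.g T → c ∈ Rset D.g T → D.G T {b, c} ≤ 3 := fun h1 h2 => by
    rw [D.G_comm_h]
    exact (D.cyc_edge hT (Cyc4.rot D (Cyc4.rot D (Cyc4.rot D rev))) h4 h2 h1).2.1 (Or.inl hh')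
  -- a d : cycle d - a - b - c
  have b03 : a ∈ Rset D.g T → d ∈ Rset D.g T → D.G T {a, d} ≤ 3 := fun h1 h2 => by
    rw [D.G_comm_h]
    exact (D.cyc_edge hT (Cyc4.rot D (Cyc4.rot D (Cyc4.rot D h))) h4 h2 h1).2.1 (Or.inl hh)
  -- c d : cycle c - d - a - b
  have b23 : c ∈ Rset D.g T → d ∈ Rset D.g T → D.G T {c, d} ≤ 3 := fun h1 h2 =>
    (D.cyc_edge hT (Cyc4.rot D (Cyc4.rot D h)) h4 h1 h2).2.1 (Or.inr hh)
  have b02 : a ∈ Rset D.g T → c ∈ Rset D.g T → D.G T {a, c} ≤ 4 := fun h1 h2 =>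
    D.cyc_diag hT h h4 h1 h2 (Or.inl hh)
  have b13 : b ∈ Rset D.g T → d ∈ Rset D.g T → D.G T {b, d} ≤ 4 := fun h1 h2 =>
    D.cyc_diag hT (Cyc4.rot D h) h4 h1 h2 (Or.inr hh')
  have hLi : ∀ x ∈ D.LM T, ∃ i, (![a, b, c, d] : Fin 4 → D.ι) i = x := by
    intro x hx
    rw [h.eq] at hx
    simp only [Finset.mem_insert, Finset.mem_singleton] at hx
    rcases hx with rfl | rfl | rfl | rfl
    · exact ⟨0, rfl⟩
    · exact ⟨1, rfl⟩
    · exact ⟨2, rfl⟩
    · exact ⟨3, rfl⟩
  have Aab := h.ab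
  have Abc := h.bc
  have Acd := h.cd
  have Aad := h.da.symm D
  have hA : ∀ i j, (![![false, true, false, true], ![false, false, true, false],
      ![false, false, false, true], ![false, false, false, false]] :
      Fin 4 → Fin 4 → Bool) i j = true → D.Adj (![a, b, c, d] i) (![a, b, c, d] j) := by
    intro i j hij
    fin_cases i <;> fin_cases j <;>
      first
      | exact absurd hij (by decide)
      | exact Aab
      | exact Abc
      | exact Acd
      | exact Aad
  by_cases hbig : (a ∈ Rset D.g T ∧ b ∈ Rset D.g T) ∧ 5 < D.G T {a, b}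
  · obtain ⟨⟨ha, hb⟩, h5⟩ := hbig
    have c01 := (b01 ha hb).1
    have t01 := (b01 ha hb).2 h5
    refine D.tb_of hT ![a, b, c, d] hf hLi _
      ![![0, 6, 4, 3], ![0, 0, 3, 4], ![0, 0, 0, 3], ![0, 0, 0, 0]]
      ![![5, 9, 5, 5], ![5, 5, 5, 5], ![5, 5, 5, 5], ![5, 5, 5, 5]] hA ?_ ?_
      (fun _ => True) (fun _ _ => trivial) ?_
    · intro i j hij h1 h2
      fin_cases i <;> fin_cases j <;>
        first
        | exact absurd hij (by decide)
        | exact c01
        | exact b02 h1 h2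
        | exact b03 h1 h2
        | exact b12 h1 h2
        | exact b13 h1 h2
        | exact b23 h1 h2
    · intro i j hij h1 h2
      fin_cases i <;> fin_cases j <;>
        first
        | exact absurd rfl hij
        | exact t8_ge5 _ _
        | exact t01
    · intro I _
      revert I
      decide
  · have c01 : a ∈ Rset D.g T → b ∈ Rset D.g T → D.G T {a, b} ≤ 5 := by
      intro h1 h2
      by_contra hlt
      exact hbig ⟨⟨h1, h2⟩, by omega⟩
    refine D.tb_of hT ![a, b, c, d] hf hLi _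
      ![![0, 5, 4, 3], ![0, 0, 3, 4], ![0, 0, 0, 3], ![0, 0, 0, 0]]
      (fun _ _ => 5) hA ?_ (fun _ _ _ _ _ => t8_ge5 _ _) (fun _ => True) (fun _ _ => trivial) ?_
    · intro i j hij h1 h2
      fin_cases i <;> fin_cases j <;>
        first
        | exact absurd hij (by decide)
        | exact c01 h1 h2
        | exact b02 h1 h2
        | exact b03 h1 h2
        | exact b12 h1 h2
        | exact b13 h1 h2
        | exact b23 h1 h2
    · intro I _
      revert I
      decide

theorem stmtTCYC4 : D.StmtTCYC4 := by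
  intro T hT a b c d h
  have hLan := (D.stmtCTX T hT).2.1
  rcases D.heavy_of_cyc4 hLan h with hh | hh | hh | hh
  · exact D.cyc4_heavy hT h hh
  · exact D.cyc4_heavy hT (Cyc4.rot D h) hh
  · exact D.cyc4_heavy hT (Cyc4.rot D (Cyc4.rot D h)) hh
  · exact D.cyc4_heavy hT (Cyc4.rot D (Cyc4.rot D (Cyc4.rot D h))) hh

end CoxData

end MP345
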