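import Mathlib
import Pool.Agent.Work.MP_345ef2_gt_24.T_TB
import Pool.Agent.Work.MP_345ef2_gt_24.T_CLF
import Pool.Agent.Work.MP_345ef2_gt_24.T_GDEC
import Pool.Agent.Work.MP_345ef2_gt_24.T_HEAVY

/-!
# Block TCYC5 (n ≤ 24)
-/

namespace MP345

open Finset

variable {n : ℕ}

namespace CoxData

namespace TP

variable {D : CoxData n}

theorem Cyc5.flip {a b c d e : D.ι} {L : Finset D.ι} (h : D.Cyc5 a b c d e L) :
    D.Cyc5 b a e d c L where
  eq := by rw [h.eq]; ext z; simp only [Finset.mem_insert, Finset.mem_singleton]; tauto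
  ab := h.ab.symm
  ac := h.be
  ad := h.bd
  ae := h.bc
  bc := h.ae
  bd := h.ad
  be := h.ac
  cd := h.de.symm
  ce := h.ce.symm
  de := h.cd.symm
  vab := by rw [D.symm]; exact h.vab
  vbc := by rw [D.symm]; exact h.vea
  vcd := by rw [D.symm]; exact h.vde
  vde := by rw [D.symm]; exact h.vcd
  vea := by rw [D.symm]; exact h.vbc
  vac := h.vbe
  vad := h.vbd
  vbd := h.vad
  vbe := h.vac
  vce := by rw [D.symm]; exact h.vce

theorem Cyc5.heavy {a b c d e : D.ι} {L : Finset D.ι} (h : D.Cyc5 a b c d e L) :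
    D.Heavy a b := by
  refine ⟨Cyc5.Aab h, ?_⟩
  rw [h.vab]
  have := s2_gt
  intro e; linarith

theorem Cyc5.not_five {a b c d e : D.ι} {L : Finset D.ι} (h : D.Cyc5 a b c d e L) {x y : D.ι}
    (hx : x ∈ L) (hy : y ∈ L) : ¬ D.Five {x, y} := by
  have key : ∀ p ∈ L, ∀ q ∈ L, D.g p q ≠ -c5 := by
    have h1 := h.vab
    have h2 := h.vbc
    have h3 := h.vcd
    have h4 := h.vde
    have h5 := h.vea
    have h6 := h.vac
    have h7 := h.vad
    have h8 := h.vbd
    have h9 := h.vbe
    have h10 := h.vce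
    have k1 := (D.symm b a).trans h1
    have k2 := (D.symm c b).trans h2
    have k3 := (D.symm d c).trans h3
    have k4 := (D.symm e d).trans h4
    have k5 := (D.symm a e).trans h5
    have k6 := (D.symm c a).trans h6
    have k7 := (D.symm d a).trans h7
    have k8 := (D.symm d b).trans h8
    have k9 := (D.symm e b).trans h9
    have k10 := (D.symm e c).trans h10
    have g1 := c5_gt
    have g2 := s2_lt
    intro p hp q hq e1
    rw [h.eq] at hp hq
    simp only [Finset.mem_insert, Finset.mem_singleton] at hp hq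
    rcases hp with rfl | rfl | rfl | rfl | rfl <;> rcases hq with rfl | rfl | rfl | rfl | rfl <;>
      first
      | (rw [D.self] at e1; linarith)
      | (simp only [h1, h2, h3, h4, h5, h6, h7, h8, h9, h10, k1, k2, k3, k4, k5, k6, k7, k8, k9,
          k10] at e1; linarith)
  rintro ⟨p, hp, q, hq, e1⟩
  have hsub : ∀ p ∈ ({x, y} : Finset D.ι), p ∈ L := by
    intro p hp
    simp only [Finset.mem_insert, Finset.mem_singleton] at hp
    rcases hp with rfl | rfl
    · exact hx
    · exact hy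
  exact key p (hsub p hp) q (hsub q hq) e1

section

variable (hcls : D.StmtCLS) {T : Finset D.ι} (hT : T ∈ Tsets D.g n) {a b c d e : D.ι}
  (h : D.Cyc5 a b c d e (D.LM T))

include h in
theorem cyc5_cls : D.cls (D.LM T) = 4 := D.stmtCLSV.2 _ a b c d e h

include hcls hT h

/-- outer nodes are not adjacent to `a` -/
theorem cyc5_na {m : D.ι} (hm : m ∈ T) (hmL : m ∉ D.LM T) : ¬ D.Adj m a := by
  classical
  intro hma
  have hLT := (D.stmtCTX T hT).2.2.1
  have h4 := cyc5_cls h
  have hPD := (D.stmtCLT hcls T hT).2.2.2.1 (by omega) {a, b, e, m} (by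
    intro r hr
    simp only [Finset.mem_insert, Finset.mem_singleton] at hr
    rcases hr with rfl | rfl | rfl | rfl
    · exact hLT h.ma
    · exact hLT h.mb
    · exact hLT h.me
    · exact hm) Finset.card_le_four
  exact no_heavy3 hPD (p := a) (q := b) (r := e) (s := m) (by simp) (by simp) (by simp)
    (by simp) h.be (fun e' => hmL (e' ▸ h.mb)) (fun e' => hmL (e' ▸ h.me)) (s2_heavy (D := D) h.vab)
    h.ab h.Aae (hma.symm D)

/-- outer nodes are not adjacent to `e` -/
theorem cyc5_ne {m : D.ι} (hm : m ∈ T) (hmL : m ∉ D.LM T) : ¬ D.Adj m e := by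
  classical
  intro hme
  have hLT := (D.stmtCTX T hT).2.2.1
  have h4 := cyc5_cls h
  have nm : ∀ {z : D.ι}, z ∈ D.LM T → z ≠ m := by
    rintro z hz rfl; exact hmL hz
  have hsub : ({d, e, a, b, m} : Finset D.ι) ⊆ T := by
    intro r hr
    simp only [Finset.mem_insert, Finset.mem_singleton] at hr
    rcases hr with rfl | rfl | rfl | rfl | rfl
    · exact hLT h.md
    · exact hLT h.me
    · exact hLT h.ma
    · exact hLT h.mb
    · exact hm
  have hn : ¬ PD D.g ({d, e, a, b, m} : Finset D.ι) := by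
    intro hPD
    refine core_test' hPD (U := {e, a}) ?_ ⟨e, by simp⟩ ?_
    · intro r hr
      simp only [Finset.mem_insert, Finset.mem_singleton] at hr ⊢
      rcases hr with rfl | rfl <;> simp
    · intro r hr
      simp only [Finset.mem_insert, Finset.mem_singleton] at hr
      right
      rcases hr with rfl | rfl
      · refine ⟨⟨a, by simp, h.Aea⟩, Or.inr ⟨d, by simp, m, by simp, ?_, ?_, nm h.md, h.Aed,
          hme.symm D⟩⟩
        · simp [h.de, h.ad.symm]
        · simp [(nm h.me).symm, (nm h.ma).symm]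
      · refine ⟨⟨e, by simp, h.Aae⟩, Or.inl ⟨b, by simp, ?_, s2_heavy (D := D) h.vab⟩⟩
        simp [h.be, h.ab.symm]
  obtain ⟨A, hA, hAL⟩ := D.exists_lan _ hn
  have h5 : A.card = 5 := by
    have h6 := ((D.stmtCTX T hT).2.2.2.2.2.2 A (hA.trans hsub) hAL).2
    exact (D.stmtCLF hcls).2.2.2.2.2.2 A hAL (by omega)
  have hc5 : ({d, e, a, b, m} : Finset D.ι).card ≤ 5 := Finset.card_le_five
  have hAe : A = {d, e, a, b, m} := Finset.eq_of_subset_of_card_le hA (by omega)
  have hdeg := (D.stmtCLT hcls T hT).2.2.2.2 h4 A (hA.trans hsub) hAL e (by rw [hAe]; simp)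
  have hsub3 : ({d, a, m} : Finset D.ι) ⊆ D.nb A e := by
    intro r hr
    simp only [Finset.mem_insert, Finset.mem_singleton] at hr
    rw [hAe]
    rcases hr with rfl | rfl | rfl
    · exact (mem_nb D).2 ⟨by simp, h.Aed⟩
    · exact (mem_nb D).2 ⟨by simp, h.Aea⟩
    · exact (mem_nb D).2 ⟨by simp, hme.symm D⟩
  have h7 := Finset.card_le_card hsub3
  rw [Finset.card_insert_of_notMem (by simp [h.ad.symm, nm h.md]),
    Finset.card_pair (nm h.ma)] at h7
  omega

/-- outer nodes adjacent to `L` are adjacent to `d` only -/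
theorem cyc5_only {m : D.ι} (hm : m ∈ T) (hmL : m ∉ D.LM T) :
    ∀ s ∈ D.LM T, D.Adj m s → s = d := by
  intro s hs hms
  have e1 := h.eq
  rw [e1] at hs
  simp only [Finset.mem_insert, Finset.mem_singleton] at hs
  rcases hs with rfl | rfl | rfl | rfl | rfl
  · exact absurd hms (cyc5_na hcls hT h hm hmL)
  · exact absurd hms (cyc5_na hcls hT (Cyc5.flip h) hm hmL)
  · exact absurd hms (cyc5_ne hcls hT (Cyc5.flip h) hm hmL)
  · rfl
  · exact absurd hms (cyc5_ne hcls hT h hm hmL)

/-- a node other than `d` has only its neighbours in `L` -/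
theorem cyc5_leaf {x y z : D.ι} (hyd : y ≠ d) (hy : y ∈ D.LM T)
    (hyz : ∀ w ∈ D.LM T, D.Adj y w → w = x ∨ w = z) : D.LeafAt T x y := by
  refine leafAt_of (z := z) fun w hw hyw => ?_
  by_cases hwL : w ∈ D.LM T
  · exact hyz w hwL hyw
  · exact absurd (cyc5_only hcls hT h hw hwL y hy (hyw.symm D)) hyd

/-- the number of outer nodes -/
theorem cyc5_N12 {x y : D.ι} (hx : x ∈ Rset D.g T) (hxd : x ≠ d) :
    (D.N1 T (D.LM T) {x, y}).card ≤ 1 ∧ (D.N2 T (D.LM T) {x, y}).card ≤ 1 := by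
  classical
  have hLT := (D.stmtCTX T hT).2.2.1
  have hRL := (D.stmtCTX T hT).2.2.2.1
  have hS := (D.stmtCTX T hT).2.2.2.2.1 x hx
  have hxL := hRL hx
  have hN1 : ∀ m ∈ D.N1 T (D.LM T) {x, y}, m ∈ T ∧ m ∉ D.LM T ∧ D.Adj m d := by
    intro m hm
    obtain ⟨m1, m2, m3, s, hs, hms⟩ := mem_N1.1 hm
    have := cyc5_only hcls hT h m1 m2 s hs hms
    subst this
    exact ⟨m1, m2, hms⟩
  have inS : ∀ {z : D.ι}, z ∈ T → z ≠ x → z ∈ T.erase x := fun hz hne =>
    Finset.mem_erase.2 ⟨hne, hz⟩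
  have nm : ∀ {m z : D.ι}, m ∉ D.LM T → z ∈ D.LM T → z ≠ m := by
    rintro m z hm hz rfl; exact hm hz
  -- a chain `d - t ... ` inside `L - x`: either `t` two neighbours, or `d - t - t' = t''`
  have chain : (x ≠ c ∧ x ≠ e) ∨ (x = c ∨ x = e) := by
    by_cases h1 : x = c
    · exact Or.inr (Or.inl h1)
    · by_cases h2 : x = e
      · exact Or.inr (Or.inr h2)
      · exact Or.inl ⟨h1, h2⟩
  -- the end `e - a = b` or `c - b = a`
  have tail : ∀ {m m' k : D.ι}, m ∈ T → m ∉ D.LM T → m' ∈ T → m' ∉ D.LM T → m ≠ m' →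
      (k = d ∨ (k ∈ T ∧ k ∉ D.LM T ∧ D.Adj k d)) → D.Adj k m → D.Adj k m' → False := by
    intro m m' k hm hmL hm' hmL' hmm hk hkm hkm'
    have kne : k ≠ m ∧ k ≠ m' := ⟨hkm.1, hkm'.1⟩
    have kT : k ∈ T := by
      rcases hk with rfl | hk
      · exact hLT h.md
      · exact hk.1
    have kx : k ≠ x := by
      rcases hk with rfl | hk
      · exact hxd.symm
      · rintro rfl; exact hk.2.1 hxL
    have mx : m ≠ x := fun e => hmL (e ▸ hxL)
    have mx' : m' ≠ x := fun e => hmL' (e ▸ hxL)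
    -- `U = {k, d, t, t'}`, `t' = t''` heavy
    have go : ∀ {t t' t'' : D.ι}, t ∈ D.LM T → t' ∈ D.LM T → t'' ∈ D.LM T → t ≠ x → t' ≠ x →
        t'' ≠ x → D.Adj d t → D.Adj t t' → 1 / 2 ≤ D.g t' t'' ^ 2 → t' ≠ d → t'' ≠ d → t'' ≠ t →
        t'' ≠ t' → False := by
      intro t t' t'' ht ht' ht'' htx htx' htx'' hdt htt hg n1 n2 n3 n4
      have dS : d ∈ T.erase x := inS (hLT h.md) hxd.symm
      have tS := inS (hLT ht) htx
      have tS' := inS (hLT ht') htx'
      have tS'' := inS (hLT ht'') htx''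
      have mS := inS hm mx
      have mS' := inS hm' mx'
      have kS := inS kT kx
      have nk : ∀ {z : D.ι}, z ∈ D.LM T → z ≠ d → z ≠ k := by
        intro z hz hzd
        rcases hk with rfl | hk
        · exact hzd
        · exact nm hk.2.1 hz
      refine core_test' hS (U := {k, d, t, t'}) ?_ ⟨k, by simp⟩ ?_
      · intro r hr
        simp only [Finset.mem_insert, Finset.mem_singleton] at hr
        rcases hr with rfl | rfl | rfl | rfl <;> assumption
      · have mU : m ∉ ({k, d, t, t'} : Finset D.ι) := by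
          simp [kne.1.symm, (nm hmL h.md).symm, (nm hmL ht).symm, (nm hmL ht').symm]
        have mU' : m' ∉ ({k, d, t, t'} : Finset D.ι) := by
          simp [kne.2.symm, (nm hmL' h.md).symm, (nm hmL' ht).symm, (nm hmL' ht').symm]
        intro r hr
        simp only [Finset.mem_insert, Finset.mem_singleton] at hr
        rcases hr with rfl | rfl | rfl | rfl
        · right
          refine ⟨?_, Or.inr ⟨m, mS, m', mS', mU, mU', hmm, hkm, hkm'⟩⟩
          rcases hk with rfl | hk
          · exact ⟨t, by simp, hdt⟩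
          · exact ⟨d, by simp, hk.2.2⟩
        · rcases hk with rfl | hk
          · right
            exact ⟨⟨t, by simp, hdt⟩, Or.inr ⟨m, mS, m', mS', mU, mU', hmm, hkm, hkm'⟩⟩
          · left
            exact ⟨k, by simp, t, by simp, (nm hk.2.1 ht).symm, hk.2.2.symm D, hdt⟩
        · left
          exact ⟨d, by simp, t', by simp, n1.symm, hdt.symm D, htt⟩
        · right
          refine ⟨⟨t, by simp, htt.symm D⟩, Or.inl ⟨t'', tS'', ?_, hg⟩⟩
          simp [nk ht'' n2, n2, n3, n4]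
    have go2 : c ≠ x → e ≠ x → False := by
      intro hc he
      have dS : d ∈ T.erase x := inS (hLT h.md) hxd.symm
      have cS := inS (hLT h.mc) hc
      have eS := inS (hLT h.me) he
      have mS := inS hm mx
      have mS' := inS hm' mx'
      have kS := inS kT kx
      rcases hk with rfl | hk
      · have := D.sq_sum_lt hS dS (N := {c, e, m, m'}) (by
          intro r hr; simp only [Finset.mem_insert, Finset.mem_singleton] at hr
          rcases hr with rfl | rfl | rfl | rfl <;> assumption)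
          (by simp [h.cd.symm, h.de, kne.1, kne.2])
        rw [Finset.sum_insert (by simp [h.ce, nm hmL h.mc, nm hmL' h.mc]),
          Finset.sum_insert (by simp [nm hmL h.me, nm hmL' h.me]),
          Finset.sum_pair hmm] at this
        have a1 := h.Adc.sq_ge D
        have a2 := h.Ade.sq_ge D
        have a3 := hkm.sq_ge D
        have a4 := hkm'.sq_ge D
        linarith
      · refine core_test' hS (U := {k, d}) ?_ ⟨k, by simp⟩ ?_
        · intro r hr
          simp only [Finset.mem_insert, Finset.mem_singleton] at hr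
          rcases hr with rfl | rfl <;> assumption
        · intro r hr
          simp only [Finset.mem_insert, Finset.mem_singleton] at hr
          right
          rcases hr with rfl | rfl
          · refine ⟨⟨d, by simp, hk.2.2⟩, Or.inr ⟨m, mS, m', mS', ?_, ?_, hmm, hkm, hkm'⟩⟩
            · simp [kne.1.symm, (nm hmL h.md).symm]
            · simp [kne.2.symm, (nm hmL' h.md).symm]
          · refine ⟨⟨k, by simp, hk.2.2.symm D⟩, Or.inr ⟨c, cS, e, eS, ?_, ?_, h.ce, h.Adc,
              h.Ade⟩⟩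
            · simp [nm hk.2.1 h.mc, h.cd]
            · simp [nm hk.2.1 h.me, h.de.symm]
    by_cases h1 : c = x
    · have e1 : e ≠ x := fun h' => h.ce (h1.trans h'.symm)
      have a1 : a ≠ x := fun h' => h.ac (h'.trans h1.symm)
      have b1 : b ≠ x := fun h' => h.bc (h'.trans h1.symm)
      exact go h.me h.ma h.mb e1 a1 b1 h.Ade h.Aea (s2_heavy (D := D) h.vab) h.ad h.bd h.be
        h.ab.symm
    · by_cases h2 : e = x
      · have a1 : a ≠ x := fun h' => h.ae (h'.trans h2.symm)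
        have b1 : b ≠ x := fun h' => h.be (h'.trans h2.symm)
        exact go h.mc h.mb h.ma h1 b1 a1 h.Adc h.Acb
          (s2_heavy (D := D) (by rw [D.symm]; exact h.vab)) h.bd h.ad h.ac h.ab
      · exact go2 h1 h2
  constructor
  · refine Finset.card_le_one.2 fun m hm m' hm' => ?_
    by_contra hmm
    obtain ⟨m1, m2, m3⟩ := hN1 m hm
    obtain ⟨m1', m2', m3'⟩ := hN1 m' hm'
    exact tail m1 m2 m1' m2' hmm (Or.inl rfl) (m3.symm D) (m3'.symm D)
  · refine Finset.card_le_one.2 fun z hz z' hz' => ?_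
    by_contra hzz
    obtain ⟨z1, z2, z3, z4, m, hm, hzm⟩ := mem_N2.1 hz
    obtain ⟨z1', z2', z3', z4', m', hm', hzm'⟩ := mem_N2.1 hz'
    obtain ⟨m1, m2, m3⟩ := hN1 m hm
    obtain ⟨m1', m2', m3'⟩ := hN1 m' hm'
    by_cases hmm : m = m'
    · subst hmm
      exact tail z1 z2 z1' z2' hzz (Or.inr ⟨m1, m2, m3⟩) (hzm.symm D) (hzm'.symm D)
    · exact tail m1 m2 m1' m2' hmm (Or.inl rfl) (m3.symm D) (m3'.symm D)

omit hcls in
/-- `N0` for an edge `x y` of the cycle, `x' - x - y - y' - o - x'` -/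
theorem cyc5_N0_adj {x y x' y' o : D.ι} (hx : x ∈ Rset D.g T) (hy : y ∈ Rset D.g T)
    (hL : ∀ s ∈ D.LM T, s = x ∨ s = y ∨ s = x' ∨ s = y' ∨ s = o) (hx'L : x' ∈ D.LM T)
    (hy'L : y' ∈ D.LM T) (hxy : x ≠ y) (a1 : D.Adj x' x) (a2 : D.Adj y' y) (a3 : D.Adj x' o)
    (a4 : D.Adj y' o) (n1 : x' ≠ y) (n2 : y' ≠ x) :
    ∑ z ∈ D.N0 T (D.LM T) {x, y}, q4 (D.cnt T z {x, y}) = 0 := by
  have hLT := (D.stmtCTX T hT).2.2.1
  refine N0_sum_zero fun z hz => ?_
  obtain ⟨⟨z1, z2⟩, z3⟩ := mem_N0.1 hz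
  rw [NA_pair] at z3
  rcases hL z z1 with e | e | e | e | e
  · exact absurd hx (e ▸ z2)
  · exact absurd hy (e ▸ z2)
  · subst e; exact absurd a1 z3.1
  · subst e; exact absurd a2 z3.2
  · subst e
    exact cnt_two_of hxy (hLT hx'L) a1.1 n1 (hLT hy'L) n2 a2.1 a3 a1 a4 a2

omit hcls h in
/-- `N0` for a nonadjacent pair -/
theorem cyc5_N0_non {x y : D.ι} (hx : x ∈ Rset D.g T) (hy : y ∈ Rset D.g T)
    (hL : ∀ s ∈ D.LM T, s = x ∨ s = y ∨ D.Adj s x ∨ D.Adj s y) :
    ∑ z ∈ D.N0 T (D.LM T) {x, y}, q4 (D.cnt T z {x, y}) = 0 := by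
  refine N0_sum_zero fun z hz => ?_
  obtain ⟨⟨z1, z2⟩, z3⟩ := mem_N0.1 hz
  rw [NA_pair] at z3
  rcases hL z z1 with e | e | e | e
  · exact absurd hx (e ▸ z2)
  · exact absurd hy (e ▸ z2)
  · exact absurd e z3.1
  · exact absurd e z3.2

/-- a pair that contains `d` -/
theorem cyc5_pd {x y : D.ι} (hx : x ∈ Rset D.g T) (hy : y ∈ Rset D.g T) (hxy : x ≠ y)
    (hd : x = d ∨ y = d) (h0 : ∑ z ∈ D.N0 T (D.LM T) {x, y}, q4 (D.cnt T z {x, y}) = 0) :
    D.G T {x, y} ≤ 0 := by
  classical
  have hRL := (D.stmtCTX T hT).2.2.2.1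
  have e1 : D.N1 T (D.LM T) {x, y} = ∅ := by
    refine Finset.eq_empty_of_forall_notMem fun m hm => ?_
    obtain ⟨m1, m2, m3, s, hs, hms⟩ := mem_N1.1 hm
    have := cyc5_only hcls hT h m1 m2 s hs hms
    subst this
    rw [NA_pair] at m3
    rcases hd with rfl | rfl
    · exact m3.1 hms
    · exact m3.2 hms
  have e2 : D.N2 T (D.LM T) {x, y} = ∅ := by
    refine Finset.eq_empty_of_forall_notMem fun z hz => ?_
    obtain ⟨_, _, _, _, m, hm, _⟩ := mem_N2.1 hz
    rw [e1] at hm
    simp at hm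
  have := G_le_four D.stmtGDEC hT hx hy hxy (Or.inr (Cyc5.not_five h (hRL hx) (hRL hy))) h0.le
  rw [e1, e2] at this
  simpa using this

/-- a pair without `d`, `d` adjacent to it -/
theorem cyc5_p4 {x y : D.ι} (hx : x ∈ Rset D.g T) (hy : y ∈ Rset D.g T) (hxy : x ≠ y)
    (hxd : x ≠ d) (hd : D.Adj d x ∨ D.Adj d y)
    (h0 : ∑ z ∈ D.N0 T (D.LM T) {x, y}, q4 (D.cnt T z {x, y}) = 0) : D.G T {x, y} ≤ 4 := by
  classical
  have hRL := (D.stmtCTX T hT).2.2.2.1
  have hLT := (D.stmtCTX T hT).2.2.1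
  have hcov : Cov D T x y := by
    intro s hs h1 h2
    by_cases e : s = d
    · subst e; exact Or.inl hd
    · right
      intro m hm hms
      obtain ⟨m1, m2, m3, -⟩ := mem_N1.1 hm
      exact e (cyc5_only hcls hT h m1 m2 s hs hms)
  have h1 := G_le_cov4 D.stmtGDEC hT hx hy hxy hLT hcov (Cyc5.not_five h (hRL hx) (hRL hy)) h0.le
  have h2 := cyc5_N12 hcls hT h (y := y) hx hxd
  omega

/-- the pair `a b` -/
theorem cyc5_p8 {x y : D.ι} (hx : x ∈ Rset D.g T) (hy : y ∈ Rset D.g T) (hxy : x ≠ y)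
    (hxd : x ≠ d)
    (h0 : ∑ z ∈ D.N0 T (D.LM T) {x, y}, q4 (D.cnt T z {x, y}) = 0) : D.G T {x, y} ≤ 8 := by
  classical
  have hRL := (D.stmtCTX T hT).2.2.2.1
  have h1 := G_le_four D.stmtGDEC hT hx hy hxy (Or.inr (Cyc5.not_five h (hRL hx) (hRL hy))) h0.le
  have h2 := cyc5_N12 hcls hT h (y := y) hx hxd
  omega

end

/-- the bounds for the pairs -/
def cyc5β : Fin 5 → Fin 5 → ℕ := ![![0, 8, 4, 0, 4], ![0, 0, 4, 0, 4], ![0, 0, 0, 0, 4],
  ![0, 0, 0, 0, 0], ![0, 0, 0, 0, 0]]

/-- the bounds for the vertex payments -/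
def cyc5τ : Fin 5 → Fin 5 → ℕ := ![![5, 9, 5, 5, 9], ![9, 5, 9, 5, 5], ![5, 9, 5, 5, 5],
  ![5, 5, 9, 5, 9], ![9, 5, 5, 5, 5]]

/-- the adjacencies -/
def cyc5A : Fin 5 → Fin 5 → Bool := ![![false, true, false, false, true],
  ![true, false, true, false, false], ![false, true, false, true, false],
  ![false, false, true, false, true], ![true, false, false, true, false]]

theorem cyc5_num : ∀ I : Finset (Fin 5),
    2 * (∑ a ∈ I, ∑ b ∈ I, if a < b then cyc5β a b else 0) +
      8 * (∑ a ∈ I, ∑ b ∈ I, ∑ c ∈ I, if a < b ∧ b < c then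
      2 - (cyc5A a b).toNat - (cyc5A a c).toNat - (cyc5A b c).toNat else 0) ≤
      ∑ r ∈ I, ∑ b ∈ I, (if r ≠ b then cyc5τ r b else 0) := by decide

end TP

open TP

/-- **Block TCYC5** -/
theorem stmtTCYC5 (D : CoxData n) (hcls : D.StmtCLS) : D.StmtTCYC5 := by
  classical
  intro T hT a b c d e h
  set f : Fin 5 → D.ι := ![a, b, c, d, e] with hf
  have f0 : f 0 = a := rfl
  have f1 : f 1 = b := rfl
  have f2 : f 2 = c := rfl
  have f3 : f 3 = d := rfl
  have f4 : f 4 = e := rfl
  have hL : ∀ s ∈ D.LM T, s = a ∨ s = b ∨ s = c ∨ s = d ∨ s = e := by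
    intro s hs; rw [h.eq] at hs; simpa using hs
  have lf := fun {x y z : D.ι} => cyc5_leaf hcls hT h (x := x) (y := y) (z := z)
  have e1 := h.ab
  have e2 := h.ac
  have e3 := h.ad
  have e4 := h.ae
  have e5 := h.bc
  have e6 := h.bd
  have e7 := h.be
  have e8 := h.cd
  have e9 := h.ce
  have e10 := h.de
  -- neighbours in `L`
  have na : ∀ w ∈ D.LM T, D.Adj a w → w = b ∨ w = e := by
    intro w hw ha
    rcases hL w hw with rfl | rfl | rfl | rfl | rfl
    · exact absurd rfl ha.1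
    · exact Or.inl rfl
    · exact absurd ha h.Nac
    · exact absurd ha h.Nad
    · exact Or.inr rfl
  have nb : ∀ w ∈ D.LM T, D.Adj b w → w = a ∨ w = c := by
    intro w hw ha
    rcases hL w hw with rfl | rfl | rfl | rfl | rfl
    · exact Or.inl rfl
    · exact absurd rfl ha.1
    · exact Or.inr rfl
    · exact absurd ha h.Nbd
    · exact absurd ha h.Nbe
  have nc : ∀ w ∈ D.LM T, D.Adj c w → w = b ∨ w = d := by
    intro w hw ha
    rcases hL w hw with rfl | rfl | rfl | rfl | rfl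
    · exact absurd ha h.Nca
    · exact Or.inl rfl
    · exact absurd rfl ha.1
    · exact Or.inr rfl
    · exact absurd ha h.Nce
  have ne : ∀ w ∈ D.LM T, D.Adj e w → w = a ∨ w = d := by
    intro w hw ha
    rcases hL w hw with rfl | rfl | rfl | rfl | rfl
    · exact Or.inl rfl
    · exact absurd ha h.Neb
    · exact absurd ha h.Nec
    · exact Or.inr rfl
    · exact absurd rfl ha.1
  refine D.tb_of hT f ?_ ?_ cyc5A cyc5β cyc5τ ?_ ?_ ?_ (fun _ => True) (fun _ _ => trivial)
    (fun I _ => cyc5_num I)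
  · intro i j hij
    fin_cases i <;> fin_cases j <;> simp_all [f0, f1, f2, f3, f4]
  · intro s hs
    rcases hL s hs with rfl | rfl | rfl | rfl | rfl
    · exact ⟨0, rfl⟩
    · exact ⟨1, rfl⟩
    · exact ⟨2, rfl⟩
    · exact ⟨3, rfl⟩
    · exact ⟨4, rfl⟩
  · intro i j hij
    have a1 := h.Aab
    have a2 := h.Abc
    have a3 := h.Acd
    have a4 := h.Ade
    have a5 := h.Aea
    have b1 := h.Aba
    have b2 := h.Acb
    have b3 := h.Adc
    have b4 := h.Aed
    have b5 := h.Aae
    fin_cases i <;> fin_cases j <;> first | assumption | (exact absurd hij (by decide))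
  · intro i j hij hi hj
    fin_cases i <;> fin_cases j <;> first | (exact absurd hij (by decide)) | skip
    · exact cyc5_p8 hcls hT h hi hj h.ab h.ad (cyc5_N0_adj hT h (x' := e) (y' := c) (o := d)
        hi hj (fun s hs => by have := hL s hs; tauto) h.me h.mc h.ab h.Aea h.Acb h.Aed h.Acd
        h.be.symm h.ac.symm)
    · exact cyc5_p4 hcls hT h hi hj h.ac h.ad (Or.inr h.Adc) (cyc5_N0_non hT hi hj (by
        intro s hs
        rcases hL s hs with rfl | rfl | rfl | rfl | rfl
        · exact Or.inl rfl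
        · exact Or.inr (Or.inr (Or.inl h.Aba))
        · exact Or.inr (Or.inl rfl)
        · exact Or.inr (Or.inr (Or.inr h.Adc))
        · exact Or.inr (Or.inr (Or.inl h.Aea))))
    · exact cyc5_pd hcls hT h hi hj h.ad (Or.inr rfl) (cyc5_N0_non hT hi hj (by
        intro s hs
        rcases hL s hs with rfl | rfl | rfl | rfl | rfl
        · exact Or.inl rfl
        · exact Or.inr (Or.inr (Or.inl h.Aba))
        · exact Or.inr (Or.inr (Or.inr h.Acd))
        · exact Or.inr (Or.inl rfl)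
        · exact Or.inr (Or.inr (Or.inl h.Aea))))
    · exact cyc5_p4 hcls hT h hi hj h.ae h.ad (Or.inr h.Ade) (cyc5_N0_adj hT h (x' := b)
        (y' := d) (o := c) hi hj (fun s hs => by have := hL s hs; tauto) h.mb h.md h.ae h.Aba
        h.Ade h.Abc h.Adc h.be h.ad.symm)
    · exact cyc5_p4 hcls hT h hi hj h.bc h.bd (Or.inr h.Adc) (cyc5_N0_adj hT h (x' := a)
        (y' := d) (o := e) hi hj (fun s hs => by have := hL s hs; tauto) h.ma h.md h.bc h.Aab
        h.Adc h.Aae h.Ade h.ac h.bd.symm)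
    · exact cyc5_pd hcls hT h hi hj h.bd (Or.inr rfl) (cyc5_N0_non hT hi hj (by
        intro s hs
        rcases hL s hs with rfl | rfl | rfl | rfl | rfl
        · exact Or.inr (Or.inr (Or.inl h.Aab))
        · exact Or.inl rfl
        · exact Or.inr (Or.inr (Or.inl h.Acb))
        · exact Or.inr (Or.inl rfl)
        · exact Or.inr (Or.inr (Or.inr h.Aed))))
    · exact cyc5_p4 hcls hT h hi hj h.be h.bd (Or.inr h.Ade) (cyc5_N0_non hT hi hj (by
        intro s hs
        rcases hL s hs with rfl | rfl | rfl | rfl | rfl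
        · exact Or.inr (Or.inr (Or.inl h.Aab))
        · exact Or.inl rfl
        · exact Or.inr (Or.inr (Or.inl h.Acb))
        · exact Or.inr (Or.inr (Or.inr h.Ade))
        · exact Or.inr (Or.inl rfl)))
    · exact cyc5_pd hcls hT h hi hj h.cd (Or.inr rfl) (cyc5_N0_adj hT h (x' := b)
        (y' := e) (o := a) hi hj (fun s hs => by have := hL s hs; tauto) h.mb h.me h.cd h.Abc
        h.Aed h.Aba h.Aea h.bd h.ce.symm)
    · exact cyc5_p4 hcls hT h hi hj h.ce h.cd (Or.inl h.Adc) (cyc5_N0_non hT hi hj (by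
        intro s hs
        rcases hL s hs with rfl | rfl | rfl | rfl | rfl
        · exact Or.inr (Or.inr (Or.inr h.Aae))
        · exact Or.inr (Or.inr (Or.inl h.Abc))
        · exact Or.inl rfl
        · exact Or.inr (Or.inr (Or.inl h.Adc))
        · exact Or.inr (Or.inl rfl)))
    · exact cyc5_pd hcls hT h hi hj h.de (Or.inl rfl) (cyc5_N0_adj hT h (x' := c)
        (y' := a) (o := b) hi hj (fun s hs => by have := hL s hs; tauto) h.mc h.ma h.de h.Acd
        h.Aae h.Acb h.Aab h.ce h.ad)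
  · intro i j hij hi hj
    fin_cases i <;> fin_cases j <;>
      first
      | exact absurd rfl hij
      | exact t8_ge5 _ _
      | skip
    · exact t8_leaf (lf h.bd h.mb nb)
    · exact t8_leaf (lf h.de.symm h.me ne)
    · exact t8_leaf (lf h.ad h.ma na)
    · exact t8_leaf (lf h.cd h.mc nc)
    · exact t8_leaf (lf h.bd h.mb (fun w hw ha => (nb w hw ha).symm))
    · exact t8_leaf (lf h.cd h.mc (fun w hw ha => (nc w hw ha).symm))
    · exact t8_leaf (lf h.de.symm h.me (fun w hw ha => (ne w hw ha).symm))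
    · exact t8_leaf (lf h.ad h.ma (fun w hw ha => (na w hw ha).symm))

end CoxData

end MP345
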