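import Mathlib
import Pool.Agent.Work.MP_345ef2_gt_24.T_TB
import Pool.Agent.Work.MP_345ef2_gt_24.T_CLF
import Pool.Agent.Work.MP_345ef2_gt_24.T_GDEC
import Pool.Agent.Work.MP_345ef2_gt_24.T_HEAVY
import Pool.Agent.Work.MP_345ef2_gt.Shape

/-!
# Block TFORK (n ≤ 24), after helper82
-/

namespace MP345

open Finset

variable {n : ℕ}

namespace CoxData

namespace TF

open TP

variable {D : CoxData n}

theorem card4 {a b c d : D.ι} (h1 : a ≠ b) (h2 : a ≠ c) (h3 : a ≠ d) (h4 : b ≠ c) (h5 : b ≠ d)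
    (h6 : c ≠ d) : ({a, b, c, d} : Finset D.ι).card = 4 := by
  rw [Finset.card_insert_of_notMem (by simp [h1, h2, h3]),
    Finset.card_insert_of_notMem (by simp [h4, h5]), Finset.card_pair h6]

/-- nodes with a single neighbour -/
theorem nb_card_le_one {V : Finset D.ι} {x z : D.ι} (h : ∀ w ∈ V, D.Adj x w → w = z) :
    (D.nb V x).card ≤ 1 := by
  classical
  have : D.nb V x ⊆ {z} := by
    intro w hw
    obtain ⟨h1, h2⟩ := (mem_nb D).1 hw
    simp [h w h1 h2]
  exact (Finset.card_le_card this).trans (by simp)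

section

variable (htree : D.StmtTREE)

include htree in
/-- a positive definite tree has no two branch nodes -/
theorem no_two_branch {U : Finset D.ι} (hU : PD D.g U) (hTC : D.TC U) {x y : D.ι} (hx : x ∈ U)
    (hy : y ∈ U) (hxy : x ≠ y) (h1 : 3 ≤ (D.nb U x).card) (h2 : 3 ≤ (D.nb U y).card) : False := by
  classical
  have h3 := D.deg_le hU hx
  have h4 := D.deg_le hU hy
  have h5 := (htree U hU hTC).2.1
  have h6 : ({x, y} : Finset D.ι) ⊆ U.filter fun x => (D.nb U x).card = 3 := by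
    intro z hz
    simp only [Finset.mem_insert, Finset.mem_singleton] at hz
    rcases hz with rfl | rfl
    · exact Finset.mem_filter.2 ⟨hx, by omega⟩
    · exact Finset.mem_filter.2 ⟨hy, by omega⟩
  have h7 := Finset.card_le_card h6
  rw [Finset.card_pair hxy] at h7
  have h8 : (U.filter fun x => (D.nb U x).card = 3).card ≤ 1 := by convert h5
  omega

/-- three neighbours -/
theorem nb_card_ge3 {U : Finset D.ι} {x p q r : D.ι} (hp : p ∈ U) (hq : q ∈ U) (hr : r ∈ U)
    (h1 : p ≠ q) (h2 : p ≠ r) (h3 : q ≠ r) (a1 : D.Adj x p) (a2 : D.Adj x q) (a3 : D.Adj x r) :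
    3 ≤ (D.nb U x).card := by
  classical
  have : ({p, q, r} : Finset D.ι) ⊆ D.nb U x := by
    intro z hz
    simp only [Finset.mem_insert, Finset.mem_singleton] at hz
    rcases hz with rfl | rfl | rfl
    · exact (mem_nb D).2 ⟨hp, a1⟩
    · exact (mem_nb D).2 ⟨hq, a2⟩
    · exact (mem_nb D).2 ⟨hr, a3⟩
  have h4 := Finset.card_le_card this
  rwa [Finset.card_insert_of_notMem (by simp [h1, h2]), Finset.card_pair h3] at h4

/-- four neighbours -/
theorem nb_card_ge4 {U : Finset D.ι} {x p q r s : D.ι} (hp : p ∈ U) (hq : q ∈ U) (hr : r ∈ U)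
    (hs : s ∈ U) (h1 : p ≠ q) (h2 : p ≠ r) (h3 : p ≠ s) (h4 : q ≠ r) (h5 : q ≠ s) (h6 : r ≠ s)
    (a1 : D.Adj x p) (a2 : D.Adj x q) (a3 : D.Adj x r) (a4 : D.Adj x s) :
    4 ≤ (D.nb U x).card := by
  classical
  have : ({p, q, r, s} : Finset D.ι) ⊆ D.nb U x := by
    intro z hz
    simp only [Finset.mem_insert, Finset.mem_singleton] at hz
    rcases hz with rfl | rfl | rfl | rfl
    · exact (mem_nb D).2 ⟨hp, a1⟩
    · exact (mem_nb D).2 ⟨hq, a2⟩
    · exact (mem_nb D).2 ⟨hr, a3⟩
    · exact (mem_nb D).2 ⟨hs, a4⟩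
  have h7 := Finset.card_le_card this
  rwa [card4 h1 h2 h3 h4 h5 h6] at h7


end

theorem Fork.flip {u v w p q : D.ι} {L : Finset D.ι} (h : D.Fork u v w p q L) :
    D.Fork u v w q p L where
  eq := by rw [h.eq]; ext z; simp only [Finset.mem_insert, Finset.mem_singleton]; tauto
  uv := h.uv
  uw := h.uw
  up := h.uq
  uq := h.up
  vw := h.vw
  vp := h.vq
  vq := h.vp
  wp := h.wq
  wq := h.wp
  pq := h.pq.symm
  vuv := h.vuv
  vvw := h.vvw
  vwp := h.vwq
  vwq := h.vwp
  vuw := h.vuw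
  vup := h.vuq
  vuq := h.vup
  vvp := h.vvq
  vvq := h.vvp
  vpq := by rw [D.symm]; exact h.vpq

/-- the path `q - w - v - u` -/
theorem Fork.tc4 {u v w p q : D.ι} {L : Finset D.ι} (h : D.Fork u v w p q L) :
    D.TC {q, w, v, u} := by
  have h1 := TC_pair (Fork.Avu h)
  have h2 := TC_insert (x := w) (u := v) h1 (by simp [h.vw.symm, h.uw.symm]) (by simp)
    (Fork.Awv h)
  exact TC_insert (x := q) (u := w) h2 (by simp [h.wq.symm, h.vq.symm, h.uq.symm]) (by simp)
    (Fork.Aqw h)

/-- the star `w; v, p, q` -/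
theorem Fork.tcs {u v w p q : D.ι} {L : Finset D.ι} (h : D.Fork u v w p q L) :
    D.TC {v, p, q, w} := by
  have h1 := TC_pair (Fork.Aqw h)
  have h2 := TC_insert (x := p) (u := w) h1 (by simp [h.pq, h.wp.symm]) (by simp)
    (Fork.Apw h)
  exact TC_insert (x := v) (u := w) h2 (by simp [h.vp, h.vq, h.vw]) (by simp)
    (Fork.Avw h)

/-- the path `p - w - q` -/
theorem Fork.tc3 {u v w p q : D.ι} {L : Finset D.ι} (h : D.Fork u v w p q L) :
    D.TC {p, q, w} := by
  have h1 := TC_pair (Fork.Aqw h)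
  exact TC_insert (x := p) (u := w) h1 (by simp [h.pq, h.wp.symm]) (by simp)
    (Fork.Apw h)

section

variable (hctx : D.StmtCTX) (hgd : D.StmtGDEC) (hcg : D.StmtCGEN) (hclf : D.StmtCLF)
  {T : Finset D.ι} (hT : T ∈ Tsets D.g n) {u v w p q : D.ι} (h : D.Fork u v w p q (D.LM T))

include hclf h in
theorem fork_cls : D.cls (D.LM T) = 3 := hclf.1 _ u v w p q h

include hcg hT h

/-- a pair that contains `p` -/
theorem fork_p {x : D.ι} (hx : x ∈ Rset D.g T) (hp : p ∈ Rset D.g T) (hxp : x ≠ p) :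
    (D.N1 T (D.LM T) {x, p}).card = 0 ∧ (D.N2 T (D.LM T) {x, p}).card = 0 := by
  classical
  have h1 := (D.gen_at_h hcg hT hx hp hxp (V := {q, w, v, u}) (by
    intro z hz
    simp only [Finset.mem_insert, Finset.mem_singleton] at hz
    rw [Finset.mem_erase, h.eq]
    simp only [Finset.mem_insert, Finset.mem_singleton]
    rcases hz with rfl | rfl | rfl | rfl
    · exact ⟨h.pq.symm, by simp⟩
    · exact ⟨h.wp, by simp⟩
    · exact ⟨h.vp, by simp⟩
    · exact ⟨h.up, by simp⟩) (Fork.tc4 h) (by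
    intro s hs h1 h2
    rw [h.eq] at hs
    simp only [Finset.mem_insert, Finset.mem_singleton] at hs ⊢
    tauto)).2.2.2.2.2 ⟨u, by simp, v, by simp, h.vuv⟩
  rw [card4 h.wq.symm h.vq.symm h.uq.symm h.vw.symm h.uw.symm h.uv.symm] at h1
  omega

include hctx hgd hclf

/-- pair `u, p` -/
theorem fork_up (hu : u ∈ Rset D.g T) (hp : p ∈ Rset D.g T) : D.G T {u, p} ≤ 1 := by
  classical
  have hLT := (hctx T hT).2.2.1
  have hc := fork_cls hclf h
  obtain ⟨h1, h2⟩ := fork_p hcg hT h hu hp h.up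
  have h3 := D.N0_sum_le_h T hu hp {q} (fun s hs h3 h4 h5 h6 => by
    rw [h.eq] at hs
    simp only [Finset.mem_insert, Finset.mem_singleton] at hs ⊢
    rcases hs with rfl | rfl | rfl | rfl | rfl
    · exact absurd rfl h3
    · exact absurd (Fork.Avu h) h5
    · exact absurd (Fork.Awp h) h6
    · exact absurd rfl h4
    · rfl)
  rw [Finset.sum_singleton] at h3
  have h4 : 1 ≤ D.cnt T q {u, p} := cnt_pos (p := p) (by simp) (hLT (Fork.mw h))
    (by simp [h.uw.symm, h.wp]) (Fork.Awq h) (Fork.Awp h)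
  have h4' := q4_le1 h4
  have h5 := G_le_42 hgd hT hu hp h.up (by omega) h3
  omega

/-- pair `v, p` -/
theorem fork_vp (hv : v ∈ Rset D.g T) (hp : p ∈ Rset D.g T) : D.G T {v, p} ≤ 1 := by
  classical
  have hLT := (hctx T hT).2.2.1
  have hc := fork_cls hclf h
  obtain ⟨h1, h2⟩ := fork_p hcg hT h hv hp h.vp
  have h3 := D.N0_sum_le_h T hv hp {q} (fun s hs h3 h4 h5 h6 => by
    rw [h.eq] at hs
    simp only [Finset.mem_insert, Finset.mem_singleton] at hs ⊢
    rcases hs with rfl | rfl | rfl | rfl | rfl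
    · exact absurd (Fork.Auv h) h5
    · exact absurd rfl h3
    · exact absurd (Fork.Awp h) h6
    · exact absurd rfl h4
    · rfl)
  rw [Finset.sum_singleton] at h3
  have h4 : 1 ≤ D.cnt T q {v, p} := cnt_pos (p := p) (by simp) (hLT (Fork.mw h))
    (by simp [h.vw.symm, h.wp]) (Fork.Awq h) (Fork.Awp h)
  have h4' := q4_le1 h4
  have h5 := G_le_42 hgd hT hv hp h.vp (by omega) h3
  omega

/-- pair `w, p` -/
theorem fork_wp (hw : w ∈ Rset D.g T) (hp : p ∈ Rset D.g T) : D.G T {w, p} ≤ 1 := by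
  classical
  have hLT := (hctx T hT).2.2.1
  have hc := fork_cls hclf h
  obtain ⟨h1, h2⟩ := fork_p hcg hT h hw hp h.wp
  have h3 := D.N0_sum_le_h T hw hp {u} (fun s hs h3 h4 h5 h6 => by
    rw [h.eq] at hs
    simp only [Finset.mem_insert, Finset.mem_singleton] at hs ⊢
    rcases hs with rfl | rfl | rfl | rfl | rfl
    · rfl
    · exact absurd (Fork.Avw h) h5
    · exact absurd rfl h3
    · exact absurd rfl h4
    · exact absurd (Fork.Aqw h) h5)
  rw [Finset.sum_singleton] at h3
  have h4 : 1 ≤ D.cnt T u {w, p} := cnt_pos (p := w) (by simp) (hLT (Fork.mv h))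
    (by simp [h.vw, h.vp]) (Fork.Avu h) (Fork.Avw h)
  have h4' := q4_le1 h4
  have h5 := G_le_42 hgd hT hw hp h.wp (by omega) h3
  omega

/-- pair `p, q` -/
theorem fork_pq (hp : p ∈ Rset D.g T) (hq : q ∈ Rset D.g T) : D.G T {p, q} ≤ 4 := by
  classical
  have hLT := (hctx T hT).2.2.1
  have hc := fork_cls hclf h
  obtain ⟨h1, h2⟩ := fork_p hcg hT (Fork.flip h) hp hq h.pq
  have h3 := D.N0_sum_le_h T hp hq {u, v} (fun s hs h3 h4 h5 h6 => by
    rw [h.eq] at hs
    simp only [Finset.mem_insert, Finset.mem_singleton] at hs ⊢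
    rcases hs with rfl | rfl | rfl | rfl | rfl
    · simp
    · simp
    · exact absurd (Fork.Awp h) h5
    · exact absurd rfl h3
    · exact absurd rfl h4)
  rw [Finset.sum_pair h.uv] at h3
  have h4 : 2 ≤ D.cnt T v {p, q} := cnt_two_of h.pq (hLT (Fork.mw h)) h.wp h.wq
    (hLT (Fork.mw h)) h.wp h.wq (Fork.Awv h) (Fork.Awp h) (Fork.Awv h) (Fork.Awq h)
  have h4' := q4_zero h4
  have h4'' := q4_le4 (D.cnt T u {p, q})
  have h5 := G_le_42 hgd hT hp hq h.pq (by omega) h3
  omega

end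

section

variable (hgen : D.StmtGEN) (htree : D.StmtTREE)
  {T : Finset D.ι} (hT : T ∈ Tsets D.g n) {u v w p q : D.ι} (h : D.Fork u v w p q (D.LM T))

include htree h in
/-- no `E7~` -/
theorem fork_uv_aux {U : Finset D.ι} (hU : PD D.g U) (hTC : D.TC U) (hvU : v ∈ U) (hwU : w ∈ U)
    (hpU : p ∈ U) (hqU : q ∈ U) {m m' x x' : D.ι} (hm : m ∈ U) (hm' : m' ∈ U) (hx : x ∈ U)
    (hx' : x' ∈ U) (hmL : m ∉ D.LM T) (hmL' : m' ∉ D.LM T) (hxL : x ∉ D.LM T)
    (hxL' : x' ∉ D.LM T) (hmm : m ≠ m') (hxx : x ≠ x') (hxm : x ≠ m) (hxm' : x ≠ m')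
    (hxm2 : x' ≠ m) (hxm2' : x' ≠ m') (hmp : D.Adj m p) (hmq : D.Adj m' q)
    (h1 : D.Adj x m ∨ D.Adj x m') (h2 : D.Adj x' m ∨ D.Adj x' m') : False := by
  classical
  have ne : ∀ {y z : D.ι}, y ∉ D.LM T → z ∈ D.LM T → z ≠ y := by
    rintro y z hy hz rfl; exact hy hz
  have mp := Fork.mp h
  have mq := Fork.mq h
  have mv := Fork.mv h
  have mw := Fork.mw h
  have hw3 : 3 ≤ (D.nb U w).card := nb_card_ge3 (p := v) (q := p) (r := q) hvU hpU hqU h.vp h.vq
    h.pq (Fork.Awv h) (Fork.Awp h) (Fork.Awq h)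
  have key : ∀ {y z : D.ι}, y ∈ U → z ∈ U → y ≠ x → D.Adj y z → z ∈ D.LM T → y ∉ D.LM T →
      D.Adj x y → D.Adj x' y → False := by
    intro y z hy hz hyx hyz hzL hyL h3 h4
    exact no_two_branch htree hU hTC hwU hy (ne hyL mw) hw3
      (nb_card_ge3 (p := z) (q := x) (r := x') hz hx hx' (ne hxL hzL) (ne hxL' hzL) hxx hyz
        (h3.symm D) (h4.symm D))
  have kE : ∀ {y y' : D.ι}, y ∈ U → y' ∈ U → y ∉ D.LM T → y' ∉ D.LM T → y ≠ y' → y ≠ m →
      y ≠ m' → y' ≠ m → y' ≠ m' → D.Adj y m → D.Adj y' m' → False := by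
    intro y y' hy hy' hyL hyL' hyy hym hym' hym2 hym2' h3 h4
    refine no_E7t hU hwU hvU hpU hm hy hqU hm' hy' (Fork.Awv h) (Fork.Awp h) (hmp.symm D)
      (h3.symm D) (Fork.Awq h) (hmq.symm D) (h4.symm D) ?_
    simp only [List.nodup_cons, List.mem_cons, List.not_mem_nil, or_false, not_or,
      not_false_eq_true, List.nodup_nil, and_true]
    exact ⟨⟨h.vw.symm, h.wp, ne hmL mw, ne hyL mw, h.wq, ne hmL' mw, ne hyL' mw⟩,
      ⟨h.vp, ne hmL mv, ne hyL mv, h.vq, ne hmL' mv, ne hyL' mv⟩,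
      ⟨ne hmL mp, ne hyL mp, h.pq, ne hmL' mp, ne hyL' mp⟩,
      ⟨hym.symm, (ne hmL mq).symm, hmm, hym2.symm⟩,
      ⟨(ne hyL mq).symm, hym', hyy⟩, ⟨ne hmL' mq, ne hyL' mq⟩, hym2'.symm⟩
  rcases h1 with h1 | h1
  · rcases h2 with h2 | h2
    · exact key hm hpU hxm.symm hmp mp hmL h1 h2
    · exact kE hx hx' hxL hxL' hxx hxm hxm' hxm2 hxm2' h1 h2
  · rcases h2 with h2 | h2
    · exact kE hx' hx hxL' hxL hxx.symm hxm2 hxm2' hxm hxm' h2 h1
    · exact key hm' hqU hxm'.symm hmq mq hmL' h1 h2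

variable (hctx : D.StmtCTX) (hgd : D.StmtGDEC) (hcg : D.StmtCGEN) (hclf : D.StmtCLF)

include hctx hgd hcg hclf hgen htree hT h

/-- pair `u, v` -/
theorem fork_uv (hu : u ∈ Rset D.g T) (hv : v ∈ Rset D.g T) : D.G T {u, v} ≤ 12 := by
  classical
  have hLT := (hctx T hT).2.2.1
  have hc := fork_cls hclf h
  have h3 := D.N0_sum_le_h T hu hv {p, q} (fun s hs h3 h4 h5 h6 => by
    rw [h.eq] at hs
    simp only [Finset.mem_insert, Finset.mem_singleton] at hs ⊢
    rcases hs with rfl | rfl | rfl | rfl | rfl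
    · exact absurd rfl h3
    · exact absurd rfl h4
    · exact absurd (Fork.Awv h) h6
    · simp
    · simp)
  rw [Finset.sum_pair h.pq] at h3
  have h4 : 1 ≤ D.cnt T p {u, v} := cnt_pos (p := v) (by simp) (hLT (Fork.mw h))
    (by simp [h.uw.symm, h.vw.symm]) (Fork.Awp h) (Fork.Awv h)
  have h4' : 1 ≤ D.cnt T q {u, v} := cnt_pos (p := v) (by simp) (hLT (Fork.mw h))
    (by simp [h.uw.symm, h.vw.symm]) (Fork.Awq h) (Fork.Awv h)
  have h6 := q4_le1 h4
  have h6' := q4_le1 h4'
  have h5 := G_le_42 hgd hT hu hv h.uv (by omega) h3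
  have hg := gen_full' hcg hT hu hv h.uv (V := {v, p, q, w}) (by
    intro z hz
    simp only [Finset.mem_insert, Finset.mem_singleton] at hz
    rw [Finset.mem_erase, h.eq]
    simp only [Finset.mem_insert, Finset.mem_singleton]
    rcases hz with rfl | rfl | rfl | rfl
    · exact ⟨h.uv.symm, by simp⟩
    · exact ⟨h.up.symm, by simp⟩
    · exact ⟨h.uq.symm, by simp⟩
    · exact ⟨h.uw.symm, by simp⟩) (Fork.tcs h) (by
    intro s hs h1 h2
    rw [h.eq] at hs
    simp only [Finset.mem_insert, Finset.mem_singleton] at hs ⊢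
    tauto)
  have hU := hgen _ _ _ _ hg
  have hPD : PD D.g ({v, p, q, w} ∪ D.N1 T (D.LM T) {u, v} ∪ D.N2 T (D.LM T) {u, v}) :=
    hg.pd.mono (Finset.union_subset (Finset.union_subset hg.sV hg.s1) hg.s2)
  have hprot := hU.2.2.2.2.2.2.2.1 v (D.prot_of_h (P := {u, v}) (z := w)
    (Finset.Subset.refl _) (by simp) (by simp)
    (by rw [card4 h.vp h.vq h.vw h.pq h.wp.symm h.wq.symm]; norm_num) (by
      intro z hz ha
      simp only [Finset.mem_insert, Finset.mem_singleton] at hz
      rcases hz with rfl | rfl | rfl | rfl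
      · exact absurd rfl ha.1
      · exact absurd ha (Fork.Nvp h)
      · exact absurd ha (Fork.Nvq h)
      · rfl))
  have h22 : ¬ ((D.N1 T (D.LM T) {u, v}).card = 2 ∧ (D.N2 T (D.LM T) {u, v}).card = 2) := by
    rintro ⟨c1, c2⟩
    obtain ⟨m, m', hmm, e1⟩ := Finset.card_eq_two.1 c1
    obtain ⟨x, x', hxx, e2⟩ := Finset.card_eq_two.1 c2
    have hm : m ∈ D.N1 T (D.LM T) {u, v} := by rw [e1]; simp
    have hm' : m' ∈ D.N1 T (D.LM T) {u, v} := by rw [e1]; simp
    have hx : x ∈ D.N2 T (D.LM T) {u, v} := by rw [e2]; simp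
    have hx' : x' ∈ D.N2 T (D.LM T) {u, v} := by rw [e2]; simp
    have hd := hg.d3
    rw [Finset.disjoint_left] at hd
    have hw3 : 3 ≤ (D.nb ({v, p, q, w} ∪ D.N1 T (D.LM T) {u, v} ∪
        D.N2 T (D.LM T) {u, v}) w).card :=
      nb_card_ge3 (p := v) (q := p) (r := q) (by simp) (by simp) (by simp) h.vp h.vq
        h.pq (Fork.Awv h) (Fork.Awp h) (Fork.Awq h)
    have ne : ∀ {y z : D.ι}, y ∉ D.LM T → z ∈ D.LM T → z ≠ y := by
      rintro y z hy hz rfl; exact hy hz
    have hcon : ∀ y ∈ D.N1 T (D.LM T) {u, v}, D.Adj y p ∨ D.Adj y q := by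
      intro y hy
      obtain ⟨y1, y2, y3, s, hs, hys⟩ := mem_N1.1 hy
      rw [NA_pair] at y3
      rw [h.eq] at hs
      simp only [Finset.mem_insert, Finset.mem_singleton] at hs
      rcases hs with rfl | rfl | rfl | rfl | rfl
      · exact absurd hys y3.1
      · exact absurd hys y3.2
      · exfalso
        have h6 := D.deg_le hPD (p := s) (by simp)
        have h7 := nb_card_ge4 (D := D) (U := {v, p, q, s} ∪ D.N1 T (D.LM T) {u, v} ∪
          D.N2 T (D.LM T) {u, v}) (x := s) (p := v) (q := p) (r := q) (s := y) (by simp)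
          (by simp) (by simp) (by simp [hy]) h.vp h.vq (ne y2 (Fork.mv h)) h.pq
          (ne y2 (Fork.mp h)) (ne y2 (Fork.mq h)) (Fork.Awv h) (Fork.Awp h) (Fork.Awq h)
          (hys.symm D)
        omega
      · exact Or.inl hys
      · exact Or.inr hys
    have hxN : ∀ y ∈ D.N2 T (D.LM T) {u, v}, D.Adj y m ∨ D.Adj y m' := by
      intro y hy
      obtain ⟨y1, y2, y3, y4, z, hz, hyz⟩ := mem_N2.1 hy
      rw [e1] at hz
      simp only [Finset.mem_insert, Finset.mem_singleton] at hz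
      rcases hz with rfl | rfl
      · exact Or.inl hyz
      · exact Or.inr hyz
    have two : ∀ {z : D.ι}, z ∈ D.LM T → z ≠ w → D.Adj z w →
        z ∈ ({v, p, q, w} ∪ D.N1 T (D.LM T) {u, v} ∪ D.N2 T (D.LM T) {u, v} : Finset D.ι) →
        D.Adj m z → D.Adj m' z → False := by
      intro z hzL hzw hzw' hzU a1 a2
      exact no_two_branch htree hPD hU.1 (x := w) (y := z) (by simp) hzU hzw.symm hw3
        (nb_card_ge3 (p := w) (q := m) (r := m') (by simp) (by simp [hm]) (by simp [hm'])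
          (ne (mem_N1.1 hm).2.1 (Fork.mw h)) (ne (mem_N1.1 hm').2.1 (Fork.mw h)) hmm hzw'
          (a1.symm D) (a2.symm D))
    have xm : ∀ {y z : D.ι}, y ∈ D.N2 T (D.LM T) {u, v} → z ∈ D.N1 T (D.LM T) {u, v} →
        y ≠ z := by
      rintro y z hy hz rfl; exact hd hz hy
    rcases hcon m hm with a1 | a1
    · rcases hcon m' hm' with a2 | a2
      · exact two (Fork.mp h) h.wp.symm (Fork.Apw h) (by simp) a1 a2
      · exact fork_uv_aux htree h hPD hU.1 (by simp) (by simp) (by simp) (by simp)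
          (m := m) (m' := m') (x := x) (x' := x') (by simp [hm]) (by simp [hm'])
          (by simp [hx]) (by simp [hx']) (mem_N1.1 hm).2.1 (mem_N1.1 hm').2.1
          (mem_N2.1 hx).2.1 (mem_N2.1 hx').2.1 hmm hxx (xm hx hm) (xm hx hm') (xm hx' hm)
          (xm hx' hm') a1 a2 (hxN x hx) (hxN x' hx')
    · rcases hcon m' hm' with a2 | a2
      · exact fork_uv_aux htree h hPD hU.1 (by simp) (by simp) (by simp) (by simp)
          (m := m') (m' := m) (x := x) (x' := x') (by simp [hm']) (by simp [hm])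
          (by simp [hx]) (by simp [hx']) (mem_N1.1 hm').2.1 (mem_N1.1 hm).2.1
          (mem_N2.1 hx).2.1 (mem_N2.1 hx').2.1 hmm.symm hxx (xm hx hm') (xm hx hm) (xm hx' hm')
          (xm hx' hm) a2 a1 (hxN x hx).symm (hxN x' hx').symm
      · exact two (Fork.mq h) h.wq.symm (Fork.Aqw h) (by simp) a1 a2
  have := hprot.1
  have := hprot.2
  omega

end

section

variable (hgen : D.StmtGEN) (hheavy : D.StmtHEAVY) (hctx : D.StmtCTX) (hgd : D.StmtGDEC)
  (hcg : D.StmtCGEN) (hclf : D.StmtCLF) (hclt : D.StmtCLT)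
  {T : Finset D.ι} (hT : T ∈ Tsets D.g n) {u v w p q : D.ι} (h : D.Fork u v w p q (D.LM T))

include hgen hheavy hctx hcg hclf hclt hT h

/-- the side of `p`, `q` for the pair `v, w` -/
theorem fork_vw_pq (hv : v ∈ Rset D.g T) (hw : w ∈ Rset D.g T) :
    (D.N1p_h T (D.LM T) {v, w} {p, q, w}).card ≤ 2 ∧
    (D.N2p_h T (D.LM T) {v, w} {p, q, w}).card ≤ 2 := by
  classical
  have hLT := (hctx T hT).2.2.1
  have hc := fork_cls hclf h
  have hg0 := (hcg T hT w hw v hv h.vw.symm {p, q, w} (by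
    intro z hz
    simp only [Finset.mem_insert, Finset.mem_singleton] at hz
    rw [Finset.mem_erase, h.eq]
    simp only [Finset.mem_insert, Finset.mem_singleton]
    rcases hz with rfl | rfl | rfl
    · exact ⟨h.vp.symm, by simp⟩
    · exact ⟨h.vq.symm, by simp⟩
    · exact ⟨h.vw.symm, by simp⟩) (Fork.tc3 h)).1
  rw [Finset.pair_comm w v] at hg0
  have hg : D.GenHyp (T.erase v) {p, q, w} (D.N1p_h T (D.LM T) {v, w} {p, q, w})
    (D.N2p_h T (D.LM T) {v, w} {p, q, w}) := hg0
  set M1 := D.N1p_h T (D.LM T) {v, w} {p, q, w} with hM1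
  set M2 := D.N2p_h T (D.LM T) {v, w} {p, q, w} with hM2
  have hU := hgen _ _ _ _ hg
  have hPD : PD D.g ({p, q, w} ∪ M1 ∪ M2) :=
    hg.pd.mono (Finset.union_subset (Finset.union_subset hg.sV hg.s1) hg.s2)
  have s1 : ∀ m ∈ M1, m ∈ D.N1 T (D.LM T) {v, w} := by
    intro m hm
    exact D.N1p_sub_h _ _ _ _ hm
  have s2 : ∀ m ∈ M2, m ∈ D.N2 T (D.LM T) {v, w} := by
    intro m hm
    rw [hM2] at hm
    unfold N2p_h at hm
    exact (Finset.mem_filter.1 hm).1
  have ne : ∀ {y z : D.ι}, y ∉ D.LM T → z ∈ D.LM T → z ≠ y := by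
    rintro y z hy hz rfl; exact hy hz
  have c1 : ∀ m ∈ M1, D.Adj m p ∨ D.Adj m q := by
    intro m hm
    obtain ⟨z, hz, hmz⟩ := hg.h1 m hm
    have h3 := (NA_pair.1 (mem_N1.1 (s1 m hm)).2.2.1).2
    simp only [Finset.mem_insert, Finset.mem_singleton] at hz
    rcases hz with rfl | rfl | rfl
    · exact Or.inl hmz
    · exact Or.inr hmz
    · exact absurd hmz h3
  by_cases hhv : ∃ a ∈ ({p, q, w} ∪ M1 ∪ M2 : Finset D.ι),
      ∃ b ∈ ({p, q, w} ∪ M1 ∪ M2 : Finset D.ι), D.Heavy a b
  · have hdeg := hheavy _ hPD hU.1 hhv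
    have b1 : M1.card ≤ 2 := by
      by_contra hlt
      push Not at hlt
      have hmap : ∀ m ∈ M1, (if D.Adj m p then p else q) ∈ ({p, q} : Finset D.ι) := by
        intro m hm; split_ifs <;> simp
      obtain ⟨m, hm, m', hm', hmm, he⟩ := Finset.exists_ne_map_eq_of_card_lt_of_maps_to
        (s := M1) (t := ({p, q} : Finset D.ι)) (f := fun m => if D.Adj m p then p else q)
        (by rw [Finset.card_pair h.pq]; exact hlt) (fun m hm => hmap m hm)
      have key : ∀ s, s ∈ ({p, q} : Finset D.ι) → D.Adj m s → D.Adj m' s → False := by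
        intro s hs a1 a2
        have hsU : s ∈ ({p, q, w} ∪ M1 ∪ M2 : Finset D.ι) := by
          simp only [Finset.mem_insert, Finset.mem_singleton] at hs
          rcases hs with rfl | rfl <;> simp
        have hsw : D.Adj s w := by
          simp only [Finset.mem_insert, Finset.mem_singleton] at hs
          rcases hs with rfl | rfl
          · exact Fork.Apw h
          · exact Fork.Aqw h
        have h3 := nb_card_ge3 (D := D) (U := {p, q, w} ∪ M1 ∪ M2) (x := s) (p := w) (q := m)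
          (r := m') (by simp) (by simp [hm]) (by simp [hm'])
          (ne (mem_N1.1 (s1 m hm)).2.1 (Fork.mw h)) (ne (mem_N1.1 (s1 m' hm')).2.1 (Fork.mw h))
          hmm hsw (a1.symm D) (a2.symm D)
        have := hdeg s hsU
        omega
      have r1 := c1 m hm
      have r2 := c1 m' hm'
      by_cases q1 : D.Adj m p
      · by_cases q2 : D.Adj m' p
        · exact key p (by simp) q1 q2
        · rw [if_pos q1, if_neg q2] at he
          exact h.pq he
      · by_cases q2 : D.Adj m' p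
        · rw [if_neg q1, if_pos q2] at he
          exact h.pq he.symm
        · exact key q (by simp) (r1.resolve_left q1) (r2.resolve_left q2)
    have b2 : M2.card ≤ M1.card := by
      by_contra hlt
      push Not at hlt
      have hch : ∀ x : D.ι, ∃ m : D.ι, x ∈ M2 → m ∈ M1 ∧ D.Adj x m := by
        intro x
        by_cases hx : x ∈ M2
        · obtain ⟨m, hm, hxm⟩ := hg.h2 x hx
          exact ⟨m, fun _ => ⟨hm, hxm⟩⟩
        · exact ⟨x, fun h => absurd h hx⟩
      choose f hf using hch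
      obtain ⟨x, hx, x', hx', hxx, he⟩ := Finset.exists_ne_map_eq_of_card_lt_of_maps_to
        (s := M2) (t := M1) (f := f) hlt (fun x hx => (hf x hx).1)
      obtain ⟨f1, f2⟩ := hf x hx
      obtain ⟨f1', f2'⟩ := hf x' hx'
      rw [← he] at f2'
      obtain ⟨s, hs, hms⟩ := hg.h1 _ f1
      have hsL : s ∈ D.LM T := by
        simp only [Finset.mem_insert, Finset.mem_singleton] at hs
        rcases hs with rfl | rfl | rfl
        · exact Fork.mp h
        · exact Fork.mq h
        · exact Fork.mw h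
      have hsU : s ∈ ({p, q, w} ∪ M1 ∪ M2 : Finset D.ι) := by
        rw [Finset.mem_union, Finset.mem_union]; exact Or.inl (Or.inl hs)
      have h3 := nb_card_ge3 (D := D) (U := {p, q, w} ∪ M1 ∪ M2) (x := f x) (p := s) (q := x)
        (r := x') hsU (by simp [hx]) (by simp [hx'])
        (ne (mem_N2.1 (s2 x hx)).2.1 hsL) (ne (mem_N2.1 (s2 x' hx')).2.1 hsL)
        hxx hms (f2.symm D) (f2'.symm D)
      have := hdeg (f x) (by simp [f1])
      omega
    omega
  · have hnv : ∀ b ∈ ({p, q, w} ∪ M1 ∪ M2 : Finset D.ι), ¬ D.Heavy v b := by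
      intro b hb hhb
      simp only [Finset.mem_union, Finset.mem_insert, Finset.mem_singleton] at hb
      rcases hb with ((rfl | rfl | rfl) | hb) | hb
      · exact Fork.Nvp h hhb.1
      · exact Fork.Nvq h hhb.1
      · exact hhb.2 h.vvw
      · exact (NA_pair.1 (mem_N1.1 (s1 b hb)).2.2.1).1 (hhb.1.symm D)
      · exact (NA_pair.1 (mem_N2.1 (s2 b hb)).2.2.1).1 (hhb.1.symm D)
    have hsubT : insert v ({p, q, w} ∪ M1 ∪ M2) ⊆ T := by
      intro z hz
      rcases Finset.mem_insert.1 hz with rfl | hz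
      · exact hLT (Fork.mv h)
      · have h3 := Finset.union_subset (Finset.union_subset hg.sV hg.s1) hg.s2 hz
        exact Finset.mem_of_mem_erase h3
    have hPD2 : PD D.g (insert v ({p, q, w} ∪ M1 ∪ M2)) := by
      refine (hclt T hT).2.2.1 (by omega) _ hsubT ?_
      intro a ha b hb hab
      rcases Finset.mem_insert.1 ha with rfl | ha
      · rcases Finset.mem_insert.1 hb with rfl | hb
        · exact hab.1.1 rfl
        · exact hnv b hb hab
      · rcases Finset.mem_insert.1 hb with rfl | hb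
        · exact hnv a ha (Heavy.symm D hab)
        · exact hhv ⟨a, ha, b, hb, hab⟩
    have hg2 : D.GenHyp (insert v ({p, q, w} ∪ M1 ∪ M2)) {v, p, q, w} M1 M2 := by
      refine ⟨hPD2, ?_, ?_, ?_, ?_, ?_, hg.d3, Fork.tcs h, ?_, hg.h2, ?_⟩
      · intro z hz
        simp only [Finset.mem_insert, Finset.mem_singleton, Finset.mem_union] at hz ⊢
        tauto
      · intro z hz
        simp only [Finset.mem_insert, Finset.mem_singleton, Finset.mem_union]
        tauto
      · intro z hz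
        simp only [Finset.mem_insert, Finset.mem_singleton, Finset.mem_union]
        tauto
      · rw [Finset.disjoint_left]
        intro z hz hz'
        have h3 := (mem_N1.1 (s1 z hz')).2.1
        rw [h.eq] at h3
        simp only [Finset.mem_insert, Finset.mem_singleton] at hz h3
        tauto
      · rw [Finset.disjoint_left]
        intro z hz hz'
        have h3 := (mem_N2.1 (s2 z hz')).2.1
        rw [h.eq] at h3
        simp only [Finset.mem_insert, Finset.mem_singleton] at hz h3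
        tauto
      · intro m hm
        obtain ⟨z, hz, hmz⟩ := hg.h1 m hm
        exact ⟨z, Finset.mem_insert_of_mem hz, hmz⟩
      · intro x hx z hz
        have h3 := (mem_N2.1 (s2 x hx)).2.2.2.1
        refine h3 z ?_
        rw [h.eq]
        simp only [Finset.mem_insert, Finset.mem_singleton] at hz ⊢
        tauto
    have hU2 := hgen _ _ _ _ hg2
    exact hU2.2.2.2.2.2.2.2.1 v (D.prot_of_h (T := T) (L := D.LM T) (P := {v, w}) (z := w)
      (fun m hm => s1 m hm) (by simp) (by simp)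
      (by rw [card4 h.vp h.vq h.vw h.pq h.wp.symm h.wq.symm]; norm_num) (by
        intro z hz ha
        simp only [Finset.mem_insert, Finset.mem_singleton] at hz
        rcases hz with rfl | rfl | rfl | rfl
        · exact absurd rfl ha.1
        · exact absurd ha (Fork.Nvp h)
        · exact absurd ha (Fork.Nvq h)
        · rfl))

include hgd in
/-- pair `v, w` -/
theorem fork_vw (hv : v ∈ Rset D.g T) (hw : w ∈ Rset D.g T) : D.G T {v, w} ≤ 9 := by
  classical
  have hLT := (hctx T hT).2.2.1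
  have hc := fork_cls hclf h
  have h1 := D.G_le_cov_h hctx hgd hT hv hw h.vw (by omega) (by
    intro s hs h1 h2
    rw [h.eq] at hs
    simp only [Finset.mem_insert, Finset.mem_singleton] at hs
    rcases hs with rfl | rfl | rfl | rfl | rfl
    · exact Or.inl (Fork.Auv h)
    · exact absurd rfl h1
    · exact absurd rfl h2
    · exact Or.inr (Fork.Apw h)
    · exact Or.inr (Fork.Aqw h))
  have h2 := D.parts_le_h T (a := v) (b := w) (V := {u, v}) (W := {p, q, w}) (by
    intro s hs h1 h2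
    rw [h.eq] at hs
    simp only [Finset.mem_insert, Finset.mem_singleton] at hs ⊢
    tauto)
  have h3 := fork_vw_pq hgen hheavy hctx hcg hclf hclt hT h hv hw
  have h4 := ((D.gen_part_h hcg hT hv hw h.vw (V := {u, v}) (by
    intro z hz
    simp only [Finset.mem_insert, Finset.mem_singleton] at hz
    rw [Finset.mem_erase, h.eq]
    simp only [Finset.mem_insert, Finset.mem_singleton]
    rcases hz with rfl | rfl
    · exact ⟨h.uw, by simp⟩
    · exact ⟨h.vw, by simp⟩) (TC_pair (Fork.Auv h))).2.2.2.2.1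
      ⟨u, by simp, v, by simp, D.heavy_of_five h.vuv⟩).2.2 v
      (D.prot_of_h (P := {v, w}) (z := u) (D.N1p_sub_h _ _ _ _) (by simp) (by simp)
        (by rw [Finset.card_pair h.uv]) (by
          intro z hz ha
          simp only [Finset.mem_insert, Finset.mem_singleton] at hz
          rcases hz with rfl | rfl
          · rfl
          · exact absurd rfl ha.1))
  have := h2.1
  have := h2.2
  have := h3.1
  have := h3.2
  have := h4.1
  have := h4.2
  omega

end

section

variable (hctx : D.StmtCTX) (hclt : D.StmtCLT)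
  {T : Finset D.ι} (hT : T ∈ Tsets D.g n)

include hctx hclt hT in
/-- no node of `T` with a heavy edge and two further neighbours -/
theorem heavy_deg (hcls : 2 ≤ D.cls (D.LM T)) {x y z z' : D.ι} (hx : x ∈ T) (hy : y ∈ T)
    (hz : z ∈ T) (hz' : z' ∈ T) (h1 : D.Heavy x y) (h2 : D.Adj x z) (h3 : D.Adj x z')
    (hyz : y ≠ z) (hyz' : y ≠ z') (hzz : z ≠ z') : False := by
  classical
  have hPD : PD D.g ({x, y, z, z'} : Finset D.ι) := by
    refine (hclt T hT).2.1 hcls _ ?_ Finset.card_le_four ⟨x, by simp,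
      nb_card_ge3 (p := y) (q := z) (r := z') (by simp) (by simp) (by simp) hyz hyz' hzz h1.1 h2
        h3⟩
    intro s hs
    simp only [Finset.mem_insert, Finset.mem_singleton] at hs
    rcases hs with rfl | rfl | rfl | rfl <;> assumption
  exact no_heavy3 hPD (p := x) (q := y) (r := z) (s := z') (by simp) (by simp) (by simp)
    (by simp) hyz hyz' hzz (D.heavy_sq h1) h1.1.1 h2 h3

include hctx hclt hT in
/-- `x` is a leaf of `T - y` if `x y` is heavy -/
theorem heavy_leaf (hcls : 2 ≤ D.cls (D.LM T)) {x y : D.ι} (hx : x ∈ T) (hy : y ∈ T)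
    (h1 : D.Heavy x y) : D.LeafAt T y x := by
  classical
  unfold LeafAt
  refine Finset.card_le_one.2 fun z hz z' hz' => ?_
  by_contra hzz
  rw [mem_nb, Finset.mem_erase] at hz hz'
  exact heavy_deg hctx hclt hT hcls hx hy hz.1.2 hz'.1.2 h1 hz.2 hz'.2 hz.1.1.symm hz'.1.1.symm
    hzz

end

section

variable (hctx : D.StmtCTX) (hgd : D.StmtGDEC) (hcg : D.StmtCGEN) (hclf : D.StmtCLF)
  (hclt : D.StmtCLT) {T : Finset D.ι} (hT : T ∈ Tsets D.g n) {u v w p q : D.ι}
  (h : D.Fork u v w p q (D.LM T))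

include hctx hgd hcg hclf hclt hT h in
/-- pair `u, w`, improved: `v` is protected in `L - u` -/
theorem fork_uw4 (hgen : D.StmtGEN) (hu : u ∈ Rset D.g T) (hw : w ∈ Rset D.g T) :
    D.G T {u, w} ≤ 6 := by
  classical
  have hLT := (hctx T hT).2.2.1
  have hc := fork_cls hclf h
  have hHuv : D.Heavy u v := D.heavy_of_five h.vuv
  have hnv : ∀ m ∈ T, D.Adj v m → m = u ∨ m = w := by
    intro m hm hvm
    by_contra hcon
    push Not at hcon
    exact heavy_deg hctx hclt hT (by omega) (hLT (Fork.mv h)) (hLT (Fork.mu h))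
      (hLT (Fork.mw h)) hm (Heavy.symm D hHuv) (Fork.Avw h) hvm h.uw hcon.1.symm hcon.2.symm
  rw [Finset.pair_comm]
  have h1 := D.G_le_cov_h hctx hgd hT hw hu h.uw.symm (by omega) (by
    intro s hs h1 h2
    rw [h.eq] at hs
    simp only [Finset.mem_insert, Finset.mem_singleton] at hs
    rcases hs with rfl | rfl | rfl | rfl | rfl
    · exact absurd rfl h2
    · exact Or.inl (Fork.Avw h)
    · exact absurd rfl h1
    · exact Or.inl (Fork.Apw h)
    · exact Or.inl (Fork.Aqw h))
  have hg := gen_full hcg hT hw hu h.uw.symm (V := {v, p, q, w}) (by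
    intro z hz
    simp only [Finset.mem_insert, Finset.mem_singleton] at hz
    rw [Finset.mem_erase, h.eq]
    simp only [Finset.mem_insert, Finset.mem_singleton]
    rcases hz with rfl | rfl | rfl | rfl
    · exact ⟨h.uv.symm, by simp⟩
    · exact ⟨h.up.symm, by simp⟩
    · exact ⟨h.uq.symm, by simp⟩
    · exact ⟨h.uw.symm, by simp⟩) (Fork.tcs h) (by
    intro s hs h1 h2
    rw [h.eq] at hs
    simp only [Finset.mem_insert, Finset.mem_singleton] at hs ⊢
    tauto)
  have hU := hgen _ _ _ _ hg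
  have hprot := hU.2.2.2.2.2.2.2.1 v ⟨by simp,
    by rw [card4 h.vp h.vq h.vw h.pq h.wp.symm h.wq.symm]; norm_num, by
      refine nb_card_le_one (z := w) fun z hz ha => ?_
      simp only [Finset.mem_insert, Finset.mem_singleton] at hz
      rcases hz with rfl | rfl | rfl | rfl
      · exact absurd rfl ha.1
      · exact absurd ha (Fork.Nvp h)
      · exact absurd ha (Fork.Nvq h)
      · rfl, by
      intro m hm ha
      obtain ⟨m1, m2, m3, m4⟩ := mem_N1.1 hm
      rcases hnv m m1 ha with rfl | rfl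
      · exact m2 (Fork.mu h)
      · exact m2 (Fork.mw h)⟩
  have := hprot.1
  have := hprot.2
  omega

end


section

variable (hctx : D.StmtCTX) (hgd : D.StmtGDEC) (hcg : D.StmtCGEN) (hclf : D.StmtCLF)
  {T : Finset D.ι} (hT : T ∈ Tsets D.g n) {u v w p q : D.ι} (h : D.Fork u v w p q (D.LM T))

include hctx hT h in
/-- `p ∈ R`: no outer node is adjacent to `q` -/
theorem fork_nq (hp : p ∈ Rset D.g T) {m : D.ι} (hm : m ∈ T) (hmL : m ∉ D.LM T) :
    ¬ D.Adj m q := by
  intro hmq
  have hLT := (hctx T hT).2.2.1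
  have hS := (hctx T hT).2.2.2.2.1 p hp
  have nm : ∀ {z : D.ι}, z ∈ D.LM T → z ≠ m := by
    rintro z hz rfl; exact hmL hz
  have inS : ∀ {z : D.ι}, z ∈ T → z ≠ p → z ∈ T.erase p := fun hz hne =>
    Finset.mem_erase.2 ⟨hne, hz⟩
  exact no_5333 hS (inS (hLT h.mu) h.up) (inS (hLT h.mv) h.vp) (inS (hLT h.mw) h.wp)
    (inS (hLT h.mq) h.pq.symm) (inS hm (nm h.mp).symm) (by rw [h.vuv]) h.Avw h.Awq (hmq.symm D)
    (nd5 h.uv h.uw h.uq (nm h.mu) h.vw h.vq (nm h.mv) h.wq (nm h.mw) (nm h.mq))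

include hctx hgd hcg hclf hT h in
/-- pair `u, v` if `p, q ∈ R` -/
theorem fork_uv0 (hu : u ∈ Rset D.g T) (hv : v ∈ Rset D.g T) (hp : p ∈ Rset D.g T)
    (hq : q ∈ Rset D.g T) : D.G T {u, v} ≤ 0 := by
  classical
  have hc := fork_cls hclf h
  have hS := (hctx T hT).2.2.2.2.1 u hu
  have hLT := (hctx T hT).2.2.1
  have h0 : ∑ z ∈ D.N0 T (D.LM T) {u, v}, q4 (D.cnt T z {u, v}) = 0 := by
    refine N0_sum_zero fun z hz => ?_
    obtain ⟨⟨z1, z2⟩, z3⟩ := mem_N0.1 hz
    rw [NA_pair] at z3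
    rw [h.eq] at z1
    simp only [Finset.mem_insert, Finset.mem_singleton] at z1
    rcases z1 with rfl | rfl | rfl | rfl | rfl
    · exact absurd hu z2
    · exact absurd hv z2
    · exact absurd h.Awv z3.2
    · exact absurd hp z2
    · exact absurd hq z2
  have e1 : D.N1 T (D.LM T) {u, v} = ∅ := by
    refine Finset.eq_empty_of_forall_notMem fun m hm => ?_
    obtain ⟨m1, m2, m3, s, hs, hms⟩ := mem_N1.1 hm
    rw [NA_pair] at m3
    have nm : ∀ {z : D.ι}, z ∈ D.LM T → z ≠ m := by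
      rintro z hz rfl; exact m2 hz
    rw [h.eq] at hs
    simp only [Finset.mem_insert, Finset.mem_singleton] at hs
    have inS : ∀ {z : D.ι}, z ∈ T → z ≠ u → z ∈ T.erase u := fun hz hne =>
      Finset.mem_erase.2 ⟨hne, hz⟩
    rcases hs with rfl | rfl | rfl | rfl | rfl
    · exact m3.1 hms
    · exact m3.2 hms
    · have := D.sq_sum_lt hS (inS (hLT h.mw) h.uw.symm) (N := {v, p, q, m}) (by
        intro r hr; simp only [Finset.mem_insert, Finset.mem_singleton] at hr
        rcases hr with rfl | rfl | rfl | rfl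
        · exact inS (hLT h.mv) h.uv.symm
        · exact inS (hLT h.mp) h.up.symm
        · exact inS (hLT h.mq) h.uq.symm
        · exact inS m1 (nm h.mu).symm) (by simp [h.vw.symm, h.wp, h.wq, nm h.mw])
      rw [Finset.sum_insert (by simp [h.vp, h.vq, nm h.mv]),
        Finset.sum_insert (by simp [h.pq, nm h.mp]), Finset.sum_pair (nm h.mq)] at this
      have a1 := h.Awv.sq_ge D
      have a2 := h.Awp.sq_ge D
      have a3 := h.Awq.sq_ge D
      have a4 := (hms.symm D).sq_ge D
      linarith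
    · exact fork_nq hctx hT (Fork.flip h) hq m1 m2 hms
    · exact fork_nq hctx hT h hp m1 m2 hms
  have e2 : D.N2 T (D.LM T) {u, v} = ∅ := by
    refine Finset.eq_empty_of_forall_notMem fun z hz => ?_
    obtain ⟨_, _, _, _, m, hm, _⟩ := mem_N2.1 hz
    rw [e1] at hm
    simp at hm
  have := G_le_42 hgd hT hu hv h.uv (by omega) h0.le
  rw [e1, e2] at this
  simpa using this

end

/-- the bounds for the pairs; `x` for the pair `u v` -/
def forkβ (x : ℕ) : Fin 5 → Fin 5 → ℕ := ![![0, x, 6, 1, 1], ![0, 0, 9, 1, 1], ![0, 0, 0, 1, 1],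
  ![0, 0, 0, 0, 4], ![0, 0, 0, 0, 0]]

/-- the bounds for the vertex payments -/
def forkτ : Fin 5 → Fin 5 → ℕ := ![![5, 9, 5, 5, 5], ![19, 5, 5, 5, 5], ![15, 15, 5, 5, 5],
  ![5, 5, 5, 5, 5], ![5, 5, 5, 5, 5]]

/-- the adjacencies -/
def forkA : Fin 5 → Fin 5 → Bool := ![![false, true, false, false, false],
  ![true, false, true, false, false], ![false, true, false, true, true],
  ![false, false, true, false, false], ![false, false, true, false, false]]

theorem fork_num12 : ∀ I : Finset (Fin 5), ¬ ((3 : Fin 5) ∈ I ∧ (4 : Fin 5) ∈ I) →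
    2 * (∑ a ∈ I, ∑ b ∈ I, if a < b then forkβ 12 a b else 0) +
      8 * (∑ a ∈ I, ∑ b ∈ I, ∑ c ∈ I, if a < b ∧ b < c then
      2 - (forkA a b).toNat - (forkA a c).toNat - (forkA b c).toNat else 0) ≤
      ∑ r ∈ I, ∑ b ∈ I, (if r ≠ b then forkτ r b else 0) := by decide

theorem fork_num0 : ∀ I : Finset (Fin 5),
    2 * (∑ a ∈ I, ∑ b ∈ I, if a < b then forkβ 0 a b else 0) +
      8 * (∑ a ∈ I, ∑ b ∈ I, ∑ c ∈ I, if a < b ∧ b < c then
      2 - (forkA a b).toNat - (forkA a c).toNat - (forkA b c).toNat else 0) ≤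
      ∑ r ∈ I, ∑ b ∈ I, (if r ≠ b then forkτ r b else 0) := by decide

end TF

open TP TF

/-- **Block TFORK** -/
theorem stmtTFORK (D : CoxData n) (hcls : D.StmtCLS) : D.StmtTFORK := by
  classical
  intro T hT u v w p q h
  have hctx := D.stmtCTX
  have hgd := D.stmtGDEC
  have hcg := D.stmtCGEN
  have hgen := D.stmtGEN
  have htree := D.stmtTREE
  have hheavy := D.stmtHEAVY
  have hclf := D.stmtCLF hcls
  have hclt := D.stmtCLT hcls
  have hLT := (hctx T hT).2.2.1
  have hc := fork_cls hclf h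
  set f : Fin 5 → D.ι := ![u, v, w, p, q] with hf
  have f0 : f 0 = u := rfl
  have f1 : f 1 = v := rfl
  have f2 : f 2 = w := rfl
  have f3 : f 3 = p := rfl
  have f4 : f 4 = q := rfl
  have hfl := TF.Fork.flip h
  have hinj : Function.Injective f := by
    intro i j hij
    have e1 := h.uv
    have e2 := h.uw
    have e3 := h.up
    have e4 := h.uq
    have e5 := h.vw
    have e6 := h.vp
    have e7 := h.vq
    have e8 := h.wp
    have e9 := h.wq
    have e10 := h.pq
    fin_cases i <;> fin_cases j <;> simp_all [f0, f1, f2, f3, f4]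
  have hLf : ∀ x ∈ D.LM T, ∃ i, f i = x := by
    intro s hs
    rw [h.eq] at hs
    simp only [Finset.mem_insert, Finset.mem_singleton] at hs
    rcases hs with rfl | rfl | rfl | rfl | rfl
    · exact ⟨0, rfl⟩
    · exact ⟨1, rfl⟩
    · exact ⟨2, rfl⟩
    · exact ⟨3, rfl⟩
    · exact ⟨4, rfl⟩
  have hA : ∀ i j, forkA i j = true → D.Adj (f i) (f j) := by
    intro i j hij
    have a1 := h.Auv
    have a2 := h.Avw
    have a3 := h.Awp
    have a4 := h.Awq
    have b1 := h.Avu
    have b2 := h.Awv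
    have b3 := h.Apw
    have b4 := h.Aqw
    fin_cases i <;> fin_cases j <;> first | assumption | (exact absurd hij (by decide))
  have hHuv : D.Heavy u v := D.heavy_of_five h.vuv
  have hnv : ∀ m ∈ T, D.Adj v m → m = u ∨ m = w := by
    intro m hm hvm
    by_contra hcon
    push Not at hcon
    exact heavy_deg hctx hclt hT (by omega) (hLT (Fork.mv h)) (hLT (Fork.mu h))
      (hLT (Fork.mw h)) hm (Heavy.symm D hHuv) (Fork.Avw h) hvm h.uw hcon.1.symm hcon.2.symm
  have hnu : ∀ m ∈ T, D.Adj u m → m = v := by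
    intro m hm hum
    by_contra hmv
    have hmw : m ≠ w := by rintro rfl; exact h.Nuw hum
    have hPD := (hclt T hT).2.2.2.1 (by omega) {m, u, v, w} (by
      intro r hr
      simp only [Finset.mem_insert, Finset.mem_singleton] at hr
      rcases hr with rfl | rfl | rfl | rfl
      · exact hm
      · exact hLT h.mu
      · exact hLT h.mv
      · exact hLT h.mw) Finset.card_le_four
    exact no_353 hPD (s := m) (q := u) (p := v) (r := w) (by simp) (by simp) (by simp) (by simp)
      (hum.symm D) h.vuv.le h.uv.symm h.Avw hmv hmw h.uw.symm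
  have hτ : ∀ i j, i ≠ j → f i ∈ Rset D.g T → f j ∈ Rset D.g T →
      forkτ i j ≤ D.t8 (T.erase (f i)) (f j) := by
    intro i j hij hi hj
    fin_cases i <;> fin_cases j <;>
      first
      | exact absurd rfl hij
      | exact t8_ge5 _ _
      | skip
    · exact t8_leaf (leafAt_of (z := w) hnv)
    · exact t8_iso (fun x hx ha => by
        rw [Finset.mem_erase] at hx
        exact hx.1 (hnu x hx.2 ha))
    · exact t8_leaf5 (c := v) (leafAt_of (x := w) (z := v) fun x hx ha => Or.inr (hnu x hx ha))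
        (Finset.mem_erase.2 ⟨h.vw, hLT h.mv⟩) h.vuv
    · exact t8_leaf5 (c := u) (leafAt_of (z := u) fun x hx ha => (hnv x hx ha).symm)
        (Finset.mem_erase.2 ⟨h.uw, hLT h.mu⟩) (by rw [D.symm]; exact h.vuv)
  by_cases hpq : p ∈ Rset D.g T ∧ q ∈ Rset D.g T
  · refine D.tb_of hT f hinj hLf forkA (forkβ 0) forkτ hA ?_ hτ (fun _ => True)
      (fun _ _ => trivial) (fun I _ => fork_num0 I)
    intro i j hij hi' hj'
    fin_cases i <;> fin_cases j <;> first | (exact absurd hij (by decide)) | skip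
    · exact fork_uv0 hctx hgd hcg hclf hT h hi' hj' hpq.1 hpq.2
    · exact fork_uw4 hctx hgd hcg hclf hclt hT h hgen hi' hj'
    · exact fork_up hctx hgd hcg hclf hT h hi' hj'
    · exact fork_up hctx hgd hcg hclf hT hfl hi' hj'
    · exact fork_vw hgen hheavy hctx hgd hcg hclf hclt hT h hi' hj'
    · exact fork_vp hctx hgd hcg hclf hT h hi' hj'
    · exact fork_vp hctx hgd hcg hclf hT hfl hi' hj'
    · exact fork_wp hctx hgd hcg hclf hT h hi' hj'
    · exact fork_wp hctx hgd hcg hclf hT hfl hi' hj'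
    · exact fork_pq hctx hgd hcg hclf hT h hi' hj'
  · refine D.tb_of hT f hinj hLf forkA (forkβ 12) forkτ hA ?_ hτ
      (fun I => ¬ ((3 : Fin 5) ∈ I ∧ (4 : Fin 5) ∈ I)) ?_ fork_num12
    · intro i j hij hi' hj'
      fin_cases i <;> fin_cases j <;> first | (exact absurd hij (by decide)) | skip
      · exact fork_uv hgen htree hT h hctx hgd hcg hclf hi' hj'
      · exact fork_uw4 hctx hgd hcg hclf hclt hT h hgen hi' hj'
      · exact fork_up hctx hgd hcg hclf hT h hi' hj'
      · exact fork_up hctx hgd hcg hclf hT hfl hi' hj'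
      · exact fork_vw hgen hheavy hctx hgd hcg hclf hclt hT h hi' hj'
      · exact fork_vp hctx hgd hcg hclf hT h hi' hj'
      · exact fork_vp hctx hgd hcg hclf hT hfl hi' hj'
      · exact fork_wp hctx hgd hcg hclf hT h hi' hj'
      · exact fork_wp hctx hgd hcg hclf hT hfl hi' hj'
      · exact fork_pq hctx hgd hcg hclf hT h hi' hj'
    · intro I hI ⟨h3, h4⟩
      exact hpq ⟨(hI 3).1 h3, (hI 4).1 h4⟩

end CoxData

end MP345
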