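import Mathlib
import Pool.Agent.Work.MP_345ef2_gt_24.T_TB
import Pool.Agent.Work.MP_345ef2_gt_24.T_GDEC
import Pool.Agent.Work.MP_345ef2_gt_24.T_CLF

/-!
# Block TSMALL (MP_345ef2_gt, T level, n <= 24)
-/

namespace MP345

open Finset

variable {n : ℕ}

namespace CoxData

variable (D : CoxData n)

/-- a Lannér set of order three is a path or a triangle -/
theorem Lan.path3 {L : Finset D.ι} (hL : D.Lan L) (h3 : L.card = 3) :
    ∃ a b c, L = {a, b, c} ∧ a ≠ b ∧ a ≠ c ∧ b ≠ c ∧ D.Adj a b ∧ D.Adj b c := by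
  classical
  obtain ⟨x, y, z, hxy, hxz, hyz, rfl⟩ := Finset.card_eq_three.1 h3
  -- an edge at x
  obtain ⟨u, hu, v, hv, hvu, huv⟩ := D.stmtLCON {x, y, z} {x} hL (by simp) (by simp) (by
    intro e
    have := congrArg Finset.card e
    rw [h3] at this; simp at this)
  rw [Finset.mem_singleton] at hu
  subst hu
  have hv' : v = y ∨ v = z := by
    simp only [Finset.mem_insert, Finset.mem_singleton] at hv hvu
    tauto
  -- reduce to v = y
  have main : ∀ x y z : D.ι, x ≠ y → x ≠ z → y ≠ z → D.Lan {x, y, z} → D.Adj x y →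
      ∃ a b c, ({x, y, z} : Finset D.ι) = {a, b, c} ∧ a ≠ b ∧ a ≠ c ∧ b ≠ c ∧ D.Adj a b ∧
        D.Adj b c := by
    intro x y z hxy hxz hyz hL hadj
    obtain ⟨u, hu, v, hv, hvu, huv⟩ := D.stmtLCON {x, y, z} {x, y} hL (by
      intro t ht; simp only [Finset.mem_insert, Finset.mem_singleton] at ht ⊢; tauto) (by simp) (by
      intro e
      have : z ∈ ({x, y} : Finset D.ι) := by rw [e]; simp
      simp only [Finset.mem_insert, Finset.mem_singleton] at this
      rcases this with h | h
      · exact hxz h.symm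
      · exact hyz h.symm)
    have hvz : v = z := by
      simp only [Finset.mem_insert, Finset.mem_singleton] at hv hvu
      tauto
    subst hvz
    simp only [Finset.mem_insert, Finset.mem_singleton] at hu
    rcases hu with rfl | rfl
    · exact ⟨y, u, v, by ext t; simp only [Finset.mem_insert, Finset.mem_singleton]; tauto,
        hxy.symm, hyz, hxz, hadj.symm D, huv⟩
    · exact ⟨x, u, v, rfl, hxy, hxz, hyz, hadj, huv⟩
  rcases hv' with rfl | rfl
  · exact main u v z hxy hxz hyz hL huv
  · have e : ({u, y, v} : Finset D.ι) = {u, v, y} := by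
      ext t; simp only [Finset.mem_insert, Finset.mem_singleton]; tauto
    rw [e] at hL ⊢
    exact main u v y hxz hxy hyz.symm hL huv

theorem inj3 {α : Type*} {a b c : α} (hab : a ≠ b) (hac : a ≠ c) (hbc : b ≠ c) :
    Function.Injective ![a, b, c] := by
  intro i j h
  fin_cases i <;> fin_cases j <;> simp_all

theorem cls_zero {L : Finset D.ι} (h : L.card ≤ 3) : D.cls L = 0 := by
  unfold cls; rw [if_pos h]

/-- one of the edges of a Lannér path of order three is heavy -/
theorem heavy_of_path3 {L : Finset D.ι} (hL : D.Lan L) {a b c : D.ι} (hLe : L = {a, b, c})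
    (hab : a ≠ b) (hac : a ≠ c) (hbc : b ≠ c) (h0 : ¬ D.Adj a c) :
    D.Heavy a b ∨ D.Heavy b c := by
  classical
  by_contra hno
  push Not at hno
  have hnb : ∀ x y : D.ι, x ≠ y → ¬ D.Heavy x y → -(1 / 2) ≤ D.g x y := by
    intro x y hxy hh
    by_cases hadj : D.Adj x y
    · unfold Heavy at hh
      push Not at hh
      rw [hh hadj]
    · rw [D.g_eq_zero hxy hadj]; norm_num
  have e1 := hnb a b hab hno.1
  have e2 := hnb b c hbc hno.2
  have e3 : D.g a c = 0 := D.g_eq_zero hac h0
  obtain ⟨t, ht1, ht2⟩ := hL.exists_sub'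
  have haL : a ∈ L := by rw [hLe]; simp
  have hbL : b ∈ L := by rw [hLe]; simp
  have hcL : c ∈ L := by rw [hLe]; simp
  have pa := ht1 a haL
  have pb := ht1 b hbL
  have pc := ht1 c hcL
  have row : ∀ x ∈ L, ∀ N : Finset D.ι, D.nb L x ⊆ N → N ⊆ L → x ∉ N →
      t x < ∑ j ∈ N, -D.g x j * t j := by
    intro x hx N hN hNL hxN
    refine (ht2 x hx).trans_le (Finset.sum_le_sum_of_subset_of_nonneg hN fun j hj _ => ?_)
    have h1 := D.g_nonpos (i := x) (j := j) (fun e => hxN (e ▸ hj))
    have h2 := ht1 j (hNL hj)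
    nlinarith
  have expl : ∀ s ∈ L, s = a ∨ s = b ∨ s = c := by
    intro s hs; rw [hLe] at hs; simpa using hs
  have ra := row a haL {b} (by
    intro s hs
    obtain ⟨h1, h2⟩ := (mem_nb D).1 hs
    rcases expl s h1 with rfl | rfl | rfl
    · exact absurd rfl h2.1
    · simp
    · exact absurd h2 h0) (by simpa using hbL) (by simpa using hab)
  have rc := row c hcL {b} (by
    intro s hs
    obtain ⟨h1, h2⟩ := (mem_nb D).1 hs
    rcases expl s h1 with rfl | rfl | rfl
    · exact absurd (h2.symm D) h0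
    · simp
    · exact absurd rfl h2.1) (by simpa using hbL) (by simpa using hbc.symm)
  have rb := row b hbL {a, c} (by
    intro s hs
    obtain ⟨h1, h2⟩ := (mem_nb D).1 hs
    rcases expl s h1 with rfl | rfl | rfl
    · simp
    · exact absurd rfl h2.1
    · simp) (by
    intro s hs
    simp only [Finset.mem_insert, Finset.mem_singleton] at hs
    rcases hs with rfl | rfl <;> assumption) (by simp [hab.symm, hbc])
  rw [Finset.sum_singleton] at ra rc
  rw [Finset.sum_pair hac] at rb
  rw [D.symm c b] at rc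
  rw [D.symm b a] at rb
  nlinarith

/-- third node adjacent to both elements of the pair -/
theorem small_A {T : Finset D.ι} (hT : T ∈ Tsets D.g n) {x y w : D.ι}
    (hL : D.LM T = {x, y, w}) (hxy : x ≠ y) (h4 : D.cls (D.LM T) ≠ 4) (hwx : D.Adj w x)
    (hwy : D.Adj w y) (hx : x ∈ Rset D.g T) (hy : y ∈ Rset D.g T) : D.G T {x, y} ≤ 4 := by
  classical
  have hLT := (D.stmtCTX T hT).2.2.1
  have expl : ∀ s ∈ D.LM T, s = x ∨ s = y ∨ s = w := by
    intro s hs; rw [hL] at hs; simpa using hs
  have hwL : w ∈ D.LM T := by rw [hL]; simp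
  have hxL : x ∈ D.LM T := by rw [hL]; simp
  have h0 := D.N0_sum_le_h T hx hy ∅ (fun s hs h3 h4 h5 h6 => by
    rcases expl s hs with rfl | rfl | rfl
    · exact absurd rfl h3
    · exact absurd rfl h4
    · exact absurd hwx h5)
  rw [Finset.sum_empty] at h0
  have h1 := TP.G_le_gen D.stmtGDEC hT hx hy hxy (Or.inl h4) h0 (k1 := 0) (k2 := 2)
    (fun m hm => by
      obtain ⟨hmT, hmL, hmP, s, hs, hms⟩ := D.mem_N1_h.1 hm
      have hsw : s = w := by
        rcases expl s hs with rfl | rfl | rfl
        · exact absurd hms (hmP s (by simp))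
        · exact absurd hms (hmP s (by simp))
        · rfl
      subst hsw
      have hsP : s ∉ ({x, y} : Finset D.ι) := by simp [hwx.1, hwy.1]
      rw [TP.q4_zero (cnt_two (p := x) (p' := y) (by simp) (by simp) hxy (hLT hs) hsP
        (hms.symm D) hwx (hLT hs) hsP (hms.symm D) hwy)])
    (fun _ _ => TP.c2_le2 h4)
  have g := (D.gen_at_h D.stmtCGEN hT hx hy hxy (V := {x, w}) (by
    intro s hs
    simp only [Finset.mem_insert, Finset.mem_singleton] at hs
    rcases hs with rfl | rfl
    · exact Finset.mem_erase.2 ⟨hxy, hxL⟩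
    · exact Finset.mem_erase.2 ⟨hwy.1, hwL⟩) (TC_pair (hwx.symm D)) (by
    intro s hs h1 h2
    rcases expl s hs with rfl | rfl | rfl
    · exact absurd rfl h1
    · exact absurd rfl h2
    · simp)).2.2.2.1 x (D.prot_of_h (z := w) subset_rfl (by simp) (by simp)
      (by rw [Finset.card_pair hwx.1.symm]) (by
      intro v hv hxv
      simp only [Finset.mem_insert, Finset.mem_singleton] at hv
      rcases hv with rfl | rfl
      · exact absurd rfl hxv.1
      · rfl))
  omega

/-- third node `w` adjacent to `y`, `y` adjacent to `x` -/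
theorem small_B {T : Finset D.ι} (hT : T ∈ Tsets D.g n) {x y w : D.ι}
    (hL : D.LM T = {x, y, w}) (hxw : x ≠ w) (h4 : D.cls (D.LM T) ≠ 4) (hxy : x ≠ y)
    (hwy : D.Adj w y) (hx : x ∈ Rset D.g T) (hy : y ∈ Rset D.g T) :
    D.G T {x, y} ≤ 6 ∧ (D.Heavy w y → D.G T {x, y} ≤ 3) ∧
    (5 < D.G T {x, y} → 9 ≤ D.t8 (T.erase x) y) := by
  classical
  have hLT := (D.stmtCTX T hT).2.2.1
  have hRP := (D.stmtCTX T hT).2.2.2.2.1
  have expl : ∀ s ∈ D.LM T, s = x ∨ s = y ∨ s = w := by
    intro s hs; rw [hL] at hs; simpa using hs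
  have hwL : w ∈ D.LM T := by rw [hL]; simp
  have hxL : x ∈ D.LM T := by rw [hL]; simp
  have hyL : y ∈ D.LM T := by rw [hL]; simp
  have h1 := D.G_le_cov_h D.stmtCTX D.stmtGDEC hT hy hx hxy.symm h4 (by
    intro s hs h1 h2
    rcases expl s hs with rfl | rfl | rfl
    · exact absurd rfl h2
    · exact absurd rfl h1
    · exact Or.inl hwy)
  obtain ⟨-, -, -, g4, g5, -⟩ := D.gen_at_h D.stmtCGEN hT hy hx hxy.symm (V := {y, w}) (by
    intro s hs
    simp only [Finset.mem_insert, Finset.mem_singleton] at hs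
    rcases hs with rfl | rfl
    · exact Finset.mem_erase.2 ⟨hxy.symm, hyL⟩
    · exact Finset.mem_erase.2 ⟨hxw.symm, hwL⟩) (TC_pair (hwy.symm D)) (by
    intro s hs h1 h2
    rcases expl s hs with rfl | rfl | rfl
    · exact absurd rfl h2
    · exact absurd rfl h1
    · simp)
  have hprot : D.Prot {y, w} (D.N1 T (D.LM T) {y, x}) y :=
    D.prot_of_h (z := w) subset_rfl (by simp) (by simp)
      (by rw [Finset.card_pair hwy.1.symm]) (by
      intro v hv hxv
      simp only [Finset.mem_insert, Finset.mem_singleton] at hv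
      rcases hv with rfl | rfl
      · exact absurd rfl hxv.1
      · rfl)
  have g4 := g4 y hprot
  rw [D.G_comm_h T x y]
  refine ⟨by omega, ?_, ?_⟩
  · intro hh
    have := (g5 ⟨w, by simp, y, by simp, hh⟩).2.2 y hprot
    omega
  · intro h5
    have hN1 : (D.N1 T (D.LM T) {y, x}).card = 2 := by omega
    have hN2 : (D.N2 T (D.LM T) {y, x}).card = 2 := by omega
    refine t8_leaf ?_
    by_contra hlt
    push Not at hlt
    have hS := hRP x hx
    obtain ⟨u1, hu1, u2, hu2, hne⟩ := Finset.one_lt_card.1 hlt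
    have hex : ∃ t ∈ D.nb (T.erase x) y, t ≠ w := by
      by_cases e : u1 = w
      · exact ⟨u2, hu2, fun e' => hne (e.trans e'.symm)⟩
      · exact ⟨u1, hu1, e⟩
    obtain ⟨t, ht, htw⟩ := hex
    obtain ⟨htS, hyt⟩ := (mem_nb D).1 ht
    have hwS : w ∈ T.erase x := Finset.mem_erase.2 ⟨hxw.symm, hLT hwL⟩
    have hyS : y ∈ T.erase x := Finset.mem_erase.2 ⟨hxy.symm, hLT hyL⟩
    have hm1 : ∀ m ∈ D.N1 T (D.LM T) {y, x}, m ∈ T.erase x ∧ m ∉ D.LM T ∧ ¬ D.Adj m y ∧
        D.Adj m w := by
      intro m hm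
      obtain ⟨a1, a2, a3, s, hs, hms⟩ := D.mem_N1_h.1 hm
      refine ⟨Finset.mem_erase.2 ⟨fun e => a2 (e ▸ hxL), a1⟩, a2, a3 y (by simp), ?_⟩
      rcases expl s hs with rfl | rfl | rfl
      · exact absurd hms (a3 s (by simp))
      · exact absurd hms (a3 s (by simp))
      · exact hms
    have hm2 : ∀ m ∈ D.N2 T (D.LM T) {y, x}, m ∈ T.erase x ∧ m ∉ D.LM T ∧ ¬ D.Adj m y ∧
        ¬ D.Adj m w ∧ ∃ m' ∈ D.N1 T (D.LM T) {y, x}, D.Adj m m' := by
      intro m hm
      obtain ⟨a1, a2, a3, a4, a5⟩ := D.mem_N2_h.1 hm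
      exact ⟨Finset.mem_erase.2 ⟨fun e => a2 (e ▸ hxL), a1⟩, a2, a3 y (by simp), a4 w hwL, a5⟩
    have htw' : ¬ D.Adj t w := fun h =>
      D.no_tri hS htS hyS hwS (hyt.symm D) (hwy.symm D) h
    have htN1 : t ∉ D.N1 T (D.LM T) {y, x} := fun h => (hm1 t h).2.2.1 (hyt.symm D)
    have htN2 : t ∉ D.N2 T (D.LM T) {y, x} := fun h => (hm2 t h).2.2.1 (hyt.symm D)
    have hyN1 : y ∉ D.N1 T (D.LM T) {y, x} := fun h => (hm1 y h).2.1 hyL
    have hgen : D.GenHyp (T.erase x) {w} (insert y (D.N1 T (D.LM T) {y, x}))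
        (insert t (D.N2 T (D.LM T) {y, x})) := by
      refine ⟨hS, by simpa using hwS, ?_, ?_, ?_, ?_, ?_, TC_singleton w, ?_, ?_, ?_⟩
      · intro s hs
        rcases Finset.mem_insert.1 hs with rfl | hs
        · exact hyS
        · exact (hm1 s hs).1
      · intro s hs
        rcases Finset.mem_insert.1 hs with rfl | hs
        · exact htS
        · exact (hm2 s hs).1
      · rw [Finset.disjoint_singleton_left, Finset.mem_insert, not_or]
        exact ⟨hwy.1, fun h => (hm1 w h).2.1 hwL⟩
      · rw [Finset.disjoint_singleton_left, Finset.mem_insert, not_or]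
        exact ⟨Ne.symm htw, fun h => (hm2 w h).2.1 hwL⟩
      · rw [Finset.disjoint_left]
        intro s hs hs'
        rcases Finset.mem_insert.1 hs with rfl | hs
        · rcases Finset.mem_insert.1 hs' with rfl | hs'
          · exact hyt.1 rfl
          · exact (hm2 s hs').2.1 hyL
        · rcases Finset.mem_insert.1 hs' with rfl | hs'
          · exact htN1 hs
          · exact (hm2 s hs').2.2.2.1 (hm1 s hs).2.2.2
      · intro m hm
        refine ⟨w, by simp, ?_⟩
        rcases Finset.mem_insert.1 hm with rfl | hm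
        · exact hwy.symm D
        · exact (hm1 m hm).2.2.2
      · intro m hm
        rcases Finset.mem_insert.1 hm with rfl | hm
        · exact ⟨y, Finset.mem_insert_self _ _, hyt.symm D⟩
        · obtain ⟨m', hm', h⟩ := (hm2 m hm).2.2.2.2
          exact ⟨m', Finset.mem_insert_of_mem hm', h⟩
      · intro m hm v hv
        rw [Finset.mem_singleton] at hv
        subst hv
        rcases Finset.mem_insert.1 hm with rfl | hm
        · exact htw'
        · exact (hm2 m hm).2.2.2.1
    obtain ⟨-, -, -, -, -, -, h7, -⟩ := D.stmtGEN _ _ _ _ hgen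
    rw [Finset.card_insert_of_notMem hyN1, Finset.card_insert_of_notMem htN2, hN1, hN2] at h7
    omega

/-- paths of order three with a heavy first edge -/
theorem small_path {T : Finset D.ι} (hT : T ∈ Tsets D.g n) {a b c : D.ι}
    (hL : D.LM T = {a, b, c}) (hab : a ≠ b) (hac : a ≠ c) (hbc : b ≠ c)
    (h4 : D.cls (D.LM T) ≠ 4) (Aab : D.Adj a b) (Abc : D.Adj b c) (hh : D.Heavy a b) :
    D.TB T := by
  classical
  have hf := inj3 hab hac hbc
  have e2 : D.LM T = {c, b, a} := by
    rw [hL]; ext s; simp only [Finset.mem_insert, Finset.mem_singleton]; tauto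
  have e3 : D.LM T = {a, c, b} := by
    rw [hL]; ext s; simp only [Finset.mem_insert, Finset.mem_singleton]; tauto
  have b02 : a ∈ Rset D.g T → c ∈ Rset D.g T → D.G T {a, c} ≤ 4 := fun h1 h2 =>
    D.small_A hT e3 hac h4 (Aab.symm D) Abc h1 h2
  have b12 : b ∈ Rset D.g T → c ∈ Rset D.g T → D.G T {b, c} ≤ 3 := fun h1 h2 => by
    rw [D.G_comm_h]
    exact (D.small_B hT e2 hac.symm h4 hbc.symm Aab h2 h1).2.1 hh
  have b01 : a ∈ Rset D.g T → b ∈ Rset D.g T → D.G T {a, b} ≤ 6 ∧
      (5 < D.G T {a, b} → 9 ≤ D.t8 (T.erase a) b) := fun h1 h2 => by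
    have := D.small_B hT hL hac h4 hab (Abc.symm D) h1 h2
    exact ⟨this.1, this.2.2⟩
  have hLi : ∀ x ∈ D.LM T, ∃ i, (![a, b, c] : Fin 3 → D.ι) i = x := by
    intro x hx
    rw [hL] at hx
    simp only [Finset.mem_insert, Finset.mem_singleton] at hx
    rcases hx with rfl | rfl | rfl
    · exact ⟨0, rfl⟩
    · exact ⟨1, rfl⟩
    · exact ⟨2, rfl⟩
  have hA : ∀ i j, (![![false, true, false], ![false, false, true], ![false, false, false]] :
      Fin 3 → Fin 3 → Bool) i j = true → D.Adj (![a, b, c] i) (![a, b, c] j) := by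
    intro i j hij
    fin_cases i <;> fin_cases j <;>
      first
      | exact absurd hij (by decide)
      | exact Aab
      | exact Abc
  by_cases hbig : (a ∈ Rset D.g T ∧ b ∈ Rset D.g T) ∧ 5 < D.G T {a, b}
  · obtain ⟨⟨ha, hb⟩, h5⟩ := hbig
    have c01 := (b01 ha hb).1
    have t01 := (b01 ha hb).2 h5
    refine D.tb_of hT ![a, b, c] hf hLi _ ![![0, 6, 4], ![0, 0, 3], ![0, 0, 0]]
      ![![5, 9, 5], ![5, 5, 5], ![5, 5, 5]] hA ?_ ?_ (fun _ => True) (fun _ _ => trivial) ?_
    · intro i j hij h1 h2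
      fin_cases i <;> fin_cases j <;>
        first
        | exact absurd hij (by decide)
        | exact c01
        | exact b02 h1 h2
        | exact b12 h1 h2
    · intro i j hij h1 h2
      fin_cases i <;> fin_cases j <;>
        first
        | exact absurd rfl hij
        | exact t8_ge5 _ _
        | exact t01
    · intro I _
      revert I
      decide
  · have c01 : a ∈ Rset D.g T → b ∈ Rset D.g T → D.G T {a, b} ≤ 5 := by
      intro h1 h2
      by_contra hlt
      exact hbig ⟨⟨h1, h2⟩, by omega⟩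
    refine D.tb_of hT ![a, b, c] hf hLi _ ![![0, 5, 4], ![0, 0, 3], ![0, 0, 0]]
      (fun _ _ => 5) hA ?_ (fun _ _ _ _ _ => t8_ge5 _ _) (fun _ => True) (fun _ _ => trivial) ?_
    · intro i j hij h1 h2
      fin_cases i <;> fin_cases j <;>
        first
        | exact absurd hij (by decide)
        | exact c01 h1 h2
        | exact b02 h1 h2
        | exact b12 h1 h2
    · intro I _
      revert I
      decide

theorem stmtTSMALL : D.StmtTSMALL := by
  classical
  intro T hT hc
  obtain ⟨hn, hLan, hLT, hRL, hRP, -, -⟩ := D.stmtCTX T hT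
  have h4 : D.cls (D.LM T) ≠ 4 := by rw [D.cls_zero hc]; norm_num
  have hR2 := (mem_Tsets.1 hT).2
  have hL2 := hR2.trans (Finset.card_le_card hRL)
  rcases (show (D.LM T).card = 2 ∨ (D.LM T).card = 3 by omega) with h2 | h3
  · -- order two
    obtain ⟨a, b, hab, hLe⟩ := Finset.card_eq_two.1 h2
    have hf : Function.Injective ![a, b] := by
      intro i j h
      fin_cases i <;> fin_cases j <;> simp_all
    have main : a ∈ Rset D.g T → b ∈ Rset D.g T → D.G T {a, b} ≤ 0 := by
      intro haR hbR
      have h1 := D.G_le_cov_h D.stmtCTX D.stmtGDEC hT haR hbR hab h4 (by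
        intro s hs h h'
        rw [hLe] at hs
        simp only [Finset.mem_insert, Finset.mem_singleton] at hs
        tauto)
      have hN1 : D.N1 T (D.LM T) {a, b} = ∅ := by
        rw [Finset.eq_empty_iff_forall_notMem]
        intro m hm
        obtain ⟨hmT, hmL, hna, s, hs, hms⟩ := D.mem_N1_h.1 hm
        rw [hLe] at hs
        exact hna s hs hms
      have hN2 : D.N2 T (D.LM T) {a, b} = ∅ := by
        rw [Finset.eq_empty_iff_forall_notMem]
        intro m hm
        obtain ⟨-, -, -, -, m', hm', -⟩ := D.mem_N2_h.1 hm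
        rw [hN1] at hm'
        exact absurd hm' (Finset.notMem_empty _)
      rw [hN1, hN2] at h1
      simpa using h1
    refine D.tb_of hT ![a, b] hf ?_ (fun _ _ => false) (fun _ _ => 0) (fun _ _ => 5)
      (fun i j h => by simp at h) ?_ (fun _ _ _ _ _ => t8_ge5 _ _)
      (fun _ => True) (fun _ _ => trivial) ?_
    · intro x hx
      rw [hLe] at hx
      simp only [Finset.mem_insert, Finset.mem_singleton] at hx
      rcases hx with rfl | rfl
      · exact ⟨0, rfl⟩
      · exact ⟨1, rfl⟩
    · intro i j hij h1 h2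
      fin_cases i <;> fin_cases j <;>
        first
        | exact absurd hij (by decide)
        | exact main h1 h2
    · intro I _
      revert I
      decide
  · -- order three
    obtain ⟨a, b, c, hLe, hab, hac, hbc, Aab, Abc⟩ := Lan.path3 D hLan h3
    by_cases hadj : D.Adj a c
    · have hf := inj3 hab hac hbc
      have e2 : D.LM T = {b, c, a} := by
        rw [hLe]; ext s; simp only [Finset.mem_insert, Finset.mem_singleton]; tauto
      have e3 : D.LM T = {a, c, b} := by
        rw [hLe]; ext s; simp only [Finset.mem_insert, Finset.mem_singleton]; tauto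
      have b01 := D.small_A hT hLe hab h4 (hadj.symm D) (Abc.symm D)
      have b02 := D.small_A hT e3 hac h4 (Aab.symm D) Abc
      have b12 := D.small_A hT e2 hbc h4 Aab hadj
      refine D.tb_of hT ![a, b, c] hf ?_
        ![![false, true, false], ![false, false, true], ![false, false, false]]
        ![![0, 4, 4], ![0, 0, 4], ![0, 0, 0]] (fun _ _ => 5) ?_ ?_ (fun _ _ _ _ _ => t8_ge5 _ _)
        (fun _ => True) (fun _ _ => trivial) ?_
      · intro x hx
        rw [hLe] at hx
        simp only [Finset.mem_insert, Finset.mem_singleton] at hx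
        rcases hx with rfl | rfl | rfl
        · exact ⟨0, rfl⟩
        · exact ⟨1, rfl⟩
        · exact ⟨2, rfl⟩
      · intro i j hij
        fin_cases i <;> fin_cases j <;>
          first
          | exact absurd hij (by decide)
          | exact Aab
          | exact Abc
      · intro i j hij h1 h2
        fin_cases i <;> fin_cases j <;>
          first
          | exact absurd hij (by decide)
          | exact b01 h1 h2
          | exact b02 h1 h2
          | exact b12 h1 h2
      · intro I _
        revert I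
        decide
    · rcases D.heavy_of_path3 hLan hLe hab hac hbc hadj with hh | hh
      · exact D.small_path hT hLe hab hac hbc h4 Aab Abc hh
      · have e2 : D.LM T = {c, b, a} := by
          rw [hLe]; ext s; simp only [Finset.mem_insert, Finset.mem_singleton]; tauto
        exact D.small_path hT e2 hbc.symm hac.symm hab.symm h4 (Abc.symm D) (Aab.symm D)
          ⟨hh.1.symm D, by rw [D.symm]; exact hh.2⟩

end CoxData

end MP345
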