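import Mathlib
import Pool.Agent.Work.MP_345ef2_gt_24.T_TB
import Pool.Agent.Work.MP_345ef2_gt_24.T_GDEC

/-!
# Block TSTAR (MP_345ef2_gt, T level, n <= 24)
-/

namespace MP345

open Finset

variable {n : ℕ}

namespace CoxData

variable (D : CoxData n)

/-- the pair of the center and the leaf at the edge of label 5 -/
theorem star_zu {T : Finset D.ι} (hT : T ∈ Tsets D.g n) {z u p q : D.ι}
    (h : D.Star4 z u p q (D.LM T)) (hz : z ∈ Rset D.g T) (hu : u ∈ Rset D.g T) :
    D.G T {z, u} ≤ 5 := by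
  classical
  have e := h.eq
  have hcard : (D.LM T).card ≤ 4 := by rw [e]; exact Finset.card_le_four
  have h4 := D.cls_ne_four_h hcard
  have hLT := (D.stmtCTX T hT).2.2.1
  have hRP := (D.stmtCTX T hT).2.2.2.2.1
  have ht : D.TC {q, p, z} := TC_insert (TC_pair h.Apz) (by simp [h.pq.symm, h.zq.symm])
    (u := z) (by simp) h.Aqz
  have hV : ({q, p, z} : Finset D.ι) ⊆ (D.LM T).erase u := by
    intro s hs
    simp only [Finset.mem_insert, Finset.mem_singleton] at hs
    rw [Finset.mem_erase, e]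
    simp only [Finset.mem_insert, Finset.mem_singleton]
    rcases hs with rfl | rfl | rfl
    · exact ⟨h.uq.symm, by simp⟩
    · exact ⟨h.up.symm, by simp⟩
    · exact ⟨h.zu, by simp⟩
  have hcov : ∀ s ∈ D.LM T, s ≠ z → s ≠ u → s ∈ ({q, p, z} : Finset D.ι) := by
    intro s hs h1 h2
    rw [e] at hs
    simp only [Finset.mem_insert, Finset.mem_singleton] at hs ⊢
    tauto
  have hg := TP.gen_full D.stmtCGEN hT hz hu h.zu hV ht hcov
  obtain ⟨-, -, -, -, -, -, h5, -⟩ := D.stmtGEN _ _ _ _ hg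
  have hcl : D.cls (D.LM T) = 1 ∨ D.cls (D.LM T) = 2 := by
    have hc : (D.LM T).card = 4 := by
      rw [e]
      rw [Finset.card_insert_of_notMem, Finset.card_insert_of_notMem, Finset.card_insert_of_notMem,
        Finset.card_singleton]
      · simp [h.pq]
      · simp [h.up, h.uq]
      · simp [h.zu, h.zp, h.zq]
    unfold cls
    rw [if_neg (by omega), if_pos hc]
    split_ifs
    · exact Or.inr rfl
    · exact Or.inl rfl
  have h0 : ∑ w ∈ D.N0 T (D.LM T) {z, u}, q4 (D.cnt T w {z, u}) ≤ 0 := by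
    have h2 := D.N0_sum_le_h T hz hu ∅ (fun s hs h3 h4 h5 h6 => by
      rw [e] at hs
      simp only [Finset.mem_insert, Finset.mem_singleton] at hs
      rcases hs with rfl | rfl | rfl | rfl
      · exact absurd rfl h3
      · exact absurd rfl h4
      · exact absurd h.Apz h5
      · exact absurd h.Aqz h5)
    rwa [Finset.sum_empty] at h2
  have hCov : TP.Cov D T z u := by
    intro s hs h1 h2
    rw [e] at hs
    simp only [Finset.mem_insert, Finset.mem_singleton] at hs
    rcases hs with rfl | rfl | rfl | rfl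
    · exact absurd rfl h1
    · exact absurd rfl h2
    · exact Or.inl (Or.inl h.Apz)
    · exact Or.inl (Or.inl h.Aqz)
  have hG := TP.G_le_gen D.stmtGDEC hT hz hu h.zu (Or.inl h4) h0 (k1 := 1) (k2 := 1)
    (fun w hw => TP.q4_le1 (hCov.cnt hLT w hw))
    (fun w hw => TP.c2_weak hcl ⟨z, by simp, u, by simp, h.vzu⟩ (D.no_far2d hg hcov hw))
  omega

/-- the pair of the center and another leaf -/
theorem star_zx {T : Finset D.ι} (hT : T ∈ Tsets D.g n) {z u x w : D.ι}
    (hL : D.LM T = {z, u, x, w}) (hzu : D.g z u = -c5) (Azx : D.Adj z x) (Azw : D.Adj z w)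
    (ux : u ≠ x) (uw : u ≠ w) (xw : x ≠ w)
    (hz : z ∈ Rset D.g T) (hx : x ∈ Rset D.g T) : D.G T {z, x} ≤ 2 := by
  classical
  have hcard : (D.LM T).card ≤ 4 := by rw [hL]; exact Finset.card_le_four
  have h4 := D.cls_ne_four_h hcard
  have Azu := D.adj_of_five hzu
  have h1 := D.G_le_cov_h D.stmtCTX D.stmtGDEC hT hz hx Azx.1 h4 (by
    intro s hs h1 h2
    rw [hL] at hs
    simp only [Finset.mem_insert, Finset.mem_singleton] at hs
    rcases hs with rfl | rfl | rfl | rfl
    · exact absurd rfl h1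
    · exact Or.inl (Azu.symm D)
    · exact absurd rfl h2
    · exact Or.inl (Azw.symm D))
  have ht : D.TC {w, u, z} := TC_insert (TC_pair (Azu.symm D)) (by simp [uw.symm, Azw.1.symm])
    (u := z) (by simp) (Azw.symm D)
  have h2 := (D.gen_at_h D.stmtCGEN hT hz hx Azx.1 (V := {w, u, z}) (by
    intro s hs
    simp only [Finset.mem_insert, Finset.mem_singleton] at hs
    rw [Finset.mem_erase, hL]
    simp only [Finset.mem_insert, Finset.mem_singleton]
    rcases hs with rfl | rfl | rfl
    · exact ⟨xw.symm, by simp⟩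
    · exact ⟨ux, by simp⟩
    · exact ⟨Azx.1, by simp⟩) ht (by
    intro s hs h1 h2
    rw [hL] at hs
    simp only [Finset.mem_insert, Finset.mem_singleton] at hs ⊢
    tauto)).2.2.2.2.2 ⟨z, by simp, u, by simp, hzu⟩
  have h6 : ({w, u, z} : Finset D.ι).card = 3 := by
    rw [Finset.card_insert_of_notMem (by simp [uw.symm, Azw.1.symm]), Finset.card_pair Azu.1.symm]
  omega

/-- a pair of leaves -/
theorem star_xy {T : Finset D.ι} (hT : T ∈ Tsets D.g n) {z x y w : D.ι}
    (hL : D.LM T = {z, x, y, w}) (zx : D.Adj z x)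
    (zy : D.Adj z y) (zw : D.Adj z w) (xy : x ≠ y) (xw : x ≠ w) (yw : y ≠ w)
    (hx : x ∈ Rset D.g T) (hy : y ∈ Rset D.g T) (hfive : D.g z x = -c5 ∨ D.g z w = -c5) :
    D.G T {x, y} ≤ 4 := by
  classical
  have hcard : (D.LM T).card ≤ 4 := by rw [hL]; exact Finset.card_le_four
  have hzT : z ∈ T := (D.stmtCTX T hT).2.2.1 (by rw [hL]; simp)
  have h2 := D.N0_sum_le_h T hx hy {w} (fun s hs h3 h4 h5 h6 => by
    rw [hL] at hs
    simp only [Finset.mem_insert, Finset.mem_singleton] at hs ⊢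
    rcases hs with rfl | rfl | rfl | rfl
    · exact absurd zx h5
    · exact absurd rfl h3
    · exact absurd rfl h4
    · rfl)
  rw [Finset.sum_singleton] at h2
  have h3 : 2 ≤ D.cnt T w {x, y} := cnt_two (p := x) (p' := y) (by simp) (by simp) xy hzT
    (by simp [zx.1, zy.1]) zw zx hzT (by simp [zx.1, zy.1]) zw zy
  rw [TP.q4_zero h3] at h2
  have h4 := TP.G_le_four D.stmtGDEC hT hx hy xy (Or.inl (D.cls_ne_four_h hcard)) h2
  have ht : D.TC {w, x, z} := TC_insert (TC_pair (zx.symm D)) (by simp [xw.symm, zw.1.symm])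
    (u := z) (by simp) (zw.symm D)
  have h5' := (D.gen_at_h D.stmtCGEN hT hx hy xy (V := {w, x, z}) (by
    intro s hs
    simp only [Finset.mem_insert, Finset.mem_singleton] at hs
    rw [Finset.mem_erase, hL]
    simp only [Finset.mem_insert, Finset.mem_singleton]
    rcases hs with rfl | rfl | rfl
    · exact ⟨yw.symm, by simp⟩
    · exact ⟨xy, by simp⟩
    · exact ⟨zy.1, by simp⟩) ht (by
    intro s hs h1 h2
    rw [hL] at hs
    simp only [Finset.mem_insert, Finset.mem_singleton] at hs ⊢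
    tauto)).2.2.2.2.2 (by
      rcases hfive with h | h
      · exact ⟨z, by simp, x, by simp, h⟩
      · exact ⟨z, by simp, w, by simp, h⟩)
  have h6 : ({w, x, z} : Finset D.ι).card = 3 := by
    rw [Finset.card_insert_of_notMem (by simp [xw.symm, zw.1.symm]), Finset.card_pair zx.1.symm]
  omega

theorem stmtTSTAR : D.StmtTSTAR := by
  classical
  intro T hT z u p q h
  have e := h.eq
  have perm : ∀ x y w : D.ι, ({z, x, y, w} : Finset D.ι) = {z, x, w, y} := by
    intro x y w; ext v; simp only [Finset.mem_insert, Finset.mem_singleton]; tauto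
  have perm2 : ∀ x y w : D.ι, ({z, x, y, w} : Finset D.ι) = {z, y, w, x} := by
    intro x y w; ext v; simp only [Finset.mem_insert, Finset.mem_singleton]; tauto
  have hLT := (D.stmtCTX T hT).2.2.1
  have hRP := (D.stmtCTX T hT).2.2.2.2.1
  have hzT := hLT h.mz
  have huT := hLT h.mu
  have hpT := hLT h.mp
  have hqT := hLT h.mq
  have hinj := inj4_h h.zu h.zp h.zq h.up h.uq h.pq
  have hlab : D.g u z = -c5 := by rw [D.symm]; exact h.vzu
  have b01 := D.star_zu hT h
  have b02 := D.star_zx hT e h.vzu h.Azp h.Azq h.up h.uq h.pq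
  have b03 := D.star_zx hT (x := q) (w := p) (e.trans (perm _ _ _)) h.vzu h.Azq h.Azp
    h.uq h.up h.pq.symm
  have b12 := fun h1 h2 => D.star_xy hT (x := u) (y := p) (w := q) (by rw [e]) h.Azu h.Azp h.Azq
    h.up h.uq h.pq h1 h2 (Or.inl h.vzu)
  have b13 := fun h1 h2 => D.star_xy hT (x := u) (y := q) (w := p) (e.trans (perm _ _ _))
    h.Azu h.Azq h.Azp h.uq h.up h.pq.symm h1 h2 (Or.inl h.vzu)
  have b23 := fun h1 h2 => D.star_xy hT (x := p) (y := q) (w := u) (e.trans (perm2 _ _ _))
    h.Azp h.Azq h.Azu h.pq h.up.symm h.uq.symm h1 h2 (Or.inr h.vzu)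
  have t21 : p ∈ Rset D.g T → 21 ≤ D.t8 (T.erase p) u := fun h1 =>
    D.t8_21 (hRP p h1) (a := z) (b := u) (m := q)
      (Finset.mem_erase.2 ⟨h.zp, hzT⟩) (Finset.mem_erase.2 ⟨h.up, huT⟩)
      (Finset.mem_erase.2 ⟨h.pq.symm, hqT⟩) hlab h.Azq h.uq.symm
  have t31 : q ∈ Rset D.g T → 21 ≤ D.t8 (T.erase q) u := fun h1 =>
    D.t8_21 (hRP q h1) (a := z) (b := u) (m := p)
      (Finset.mem_erase.2 ⟨h.zq, hzT⟩) (Finset.mem_erase.2 ⟨h.uq, huT⟩)
      (Finset.mem_erase.2 ⟨h.pq, hpT⟩) hlab h.Azp h.up.symm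
  refine D.tb_of hT ![z, u, p, q] hinj ?_
    ![![false, true, true, true], ![true, false, false, false], ![true, false, false, false],
      ![true, false, false, false]]
    ![![0, 5, 2, 2], ![0, 0, 4, 4], ![0, 0, 0, 4], ![0, 0, 0, 0]]
    ![![5, 5, 5, 5], ![5, 5, 5, 5], ![5, 21, 5, 5], ![5, 21, 5, 5]] ?_ ?_ ?_
    (fun _ => True) (fun _ _ => trivial) ?_
  · intro x hx
    rw [e] at hx
    simp only [Finset.mem_insert, Finset.mem_singleton] at hx
    rcases hx with rfl | rfl | rfl | rfl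
    · exact ⟨0, rfl⟩
    · exact ⟨1, rfl⟩
    · exact ⟨2, rfl⟩
    · exact ⟨3, rfl⟩
  · intro i j hij
    fin_cases i <;> fin_cases j <;>
      first
      | exact absurd hij (by decide)
      | exact h.Azu
      | exact h.Azp
      | exact h.Azq
      | exact h.Auz
      | exact h.Apz
      | exact h.Aqz
  · intro i j hij h1 h2
    fin_cases i <;> fin_cases j <;>
      first
      | exact absurd hij (by decide)
      | exact b01 h1 h2
      | exact b02 h1 h2
      | exact b03 h1 h2
      | exact b12 h1 h2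
      | exact b13 h1 h2
      | exact b23 h1 h2
  · intro i j hij h1 h2
    fin_cases i <;> fin_cases j <;>
      first
      | exact absurd rfl hij
      | exact t8_ge5 _ _
      | exact t21 h1
      | exact t31 h1
  · intro I _
    revert I
    decide

end CoxData

end MP345
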