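import Mathlib
import Pool.Agent.Work.MP_345ef2_gt_24.Account
import Pool.Agent.Work.MP_345ef2_gt_24.D_WTOUCH
import Pool.Agent.Work.MP_345ef2_gt_24.T_TSMALL
import Pool.Agent.Work.MP_345ef2_gt_24.T_TCYC4
import Pool.Agent.Work.MP_345ef2_gt_24.T_TSTAR
import Pool.Agent.Work.MP_345ef2_gt_24.T_T353
import Pool.Agent.Work.MP_345ef2_gt_24.T_T53X
import Pool.Agent.Work.MP_345ef2_gt_24.T_TFORK
import Pool.Agent.Work.MP_345ef2_gt_24.T_TCYC5
import Pool.Agent.Work.MP_345ef2_gt_24.T_T533X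
import Pool.Agent.Work.MP_345ef2_gt_24.T_T5333
import Pool.Agent.Work.MP_345ef2_gt_24.Cls

/-!
# `n ≤ 24`: assembly (MP_345ef2_gt)
-/

namespace MP345

open Finset

variable {n : ℕ}

namespace CoxData

variable (D : CoxData n)

/-- **The D level.** -/
theorem stmtD_24 : D.StmtD := D.stmtD_cls D.stmtCLS

/-- **The T level.** -/
theorem stmtT_24 : D.StmtT :=
  D.stmtT_of D.stmtCLS D.stmtCTX D.stmtRED D.stmtTSMALL D.stmtTCYC4 D.stmtTSTAR
    (D.stmtT353 D.stmtCLS) D.stmtT53X (stmtTFORK D D.stmtCLS) (stmtT533X D D.stmtCLS)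
    (stmtT5333 D D.stmtCLS) (stmtTCYC5 D D.stmtCLS)

end CoxData

/-- **A compact Coxeter polytope in hyperbolic space has dimension at most 24.** -/
theorem dim_le_24 (P : CoxeterPolytope n) : n ≤ 24 :=
  dim_le24_of (fun D => D.stmtD_24) (fun D => D.stmtT_24) P

end MP345
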